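import Pool.Agent.Lib_helper45.BDP.W3

namespace Pool.Agent.Lib_helper45.BDP.AsmA

open Polynomial Pool.Agent.Lib_helper45.BDP

noncomputable section

variable {k : Type*} [Field k] [IsAlgClosed k] [CharZero k]

theorem LAM {F : k[X]} {T : L k} (hF : Frob F T) (h : Dep T (del T)) : Special F := by
  obtain ⟨j, A, hj, hA, hE⟩ := LAM1 hF h
  rcases LAM2 hF.deg hj hA hE with ⟨x, c, hxc⟩ | ⟨v, w, hvw, hE2⟩
  · exact Or.inl (POWC hF.deg hxc)
  · rcases CHEB hF.deg hvw hE2 with h | h
    · exact Or.inr (Or.inl h)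
    · exact Or.inr (Or.inr h)

theorem GRL {f : k[X]} {T : L k} (hf : Good f) (hT : Bott f T) {c : kˣ} {m r : ℕ} (hm : 1 ≤ m)
    (hr : 1 ≤ r) (hc : c ^ (f.natDegree ^ r) = c) (h : Dep T (th c m T)) :
    ∃ g : k[X], g.natDegree = m ∧ th c m T = aeval T g := by
  have hF := FITR hT.toFrob hr
  have hdeg : (itr f r).natDegree = f.natDegree ^ r := natDegree_itr f r
  have hpos : 0 < f.natDegree ^ r := pow_pos (by have := hf.deg; omega) _
  have heq : aeval (th c m T) (itr f r) = th 1 (itr f r).natDegree (th c m T) := by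
    rw [Polynomial.aeval_algHom_apply, hF.eq, hdeg, th_th _ _ (by omega) hpos,
      th_th _ _ hpos (by omega), one_mul, one_pow, mul_one, hc, mul_comm]
  have hS : th 1 (itr f r).natDegree (th c m T) ∈ IntermediateField.adjoin k {T, th c m T} := by
    rw [← heq]
    have h1 : th c m T ∈ IntermediateField.adjoin k {T, th c m T} :=
      IntermediateField.subset_adjoin _ _ (by simp)
    have h2 := (Algebra.adjoin_le (S := (IntermediateField.adjoin k {T, th c m T}).toSubalgebra)
      (s := {th c m T}) (by simpa using h1))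
    exact h2 (aeval_mem_adjoin_singleton k (th c m T))
  rcases FROB hF h hS with h1 | h1
  · obtain ⟨g, hg⟩ := GRAT hF (NPG hf hT) h1 heq
    exact ⟨g, DEGG hT.pole hm hg, hg⟩
  · exact absurd (AsmA.LAM hT.toFrob h1) hf.dis

/-- a contradiction from rotation invariance -/
theorem rotTop {F : k[X]} {T : L k} (hF : Frob F T) (hT : NP T) (hdel : ¬ Dep T (del T)) {l : ℕ}
    (hl : l.Prime) (hlF : ¬ l ∣ F.natDegree)
    (h : ∀ (e : ℕ) (ζ : kˣ), ζ ^ (l ^ e) = 1 → Dep T (th ζ 1 T)) : False := by
  refine TPOW hl (fun e ζ hζ => ?_) hT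
  refine ROT hF hT hdel (n := l ^ e) (Nat.one_le_pow _ _ hl.pos) ?_ hζ (h e ζ hζ)
  exact Nat.Coprime.pow_left _ ((Nat.Prime.coprime_iff_not_dvd hl).2 hlF)

theorem NOPQ {f : k[X]} {T : L k} (hf : Good f) (hT : Bott f T) {c : kˣ} {p q N : ℕ} (hp : 2 ≤ p)
    (hq : 2 ≤ q) (hpq : Nat.Coprime p q) (hN : 1 ≤ N) (hc : c ^ N = 1)
    (h : Dep (th 1 q T) (th c p T)) : False := by
  have hdel : ¬ Dep T (del T) := fun h1 => hf.dis (AsmA.LAM hT.toFrob h1)
  have hNP : NP T := NPG hf hT
  by_cases hall : ∀ l : ℕ, l.Prime → l ∣ q → l ∣ f.natDegree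
  · -- case A
    obtain ⟨l, a, b, m, hl, hld, hb, hm, hlm, hE⟩ := NTH hf.deg hp hq hpq hall
    obtain ⟨c₁, N₁, hN₁, hc₁, hD₁⟩ := DPOW hT.pole (by omega) (by omega) hN hc h b
    -- apply the iterate `f^a` to the second series
    have hda : 0 < f.natDegree ^ a := pow_pos (by have := hf.deg; omega) _
    have hqb : 0 < q ^ b := pow_pos (by omega) _
    have hpb : 0 < p ^ b := pow_pos (by omega) _
    have hD₂ : Dep (th 1 (q ^ b) T) (th (c₁ ^ (f.natDegree ^ a)) (q ^ b * m) T) := by
      refine DTRA hD₁ ?_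
      have h1 : th (c₁ ^ (f.natDegree ^ a)) (q ^ b * m) T = aeval (th c₁ (p ^ b) T) (itr f a) := by
        rw [Polynomial.aeval_algHom_apply]
        rcases Nat.eq_zero_or_pos a with ha | ha
        · subst ha
          rw [itr_zero, aeval_X, pow_zero, pow_one, ← hE, pow_zero, one_mul]
        · rw [(FITR hT.toFrob ha).eq, natDegree_itr, th_th _ _ hpb hda, one_mul, ← hE, mul_comm]
      rw [h1]
      -- `aeval u g` is algebraic over `k(u)`
      have h2 : aeval (th c₁ (p ^ b) T) (itr f a) ∈ IntermediateField.adjoin k {th c₁ (p ^ b) T} := by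
        have h3 : th c₁ (p ^ b) T ∈ IntermediateField.adjoin k {th c₁ (p ^ b) T} :=
          IntermediateField.mem_adjoin_simple_self _ _
        exact (Algebra.adjoin_le (S := (IntermediateField.adjoin k {th c₁ (p ^ b) T}).toSubalgebra)
          (s := {th c₁ (p ^ b) T}) (by simpa using h3)) (aeval_mem_adjoin_singleton k _)
      exact isAlgebraic_algebraMap (⟨_, h2⟩ : IntermediateField.adjoin k {th c₁ (p ^ b) T})
    have hD₃ : Dep T (th (c₁ ^ (f.natDegree ^ a)) m T) := by
      refine DINV (th 1 (q ^ b)) ?_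
      rw [th_th _ _ hqb (by omega), one_pow, mul_one]
      exact hD₂
    obtain ⟨ξ, c', e, r, hξ, hr, hc', hsplit⟩ := SPLT hf.deg (c := c₁ ^ (f.natDegree ^ a)) hN₁
      (by rw [← pow_mul, mul_comm, pow_mul, hc₁, one_pow])
    have hD₄ : Dep T (th c' m T) := by
      refine DTRA hD₃ ?_
      rw [hsplit]
      have h1 := DXI hT.toFrob (c := ξ * c') (ξ := ξ⁻¹) (m := m) (e := e) (by omega)
        (by rw [inv_pow, hξ, inv_one])
      rwa [inv_mul_cancel_left] at h1
    obtain ⟨g, hgdeg, hg⟩ := AsmA.GRL hf hT (by omega) hr hc' hD₄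
    -- a root `lam` of `lam^(m-1) = c'^{-1}`
    obtain ⟨lam, hlam⟩ : ∃ lam : kˣ, c' * lam ^ m = lam := by
      obtain ⟨z, hz⟩ := IsAlgClosed.exists_pow_nat_eq ((c'⁻¹ : kˣ) : k) (n := m - 1) (by omega)
      have hz0 : z ≠ 0 := by
        rintro rfl
        rw [zero_pow (by omega)] at hz
        exact (Units.ne_zero _) hz.symm
      refine ⟨Units.mk0 z hz0, ?_⟩
      ext
      simp only [Units.val_mul, Units.val_pow_eq_pow_val, Units.val_mk0]
      obtain ⟨m', rfl⟩ : ∃ m', m = m' + 1 := ⟨m - 1, by omega⟩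
      rw [Nat.add_sub_cancel] at hz
      rw [pow_succ, hz, ← mul_assoc, Units.mul_inv, one_mul]
    have hFr : Frob g (th lam 1 T) := by
      refine ⟨by omega, ⟨?_, ?_⟩, ?_⟩
      · rw [th_one_coeff]
        exact mul_ne_zero (Units.ne_zero _) hT.pole.1
      · intro j hj
        rw [th_one_coeff, hT.pole.2 j hj, mul_zero]
      · rw [Polynomial.aeval_algHom_apply, ← hg, hgdeg, th_th _ _ Nat.one_pos (by omega),
          th_th _ _ (by omega) Nat.one_pos, hlam]
        simp
    have hNP' : NP (th lam 1 T) := by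
      obtain ⟨j, hj, hTj⟩ := hNP
      exact ⟨j, hj, by rw [th_one_coeff]; exact mul_ne_zero (Units.ne_zero _) hTj⟩
    have hdel' : ¬ Dep (th lam 1 T) (del (th lam 1 T)) := by
      intro h1
      apply hdel
      refine DINV (th lam 1) ?_
      rw [del_th lam Nat.one_pos] at h1
      simpa using h1
    refine rotTop hFr hNP' hdel' hl (by rw [hgdeg]; exact hlm) ?_
    intro e' ζ hζ
    have h1 := DXI hT.toFrob (c := 1) (ξ := ζ) (m := 1) (e := e') le_rfl (by
      obtain ⟨t, ht⟩ := pow_dvd_pow_of_dvd hld e'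
      rw [ht, pow_mul, hζ, one_pow])
    rw [mul_one, th_one_one] at h1
    have h2 := DMAP (th lam 1) h1
    rw [th_th _ _ Nat.one_pos Nat.one_pos, pow_one] at h2
    rw [th_th _ _ Nat.one_pos Nat.one_pos, pow_one, mul_comm lam ζ]
    exact h2
  · -- case B
    push Not at hall
    obtain ⟨l, hl, hlq, hld⟩ := hall
    refine rotTop hT.toFrob hNP hdel hl hld ?_
    intro e ζ hζ
    obtain ⟨c₁, N₁, hN₁, hc₁, hD₁⟩ := DPOW hT.pole (by omega) (by omega) hN hc h e
    refine DROT hT.pole (Nat.one_le_pow _ _ (by omega)) (Nat.one_le_pow _ _ (by omega))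
      (Nat.Coprime.pow _ _ hpq) ?_ hD₁
    obtain ⟨t, ht⟩ := pow_dvd_pow_of_dvd hlq e
    rw [ht, pow_mul, hζ, one_pow]

/-! ### plane curves -/

theorem dvd_cmp2_itr {F : k[X]} {G : k[X][X]} (h : G ∣ cmp2 F G) (R : ℕ) :
    G ∣ cmp2 (itr F R) G := by
  have key : ∀ (A B : k[X]) (H : k[X][X]), cmp2 A (cmp2 B H) = cmp2 (B.comp A) H := by
    intro A B H
    rw [cmp2, cmp2, cmp2, Polynomial.map_comp, Polynomial.map_map, Polynomial.map_map, comp_assoc]
    congr 1
    · congr 1
      ext a <;> simp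
    · rw [Polynomial.map_comp]
      congr 1
      rw [show ((compRingHom A).comp (C : k →+* k[X])) = C by ext a; simp]
  induction R with
  | zero =>
    have : cmp2 (itr F 0) G = G := by
      rw [cmp2, itr_zero, map_X, comp_X]
      have h2 : compRingHom (X : k[X]) = RingHom.id _ := by ext a <;> simp
      rw [h2, Polynomial.map_id]
    rw [this]
  | succ R ih =>
    rw [itr_succ, ← key]
    exact ih.trans (cmp2_dvd _ h)

/-- the conclusion for a graph `y = g(x)` -/
theorem graph_of_ev2 {G : k[X][X]} (hG : Irreducible G) {T : L k} (hT : Transcendental k T)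
    {g : k[X]} (h : ev2 T (aeval T g) G = 0) : Associated G (X - C g) := by
  have h1 : (X - C g) ∣ G := by
    rw [dvd_iff_isRoot, IsRoot.def]
    have h2 : aeval T (G.eval g) = ev2 T (aeval T g) G := by
      rw [ev2, eval_eq_sum_range, eval₂_eq_sum_range, map_sum]
      refine Finset.sum_congr rfl fun i _ => ?_
      rw [map_mul, map_pow]
      rfl
    rw [h] at h2
    exact (transcendental_iff.1 hT) _ h2
  exact ((prime_X_sub_C g).irreducible.associated_of_dvd hG h1).symm

theorem ev2_map (φ : L k →ₐ[k] L k) (u v : L k) (G : k[X][X]) :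
    ev2 (φ u) (φ v) G = φ (ev2 u v G) := by
  rw [ev2, ev2, eval₂_eq_sum_range, eval₂_eq_sum_range, map_sum]
  refine Finset.sum_congr rfl fun i _ => ?_
  rw [map_mul, map_pow]
  congr 1
  exact Polynomial.aeval_algHom_apply φ u (G.coeff i)

theorem dep_of_ev2 {G : k[X][X]} (hG : G ≠ 0) {u v : L k} (hu : Transcendental k u)
    (h : ev2 u v G = 0) : Dep u v := by
  set φ : k[X] →ₐ[k] IntermediateField.adjoin k {u} :=
    aeval (⟨u, IntermediateField.mem_adjoin_simple_self k u⟩ : IntermediateField.adjoin k {u}) with hφ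
  have hφ2 : ∀ P : k[X], ((φ P : IntermediateField.adjoin k {u}) : L k) = aeval u P := by
    intro P
    have := Polynomial.aeval_algHom_apply (IntermediateField.adjoin k {u}).val
      (⟨u, IntermediateField.mem_adjoin_simple_self k u⟩ : IntermediateField.adjoin k {u}) P
    exact this.symm
  have hinj : Function.Injective φ := by
    rw [injective_iff_map_eq_zero]
    intro P hP
    exact (transcendental_iff.1 hu) P (by rw [← hφ2, hP]; rfl)
  refine ⟨G.map φ.toRingHom, ?_, ?_⟩
  · rw [Polynomial.map_ne_zero_iff hinj]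
    exact hG
  · rw [← h, ev2, aeval_def, eval₂_map]
    congr 1
    ext a
    · simp [hφ2]
    · simp [hφ2]

theorem comm_of_dvd {F g : k[X]} {G : k[X][X]} (h : Associated G (X - C g)) (hdvd : G ∣ cmp2 F G) :
    g.comp F = F.comp g := by
  have h1 : (X - C g) ∣ cmp2 F (X - C g) := (h.symm.dvd.trans hdvd).trans (cmp2_dvd F h.dvd)
  rw [dvd_iff_isRoot, IsRoot.def] at h1
  have h2 : cmp2 F (X - C g) = F.map C - C (g.comp F) := by
    simp [cmp2]
  rw [h2, eval_sub, eval_C, eval_map] at h1
  rw [← sub_eq_zero, ← neg_eq_zero, neg_sub]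
  exact h1

omit [IsAlgClosed k] [CharZero k] in
theorem swp (g : k[X]) (i j : ℕ) :
    ((X - C g : k[X][X]).coeff j).coeff i = ((C X - g.map C : k[X][X]).coeff i).coeff j := by
  rw [coeff_sub, coeff_sub, coeff_sub, coeff_sub, coeff_map]
  congr 1
  · rw [coeff_X, coeff_C]
    by_cases hi : i = 0
    · subst hi
      rw [if_pos rfl, coeff_X]
      split <;> simp
    · rw [if_neg hi]
      split
      · rw [coeff_one, if_neg hi, coeff_zero]
      · simp
  · rw [coeff_C, coeff_C]
    split <;> simp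

theorem CL2 {f : k[X]} (hf : Good f) {r : ℕ} (hr : 1 ≤ r) {G : k[X][X]} (hG : Irreducible G)
    (hdvd : G ∣ cmp2 (itr f r) G) (hy : 1 ≤ G.natDegree) (hx : ∃ j, 1 ≤ (G.coeff j).natDegree) :
    ∃ g : k[X], 1 ≤ g.natDegree ∧ g.comp (itr f r) = (itr f r).comp g ∧
      (Associated G (X - C g) ∨ Associated G (C X - g.map C)) := by
  obtain ⟨T, hT⟩ := BOT hf.monic hf.deg hf.cent
  have hFr : Frob (itr f r) T := FITR hT.toFrob hr
  have hNP := NPG hf hT
  have hFm : (itr f r).Monic := itr_monic hf.monic (by have := hf.deg; omega) r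
  have hlc := CORN hFm hFr.deg (by
    intro R x hR heq
    have h1 : Frob (itr (itr f r) R) T := FITR hFr hR
    refine NPC h1 hNP (POWC (x := x) (c := 1) h1.deg ?_)
    rw [natDegree_itr (itr f r) R, C_1, one_mul]
    exact heq) hG hdvd hy
  obtain ⟨q, p, hq, hp, hcop, hw, hw'⟩ := EDGE hy hlc hx
  obtain ⟨c, R, hR, hc, hev⟩ := BRAN hFm hFr hT.lead hG.ne_zero hdvd hq hp hlc hw hw'
  have hdep : Dep (th 1 q T) (th c p T) := dep_of_ev2 hG.ne_zero (TTH hT.pole 1 hq) hev
  have hdpos : 2 ≤ f.natDegree := hf.deg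
  have hc2 : c ^ (f.natDegree ^ (r * R)) = c := by
    rwa [natDegree_itr, ← pow_mul] at hc
  have hbig : 2 ≤ f.natDegree ^ (r * R) :=
    hdpos.trans (Nat.le_self_pow (Nat.mul_ne_zero (by omega) (by omega)) _)
  have hroot : c ^ (f.natDegree ^ (r * R) - 1) = 1 := by
    have h1 : c ^ (f.natDegree ^ (r * R) - 1) * c = c := by
      rw [← pow_succ, Nat.sub_add_cancel (by omega)]
      exact hc2
    exact mul_eq_right.1 h1
  have hrR : 1 ≤ r * R := Nat.mul_pos (by omega) (by omega)
  by_cases hq2 : 2 ≤ q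
  · by_cases hp2 : 2 ≤ p
    · exact (NOPQ hf hT hp2 hq2 hcop (by omega) hroot hdep).elim
    · -- p = 1
      have hp1 : p = 1 := by omega
      subst hp1
      have hcc : (c⁻¹ ^ q) ^ (f.natDegree ^ (r * R)) = c⁻¹ ^ q := by
        rw [← pow_mul, mul_comm, pow_mul, inv_pow, hc2]
      have e1 : th c⁻¹ 1 (th 1 q T) = th (c⁻¹ ^ q) q T := by
        rw [th_th _ _ Nat.one_pos (by omega), one_mul, one_mul]
      have e2 : th c⁻¹ 1 (th c 1 T) = T := by
        rw [th_th _ _ Nat.one_pos Nat.one_pos, pow_one, mul_inv_cancel, mul_one, th_one_one]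
      have h1 := DMAP (th c⁻¹ 1) hdep
      rw [e1, e2] at h1
      have hTt : Transcendental k T := by
        have := TTH hT.pole 1 (m := 1) le_rfl
        rwa [th_one_one] at this
      have h2 := DSYM (TTH hT.pole _ hq) hTt h1
      obtain ⟨g, hgdeg, hg⟩ := AsmA.GRL hf hT hq hrR hcc h2
      have h3 : ev2 (aeval T g) T G = 0 := by
        have := ev2_map (th c⁻¹ 1) (th 1 q T) (th c 1 T) G
        rw [hev, map_zero, e1, e2, hg] at this
        exact this
      obtain ⟨G', hG'c, hG'i, hG'd, hG'e⟩ := SWAP G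
      have h4 : Associated G' (X - C g) := graph_of_ev2 (hG'i hG) hTt (by rw [hG'e]; exact h3)
      refine ⟨g, by omega, comm_of_dvd h4 (hG'd _ hdvd), Or.inr ?_⟩
      obtain ⟨u, hu⟩ := h4.symm
      obtain ⟨w, hw1, hw2⟩ := Polynomial.isUnit_iff.1 u.isUnit
      obtain ⟨w', hw3, hw4⟩ := Polynomial.isUnit_iff.1 hw1
      have h5 : G = (C X - g.map C) * C (C w') := by
        ext i j
        rw [← hG'c j i, ← hu, ← hw2, ← hw4, coeff_mul_C, coeff_mul_C, coeff_mul_C, coeff_mul_C]
        rw [swp]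
      have hun : IsUnit (C (C w') : k[X][X]) := by
        rw [hw4, hw2]; exact u.isUnit
      rw [h5]
      exact associated_mul_unit_left _ _ hun
  · -- q = 1
    have hq1 : q = 1 := by omega
    subst hq1
    rw [th_one_one] at hdep hev
    obtain ⟨g, hgdeg, hg⟩ := AsmA.GRL hf hT hp hrR hc2 hdep
    have hTt : Transcendental k T := by
      have := TTH hT.pole 1 (m := 1) le_rfl
      rwa [th_one_one] at this
    rw [hg] at hev
    have h4 := graph_of_ev2 hG hTt hev
    exact ⟨g, by omega, comm_of_dvd h4 hdvd, Or.inl h4⟩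

/-! ### the classification -/

omit [IsAlgClosed k] [CharZero k] in
theorem natDegree_sl_le {σ : Type*} (i j : σ) (a : σ → k) (G : MvPolynomial σ k) :
    (sl i j a G).natDegree ≤ G.totalDegree := by
  classical
  rw [sl, MvPolynomial.aeval_def, MvPolynomial.eval₂_eq]
  refine natDegree_sum_le_of_forall_le _ _ fun m hm => ?_
  refine (natDegree_mul_le).trans ?_
  have h1 : ((algebraMap k k[X][X]) (MvPolynomial.coeff m G)).natDegree = 0 := by
    rw [show (algebraMap k k[X][X]) (MvPolynomial.coeff m G) = C (C (MvPolynomial.coeff m G)) from rfl,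
      natDegree_C]
  rw [h1, zero_add]
  refine (natDegree_prod_le _ _).trans ?_
  refine le_trans ?_ (MvPolynomial.le_totalDegree hm)
  refine Finset.sum_le_sum fun s _ => ?_
  refine natDegree_pow_le.trans ?_
  refine (Nat.mul_le_mul_left (m s) (?_ : _ ≤ 1)).trans (by rw [mul_one])
  split
  · rw [natDegree_C]; omega
  · split
    · exact natDegree_X_le
    · rw [natDegree_C]; omega

omit [IsAlgClosed k] [CharZero k] in
theorem swap_sl {σ : Type*} {i j : σ} (hij : i ≠ j) (a : σ → k) (G : MvPolynomial σ k) :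
    Bivariate.swap (sl i j a G) = sl j i a G := by
  have h : ((Bivariate.swap : k[X][X] ≃ₐ[k] k[X][X]) : k[X][X] →ₐ[k] k[X][X]).comp (sl i j a) =
      sl j i a := by
    apply MvPolynomial.algHom_ext
    intro s
    rw [AlgHom.comp_apply, sl, sl, MvPolynomial.aeval_X, MvPolynomial.aeval_X]
    by_cases h1 : s = i
    · subst h1
      rw [if_pos rfl, if_neg hij, if_pos rfl]
      exact Bivariate.swap_X
    · by_cases h2 : s = j
      · subst h2
        rw [if_neg h1, if_pos rfl, if_pos rfl]
        exact Bivariate.swap_Y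
      · rw [if_neg h1, if_neg h2, if_neg h2, if_neg h1]
        exact Bivariate.swap_C_C _
  rw [← h]; rfl

omit [IsAlgClosed k] [CharZero k] in
theorem natDegree_graph {g : k[X]} (hg : 1 ≤ g.natDegree) :
    (C X - g.map C : k[X][X]).natDegree = g.natDegree := by
  rw [natDegree_sub_eq_right_of_natDegree_lt]
  · exact natDegree_map_eq_of_injective C_injective g
  · rw [natDegree_C, natDegree_map_eq_of_injective C_injective g]; omega

omit [IsAlgClosed k] [CharZero k] in
theorem vars_graph {σ : Type*} {i j l : σ} (hli : l ≠ i) (hlj : l ≠ j) (g : k[X])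
    {G : MvPolynomial σ k} (hG : Irreducible G) (hl : l ∈ G.vars)
    (h : Associated G (MvPolynomial.X j - Polynomial.aeval (MvPolynomial.X i) g)) : False := by
  classical
  have h1 : (MvPolynomial.X j - Polynomial.aeval (MvPolynomial.X i) g : MvPolynomial σ k) ∈
      MvPolynomial.supported k ({i, j} : Set σ) := by
    refine sub_mem (MvPolynomial.X_mem_supported.2 (by simp)) ?_
    have h2 : ({(MvPolynomial.X i : MvPolynomial σ k)} : Set (MvPolynomial σ k)) ⊆
        MvPolynomial.supported k ({i, j} : Set σ) := by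
      rw [Set.singleton_subset_iff]
      exact MvPolynomial.X_mem_supported.2 (by simp)
    exact (Algebra.adjoin_le h2) (aeval_mem_adjoin_singleton k _)
  obtain ⟨u, hu⟩ := h.symm
  have h2 : G ∈ MvPolynomial.supported k ({i, j} : Set σ) := by
    rw [← hu]
    refine mul_mem h1 ?_
    obtain ⟨c, hc1, hc2⟩ := MvPolynomial.isUnit_iff_eq_C_of_isReduced.1 u.isUnit
    rw [hc2]
    exact Subalgebra.algebraMap_mem _ c
  have h3 := MvPolynomial.mem_supported.1 h2 (Finset.mem_coe.2 hl)
  simp at h3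
  tauto

theorem sl_dvd {σ : Type*} {F : k[X]} {G : MvPolynomial σ k} {i j : σ} {a : σ → k}
    (ha : ∀ s, F.eval (a s) = a s) (h : G ∣ cmp F G) : sl i j a G ∣ cmp2 F (sl i j a G) := by
  obtain ⟨c, hc⟩ := h
  refine ⟨sl i j a c, ?_⟩
  rw [← SLCM ha, hc, map_mul]

omit [CharZero k] in
theorem exists_fixed {f : k[X]} (hf : Good f) {r : ℕ} (hr : 1 ≤ r) :
    ∃ a0 : k, (itr f r).eval a0 = a0 := by
  have h2 : 2 ≤ f.natDegree ^ r := hf.deg.trans (Nat.le_self_pow (by omega) _)
  have hdeg : (itr f r - X).natDegree = f.natDegree ^ r := by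
    rw [natDegree_sub_eq_left_of_natDegree_lt, natDegree_itr]
    rw [natDegree_X, natDegree_itr]
    omega
  have hd0 : (itr f r - X).degree ≠ 0 := by
    intro h0
    have := natDegree_eq_of_degree_eq_some (n := 0) (by simpa using h0)
    omega
  obtain ⟨z, hz⟩ := IsAlgClosed.exists_root (itr f r - X) hd0
  refine ⟨z, ?_⟩
  rw [IsRoot.def, eval_sub, eval_X, sub_eq_zero] at hz
  exact hz

theorem CLN {f : k[X]} (hf : Good f) {σ : Type*} [Finite σ] {G : MvPolynomial σ k}
    (hG : Irreducible G) {r : ℕ} (hr : 1 ≤ r) (hdvd : G ∣ cmp (itr f r) G) :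
    (∃ (i : σ) (a : k), Associated G (MvPolynomial.X i - MvPolynomial.C a)) ∨
    ∃ (i j : σ) (g : k[X]), i ≠ j ∧ 1 ≤ g.natDegree ∧ g.comp (itr f r) = (itr f r).comp g ∧
      Associated G (MvPolynomial.X i - Polynomial.aeval (MvPolynomial.X j) g) := by
  classical
  by_cases h1 : ∀ i ∈ G.vars, ∀ j ∈ G.vars, i = j
  · exact Or.inl (ONEV hG h1)
  push Not at h1
  obtain ⟨i, hi, j, hj, hij⟩ := h1
  right
  by_cases h3 : ∃ l ∈ G.vars, l ≠ i ∧ l ≠ j
  · -- three variables: impossible
    exfalso
    obtain ⟨l, hl, hli, hlj⟩ := h3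
    have hP := PER (f := f) hf.deg
    have hS := FING hf (G.totalDegree)
    obtain ⟨a, haP, hne, hSn, hAB⟩ := SLIC hG hij hi hj hP hS
      (fun g _ h => vars_graph hli hlj g hG hl h) (fun g _ h => vars_graph hlj hli g hG hl h)
    -- a common period
    have hper : ∀ s, ∃ m, 1 ≤ m ∧ (itr f m).eval (a s) = a s := haP
    choose m hm1 hm2 using hper
    haveI := Fintype.ofFinite σ
    set M : ℕ := ∏ s, m s with hM
    have hM1 : 1 ≤ M := Nat.succ_le_of_lt (Finset.prod_pos fun s _ => hm1 s)
    have hfix : ∀ s, (itr f (r * M)).eval (a s) = a s := by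
      intro s
      have hd : m s ∣ r * M := (Finset.dvd_prod_of_mem m (Finset.mem_univ s)).mul_left r
      obtain ⟨t, ht⟩ := hd
      rw [ht, itr_mul, eval_itr]
      exact Function.iterate_fixed (hm2 s) t
    clear_value M
    have hdvdM : sl i j a G ∣ cmp2 (itr f (r * M)) (sl i j a G) := by
      have h4 : G ∣ cmp (itr f (r * M)) G := dvd_cmp_mul hdvd M
      exact sl_dvd hfix h4
    have hdF : 1 ≤ (itr f (r * M)).natDegree := by
      rw [natDegree_itr]
      exact Nat.one_le_pow _ _ (by have := hf.deg; omega)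
    apply hAB
    refine FACT hne fun H hH hHG => ?_
    obtain ⟨H', s, R, hH', hH'G, hR, hH'R, hHs⟩ := FACP hdF hne hdvdM hH hHG
    rw [← itr_mul] at hH'R
    have hrM : 1 ≤ r * M * R := Nat.mul_pos (Nat.mul_pos (by omega) (by omega)) (by omega)
    have hcase : (∃ A : k[X], H' = C A) ∨ ∃ B : k[X], H' = B.map C := by
      by_cases hy : 1 ≤ H'.natDegree
      · by_cases hx : ∃ j, 1 ≤ (H'.coeff j).natDegree
        · exfalso
          obtain ⟨g, hg1, hg2, hass⟩ := CL2 hf hrM hH' hH'R hy hx
          have hgS : g.natDegree ≤ G.totalDegree → False := by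
            intro hle
            have hmem : g ∈ {g : k[X] | 1 ≤ g.natDegree ∧ g.natDegree ≤ G.totalDegree ∧
                ∃ r, 1 ≤ r ∧ g.comp (itr f r) = (itr f r).comp g} := ⟨hg1, hle, _, hrM, hg2⟩
            rcases hass with h | h
            · exact (hSn g hmem).1 (h.symm.dvd.trans hH'G)
            · exact (hSn g hmem).2 (h.symm.dvd.trans hH'G)
          apply hgS
          rcases hass with h | h
          · have h5 : (X - C g) ∣ sl i j a G := h.symm.dvd.trans hH'G
            have h6 := map_dvd (Bivariate.swap : k[X][X] ≃ₐ[k] k[X][X]) h5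
            rw [swap_sl hij, map_sub, Bivariate.swap_Y, Bivariate.swap_C] at h6
            have h7 : sl j i a G ≠ 0 := by
              rw [← swap_sl hij]
              exact (map_ne_zero_iff _ (Bivariate.swap : k[X][X] ≃ₐ[k] k[X][X]).injective).2 hne
            have h8 := natDegree_le_of_dvd h6 h7
            rw [natDegree_graph hg1] at h8
            exact h8.trans (natDegree_sl_le _ _ _ _)
          · have h5 : (C X - g.map C) ∣ sl i j a G := h.symm.dvd.trans hH'G
            have h8 := natDegree_le_of_dvd h5 hne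
            rw [natDegree_graph hg1] at h8
            exact h8.trans (natDegree_sl_le _ _ _ _)
        · right
          push Not at hx
          refine ⟨H'.map (evalRingHom 0), ?_⟩
          ext n : 1
          rw [coeff_map, coeff_map]
          have h9 : (H'.coeff n).natDegree = 0 := by have := hx n; omega
          rw [eq_C_of_natDegree_eq_zero h9]
          simp
      · left
        exact ⟨H'.coeff 0, eq_C_of_natDegree_eq_zero (by omega)⟩
    rcases hcase with ⟨A, rfl⟩ | ⟨B, rfl⟩
    · left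
      rw [cmp2_CC] at hHs
      have hA0 : A ≠ 0 := fun h => hH'.ne_zero (by rw [h, C_0])
      refine (DIVC hH (A := A.comp (itr (itr f (r * M)) s)) ?_).1 hHs
      intro h0
      rcases comp_eq_zero_iff.1 h0 with h | h
      · exact hA0 h
      · have h11 := congrArg natDegree h.2
        rw [natDegree_C, natDegree_itr] at h11
        have := Nat.one_le_pow s _ hdF
        omega
    · right
      rw [cmp2_mapC] at hHs
      have hB0 : B ≠ 0 := fun h => hH'.ne_zero (by rw [h, Polynomial.map_zero])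
      refine (DIVC hH (A := B.comp (itr (itr f (r * M)) s)) ?_).2 hHs
      intro h0
      rcases comp_eq_zero_iff.1 h0 with h | h
      · exact hB0 h
      · have h11 := congrArg natDegree h.2
        rw [natDegree_C, natDegree_itr] at h11
        have := Nat.one_le_pow s _ hdF
        omega
  · -- two variables
    push Not at h3
    have hv : ∀ s ∈ G.vars, s = i ∨ s = j := by
      intro s hs
      by_cases h : s = i
      · exact Or.inl h
      · exact Or.inr (h3 s hs h)
    -- a fixed point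
    obtain ⟨a0, ha0⟩ : ∃ a0 : k, (itr f r).eval a0 = a0 := exists_fixed hf hr
    obtain ⟨hirr, hy, hx, hback⟩ := TWOV hG hij hi hj hv (fun _ => a0)
    have hdvd2 : sl i j (fun _ => a0) G ∣ cmp2 (itr f r) (sl i j (fun _ => a0) G) := by
      exact sl_dvd (fun _ => ha0) hdvd
    obtain ⟨g, hg1, hg2, hass⟩ := CL2 hf hr hirr hdvd2 hy hx
    rcases hass with h | h
    · exact ⟨j, i, g, hij.symm, hg1, hg2, (hback g).1 h⟩
    · exact ⟨i, j, g, hij, hg1, hg2, (hback g).2 h⟩

end

end Pool.Agent.Lib_helper45.BDP.AsmA
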