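import Pool.Agent.Lib_helper45.BDP.W1

namespace Pool.Agent.Lib_helper45.BDP.AsmF

open Polynomial Pool.Agent.Lib_helper45.BDP

noncomputable section

variable {k : Type*} [Field k] [IsAlgClosed k] [CharZero k]

theorem dep_of_mem {T y u : L k} (hy : Dep T y) (hu : u ∈ IntermediateField.adjoin k {T, y}) :
    Dep T u := by
  have h : IntermediateField.adjoin k {T, y} ≤
      (algebraicClosure (IntermediateField.adjoin k {T}) (L k)).restrictScalars k := by
    rw [IntermediateField.adjoin_le_iff]
    intro z hz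
    rcases hz with rfl | hz
    · exact mem_algebraicClosure_iff.2 (isAlgebraic_algebraMap
        (⟨z, IntermediateField.mem_adjoin_simple_self k z⟩ : IntermediateField.adjoin k {z}))
    · rw [Set.mem_singleton_iff] at hz
      subst hz
      exact mem_algebraicClosure_iff.2 hy
  exact mem_algebraicClosure_iff.1 (h hu)

open scoped IntermediateField.algebraAdjoinAdjoin in
theorem exists_integral {T y : L k} (hy : Dep T y) (hyn : y ∉ IntermediateField.adjoin k {T}) :
    ∃ u ∈ IntermediateField.adjoin k {T, y}, IsIntegral (Algebra.adjoin k {T}) u ∧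
      u ∉ IntermediateField.adjoin k {T} := by
  have h1 : IsAlgebraic (Algebra.adjoin k {T}) y :=
    (IsFractionRing.isAlgebraic_iff (Algebra.adjoin k {T}) (IntermediateField.adjoin k {T}) (L k)).2 hy
  obtain ⟨b, hb, hint⟩ := h1.exists_integral_multiple
  have hb' : (b : L k) ≠ 0 := fun h => hb (Subtype.ext h)
  have hbK : (b : L k) ∈ IntermediateField.adjoin k {T} :=
    IntermediateField.algebra_adjoin_le_adjoin _ _ b.2
  have hle : IntermediateField.adjoin k {T} ≤ IntermediateField.adjoin k {T, y} :=
    IntermediateField.adjoin.mono _ _ _ (by simp)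
  refine ⟨(b : L k) * y, mul_mem (hle hbK) (IntermediateField.subset_adjoin _ _ (by simp)), hint, ?_⟩
  intro h
  apply hyn
  have h2 := mul_mem (inv_mem hbK) h
  rwa [← mul_assoc, inv_mul_cancel₀ hb', one_mul] at h2

theorem FROB {F : k[X]} {T y : L k} (hF : Frob F T) (hy : Dep T y)
    (hS : th 1 F.natDegree y ∈ IntermediateField.adjoin k {T, y}) :
    y ∈ IntermediateField.adjoin k {T} ∨ Dep T (del T) := by
  by_cases hyn : y ∈ IntermediateField.adjoin k {T}
  · exact Or.inl hyn
  right
  have hM : 2 ≤ F.natDegree := hF.deg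
  have hTt : Transcendental k T := by
    apply TRN
    intro a ha
    apply hF.pole.1
    rw [ha, algebraMap_L, HahnSeries.C_apply, HahnSeries.coeff_single_of_ne (by norm_num)]
  have hTK : T ∈ IntermediateField.adjoin k {T} := IntermediateField.mem_adjoin_simple_self k T
  have hle : IntermediateField.adjoin k {T} ≤ IntermediateField.adjoin k {T, y} :=
    IntermediateField.adjoin.mono _ _ _ (by simp)
  obtain ⟨n, τ, hn, h1, h2, h3, h4, h5, h6⟩ := FR2 hF hy hS
  obtain ⟨u, huK, huI, huT⟩ := exists_integral hy hyn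
  have hUmem : ∀ (v : L k) (i : ℕ), v ∈ IntermediateField.adjoin k {T, y} →
      (U F.natDegree)^[i] v ∈ IntermediateField.adjoin k {T, y} := by
    intro v i hv
    induction i with
    | zero => exact hv
    | succ i ih =>
      rw [Function.iterate_succ_apply']
      exact FR1 hF hy hS ih
  have hGr : ∀ (v : L k) (A i : ℕ), Gr T v A 1 →
      Gr T ((U F.natDegree)^[i] v) A (F.natDegree ^ i) := by
    intro v A i hv
    induction i with
    | zero => simpa using hv
    | succ i ih =>
      rw [Function.iterate_succ_apply', pow_succ]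
      exact GR1 hF (Nat.one_le_pow _ _ (by omega)) ih
  have hUτ : ∀ (v : L k) (i : ℕ), v ∈ IntermediateField.adjoin k {T, y} →
      (U F.natDegree)^[i] (τ v) = τ ((U F.natDegree)^[i] v) := by
    intro v i hv
    induction i with
    | zero => rfl
    | succ i ih =>
      rw [Function.iterate_succ_apply', Function.iterate_succ_apply', ih, h5 _ (hUmem v i hv)]
  have hU0 : ∀ (v : L k) (i : ℕ), ((U F.natDegree)^[i] v).coeff 0 = v.coeff 0 := by
    intro v i
    induction i with
    | zero => rfl
    | succ i ih =>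
      rw [Function.iterate_succ_apply', U_coeff (by omega), mul_zero, ih]
  -- the constant terms
  have hCT : ∀ a : ℕ, (T ^ a * (τ u - n • u)).coeff 0 = 0 := by
    intro a
    have hvK : T ^ a * u ∈ IntermediateField.adjoin k {T, y} := mul_mem (pow_mem (hle hTK) a) huK
    have hvI : IsIntegral (Algebra.adjoin k {T}) (T ^ a * u) := by
      refine IsIntegral.mul (IsIntegral.pow ?_ a) huI
      exact isIntegral_algebraMap (x := (⟨T, Algebra.subset_adjoin (by simp)⟩ : Algebra.adjoin k {T}))
    obtain ⟨A, hA⟩ := GR0 hvI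
    obtain ⟨i, hi⟩ : ∃ i, A * n < F.natDegree ^ i := by
      exact pow_unbounded_of_one_lt (A * n) (by omega)
    have hvi := hUmem _ i hvK
    obtain ⟨c, hc⟩ := GR2 hTt (dep_of_mem hy hvi) (h6 _ hvi) hi (hGr _ A i hA)
    have hc0 : c = (T ^ a * u).coeff 0 := by
      rw [← hU0 _ i, hc, algebraMap_L, HahnSeries.C_apply, HahnSeries.coeff_single_same]
    have hns : ∀ w : L k, (n • w).coeff 0 = (n : k) * w.coeff 0 := by
      intro w
      rw [HahnSeries.coeff_nsmul, Pi.smul_apply, nsmul_eq_mul]
    have h7 : (τ (T ^ a * u)).coeff 0 = n * c := by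
      rw [← hU0 _ i, hUτ _ i hvK, hc, h2 _ (IntermediateField.algebraMap_mem _ c),
        hns, algebraMap_L, HahnSeries.C_apply, HahnSeries.coeff_single_same]
    have h8 : τ (T ^ a * u) = T ^ a * τ u := h3 _ (pow_mem hTK a) _ huK
    rw [mul_sub, ← h8, HahnSeries.coeff_sub, h7, mul_smul_comm, hns, ← hc0, sub_self]
  obtain ⟨P, hP⟩ := ANN hF.pole hCT
  have hP0 : P ≠ 0 := by
    rintro rfl
    rw [map_zero, zero_mul, sub_eq_zero] at hP
    apply huT
    have h9 : u = (n : L k)⁻¹ * τ u := by
      rw [hP, nsmul_eq_mul, ← mul_assoc, inv_mul_cancel₀, one_mul]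
      have : CharZero (L k) := algebraRat.charZero _
      exact_mod_cast hn.ne'
    rw [h9]
    exact mul_mem (inv_mem (natCast_mem _ n)) (h1 _ huK)
  have hPT : aeval T P ≠ 0 := fun h => hP0 ((transcendental_iff.1 hTt) P h)
  refine dep_of_mem hy ?_
  have h10 : del T = (aeval T P)⁻¹ * (τ u - n • u) := by
    rw [hP, ← mul_assoc, inv_mul_cancel₀ hPT, one_mul]
  rw [h10]
  refine mul_mem (inv_mem ?_) (sub_mem (hle (h1 _ huK)) (nsmul_mem huK n))
  exact hle (IntermediateField.algebra_adjoin_le_adjoin _ _ (aeval_mem_adjoin_singleton k T))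

end

end Pool.Agent.Lib_helper45.BDP.AsmF
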