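import Pool.Agent.Lib_helper45.BDP.W1

namespace Pool.Agent.Lib_helper45.BDP.AsmU

open Polynomial Pool.Agent.Lib_helper45.BDP

noncomputable section

theorem mono_J {k : Type*} [Field k] {f : k[X]} {J J' : ℕ} (h : J ≤ J') {a b : k}
    (hab : (itr f J).eval a = (itr f J).eval b) : (itr f J').eval a = (itr f J').eval b := by
  obtain ⟨t, rfl⟩ := Nat.exists_eq_add_of_le' h
  rw [itr_add, eval_comp, eval_comp, hab]

variable {p : ℕ} [Fact p.Prime]

theorem coeff_itr_mem {k : Type*} [Field k] (A : Subring k) {f : k[X]} (h : ∀ i, f.coeff i ∈ A)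
    (r : ℕ) : ∀ i, (itr f r).coeff i ∈ A := by
  obtain ⟨g, hg⟩ : ∃ g : Polynomial A, g.map A.subtype = f := by
    have : f ∈ Polynomial.lifts A.subtype := by
      rw [Polynomial.lifts_iff_coeff_lifts]
      intro n
      exact ⟨⟨_, h n⟩, rfl⟩
    exact this
  have key : ∀ r, ∃ g' : Polynomial A, g'.map A.subtype = itr f r := by
    intro r
    induction r with
    | zero => exact ⟨X, by simp [itr_zero]⟩
    | succ r ih =>
      obtain ⟨g', hg'⟩ := ih
      exact ⟨g.comp g', by rw [Polynomial.map_comp, hg, hg', itr_succ]⟩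
  obtain ⟨g', hg'⟩ := key r
  intro i
  rw [← hg', coeff_map]
  exact (g'.coeff i).2

theorem eval_mem' {k : Type*} [Field k] (A : Subring k) {f : k[X]} (h : ∀ i, f.coeff i ∈ A) {a : k}
    (ha : a ∈ A) : f.eval a ∈ A := by
  rw [eval_eq_sum_range]
  exact sum_mem fun i _ => mul_mem (h i) (pow_mem ha i)

/-- the unit ball -/
def ball : Subring (PadicAlgCl p) where
  carrier := {x | ‖x‖ ≤ 1}
  mul_mem' {a b} ha hb := by
    simp only [Set.mem_setOf_eq] at *
    rw [norm_mul]
    exact mul_le_one₀ ha (norm_nonneg _) hb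
  one_mem' := by simp
  add_mem' {a b} ha hb := by
    simp only [Set.mem_setOf_eq] at *
    exact (IsUltrametricDist.norm_add_le_max a b).trans (max_le ha hb)
  zero_mem' := by simp
  neg_mem' {a} ha := by simpa using ha

theorem norm_natCast_eq_one {m : ℕ} (h : ¬ p ∣ m) : ‖(m : PadicAlgCl p)‖ = 1 := by
  rw [← map_natCast (algebraMap ℚ_[p] (PadicAlgCl p)), PadicAlgCl.norm_extends]
  exact (Padic.norm_natCast_eq_one_iff (p := p)).2
    (((Nat.Prime.coprime_iff_not_dvd Fact.out).2 h))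

/-- cancellation near an attracting fixed point -/
theorem ATT1 {F : (PadicAlgCl p)[X]} (hm : F.Monic) (hd : 2 ≤ F.natDegree)
    (hf : ∀ i, ‖F.coeff i‖ ≤ 1) (n : ℕ) {x : PadicAlgCl p} (hx : ‖x‖ ≤ 1) (hFx : F.eval x = x)
    (hder : ‖(derivative F).eval x‖ < 1)
    (he : ‖((rootMultiplicity x (F - C x) : ℕ) : PadicAlgCl p)‖ = 1) :
    ∃ J : ℕ, ∀ (E : IntermediateField ℚ_[p] (PadicAlgCl p)), FiniteDimensional ℚ_[p] E →
      Module.finrank ℚ_[p] E ≤ n → (∀ i, F.coeff i ∈ E) → ∀ a ∈ E, ∀ b ∈ E, ‖a - x‖ < 1 →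
      ‖b - x‖ < 1 → ∀ m : ℕ,
      (itr F m).eval a = (itr F m).eval b → (itr F J).eval a = (itr F J).eval b := by
  obtain ⟨e, ρ, he1, hρ0, hρ1, hA1, hA2, hA3, hA4⟩ := ATTR hm hd hf hx hFx he
  set Ex : IntermediateField ℚ_[p] (PadicAlgCl p) := IntermediateField.adjoin ℚ_[p] {x} with hEx
  have hExfin : FiniteDimensional ℚ_[p] Ex :=
    IntermediateField.adjoin.finiteDimensional (Algebra.IsIntegral.isIntegral x)
  set N' : ℕ := n * Module.finrank ℚ_[p] Ex with hN'
  -- the contraction factor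
  set Th : ℝ := ((p : ℝ)⁻¹) ^ ((N' : ℝ)⁻¹) with hTh
  have hp1 : (1 : ℝ) < p := by exact_mod_cast (Fact.out : p.Prime).one_lt
  set κ : ℝ := max ‖(derivative F).eval x‖ Th with hκ
  by_cases hN0 : N' = 0
  · -- no field of degree at most `n`
    refine ⟨0, fun E hE hEn => ?_⟩
    exfalso
    have h1 : 0 < Module.finrank ℚ_[p] E := Module.finrank_pos
    have h2 : 0 < Module.finrank ℚ_[p] Ex := Module.finrank_pos
    have h3 := Nat.mul_pos (lt_of_lt_of_le h1 hEn) h2
    omega
  have hTh0 : 0 ≤ Th := Real.rpow_nonneg (by positivity) _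
  have hTh1 : Th < 1 := by
    apply Real.rpow_lt_one (by positivity) (inv_lt_one_of_one_lt₀ hp1)
    have : (0 : ℝ) < N' := by exact_mod_cast Nat.pos_of_ne_zero hN0
    positivity
  have hκ1 : κ < 1 := max_lt hder hTh1
  have hκ0 : 0 ≤ κ := hTh0.trans (le_max_right _ _)
  obtain ⟨T, hT⟩ := exists_pow_lt_of_lt_one hρ0 hκ1
  refine ⟨p ^ N'.factorial + T, fun E hE hEn hFE a ha b hb hax hbx m hab => ?_⟩
  set E' := E ⊔ Ex with hE'
  have hE'fin : FiniteDimensional ℚ_[p] E' := IntermediateField.finiteDimensional_sup E Ex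
  have hE'n : Module.finrank ℚ_[p] E' ≤ N' :=
    (IntermediateField.finrank_sup_le E Ex).trans (Nat.mul_le_mul_right _ hEn)
  have hxE : x ∈ E' := (le_sup_right : Ex ≤ E') (IntermediateField.mem_adjoin_simple_self _ x)
  have hFE' : ∀ i, F.coeff i ∈ E' := fun i => (le_sup_left : E ≤ E') (hFE i)
  -- the local map
  set Φ : PadicAlgCl p → PadicAlgCl p := fun u => F.eval (x + u) - x with hΦ
  have hΦit : ∀ (t : ℕ) (u : PadicAlgCl p), Φ^[t] u = (itr F t).eval (x + u) - x := by
    intro t u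
    induction t with
    | zero => simp [itr_zero]
    | succ t ih =>
      rw [Function.iterate_succ_apply', ih, itr_succ, eval_comp]
      simp only [hΦ]
      rw [add_sub_cancel]
  have hΦE : ∀ u ∈ E', Φ u ∈ E' := by
    intro u hu
    exact sub_mem (eval_mem' E'.toSubring hFE' (add_mem hxE hu)) hxE
  have hΦEit : ∀ (t : ℕ), ∀ u ∈ E', Φ^[t] u ∈ E' := by
    intro t u hu
    induction t with
    | zero => exact hu
    | succ t ih => rw [Function.iterate_succ_apply']; exact hΦE _ ih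
  have hle1 : ∀ u : PadicAlgCl p, ‖u‖ ≤ 1 → ‖Φ u‖ ≤ ‖u‖ * max ‖(derivative F).eval x‖ ‖u‖ :=
    fun u hu => CONT hf hx hFx hu
  have hThu : ∀ u ∈ E', ‖u‖ < 1 → ‖u‖ ≤ Th := by
    intro u hu h1
    have h2 := DISC hE'n hu h1
    have h3 : ‖u‖ = (‖u‖ ^ N') ^ ((N' : ℝ)⁻¹) := by
      rw [← Real.rpow_natCast, ← Real.rpow_mul (norm_nonneg _), mul_inv_cancel₀, Real.rpow_one]
      exact_mod_cast hN0
    rw [h3]
    exact Real.rpow_le_rpow (by positivity) h2 (by positivity)
  have hdecr : ∀ (t : ℕ), ∀ u ∈ E', ‖u‖ < 1 → ‖Φ^[t] u‖ ≤ κ ^ t ∧ ‖Φ^[t] u‖ ≤ ‖u‖ := by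
    intro t u hu h1
    induction t with
    | zero => simp only [Function.iterate_zero, id_eq, pow_zero]; exact ⟨h1.le, le_rfl⟩
    | succ t ih =>
      rw [Function.iterate_succ_apply']
      have h2 : ‖Φ^[t] u‖ < 1 := lt_of_le_of_lt ih.2 h1
      have h3 := hThu _ (hΦEit t u hu) h2
      have h4 := hle1 _ h2.le
      have h5 : max ‖(derivative F).eval x‖ ‖Φ^[t] u‖ ≤ κ := max_le_max le_rfl h3
      have h6 : ‖Φ (Φ^[t] u)‖ ≤ ‖Φ^[t] u‖ * κ :=
        h4.trans (mul_le_mul_of_nonneg_left h5 (norm_nonneg _))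
      refine ⟨?_, ?_⟩
      · rw [pow_succ]
        exact h6.trans (mul_le_mul_of_nonneg_right ih.1 hκ0)
      · refine (h6.trans ?_).trans ih.2
        exact mul_le_of_le_one_right (norm_nonneg _) hκ1.le
  -- the starting points
  have hu0 : a - x ∈ E' := sub_mem ((le_sup_left : E ≤ E') ha) hxE
  have hv0 : b - x ∈ E' := sub_mem ((le_sup_left : E ≤ E') hb) hxE
  set u := Φ^[T] (a - x) with hu
  set v := Φ^[T] (b - x) with hv
  have huE : u ∈ E' := hΦEit T _ hu0
  have hvE : v ∈ E' := hΦEit T _ hv0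
  have huρ : ‖u‖ < ρ := lt_of_le_of_lt (hdecr T _ hu0 hax).1 hT
  have hvρ : ‖v‖ < ρ := lt_of_le_of_lt (hdecr T _ hv0 hbx).1 hT
  have hit : ∀ t c, Φ^[t] (Φ^[T] (c - x)) = (itr F (t + T)).eval c - x := by
    intro t c
    rw [← Function.iterate_add_apply, hΦit, add_sub_cancel]
  have hm' : Φ^[m] u = Φ^[m] v := by
    rw [hu, hv, hit, hit, mono_J (Nat.le_add_right m T) hab]
  have hΦρ : ∀ w, w ≠ 0 → ‖w‖ < ρ → Φ w ≠ 0 ∧ ‖Φ w‖ < ρ := by
    intro w hw hwρ
    refine ⟨hA1 w hw hwρ, ?_⟩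
    have hw1 : ‖w‖ ≤ 1 := hwρ.le.trans hρ1
    have h2 := hle1 w hw1
    refine lt_of_le_of_lt (h2.trans ?_) hwρ
    exact mul_le_of_le_one_right (norm_nonneg _) (max_le hder.le hw1)
  have hΦρit : ∀ t w, w ≠ 0 → ‖w‖ < ρ → Φ^[t] w ≠ 0 ∧ ‖Φ^[t] w‖ < ρ := by
    intro t w hw hwρ
    induction t with
    | zero => exact ⟨hw, hwρ⟩
    | succ t ih => rw [Function.iterate_succ_apply']; exact hΦρ _ ih.1 ih.2
  have hΦ0 : ∀ t, Φ^[t] 0 = 0 := by
    intro t
    induction t with
    | zero => rfl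
    | succ t ih =>
      rw [Function.iterate_succ_apply', ih]
      simp only [hΦ, add_zero, hFx, sub_self]
  have hfinal : Φ^[p ^ N'.factorial] u = Φ^[p ^ N'.factorial] v := by
    by_cases hu1 : u = 0
    · have hv1 : v = 0 := by
        by_contra hv1
        rw [hu1, hΦ0] at hm'
        exact (hΦρit m v hv1 hvρ).1 hm'.symm
      rw [hu1, hv1]
    · have hv1 : v ≠ 0 := by
        intro hv1
        rw [hv1, hΦ0] at hm'
        exact (hΦρit m u hu1 huρ).1 hm'
      refine RATI (Z := {w | w ≠ 0 ∧ ‖w‖ < ρ}) (Φ := Φ) (e := e) (by simp)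
        (fun w hw => hΦρ w hw.1 hw.2) he1 ?_ ?_ ?_ ?_ ⟨hu1, huρ⟩ ⟨hv1, hvρ⟩ ?_ hm'
      · exact (Fact.out : p.Prime).two_le.trans (Nat.le_self_pow (Nat.factorial_ne_zero _) _)
      · intro w hw w' hw'
        exact hA2 w w' hw.1 hw'.1 hw.2 hw'.2
      · intro w hw w' hw'
        exact hA3 w w' hw.1 hw'.1 hw.2 hw'.2
      · intro w hw w' hw'
        exact hA4 w w' hw.1 hw'.1 hw.2 hw'.2
      · intro huv
        refine RESQ hE'n (div_mem huE hvE) ?_
        rw [norm_div, huv, div_self (norm_ne_zero_iff.2 hv1)]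
  rw [hu, hv, hit, hit] at hfinal
  exact sub_left_injective hfinal

theorem norm_coeff_itr {f : (PadicAlgCl p)[X]} (hf : ∀ i, ‖f.coeff i‖ ≤ 1) (r : ℕ) :
    ∀ i, ‖(itr f r).coeff i‖ ≤ 1 :=
  coeff_itr_mem (ball (p := p)) (f := f) hf r

theorem norm_eval_le {f : (PadicAlgCl p)[X]} (hf : ∀ i, ‖f.coeff i‖ ≤ 1) {a : PadicAlgCl p}
    (ha : ‖a‖ ≤ 1) : ‖f.eval a‖ ≤ 1 :=
  eval_mem' (ball (p := p)) (f := f) hf ha

theorem norm_deriv_coeff {f : (PadicAlgCl p)[X]} (hf : ∀ i, ‖f.coeff i‖ ≤ 1) :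
    ∀ i, ‖(derivative f).coeff i‖ ≤ 1 := by
  intro i
  rw [coeff_derivative]
  exact (ball (p := p)).mul_mem (hf _)
    ((ball (p := p)).add_mem (natCast_mem (ball (p := p)) i) (ball (p := p)).one_mem)

/-- a polynomial with integral coefficients is non-expanding on the unit ball -/
theorem norm_eval_sub_le {f : (PadicAlgCl p)[X]} (hf : ∀ i, ‖f.coeff i‖ ≤ 1) {a b : PadicAlgCl p}
    (ha : ‖a‖ ≤ 1) (hb : ‖b‖ ≤ 1) : ‖f.eval a - f.eval b‖ ≤ ‖a - b‖ := by
  rw [eval_eq_sum_range, eval_eq_sum_range, ← Finset.sum_sub_distrib]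
  refine IsUltrametricDist.norm_sum_le_of_forall_le_of_nonneg (norm_nonneg _) fun i _ => ?_
  rw [← mul_sub, norm_mul]
  refine (mul_le_mul (hf i) le_rfl (norm_nonneg _) zero_le_one).trans ?_
  rw [one_mul]
  obtain ⟨c, hc⟩ : ∃ c ∈ ball (p := p), a ^ i - b ^ i = (a - b) * c := by
    refine ⟨∑ j ∈ Finset.range i, a ^ j * b ^ (i - 1 - j), ?_, ?_⟩
    · exact sum_mem fun j _ => mul_mem (pow_mem (show a ∈ ball (p := p) from ha) _)
        (pow_mem (show b ∈ ball (p := p) from hb) _)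
    · rw [mul_comm, (Commute.all a b).geom_sum₂_mul]
  rw [hc.2, norm_mul]
  exact mul_le_of_le_one_right (norm_nonneg _) hc.1

theorem UCLO {f : (PadicAlgCl p)[X]} (hm : f.Monic) (hd : 2 ≤ f.natDegree) (hp : f.natDegree < p)
    (hf : ∀ i, ‖f.coeff i‖ ≤ 1) (n : ℕ) :
    ∃ J : ℕ, ∀ (E : IntermediateField ℚ_[p] (PadicAlgCl p)), FiniteDimensional ℚ_[p] E →
      Module.finrank ℚ_[p] E ≤ n → (∀ i, f.coeff i ∈ E) → ∀ a ∈ E, ∀ b ∈ E, ∀ m : ℕ,
      (itr f m).eval a = (itr f m).eval b → (itr f J).eval a = (itr f J).eval b := by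
  classical
  set Q : ℕ := p ^ n.factorial with hQ
  have hQ2 : 2 ≤ Q := (Fact.out : p.Prime).two_le.trans (Nat.le_self_pow (Nat.factorial_ne_zero _) _)
  set F : (PadicAlgCl p)[X] := itr f Q.factorial with hF
  have hFm : F.Monic := itr_monic hm (by omega) _
  have hFd : 2 ≤ F.natDegree := by
    rw [hF, natDegree_itr]
    exact hd.trans (Nat.le_self_pow (Nat.factorial_ne_zero _) _)
  have hFf : ∀ i, ‖F.coeff i‖ ≤ 1 := norm_coeff_itr hf _
  -- attracting fixed points of `F`
  set XX : Set (PadicAlgCl p) := {x | F.eval x = x ∧ ‖x‖ ≤ 1 ∧ ‖(derivative F).eval x‖ < 1} with hXX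
  have hXXf : XX.Finite := by
    have h1 : (F - X) ≠ 0 := by
      intro h0
      have : F = X := sub_eq_zero.1 h0
      rw [this, natDegree_X] at hFd
      omega
    refine ((F - X).rootSet_finite (PadicAlgCl p)).subset ?_
    rintro x ⟨hx, _⟩
    rw [mem_rootSet]
    exact ⟨h1, by simp [hx]⟩
  have hmult : ∀ x ∈ XX, ‖((rootMultiplicity x (F - C x) : ℕ) : PadicAlgCl p)‖ = 1 := by
    rintro x ⟨hx, _⟩
    exact norm_natCast_eq_one (MULT hd _ x x hx Fact.out hp)
  have hatt : ∀ x ∈ XX, ∃ J : ℕ, ∀ (E : IntermediateField ℚ_[p] (PadicAlgCl p)),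
      FiniteDimensional ℚ_[p] E →
      Module.finrank ℚ_[p] E ≤ n → (∀ i, F.coeff i ∈ E) → ∀ a ∈ E, ∀ b ∈ E, ‖a - x‖ < 1 →
      ‖b - x‖ < 1 → ∀ m : ℕ,
      (itr F m).eval a = (itr F m).eval b → (itr F J).eval a = (itr F J).eval b :=
    fun x hx => ATT1 hFm hFd hFf n hx.2.1 hx.1 hx.2.2 (hmult x hx)
  choose! Jx hJx using hatt
  set JA : ℕ := hXXf.toFinset.sup Jx with hJA
  refine ⟨Q.factorial * JA + Q, fun E hE hEn hfE a ha b hb m hab => ?_⟩
  by_cases ha1 : ‖a‖ ≤ 1
  · by_cases hb1 : ‖b‖ ≤ 1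
    · -- both in the unit ball
      obtain ⟨hmer1, hmer2⟩ := MERG hEn hfE hf ha hb ha1 hb1 hab
      set a' := (itr f Q).eval a with ha'
      set b' := (itr f Q).eval b with hb'
      have ha'E : a' ∈ E := eval_mem' E.toSubring (coeff_itr_mem E.toSubring hfE Q) ha
      have hb'E : b' ∈ E := eval_mem' E.toSubring (coeff_itr_mem E.toSubring hfE Q) hb
      have ha'1 : ‖a'‖ ≤ 1 := norm_eval_le (norm_coeff_itr hf Q) ha1
      have hb'1 : ‖b'‖ ≤ 1 := norm_eval_le (norm_coeff_itr hf Q) hb1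
      have hFE : ∀ i, F.coeff i ∈ E := coeff_itr_mem E.toSubring hfE _
      have hFa' : ‖F.eval a' - a'‖ < 1 := by
        rw [Nat.add_comm, itr_add, eval_comp] at hmer2
        exact hmer2
      have hitF : ∀ (t : ℕ) (c : PadicAlgCl p),
          (itr F t).eval ((itr f Q).eval c) = (itr f (Q.factorial * t + Q)).eval c := by
        intro t c
        rw [itr_add, eval_comp, hF, ← itr_mul]
      have hFm' : (itr F m).eval a' = (itr F m).eval b' := by
        rw [ha', hb', hitF, hitF]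
        refine mono_J ?_ hab
        calc m ≤ Q.factorial * m := Nat.le_mul_of_pos_left _ (Nat.factorial_pos _)
          _ ≤ _ := Nat.le_add_right _ _
      by_cases hder : ‖(derivative F).eval a'‖ = 1
      · have h1 := ISOM hFf ha'1 hmer1 hFa' hder m
        rw [hFm', sub_self, norm_zero] at h1
        have h2 : a' = b' := sub_eq_zero.1 (norm_eq_zero.1 h1.symm)
        exact mono_J (J := Q) (Nat.le_add_left _ _) h2
      · have hder' : ‖(derivative F).eval a'‖ < 1 :=
          lt_of_le_of_ne (norm_eval_le (norm_deriv_coeff hFf) ha'1) hder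
        obtain ⟨x, hx1, hx2, hx3⟩ := FIXP hFm hFd hFf ha'1 hFa'
        have hxder : ‖(derivative F).eval x‖ < 1 := by
          have h1 := norm_eval_sub_le (norm_deriv_coeff hFf) hx3 ha'1
          have h2 : (derivative F).eval x = ((derivative F).eval x - (derivative F).eval a') +
              (derivative F).eval a' := by ring
          rw [h2]
          refine lt_of_le_of_lt (IsUltrametricDist.norm_add_le_max _ _) (max_lt ?_ hder')
          refine lt_of_le_of_lt h1 ?_
          rw [norm_sub_rev]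
          exact hx2
        have hxX : x ∈ XX := ⟨hx1, hx3, hxder⟩
        have hbx : ‖b' - x‖ < 1 := by
          have h2 : b' - x = -(a' - b') + (a' - x) := by ring
          rw [h2]
          refine lt_of_le_of_lt (IsUltrametricDist.norm_add_le_max _ _) (max_lt ?_ hx2)
          rw [norm_neg]
          exact hmer1
        have h3 := hJx x hxX E hE hEn hFE a' ha'E b' hb'E hx2 hbx m hFm'
        have h4 : Jx x ≤ JA := Finset.le_sup (f := Jx) (hXXf.mem_toFinset.2 hxX)
        have h5 := mono_J h4 h3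
        rw [ha', hb', hitF, hitF] at h5
        exact h5
    · -- impossible
      exfalso
      push Not at hb1
      have h1 : ∀ t, 1 < ‖(itr f t).eval b‖ := by
        intro t
        induction t with
        | zero => simpa [itr_zero] using hb1
        | succ t ih =>
          rw [itr_succ, eval_comp]
          exact (INFI hm hd hf (norm_natCast_eq_one (by
            intro h; have := Nat.le_of_dvd (by omega) h; omega))).1 _ ih
      have h2 := h1 m
      rw [← hab] at h2
      exact absurd (norm_eval_le (norm_coeff_itr hf m) ha1) (not_le.2 h2)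
  · push Not at ha1
    have hnd : ‖(f.natDegree : PadicAlgCl p)‖ = 1 := norm_natCast_eq_one (by
            intro h; have := Nat.le_of_dvd (by omega) h; omega)
    obtain ⟨hI1, hI2, hI3, hI4⟩ := INFI hm hd hf hnd
    have hesc : ∀ (c : PadicAlgCl p), 1 < ‖c‖ → ∀ t, 1 < ‖(itr f t).eval c‖ := by
      intro c hc t
      induction t with
      | zero => simpa [itr_zero] using hc
      | succ t ih =>
        rw [itr_succ, eval_comp]
        exact hI1 _ ih
    have hb1 : 1 < ‖b‖ := by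
      by_contra hb1
      push Not at hb1
      have h2 := hesc a ha1 m
      rw [hab] at h2
      exact absurd (norm_eval_le (norm_coeff_itr hf m) hb1) (not_le.2 h2)
    have hit : ∀ (t : ℕ) (c : PadicAlgCl p), (fun z => f.eval z)^[t] c = (itr f t).eval c :=
      fun t c => (eval_itr f t c).symm
    have hfin : (fun z => f.eval z)^[Q] a = (fun z => f.eval z)^[Q] b := by
      refine RATI (Z := {w | 1 < ‖w‖}) (Φ := fun z => f.eval z) (e := f.natDegree) (m := m)
        (by simp) (fun w hw => hI1 w hw) (by omega) hQ2 ?_ ?_ ?_ ha1 hb1 ?_ ?_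
      · intro w hw w' hw'
        exact hI2 w w' hw hw'
      · intro w hw w' hw'
        exact hI3 w w' hw hw'
      · intro w hw w' hw'
        exact hI4 w w' hw hw'
      · intro huv
        refine RESQ hEn (div_mem ha hb) ?_
        rw [norm_div, huv, div_self]
        intro h0
        rw [h0] at hb1
        linarith
      · rw [hit, hit]; exact hab
    rw [hit, hit] at hfin
    exact mono_J (J := Q) (Nat.le_add_left _ _) hfin

end

section Global

variable {K : Type*} [Field K] [CharZero K] [Algebra.IsAlgebraic ℚ K] [IsAlgClosed K]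

theorem itr_map_eval {Ω : Type*} [Field Ω] (σ : K →+* Ω) (f : K[X]) (r : ℕ) (a : K) :
    (itr (f.map σ) r).eval (σ a) = σ ((itr f r).eval a) := by
  rw [← itr_map, eval_map, eval₂_hom]

theorem UCGL {f : K[X]} (hm : f.Monic) (hd : 2 ≤ f.natDegree) (n : ℕ) :
    ∃ J : ℕ, ∀ a b : K, Module.finrank ℚ (IntermediateField.adjoin ℚ {a, b}) ≤ n → ∀ m : ℕ,
      (itr f m).eval a = (itr f m).eval b → (itr f J).eval a = (itr f J).eval b := by
  classical
  -- a good prime
  have hemb : ∀ i, ∃ S : Finset ℕ, ∀ (p : ℕ) [Fact p.Prime], p ∉ S →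
      ∀ (σ : K →+* PadicAlgCl p), ‖σ (f.coeff i)‖ ≤ 1 := by
    intro i
    obtain ⟨⟨S, hS⟩, _⟩ := EMBD (f.coeff i)
    exact ⟨S, fun p _ hp σ => hS p hp σ _ rfl⟩
  choose S hS using hemb
  set SS : Finset ℕ := (Finset.range (f.natDegree + 1)).biUnion S with hSS
  obtain ⟨p, hp1, hp2⟩ := Nat.exists_infinite_primes (max f.natDegree (SS.sup id) + 1)
  haveI : Fact p.Prime := ⟨hp2⟩
  have hpS : p ∉ SS := by
    intro h
    have := Finset.le_sup (f := id) h
    simp only [id_eq] at this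
    have h2 := le_max_right f.natDegree (SS.sup id)
    omega
  have hpd : f.natDegree < p := by
    have h2 := le_max_left f.natDegree (SS.sup id)
    omega
  -- an embedding
  let σ : K →+* PadicAlgCl p := (IsAlgClosed.lift (R := ℚ) (S := K) (M := PadicAlgCl p)).toRingHom
  set g : (PadicAlgCl p)[X] := f.map σ with hg
  have hgm : g.Monic := hm.map σ
  have hgd : g.natDegree = f.natDegree := natDegree_map σ
  have hgf : ∀ i, ‖g.coeff i‖ ≤ 1 := by
    intro i
    rw [hg, coeff_map]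
    by_cases hi : i ≤ f.natDegree
    · exact hS i p (fun h => hpS (Finset.mem_biUnion.2 ⟨i, Finset.mem_range.2 (by omega), h⟩)) σ
    · rw [coeff_eq_zero_of_natDegree_lt (by omega), map_zero, norm_zero]
      exact zero_le_one
  set E0 : IntermediateField ℚ_[p] (PadicAlgCl p) :=
    IntermediateField.adjoin ℚ_[p] (g.coeffs : Set (PadicAlgCl p)) with hE0
  have hE0f : FiniteDimensional ℚ_[p] E0 := by
    refine IntermediateField.finiteDimensional_adjoin fun x _ => ?_
    exact Algebra.IsIntegral.isIntegral x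
  obtain ⟨J, hJ⟩ := UCLO (f := g) hgm (by omega) (by omega) hgf
    (n * n * Module.finrank ℚ_[p] E0)
  refine ⟨J, fun a b hab m hm' => ?_⟩
  -- degrees
  have hdeg : ∀ c ∈ ({a, b} : Set K), FiniteDimensional ℚ_[p] (IntermediateField.adjoin ℚ_[p] {σ c}) ∧
      Module.finrank ℚ_[p] (IntermediateField.adjoin ℚ_[p] {σ c}) ≤ n := by
    intro c hc
    have hcint : IsIntegral ℚ_[p] (σ c) := Algebra.IsIntegral.isIntegral _
    refine ⟨IntermediateField.adjoin.finiteDimensional hcint, ?_⟩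
    have hcQ : IsIntegral ℚ c := Algebra.IsIntegral.isIntegral _
    rw [IntermediateField.adjoin.finrank hcint]
    have h1 : (minpoly ℚ_[p] (σ c)).natDegree ≤ (minpoly ℚ c).natDegree := by
      have h2 : (minpoly ℚ_[p] (σ c)) ∣ (minpoly ℚ c).map (algebraMap ℚ ℚ_[p]) := by
        apply minpoly.dvd
        rw [aeval_map_algebraMap]
        have h3 : aeval (σ c) (minpoly ℚ c) = σ (aeval c (minpoly ℚ c)) :=
          Polynomial.aeval_algHom_apply (IsAlgClosed.lift (R := ℚ) (S := K) (M := PadicAlgCl p)) c _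
        rw [h3, minpoly.aeval, map_zero]
      have h4 := natDegree_le_of_dvd h2 (by
        rw [Polynomial.map_ne_zero_iff (algebraMap ℚ ℚ_[p]).injective]
        exact minpoly.ne_zero hcQ)
      rwa [natDegree_map] at h4
    refine h1.trans ?_
    rw [← IntermediateField.adjoin.finrank hcQ]
    refine le_trans ?_ hab
    have hfd : FiniteDimensional ℚ (IntermediateField.adjoin ℚ ({a, b} : Set K)) := by
      refine IntermediateField.finiteDimensional_adjoin fun x _ => ?_
      exact Algebra.IsIntegral.isIntegral x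
    have hle : IntermediateField.adjoin ℚ {c} ≤ IntermediateField.adjoin ℚ ({a, b} : Set K) :=
      IntermediateField.adjoin.mono _ _ _ (by simpa using hc)
    exact LinearMap.finrank_le_finrank_of_injective
      (f := (IntermediateField.inclusion hle).toLinearMap) (IntermediateField.inclusion hle).injective
  obtain ⟨hfa, hna⟩ := hdeg a (by simp)
  obtain ⟨hfb, hnb⟩ := hdeg b (by simp)
  set E : IntermediateField ℚ_[p] (PadicAlgCl p) :=
    (IntermediateField.adjoin ℚ_[p] {σ a} ⊔ IntermediateField.adjoin ℚ_[p] {σ b}) ⊔ E0 with hE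
  have hEf : FiniteDimensional ℚ_[p] E := by
    have := IntermediateField.finiteDimensional_sup (IntermediateField.adjoin ℚ_[p] {σ a})
      (IntermediateField.adjoin ℚ_[p] {σ b})
    exact IntermediateField.finiteDimensional_sup _ _
  have hEn : Module.finrank ℚ_[p] E ≤ n * n * Module.finrank ℚ_[p] E0 :=
    (IntermediateField.finrank_sup_le _ _).trans (Nat.mul_le_mul_right _
      ((IntermediateField.finrank_sup_le _ _).trans (Nat.mul_le_mul hna hnb)))
  have hgE : ∀ i, g.coeff i ∈ E := by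
    intro i
    by_cases hi : g.coeff i = 0
    · rw [hi]; exact zero_mem _
    · exact (le_sup_right : E0 ≤ E) (IntermediateField.subset_adjoin _ _
        (Finset.mem_coe.2 (coeff_mem_coeffs hi)))
  have haE : σ a ∈ E := (le_sup_left.trans le_sup_left :
    IntermediateField.adjoin ℚ_[p] {σ a} ≤ E) (IntermediateField.mem_adjoin_simple_self _ _)
  have hbE : σ b ∈ E := (le_sup_right.trans le_sup_left :
    IntermediateField.adjoin ℚ_[p] {σ b} ≤ E) (IntermediateField.mem_adjoin_simple_self _ _)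
  have h := hJ E hEf hEn hgE (σ a) haE (σ b) hbE m (by
    rw [hg, itr_map_eval, itr_map_eval, hm'])
  rw [hg, itr_map_eval, itr_map_eval] at h
  exact σ.injective h

end Global

end Pool.Agent.Lib_helper45.BDP.AsmU
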