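import Pool.Agent.Lib_helper45.BDP.Defs

/-!
# Block ANN
-/

namespace Pool.Agent.Lib_helper45.BDP.ANN

open Polynomial

noncomputable section

variable {k : Type*} [Field k] [IsAlgClosed k] [CharZero k]

theorem ANN_order {x : L k} {a : ℤ} (h1 : x.coeff a ≠ 0) (h2 : ∀ j < a, x.coeff j = 0) :
    x ≠ 0 ∧ x.order = a ∧ x.leadingCoeff = x.coeff a := by
  have h0 : x ≠ 0 := by
    rintro rfl
    exact h1 rfl
  have h3 : x.order = a := by
    apply le_antisymm
    · exact HahnSeries.order_le_of_coeff_ne_zero h1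
    · by_contra hlt
      rw [not_le] at hlt
      have h4 := h2 _ hlt
      exact (HahnSeries.coeff_order_eq_zero.not.2 h0) h4
  refine ⟨h0, h3, ?_⟩
  rw [HahnSeries.leadingCoeff_eq, h3]

theorem ANN_pow {T : L k} (hT : SimplePole T) (n : ℕ) : T ^ n ≠ 0 ∧ (T ^ n).order = -n ∧
    (T ^ n).leadingCoeff = T.coeff (-1) ^ n := by
  obtain ⟨h1, h2, h3⟩ := ANN_order hT.1 hT.2
  refine ⟨pow_ne_zero _ h1, ?_, ?_⟩
  · rw [HahnSeries.order_pow, h2]
    simp
  · rw [← h3]
    induction n with
    | zero => simp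
    | succ n ih => rw [pow_succ, HahnSeries.leadingCoeff_mul, ih, pow_succ]

theorem ANN_del {T : L k} (hT : SimplePole T) : SimplePole (del T) := by
  refine ⟨?_, fun j hj => ?_⟩
  · rw [del_coeff]
    simpa using hT.1
  · rw [del_coeff, hT.2 j hj, mul_zero]

theorem ANN_CT {T : L k} (n : ℕ) : (T ^ n * del T).coeff 0 = 0 := by
  have h1 : del (T ^ (n + 1)) = ((n + 1 : ℕ) : k) • (T ^ n * del T) := by
    rw [Derivation.leibniz_pow]
    simp only [Nat.add_sub_cancel, smul_eq_mul]
    rw [← Nat.cast_smul_eq_nsmul k]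
  have h2 : (del (T ^ (n + 1))).coeff 0 = 0 := by
    rw [del_coeff]
    simp
  rw [h1, HahnSeries.coeff_smul, smul_eq_mul] at h2
  rcases mul_eq_zero.1 h2 with h3 | h3
  · have : (n + 1 : ℕ) = 0 := by exact_mod_cast h3
    omega
  · exact h3

theorem ANN_aux {T : L k} (hT : SimplePole T) (n : ℕ) : ∀ h : L k,
    (∀ j : ℤ, j < -n → h.coeff j = 0) → (∀ a : ℕ, (T ^ a * h).coeff 0 = 0) →
    ∃ P : k[X], h = aeval T P * del T := by
  have hlam : T.coeff (-1) ≠ 0 := hT.1
  induction n with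
  | zero =>
    intro h hneg hh
    refine ⟨0, ?_⟩
    rw [map_zero, zero_mul]
    by_contra h0
    have h1 : 0 ≤ h.order := by
      by_contra hlt
      rw [not_le] at hlt
      exact (HahnSeries.coeff_order_eq_zero.not.2 h0) (hneg _ (by simpa using hlt))
    obtain ⟨j, hj⟩ := Int.eq_ofNat_of_zero_le h1
    obtain ⟨hp1, hp2, hp3⟩ := ANN_pow hT j
    have h2 : (T ^ j * h).order = 0 := by
      rw [HahnSeries.order_mul hp1 h0, hp2, hj]
      ring
    have h3 := hh j
    rw [← h2] at h3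
    exact (HahnSeries.coeff_order_eq_zero.not.2 (mul_ne_zero hp1 h0)) h3
  | succ n ih =>
    intro h hneg hh
    obtain ⟨hp1, hp2, hp3⟩ := ANN_pow hT n
    obtain ⟨hd1, hd2, hd3⟩ := ANN_order (ANN_del hT).1 (ANN_del hT).2
    have hm1 : T ^ n * del T ≠ 0 := mul_ne_zero hp1 hd1
    have hm2 : (T ^ n * del T).order = -((n : ℤ) + 1) := by
      rw [HahnSeries.order_mul hp1 hd1, hp2, hd2]
      ring
    set lam := (T ^ n * del T).coeff (-((n : ℤ) + 1)) with hlamdef
    have hl0 : lam ≠ 0 := by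
      rw [hlamdef, ← hm2]
      exact HahnSeries.coeff_order_eq_zero.not.2 hm1
    set c : k := h.coeff (-((n : ℤ) + 1)) / lam with hc
    have key : ∃ P : k[X], h - c • (T ^ n * del T) = aeval T P * del T := by
      refine ih (h - c • (T ^ n * del T)) (fun j hj => ?_) (fun a => ?_)
      · rw [HahnSeries.coeff_sub, HahnSeries.coeff_smul, smul_eq_mul]
        by_cases hj2 : j = -((n : ℤ) + 1)
        · rw [hj2, ← hlamdef, hc, div_mul_cancel₀ _ hl0, sub_self]
        · have hj3 : j < -((n : ℤ) + 1) := by omega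
          rw [hneg j (by push_cast; exact hj3),
            HahnSeries.coeff_eq_zero_of_lt_order (by rw [hm2]; exact hj3), mul_zero, sub_self]
      · rw [mul_sub, HahnSeries.coeff_sub, hh a, mul_smul_comm, HahnSeries.coeff_smul, ← mul_assoc,
          ← pow_add, ANN_CT, smul_zero, sub_self]
    obtain ⟨P, hP⟩ := key
    refine ⟨P + Polynomial.C c * Polynomial.X ^ n, ?_⟩
    rw [map_add, add_mul, ← hP]
    simp only [map_mul, map_pow, aeval_X, aeval_C]
    rw [mul_assoc, ← Algebra.smul_def]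
    abel

theorem ANN {T h : L k} (hT : SimplePole T) (hh : ∀ a : ℕ, (T ^ a * h).coeff 0 = 0) :
    ∃ P : k[X], h = aeval T P * del T := by
  refine ANN_aux hT (-h.order).toNat h (fun j hj => ?_) hh
  apply HahnSeries.coeff_eq_zero_of_lt_order
  have := Int.self_le_toNat (-h.order)
  omega

end

end Pool.Agent.Lib_helper45.BDP.ANN
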