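import Pool.Agent.Lib_helper45.BDP.Defs

/-!
# Block AVG
-/

namespace Pool.Agent.Lib_helper45.BDP.AVG

open Polynomial

noncomputable section

variable {k : Type*} [Field k] [IsAlgClosed k] [CharZero k]

theorem AVG {M : ℕ} (hM : 0 < M) :
    ∃ s : Finset kˣ, s.card = M ∧ (∀ ζ : kˣ, ζ ∈ s ↔ ζ ^ M = 1) ∧
      ∀ u : L k, ∑ ζ ∈ s, th ζ 1 u = (M : k) • th 1 M (U M u) := by
  haveI : NeZero M := ⟨hM.ne'⟩
  haveI : NeZero (M : k) := ⟨by exact_mod_cast hM.ne'⟩
  obtain ⟨ζ, hζ⟩ := HasEnoughRootsOfUnity.exists_primitiveRoot k M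
  have hu : IsUnit ζ := hζ.isUnit hM.ne'
  obtain ⟨ξ, rfl⟩ := hu
  have hξ : IsPrimitiveRoot ξ M := IsPrimitiveRoot.coe_units_iff.1 hζ
  classical
  have hinj : Set.InjOn (fun i : ℕ => ξ ^ i) (Finset.range M : Set ℕ) := by
    intro i hi j hj hij
    exact hξ.pow_inj (Finset.mem_range.1 hi) (Finset.mem_range.1 hj) hij
  refine ⟨(Finset.range M).image (fun i => ξ ^ i), ?_, ?_, ?_⟩
  · rw [Finset.card_image_of_injOn hinj, Finset.card_range]
  · intro η
    rw [Finset.mem_image]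
    constructor
    · rintro ⟨i, _, rfl⟩
      rw [← pow_mul, mul_comm, pow_mul, hξ.pow_eq_one, one_pow]
    · intro h
      have h' : (η : k) ^ M = 1 := by
        rw [← Units.val_pow_eq_pow_val, h, Units.val_one]
      obtain ⟨i, hi, hi2⟩ := hζ.eq_pow_of_pow_eq_one h'
      refine ⟨i, Finset.mem_range.2 hi, ?_⟩
      apply Units.ext
      simpa using hi2
  · intro u
    rw [Finset.sum_image hinj]
    ext j
    rw [HahnSeries.coeff_sum, HahnSeries.coeff_smul]
    have h1 : ∀ i, (th (ξ ^ i) 1 u).coeff j = (((ξ ^ (-j) : kˣ) : k) ^ i) * u.coeff j := by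
      intro i
      rw [th_one_coeff]
      congr 1
      rw [← Units.val_pow_eq_pow_val, ← zpow_natCast, ← zpow_natCast, ← zpow_mul, ← zpow_mul,
        mul_comm]
    rw [Finset.sum_congr rfl fun i _ => h1 i, ← Finset.sum_mul]
    by_cases hj : (M : ℤ) ∣ j
    · obtain ⟨i, rfl⟩ := hj
      rw [th_coeff_mul _ hM, U_coeff hM]
      have h2 : (ξ ^ (-((M : ℤ) * i)) : kˣ) = 1 := by
        rw [← mul_neg, zpow_mul, zpow_natCast, hξ.pow_eq_one, one_zpow]
      rw [h2]
      simp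
    · rw [th_coeff_of_not_dvd _ hM _ _ hj, smul_zero]
      have h2 : ((ξ ^ (-j) : kˣ) : k) ≠ 1 := by
        intro h
        have h3 : (ξ ^ (-j) : kˣ) = 1 := Units.ext h
        rw [hξ.zpow_eq_one_iff_dvd] at h3
        exact hj ((dvd_neg).1 h3)
      have h3 : ((ξ ^ (-j) : kˣ) : k) ^ M = 1 := by
        rw [← Units.val_pow_eq_pow_val, ← zpow_natCast, ← zpow_mul, mul_comm, zpow_mul,
          zpow_natCast, hξ.pow_eq_one, one_zpow, Units.val_one]
      have h4 := mul_geom_sum (((ξ ^ (-j) : kˣ) : k)) M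
      rw [h3, sub_self] at h4
      rcases mul_eq_zero.1 h4 with h5 | h5
      · exact absurd (sub_eq_zero.1 h5) h2
      · rw [h5, zero_mul]

end

end Pool.Agent.Lib_helper45.BDP.AVG
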