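import Pool.Agent.Lib_helper45.BDP.Defs

/-!
# Block BOT: existence of the Boettcher series
-/

namespace Pool.Agent.Lib_helper45.BDP.BOT

open Polynomial

noncomputable section

variable {k : Type*} [Field k]

/-- `V(z) ↦ V(z^d)` -/
def ex (d : ℕ) (V : PowerSeries k) : PowerSeries k :=
  PowerSeries.mk fun j => if d ∣ j then PowerSeries.coeff (j / d) V else 0

theorem coeff_ex (d : ℕ) (V : PowerSeries k) (j : ℕ) :
    PowerSeries.coeff j (ex d V) = if d ∣ j then PowerSeries.coeff (j / d) V else 0 := by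
  rw [ex, PowerSeries.coeff_mk]

/-- `z^d f(Y/z)` -/
def Ph (f : k[X]) : (PowerSeries k)[X] :=
  ∑ i ∈ Finset.range (f.natDegree + 1),
    Polynomial.C (PowerSeries.C (f.coeff i) * PowerSeries.X ^ (f.natDegree - i)) *
      Polynomial.X ^ i

theorem Ph_eval (f : k[X]) (V : PowerSeries k) : (Ph f).eval V =
    ∑ i ∈ Finset.range (f.natDegree + 1),
      PowerSeries.C (f.coeff i) * PowerSeries.X ^ (f.natDegree - i) * V ^ i := by
  rw [Ph, eval_finsetSum]
  refine Finset.sum_congr rfl fun i _ => ?_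
  rw [eval_mul, eval_C, eval_pow, eval_X]

theorem Ph_map {f : k[X]} (hm : f.Monic) :
    (Ph f).map (PowerSeries.constantCoeff (R := k)) = X ^ f.natDegree := by
  rw [Ph, Polynomial.map_sum, Finset.sum_eq_single f.natDegree]
  · rw [Polynomial.map_mul, Polynomial.map_C, Polynomial.map_pow, Polynomial.map_X, Nat.sub_self,
      pow_zero, mul_one, PowerSeries.constantCoeff_C, hm.coeff_natDegree, map_one, one_mul]
  · intro i hi hi2
    rw [Finset.mem_range] at hi
    rw [Polynomial.map_mul, Polynomial.map_C, map_mul, map_pow, PowerSeries.constantCoeff_X,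
      zero_pow (by omega), mul_zero, map_zero, zero_mul]
  · intro h
    exact absurd (Finset.mem_range.2 (Nat.lt_succ_self _)) h

theorem coeff0_eval (P : (PowerSeries k)[X]) (V : PowerSeries k) :
    PowerSeries.coeff 0 (P.eval V) =
      (P.map (PowerSeries.constantCoeff (R := k))).eval (PowerSeries.constantCoeff V) := by
  rw [PowerSeries.coeff_zero_eq_constantCoeff_apply, eval_map, eval₂_at_apply]

/-- the correction -/
def cor (f : k[X]) (n : ℕ) (V : PowerSeries k) : k :=
  (PowerSeries.coeff (n + 1) (ex f.natDegree V) - PowerSeries.coeff (n + 1) ((Ph f).eval V)) /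
    (f.natDegree : k)

/-- the approximations -/
def W (f : k[X]) : ℕ → PowerSeries k
  | 0 => 1
  | n + 1 => W f n + PowerSeries.C (cor f n (W f n)) * PowerSeries.X ^ (n + 1)

theorem W_succ (f : k[X]) (n : ℕ) :
    W f (n + 1) = W f n + PowerSeries.C (cor f n (W f n)) * PowerSeries.X ^ (n + 1) := rfl

theorem coeff_W_succ (f : k[X]) (n j : ℕ) (hj : j ≤ n) :
    PowerSeries.coeff j (W f (n + 1)) = PowerSeries.coeff j (W f n) := by
  rw [W_succ, map_add, PowerSeries.coeff_mul_X_pow', if_neg (by omega), add_zero]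

theorem coeff_W (f : k[X]) (j : ℕ) {n : ℕ} (hj : j ≤ n) :
    PowerSeries.coeff j (W f n) = PowerSeries.coeff j (W f j) := by
  induction n, hj using Nat.le_induction with
  | base => rfl
  | succ n hn ih => rw [coeff_W_succ f n j hn, ih]

theorem coeff0_W (f : k[X]) (n : ℕ) : PowerSeries.constantCoeff (W f n) = 1 := by
  rw [← PowerSeries.coeff_zero_eq_constantCoeff_apply, coeff_W f 0 (Nat.zero_le n)]
  simp [W]

theorem coeff_ex_congr {d : ℕ} (hd : 2 ≤ d) {V V' : PowerSeries k} {n : ℕ}
    (h : ∀ j ≤ n, PowerSeries.coeff j V = PowerSeries.coeff j V') (j : ℕ) (hj : j ≤ n + 1) :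
    PowerSeries.coeff j (ex d V) = PowerSeries.coeff j (ex d V') := by
  rw [coeff_ex, coeff_ex]
  by_cases hdj : d ∣ j
  · rw [if_pos hdj, if_pos hdj]
    apply h
    rcases Nat.eq_zero_or_pos j with h0 | h0
    · subst h0; simp
    · have : j / d < j := Nat.div_lt_self h0 hd
      omega
  · rw [if_neg hdj, if_neg hdj]

theorem inv {f : k[X]} [CharZero k] (hm : f.Monic) (hd : 2 ≤ f.natDegree) (n : ℕ) :
    ∀ j ≤ n, PowerSeries.coeff j ((Ph f).eval (W f n)) =
      PowerSeries.coeff j (ex f.natDegree (W f n)) := by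
  induction n with
  | zero =>
    intro j hj
    obtain rfl : j = 0 := by omega
    rw [coeff0_eval, Ph_map hm, coeff_ex, coeff0_W]
    simp [W]
  | succ n ih =>
    intro j hj
    have hd0 : (f.natDegree : k) ≠ 0 := by
      have : f.natDegree ≠ 0 := by omega
      exact_mod_cast this
    have hex : PowerSeries.coeff j (ex f.natDegree (W f (n + 1))) =
        PowerSeries.coeff j (ex f.natDegree (W f n)) :=
      coeff_ex_congr hd (fun i hi => coeff_W_succ f n i hi) j hj
    rw [hex, W_succ]
    set a := cor f n (W f n) with ha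
    obtain ⟨K, hK⟩ := Polynomial.binomExpansion (Ph f) (W f n)
      (PowerSeries.C a * PowerSeries.X ^ (n + 1))
    rw [hK]
    have e1 : K * (PowerSeries.C a * PowerSeries.X ^ (n + 1)) ^ 2 =
        (K * PowerSeries.C a ^ 2 * PowerSeries.X ^ (n + 1)) * PowerSeries.X ^ (n + 1) := by ring
    have e2 : (derivative (Ph f)).eval (W f n) * (PowerSeries.C a * PowerSeries.X ^ (n + 1)) =
        ((derivative (Ph f)).eval (W f n) * PowerSeries.C a) * PowerSeries.X ^ (n + 1) := by ring
    rw [e1, e2, map_add, map_add, PowerSeries.coeff_mul_X_pow', PowerSeries.coeff_mul_X_pow']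
    rcases Nat.lt_or_ge j (n + 1) with hlt | hge
    · rw [if_neg (by omega), if_neg (by omega), add_zero, add_zero]
      exact ih j (by omega)
    · obtain rfl : j = n + 1 := by omega
      rw [if_pos le_rfl, if_pos le_rfl, Nat.sub_self, PowerSeries.coeff_mul_X_pow',
        if_neg (by omega), add_zero, PowerSeries.coeff_mul_C, coeff0_eval, ← derivative_map,
        Ph_map hm, coeff0_W]
      rw [ha, cor, derivative_X_pow]
      simp only [eval_mul, eval_C, eval_pow, eval_X, one_pow, mul_one]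
      rw [mul_div_cancel₀ _ hd0]
      ring

theorem coeff1 {f : k[X]} (hd : 2 ≤ f.natDegree) (hc : f.coeff (f.natDegree - 1) = 0) :
    PowerSeries.coeff 1 (W f 1) = 0 := by
  have h1 : PowerSeries.coeff 1 (ex f.natDegree (1 : PowerSeries k)) = 0 := by
    rw [coeff_ex, if_neg]
    intro h
    have := Nat.le_of_dvd Nat.one_pos h
    omega
  have h2 : PowerSeries.coeff 1 ((Ph f).eval 1) = 0 := by
    rw [Ph_eval, map_sum]
    refine Finset.sum_eq_zero fun i hi => ?_
    rw [one_pow, mul_one, PowerSeries.coeff_C_mul, PowerSeries.coeff_X_pow]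
    by_cases h : 1 = f.natDegree - i
    · have : i = f.natDegree - 1 := by omega
      rw [this, hc, zero_mul]
    · rw [if_neg h, mul_zero]
  have h3 : cor f 0 (W f 0) = 0 := by
    rw [cor]
    change (PowerSeries.coeff 1 (ex f.natDegree (1 : PowerSeries k)) -
      PowerSeries.coeff 1 ((Ph f).eval (1 : PowerSeries k))) / (f.natDegree : k) = 0
    rw [h1, h2, sub_self, zero_div]
  rw [W_succ, h3, map_zero, zero_mul, add_zero]
  change PowerSeries.coeff 1 (1 : PowerSeries k) = 0
  rw [PowerSeries.coeff_one, if_neg one_ne_zero]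

/-- the limit -/
def Wf (f : k[X]) : PowerSeries k := PowerSeries.mk fun j => PowerSeries.coeff j (W f j)

theorem coeff_Wf (f : k[X]) (j : ℕ) : PowerSeries.coeff j (Wf f) = PowerSeries.coeff j (W f j) := by
  rw [Wf, PowerSeries.coeff_mk]

theorem Wf_eq {f : k[X]} [CharZero k] (hm : f.Monic) (hd : 2 ≤ f.natDegree) :
    (Ph f).eval (Wf f) = ex f.natDegree (Wf f) := by
  ext n
  have h1 : ∀ j ≤ n, PowerSeries.coeff j (Wf f) = PowerSeries.coeff j (W f n) := by
    intro j hj
    rw [coeff_Wf, coeff_W f j hj]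
  rw [coeff_ex_congr hd h1 n (Nat.le_succ n), ← inv hm hd n n le_rfl]
  have h2 : (PowerSeries.X : PowerSeries k) ^ (n + 1) ∣ Wf f - W f n := by
    rw [PowerSeries.X_pow_dvd_iff]
    intro m hmn
    rw [map_sub, h1 m (by omega), sub_self]
  have h3 := h2.trans (Polynomial.sub_dvd_eval_sub (Wf f) (W f n) (Ph f))
  rw [PowerSeries.X_pow_dvd_iff] at h3
  have h4 := h3 n (Nat.lt_succ_self n)
  rw [map_sub, sub_eq_zero] at h4
  exact h4

theorem th_ofPS {d : ℕ} (hd : 0 < d) (V : PowerSeries k) :
    th 1 d (HahnSeries.ofPowerSeries ℤ k V) = HahnSeries.ofPowerSeries ℤ k (ex d V) := by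
  ext j
  have hd0 : (0 : ℤ) < d := by exact_mod_cast hd
  by_cases hj : (d : ℤ) ∣ j
  · obtain ⟨i, rfl⟩ := hj
    rw [th_coeff_mul _ hd, PowerSeries.coeff_coe, PowerSeries.coeff_coe]
    rcases lt_or_ge i 0 with h | h
    · rw [if_pos h, if_pos (mul_neg_of_pos_of_neg hd0 h), mul_zero]
    · rw [if_neg (not_lt.2 h), if_neg (not_lt.2 (mul_nonneg hd0.le h))]
      obtain ⟨i, rfl⟩ := Int.eq_ofNat_of_zero_le h
      have e : ((d : ℤ) * (i : ℤ)).natAbs = d * i := by
        rw [← Nat.cast_mul, Int.natAbs_natCast]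
      rw [e, coeff_ex, if_pos (Dvd.intro i rfl), Nat.mul_div_cancel_left _ hd]
      simp
  · rw [th_coeff_of_not_dvd _ hd _ _ hj, PowerSeries.coeff_coe]
    rcases lt_or_ge j 0 with h | h
    · rw [if_pos h]
    · rw [if_neg (not_lt.2 h), coeff_ex, if_neg]
      intro h1
      apply hj
      rw [← Int.natCast_dvd_natCast, Int.natCast_natAbs, abs_of_nonneg h] at h1
      exact h1

theorem th_single {d : ℕ} (hd : 0 < d) :
    th 1 d (HahnSeries.single (-1) 1 : L k) = HahnSeries.single (-(d : ℤ)) 1 := by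
  ext j
  by_cases hj : (d : ℤ) ∣ j
  · obtain ⟨i, rfl⟩ := hj
    rw [th_coeff_mul _ hd]
    by_cases h : i = -1
    · subst h
      rw [HahnSeries.coeff_single_same, mul_neg_one, HahnSeries.coeff_single_same]
      simp
    · rw [HahnSeries.coeff_single_of_ne h, mul_zero, HahnSeries.coeff_single_of_ne]
      intro h1
      apply h
      have hd0 : (d : ℤ) ≠ 0 := by exact_mod_cast hd.ne'
      apply mul_left_cancel₀ hd0
      rw [h1]
      ring
  · rw [th_coeff_of_not_dvd _ hd _ _ hj, HahnSeries.coeff_single_of_ne]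
    rintro rfl
    exact hj ⟨-1, by ring⟩

theorem BOT {k : Type*} [Field k] [IsAlgClosed k] [CharZero k] {f : k[X]} (hm : f.Monic)
    (hd : 2 ≤ f.natDegree) (hc : f.coeff (f.natDegree - 1) = 0) :
    ∃ T : L k, Bott f T := by
  set T : L k := HahnSeries.single (-1) 1 * HahnSeries.ofPowerSeries ℤ k (Wf f) with hT
  have hcT : ∀ j : ℤ, T.coeff j = (HahnSeries.ofPowerSeries ℤ k (Wf f)).coeff (j + 1) := by
    intro j
    have := HahnSeries.coeff_single_mul_add (r := (1 : k))
      (x := HahnSeries.ofPowerSeries ℤ k (Wf f)) (a := j + 1) (b := (-1 : ℤ))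
    rw [one_mul] at this
    rw [← this]
    congr 1
    ring
  have h1 : T.coeff (-1) = 1 := by
    rw [hcT, PowerSeries.coeff_coe, if_neg (by norm_num)]
    simp [coeff_Wf, W]
  have h0 : T.coeff 0 = 0 := by
    rw [hcT, PowerSeries.coeff_coe, if_neg (by norm_num)]
    have := coeff1 hd hc
    simpa [coeff_Wf] using this
  have hpole : SimplePole T := by
    refine ⟨by rw [h1]; exact one_ne_zero, fun j hj => ?_⟩
    rw [hcT, PowerSeries.coeff_coe, if_pos (by omega)]
  have heq : aeval T f = th 1 f.natDegree T := by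
    rw [hT, map_mul, th_single (by omega), th_ofPS (by omega), ← Wf_eq hm hd, Ph_eval,
      aeval_eq_sum_range, map_sum, Finset.mul_sum]
    refine Finset.sum_congr rfl fun i hi => ?_
    have hi2 : i ≤ f.natDegree := by
      have := Finset.mem_range.1 hi
      omega
    rw [map_mul, map_mul, map_pow, map_pow, HahnSeries.ofPowerSeries_C,
      HahnSeries.ofPowerSeries_X, Algebra.smul_def, algebraMap_L, mul_pow]
    have e : (HahnSeries.single (-1 : ℤ) (1 : k)) ^ i =
        HahnSeries.single (-(f.natDegree : ℤ)) (1 : k) *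
          (HahnSeries.single (1 : ℤ) (1 : k)) ^ (f.natDegree - i) := by
      rw [HahnSeries.single_pow, HahnSeries.single_pow, HahnSeries.single_mul_single, one_pow,
        one_pow, one_mul]
      congr 1
      rw [nsmul_eq_mul, nsmul_eq_mul, Nat.cast_sub hi2]
      ring_nf
    rw [e]
    ring
  exact ⟨T, ⟨⟨hd, hpole, heq⟩, h1, h0⟩⟩

end

end Pool.Agent.Lib_helper45.BDP.BOT
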