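import Pool.Agent.Lib_helper45.BDP.Defs

/-! Block BRAN (BDP): the branch at infinity. -/

namespace Pool.Agent.Lib_helper45.BDP.BRAN

open Polynomial Pool.Agent.Lib_helper45.BDP

noncomputable section

/-! ### Top coefficients -/

section top

variable {A : Type*} [CommRing A]

/-- exponents at least `-n`, coefficient `α` at `-n` -/
def Top (u : HahnSeries ℤ A) (n : ℕ) (α : A) : Prop :=
  (∀ j : ℤ, j < -(n : ℤ) → u.coeff j = 0) ∧ u.coeff (-(n : ℤ)) = α

theorem Top.unique {u : HahnSeries ℤ A} {n : ℕ} {α β : A} (h : Top u n α) (h' : Top u n β) :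
    α = β := h.2.symm.trans h'.2

theorem Top.zero (n : ℕ) : Top (0 : HahnSeries ℤ A) n 0 := ⟨fun _ _ => by simp, by simp⟩

theorem Top.add {u v : HahnSeries ℤ A} {n : ℕ} {α β : A} (h : Top u n α) (h' : Top v n β) :
    Top (u + v) n (α + β) :=
  ⟨fun j hj => by rw [HahnSeries.coeff_add, h.1 j hj, h'.1 j hj, add_zero], by
    rw [HahnSeries.coeff_add, h.2, h'.2]⟩

theorem Top.sum {ι : Type*} (s : Finset ι) {u : ι → HahnSeries ℤ A} {n : ℕ} {α : ι → A}
    (h : ∀ i ∈ s, Top (u i) n (α i)) : Top (∑ i ∈ s, u i) n (∑ i ∈ s, α i) := by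
  classical
  induction s using Finset.induction_on with
  | empty => simpa using Top.zero n
  | insert i s hi ih =>
    rw [Finset.sum_insert hi, Finset.sum_insert hi]
    exact (h i (Finset.mem_insert_self i s)).add
      (ih fun j hj => h j (Finset.mem_insert_of_mem hj))

theorem Top.lt {u : HahnSeries ℤ A} {n m : ℕ} {α : A} (h : Top u n α) (hnm : n < m) :
    Top u m 0 :=
  ⟨fun j hj => h.1 j (by omega), h.1 _ (by omega)⟩

theorem Top.mul {u v : HahnSeries ℤ A} {n m : ℕ} {α β : A} (h : Top u n α) (h' : Top v m β) :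
    Top (u * v) (n + m) (α * β) := by
  constructor
  · intro j hj
    rw [HahnSeries.coeff_mul]
    refine Finset.sum_eq_zero fun p hp => ?_
    obtain ⟨h1, h2, h3⟩ := Finset.mem_antidiagonal.1 hp
    exfalso
    rcases lt_or_ge p.1 (-(n : ℤ)) with h4 | h4
    · exact h1 (h.1 _ h4)
    · exact h2 (h'.1 _ (by push_cast at hj; omega))
  · rw [HahnSeries.coeff_mul, Finset.sum_eq_single (-(n : ℤ), -(m : ℤ))]
    · rw [h.2, h'.2]
    · intro p hp hne
      obtain ⟨h1, h2, h3⟩ := Finset.mem_antidiagonal.1 hp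
      exfalso
      rcases lt_trichotomy p.1 (-(n : ℤ)) with h4 | h4 | h4
      · exact h1 (h.1 _ h4)
      · apply hne
        refine Prod.ext h4 ?_
        simp only
        push_cast at h3
        omega
      · exact h2 (h'.1 _ (by push_cast at h3; omega))
    · intro hp
      by_contra h5
      apply hp
      refine Finset.mem_antidiagonal.2 ⟨?_, ?_, ?_⟩
      · rw [HahnSeries.mem_support]
        exact left_ne_zero_of_mul h5
      · rw [HahnSeries.mem_support]
        exact right_ne_zero_of_mul h5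
      · push_cast
        ring

theorem Top.C (a : A) : Top (HahnSeries.C a : HahnSeries ℤ A) 0 a := by
  constructor
  · intro j hj
    rw [HahnSeries.C_apply, HahnSeries.coeff_single_of_ne]
    simp at hj
    omega
  · simp [HahnSeries.C_apply]

theorem Top.pow {u : HahnSeries ℤ A} {n : ℕ} {α : A} (h : Top u n α) (i : ℕ) :
    Top (u ^ i) (i * n) (α ^ i) := by
  induction i with
  | zero =>
    have := Top.C (A := A) 1
    simpa using this
  | succ i ih =>
    rw [pow_succ, pow_succ, Nat.succ_mul]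
    exact ih.mul h

theorem Top.single (n : ℕ) (a : A) : Top (HahnSeries.single (-(n : ℤ)) a) n a := by
  constructor
  · intro j hj
    rw [HahnSeries.coeff_single_of_ne hj.ne]
  · rw [HahnSeries.coeff_single_same]

/-- two nonzero top coefficients -/
theorem Top.deg_eq {u : HahnSeries ℤ A} {n m : ℕ} {α β : A} (h : Top u n α) (h' : Top u m β)
    (hα : α ≠ 0) (hβ : β ≠ 0) : n = m := by
  rcases lt_trichotomy n m with h1 | h1 | h1
  · exact absurd (h'.unique (h.lt h1)) hβ
  · exact h1
  · exact absurd (h.unique (h'.lt h1)) hα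

end top

/-! ### Top forms -/

section form

variable {k : Type*} [Field k]

/-- the top form of weight `W` (at `x = 1`) -/
def bran_g (q p W : ℕ) (G : k[X][X]) : k[X] :=
  ∑ j ∈ G.support, ∑ i ∈ (G.coeff j).support,
    if q * i + p * j = W then C ((G.coeff j).coeff i) * X ^ j else 0

theorem bran_coeff {q p W : ℕ} (hq : 1 ≤ q) (G : k[X][X]) {i j : ℕ} (h : q * i + p * j = W) :
    (bran_g q p W G).coeff j = (G.coeff j).coeff i := by
  unfold bran_g
  rw [finsetSum_coeff]
  have h1 : ∀ j' ∈ G.support, j' ≠ j → (∑ i' ∈ (G.coeff j').support,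
      if q * i' + p * j' = W then C ((G.coeff j').coeff i') * X ^ j' else 0).coeff j = 0 := by
    intro j' _ hj'
    rw [finsetSum_coeff]
    refine Finset.sum_eq_zero fun i' _ => ?_
    split_ifs
    · rw [coeff_C_mul_X_pow, if_neg (Ne.symm hj')]
    · rw [coeff_zero]
  by_cases hj : G.coeff j = 0
  · rw [hj, coeff_zero]
    refine Finset.sum_eq_zero fun j' hj' => h1 j' hj' ?_
    rintro rfl
    exact (mem_support_iff.1 hj') hj
  · rw [Finset.sum_eq_single j h1 (fun h => absurd (mem_support_iff.2 hj) h), finsetSum_coeff]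
    have h2 : ∀ i' ∈ (G.coeff j).support, i' ≠ i →
        (if q * i' + p * j = W then C ((G.coeff j).coeff i') * X ^ j else 0 : k[X]).coeff j =
          0 := by
      intro i' _ hi'
      rw [if_neg, coeff_zero]
      intro h3
      apply hi'
      have h4 : q * i' = q * i := by omega
      exact Nat.eq_of_mul_eq_mul_left (by omega) h4
    by_cases hi : (G.coeff j).coeff i = 0
    · rw [hi]
      refine Finset.sum_eq_zero fun i' hi' => h2 i' hi' ?_
      rintro rfl
      exact (mem_support_iff.1 hi') hi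
    · rw [Finset.sum_eq_single i h2 (fun h => absurd (mem_support_iff.2 hi) h), if_pos h,
        coeff_C_mul_X_pow, if_pos rfl]

/-- the maximal weight -/
theorem bran_max (q p : ℕ) (hq : 1 ≤ q) {H : k[X][X]} (hH : H ≠ 0) :
    ∃ W : ℕ, (∀ j i, (H.coeff j).coeff i ≠ 0 → q * i + p * j ≤ W) ∧ bran_g q p W H ≠ 0 := by
  classical
  set s : Finset (Σ _ : ℕ, ℕ) := H.support.sigma (fun j => (H.coeff j).support) with hs
  have hne : s.Nonempty := by
    obtain ⟨j, hj⟩ := nonempty_support_iff.2 hH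
    obtain ⟨i, hi⟩ := nonempty_support_iff.2 (mem_support_iff.1 hj)
    exact ⟨⟨j, i⟩, Finset.mem_sigma.2 ⟨hj, hi⟩⟩
  obtain ⟨a, ha, hmax⟩ := Finset.exists_max_image s (fun a => q * a.2 + p * a.1) hne
  refine ⟨q * a.2 + p * a.1, ?_, ?_⟩
  · intro j i h
    refine hmax ⟨j, i⟩ (Finset.mem_sigma.2 ⟨?_, mem_support_iff.2 h⟩)
    rw [mem_support_iff]
    intro h0
    apply h
    simp [h0]
  · intro h
    have h1 := bran_coeff (p := p) hq H (rfl : q * a.2 + p * a.1 = q * a.2 + p * a.1)
    rw [h, coeff_zero] at h1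
    exact mem_support_iff.1 (Finset.mem_sigma.1 ha).2 h1.symm

variable {A : Type*} [CommRing A]

/-- evaluation of a polynomial in two variables -/
theorem bran_eval (φ : k[X] →+* HahnSeries ℤ A) (ι : k →+* A)
    (hφ : ∀ a, φ (C a) = HahnSeries.C (ι a)) {q p N W : ℕ} (hN : 1 ≤ N) {v : HahnSeries ℤ A}
    {β : A} (hu : Top (φ X) (q * N) 1) (hv : Top v (p * N) β) (G : k[X][X])
    (hw : ∀ j i, (G.coeff j).coeff i ≠ 0 → q * i + p * j ≤ W) :
    Top (G.eval₂ φ v) (W * N) ((bran_g q p W G).eval₂ ι β) := by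
  have e1 : G.eval₂ φ v = ∑ j ∈ G.support, ∑ i ∈ (G.coeff j).support,
      HahnSeries.C (ι ((G.coeff j).coeff i)) * φ X ^ i * v ^ j := by
    rw [eval₂_eq_sum, Polynomial.sum_def]
    refine Finset.sum_congr rfl fun j _ => ?_
    rw [← Finset.sum_mul]
    congr 1
    conv_lhs => rw [(G.coeff j).as_sum_support_C_mul_X_pow]
    rw [map_sum]
    refine Finset.sum_congr rfl fun i _ => ?_
    rw [map_mul, map_pow, hφ]
  rw [e1]
  unfold bran_g
  rw [eval₂_finsetSum]
  refine Top.sum _ fun j _ => ?_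
  rw [eval₂_finsetSum]
  refine Top.sum _ fun i hi => ?_
  have h1 := ((Top.C (ι ((G.coeff j).coeff i))).mul (hu.pow i)).mul (hv.pow j)
  have e2 : 0 + i * (q * N) + j * (p * N) = (q * i + p * j) * N := by ring
  rw [e2, one_pow, mul_one] at h1
  split_ifs with h
  · rw [h] at h1
    simpa using h1
  · rw [eval₂_zero]
    refine h1.lt ?_
    have h2 := hw j i (mem_support_iff.1 hi)
    exact Nat.mul_lt_mul_of_pos_right (by omega) (by omega)

/-- evaluation of a monic polynomial in one variable -/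
theorem bran_evalF (ι : k →+* A) {F : k[X]} (hm : F.Monic) {w : HahnSeries ℤ A} {n : ℕ} {α : A}
    (hn : 1 ≤ n) (hw : Top w n α) :
    Top (F.eval₂ ((HahnSeries.C : A →+* HahnSeries ℤ A).comp ι) w) (n * F.natDegree)
      (α ^ F.natDegree) := by
  rw [eval₂_eq_sum_range, Finset.sum_range_succ]
  have h1 : Top (∑ i ∈ Finset.range F.natDegree,
      ((HahnSeries.C : A →+* HahnSeries ℤ A).comp ι) (F.coeff i) * w ^ i) (n * F.natDegree)
      (∑ i ∈ Finset.range F.natDegree, (0 : A)) := by
    refine Top.sum _ fun i hi => ?_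
    have h2 := (Top.C (ι (F.coeff i))).mul (hw.pow i)
    refine h2.lt ?_
    rw [zero_add, mul_comm]
    exact Nat.mul_lt_mul_of_pos_left (Finset.mem_range.1 hi) (by omega)
  have h3 : Top (((HahnSeries.C : A →+* HahnSeries ℤ A).comp ι) (F.coeff F.natDegree) *
      w ^ F.natDegree) (n * F.natDegree) (α ^ F.natDegree) := by
    rw [hm.coeff_natDegree, map_one, one_mul, mul_comm n]
    exact hw.pow _
  have h4 := h1.add h3
  simpa using h4

theorem bran_ev_cmp {B : Type*} [CommRing B] (φ : k[X] →+* B) (v : B) (F : k[X]) (G : k[X][X]) :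
    (cmp2 F G).eval₂ φ v =
      G.eval₂ (φ.comp (compRingHom F)) (F.eval₂ (φ.comp C) v) := by
  rw [cmp2, eval₂_comp, eval₂_map, eval₂_map]

/-- top forms of `G ∣ cmp2 F G` -/
theorem bran_top {F : k[X]} (hm : F.Monic) (hd : 1 ≤ F.natDegree) {G H : k[X][X]}
    (h : cmp2 F G = G * H) {q p W : ℕ} (hq : 1 ≤ q) (hp : 1 ≤ p)
    (hw : ∀ j i, (G.coeff j).coeff i ≠ 0 → q * i + p * j ≤ W) (hg : bran_g q p W G ≠ 0) :
    ∃ W' : ℕ, W + W' = W * F.natDegree ∧
      (∀ j i, (H.coeff j).coeff i ≠ 0 → q * i + p * j ≤ W') ∧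
      bran_g q p W G * bran_g q p W' H = (bran_g q p W G).comp (X ^ F.natDegree) := by
  set u : HahnSeries ℤ k[X] := HahnSeries.single (-(q : ℤ)) 1 with hu
  set v : HahnSeries ℤ k[X] := HahnSeries.single (-(p : ℤ)) X with hv
  set φ : k[X] →+* HahnSeries ℤ k[X] :=
    eval₂RingHom ((HahnSeries.C : k[X] →+* HahnSeries ℤ k[X]).comp C) u with hφ
  have hφC : ∀ a, φ (C a) = HahnSeries.C ((C : k →+* k[X]) a) := by
    intro a
    simp [hφ]
  have hφX : Top (φ X) q 1 := by
    have : φ X = u := by simp [hφ]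
    rw [this]
    exact Top.single q 1
  have hvT : Top v p X := Top.single p X
  -- the value of `cmp2 F G`
  have h1 : Top ((cmp2 F G).eval₂ φ v) (W * F.natDegree)
      ((bran_g q p W G).comp (X ^ F.natDegree)) := by
    rw [bran_ev_cmp]
    have h2 : Top ((φ.comp (compRingHom F)) X) (q * F.natDegree) 1 := by
      have e : (φ.comp (compRingHom F)) X =
          F.eval₂ ((HahnSeries.C : k[X] →+* HahnSeries ℤ k[X]).comp C) u := by
        rw [RingHom.comp_apply, coe_compRingHom_apply, X_comp, hφ, coe_eval₂RingHom]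
      rw [e]
      have := bran_evalF (C : k →+* k[X]) hm hq (Top.single (A := k[X]) q 1)
      rwa [one_pow] at this
    have h3 : Top (F.eval₂ (φ.comp C) v) (p * F.natDegree) (X ^ F.natDegree) := by
      have e : φ.comp C = (HahnSeries.C : k[X] →+* HahnSeries ℤ k[X]).comp C := by
        ext a
        rw [RingHom.comp_apply, hφC, RingHom.comp_apply]
      rw [e]
      exact bran_evalF (C : k →+* k[X]) hm hp hvT
    refine bran_eval (φ.comp (compRingHom F)) C ?_ hd h2 h3 G hw
    intro a
    rw [RingHom.comp_apply, coe_compRingHom_apply, C_comp, hφC]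
  have hone : ∀ {W : ℕ} (G : k[X][X]),
      (∀ j i, (G.coeff j).coeff i ≠ 0 → q * i + p * j ≤ W) →
      Top (G.eval₂ φ v) W (bran_g q p W G) := by
    intro W G hw
    have h2 := bran_eval φ C hφC (N := 1) le_rfl (q := q) (p := p) (v := v) (β := X)
      (by rwa [mul_one]) (by rwa [mul_one]) G hw
    rwa [mul_one, eval₂_C_X] at h2
  have hne : (bran_g q p W G).comp (X ^ F.natDegree) ≠ 0 := by
    rw [← expand_eq_comp_X_pow]
    exact (expand_ne_zero (by omega)).2 hg
  have hH : H ≠ 0 := by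
    rintro rfl
    rw [h, mul_zero, eval₂_zero] at h1
    exact hne (h1.unique (Top.zero _))
  obtain ⟨W', hW', hg'⟩ := bran_max q p hq hH
  have h4 : Top ((cmp2 F G).eval₂ φ v) (W + W') (bran_g q p W G * bran_g q p W' H) := by
    rw [h, eval₂_mul]
    exact (hone G hw).mul (hone H hW')
  have h5 := h4.deg_eq h1 (mul_ne_zero hg hg') hne
  refine ⟨W', h5, hW', ?_⟩
  rw [h5] at h4
  exact h4.unique h1

end form

/-! ### Iterates -/

section iter

variable {k : Type*} [Field k]

theorem bran_cmp2_cmp2 (F F₁ : k[X]) (G : k[X][X]) :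
    cmp2 F (cmp2 F₁ G) = cmp2 (F₁.comp F) G := by
  unfold cmp2
  rw [Polynomial.map_comp, Polynomial.map_map, Polynomial.map_map, comp_assoc]
  have e1 : (compRingHom F).comp (compRingHom F₁) = compRingHom (F₁.comp F) := by
    ext a
    · simp
    · simp
  have e2 : (compRingHom F).comp (C : k →+* k[X]) = C := by
    ext a
    simp
  rw [e1, e2, ← Polynomial.map_comp]

theorem bran_cmp2_X (G : k[X][X]) : cmp2 X G = G := by
  unfold cmp2
  have e : compRingHom (X : k[X]) = RingHom.id k[X] := by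
    ext a
    · simp
    · simp
  rw [e, Polynomial.map_id, map_X, comp_X]

theorem bran_dvd {F : k[X]} {G : k[X][X]} (h : G ∣ cmp2 F G) (R : ℕ) :
    G ∣ cmp2 (itr F R) G := by
  induction R with
  | zero => rw [itr_zero, bran_cmp2_X]
  | succ R ih =>
    rw [itr_succ, ← bran_cmp2_cmp2]
    exact ih.trans (cmp2_dvd _ h)

theorem bran_itr {F : k[X]} {T : L k} (hT : Frob F T) (R : ℕ) :
    aeval T (itr F R) = th 1 (F.natDegree ^ R) T := by
  have hM : 0 < F.natDegree := by
    have := hT.deg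
    omega
  induction R with
  | zero => rw [itr_zero, pow_zero, aeval_X, th_one_one]
  | succ R ih =>
    rw [itr_succ, aeval_comp, ih, aeval_algHom_apply, hT.eq, th_th _ _ (pow_pos hM R) hM,
      one_pow, mul_one, pow_succ]

/-- the multiplicity argument -/
theorem bran_mult [CharZero k] {g h : k[X]} (hg : g ≠ 0) {M : ℕ} (hM : 1 ≤ M)
    (heq : g * h = g.comp (X ^ M)) {c : k} (hc : c ≠ 0) (hcM : c ^ M = c) : h.eval c ≠ 0 := by
  obtain ⟨g₁, h1, h2⟩ := exists_eq_pow_rootMultiplicity_mul_and_not_dvd g hg c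
  set m := g.rootMultiplicity c with hm
  set Q : k[X] := ∑ i ∈ Finset.range M, X ^ i * C c ^ (M - 1 - i) with hQ
  have h3 : Q * (X - C c) = X ^ M - C c := by
    have := geom_sum₂_mul (X : k[X]) (C c) M
    rw [← C_pow, hcM] at this
    exact this
  have h4 : Q.eval c = M * c ^ (M - 1) := by
    rw [hQ, eval_finsetSum]
    simp only [eval_mul, eval_pow, eval_X, eval_C]
    exact geom_sum₂_self c M
  have h5 : Q.eval c ≠ 0 := by
    rw [h4]
    exact mul_ne_zero (by exact_mod_cast (by omega : M ≠ 0)) (pow_ne_zero _ hc)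
  have h6 : (X - C c) ^ m * (g₁ * h) = (X - C c) ^ m * (Q ^ m * g₁.comp (X ^ M)) := by
    have e1 : g.comp (X ^ M) = (X ^ M - C c) ^ m * g₁.comp (X ^ M) := by
      conv_lhs => rw [h1]
      rw [mul_comp, pow_comp, sub_comp, X_comp, C_comp]
    rw [← h3, mul_pow] at e1
    calc (X - C c) ^ m * (g₁ * h) = ((X - C c) ^ m * g₁) * h := by ring
      _ = g * h := by rw [← h1]
      _ = _ := by
        rw [heq, e1]
        ring
  have h7 := mul_left_cancel₀ (pow_ne_zero m (X_sub_C_ne_zero c)) h6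
  have h8 := congrArg (eval c) h7
  rw [eval_mul, eval_mul, eval_pow, eval_comp, eval_pow, eval_X, hcM] at h8
  have h9 : g₁.eval c ≠ 0 := by
    intro h
    exact h2 (dvd_iff_isRoot.2 h)
  intro h
  rw [h, mul_zero] at h8
  exact mul_ne_zero (pow_ne_zero m h5) h9 h8.symm

end iter

variable {k : Type*} [Field k] [IsAlgClosed k] [CharZero k]

/-- a nonzero periodic root -/
theorem bran_root {g h : k[X]} {M j b : ℕ} (hM : 1 ≤ M) (heq : g * h = g.comp (X ^ M))
    (hj : g.coeff j ≠ 0) (hb : g.coeff b ≠ 0) (hjb : j < b) :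
    ∃ (c : kˣ) (R : ℕ), 1 ≤ R ∧ c ^ (M ^ R) = c ∧ g.eval (c : k) = 0 := by
  have hg : g ≠ 0 := by
    rintro rfl
    exact hj (coeff_zero j)
  -- a nonzero root
  have h1 : X ^ g.natTrailingDegree ∣ g := by
    rw [X_pow_dvd_iff]
    intro d hd
    exact coeff_eq_zero_of_lt_natTrailingDegree hd
  obtain ⟨g1, h2⟩ := h1
  have h3 : g1.coeff 0 ≠ 0 := by
    intro h3
    have h4 : g.coeff g.natTrailingDegree ≠ 0 := trailingCoeff_nonzero_iff_nonzero.2 hg
    apply h4
    have h5 : (X ^ g.natTrailingDegree * g1).coeff (0 + g.natTrailingDegree) = g1.coeff 0 :=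
      coeff_X_pow_mul g1 _ 0
    rw [zero_add, ← h2] at h5
    rw [h5, h3]
  have h6 : g.natTrailingDegree ≤ j := natTrailingDegree_le_of_ne_zero hj
  have h7 : g1.coeff (b - g.natTrailingDegree) ≠ 0 := by
    have h5 := coeff_X_pow_mul g1 g.natTrailingDegree (b - g.natTrailingDegree)
    rw [← h2, Nat.sub_add_cancel (by omega)] at h5
    rwa [← h5]
  have h8 : g1.degree ≠ 0 := by
    intro h
    have h9 : g1.natDegree = 0 := natDegree_eq_zero_iff_degree_le_zero.2 h.le
    have h10 := le_natDegree_of_ne_zero h7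
    omega
  obtain ⟨c₀, hc₀⟩ := IsAlgClosed.exists_root g1 h8
  have hc0 : c₀ ≠ 0 := by
    rintro rfl
    rw [IsRoot.def, ← coeff_zero_eq_eval_zero] at hc₀
    exact h3 hc₀
  have hr0 : g.eval c₀ = 0 := by
    rw [h2, eval_mul, IsRoot.def.1 hc₀, mul_zero]
  -- the orbit
  have hr : ∀ n : ℕ, g.eval (c₀ ^ (M ^ n)) = 0 := by
    intro n
    induction n with
    | zero => rwa [pow_zero, pow_one]
    | succ n ih =>
      have h9 := congrArg (eval (c₀ ^ (M ^ n))) heq
      rw [eval_mul, ih, zero_mul, eval_comp, eval_pow, eval_X, ← pow_mul, ← pow_succ] at h9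
      exact h9.symm
  have hfin : Set.Finite {x : k | g.eval x = 0} := by
    have := g.rootSet_finite k
    refine this.subset fun x hx => ?_
    rw [mem_rootSet]
    exact ⟨hg, by simpa using hx⟩
  have hni : ¬ Function.Injective (fun n : ℕ => c₀ ^ (M ^ n)) := by
    intro hinj
    have h10 : (Set.range (fun n : ℕ => c₀ ^ (M ^ n))).Infinite := Set.infinite_range_of_injective hinj
    apply h10
    refine hfin.subset ?_
    rintro _ ⟨n, rfl⟩
    exact hr n
  have h11 : ∃ n₁ n₂ : ℕ, n₁ < n₂ ∧ c₀ ^ (M ^ n₁) = c₀ ^ (M ^ n₂) := by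
    rw [Function.Injective] at hni
    push Not at hni
    obtain ⟨a, b, hab, hne⟩ := hni
    rcases lt_or_gt_of_ne hne with h | h
    · exact ⟨a, b, h, hab⟩
    · exact ⟨b, a, h, hab.symm⟩
  obtain ⟨n₁, n₂, hlt, hnn⟩ := h11
  refine ⟨Units.mk0 (c₀ ^ (M ^ n₁)) (pow_ne_zero _ hc0), n₂ - n₁, by omega, ?_, ?_⟩
  · ext
    rw [Units.val_pow_eq_pow_val, Units.val_mk0, ← pow_mul, ← pow_add,
      Nat.add_sub_cancel' hlt.le, hnn]
  · exact hr n₁

/-- the branch at infinity -/
theorem BRAN {F : k[X]} {T : L k} (hm : F.Monic) (hT : Frob F T) (hl : T.coeff (-1) = 1) {G : k[X][X]} (hG : G ≠ 0)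
    (hdvd : G ∣ cmp2 F G) {q p : ℕ} (hq : 1 ≤ q) (hp : 1 ≤ p)
    (hlc : G.leadingCoeff.natDegree = 0)
    (hw : ∀ j i, (G.coeff j).coeff i ≠ 0 → q * i + p * j ≤ p * G.natDegree)
    (hw' : ∃ j i, j < G.natDegree ∧ (G.coeff j).coeff i ≠ 0 ∧ q * i + p * j = p * G.natDegree) :
    ∃ (c : kˣ) (R : ℕ), 1 ≤ R ∧ c ^ (F.natDegree ^ R) = c ∧
      ev2 (th 1 q T) (th c p T) G = 0 := by
  have hM2 := hT.deg
  obtain ⟨j, i, hjb, hij, hijw⟩ := hw'
  have hgj : (bran_g q p (p * G.natDegree) G).coeff j ≠ 0 := by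
    rwa [bran_coeff hq G hijw]
  have hgb : (bran_g q p (p * G.natDegree) G).coeff G.natDegree ≠ 0 := by
    rw [bran_coeff hq G (i := 0) (by simp)]
    intro h
    rw [coeff_natDegree, natDegree_eq_zero] at *
    obtain ⟨a, ha⟩ := hlc
    rw [← ha, coeff_C_zero] at h
    rw [h, map_zero] at ha
    exact hG (leadingCoeff_eq_zero.1 ha.symm)
  have hg : bran_g q p (p * G.natDegree) G ≠ 0 := by
    intro h
    rw [h, coeff_zero] at hgj
    exact hgj rfl
  obtain ⟨H₀, hH₀⟩ := hdvd
  obtain ⟨W₀, -, -, htop₀⟩ := bran_top hm (by omega) hH₀ hq hp hw hg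
  obtain ⟨c, R, hR, hcR, hroot⟩ := bran_root (by omega : 1 ≤ F.natDegree) htop₀ hgj hgb hjb
  refine ⟨c, R, hR, hcR, ?_⟩
  -- replace `F` by its iterate
  have hmR : (itr F R).Monic := itr_monic hm (by omega) R
  have hdR : (itr F R).natDegree = F.natDegree ^ R := natDegree_itr F R
  have hM' : 2 ≤ F.natDegree ^ R := hM2.trans (Nat.le_self_pow (by omega) _)
  obtain ⟨H, hH⟩ := bran_dvd ⟨H₀, hH₀⟩ R
  obtain ⟨W, hW, hwH, htop⟩ := bran_top hmR (by omega) hH hq hp hw hg
  set M := F.natDegree ^ R with hMdef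
  rw [hdR] at hW htop
  have hcM : (c : k) ^ M = c := by
    rw [← Units.val_pow_eq_pow_val, hcR]
  have hh := bran_mult hg (by omega : 1 ≤ M) htop c.ne_zero hcM
  set x : L k := th 1 q T with hx
  set y : L k := th c p T with hy
  -- the series
  have htx : ∀ (a : kˣ) (n : ℕ), 1 ≤ n → Top (th a n T) n (a : k) := by
    intro a n hn
    constructor
    · intro j' hj'
      by_cases h : (n : ℤ) ∣ j'
      · obtain ⟨i', rfl⟩ := h
        have h1 : i' < -1 := by
          by_contra h2
          have h3 : (n : ℤ) * (-1) ≤ n * i' := mul_le_mul_of_nonneg_left (by omega) (by omega)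
          omega
        rw [th_coeff_mul _ (by omega), hT.pole.2 _ h1, mul_zero]
      · exact th_coeff_of_not_dvd _ (by omega) _ _ h
    · have h1 : (-(n : ℤ)) = n * (-1) := by ring
      rw [h1, th_coeff_mul _ (by omega), hl, mul_one, neg_neg, zpow_one]
  have htopx : Top x q 1 := by
    have := htx 1 q hq
    rwa [Units.val_one] at this
  have htopy : Top y p (c : k) := htx c p hp
  have hev : ∀ {W : ℕ} (G : k[X][X]), (∀ j i, (G.coeff j).coeff i ≠ 0 → q * i + p * j ≤ W) →
      Top (ev2 x y G) W ((bran_g q p W G).eval (c : k)) := by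
    intro W G hw
    have h1 := bran_eval ((Polynomial.aeval x : k[X] →ₐ[k] L k).toRingHom) (RingHom.id k)
      (fun a => by
        change (Polynomial.aeval x) (C a) = _
        rw [aeval_C, algebraMap_L]
        rfl) (N := 1) le_rfl (q := q) (p := p) (W := W) (v := y) (β := (c : k))
      (by
        rw [mul_one]
        change Top ((Polynomial.aeval x) X) q 1
        rwa [aeval_X]) (by rwa [mul_one]) G hw
    rw [mul_one] at h1
    exact h1
  have htG := hev G hw
  rw [hroot] at htG
  have htH := hev H hwH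
  -- the functional equation
  have hSx : th 1 M x = aeval x (itr F R) := by
    rw [hx, aeval_algHom_apply, bran_itr hT, th_th _ _ (by omega) hq, th_th _ _ hq (by omega),
      one_pow, one_pow, mul_comm q]
  have hSy : th 1 M y = aeval y (itr F R) := by
    rw [hy, aeval_algHom_apply, bran_itr hT, th_th _ _ (by omega) hp, th_th _ _ hp (by omega),
      one_pow, mul_one, one_mul, hcR, mul_comm p]
  have hS : th 1 M (ev2 x y G) = ev2 x y G * ev2 x y H := by
    have e1 : ev2 x y (cmp2 (itr F R) G) = ev2 x y G * ev2 x y H := by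
      rw [hH, ev2, ev2, ev2, eval₂_mul]
    rw [← e1]
    unfold ev2
    rw [bran_ev_cmp]
    have e2 : ∀ (S : L k →ₐ[k] L k), S (G.eval₂ (Polynomial.aeval x : k[X] →ₐ[k] L k).toRingHom y) =
        G.eval₂ (Polynomial.aeval (S x) : k[X] →ₐ[k] L k).toRingHom (S y) := by
      intro S
      have h1 := hom_eval₂ G (Polynomial.aeval x : k[X] →ₐ[k] L k).toRingHom S.toRingHom y
      refine h1.trans ?_
      congr 1
      refine RingHom.ext fun a => ?_
      exact (aeval_algHom_apply S x a).symm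
    rw [e2, hSx, hSy]
    have e3 : (Polynomial.aeval x : k[X] →ₐ[k] L k).toRingHom.comp (compRingHom (itr F R)) =
        (Polynomial.aeval (aeval x (itr F R)) : k[X] →ₐ[k] L k).toRingHom := by
      refine RingHom.ext fun a => ?_
      change aeval x (a.comp (itr F R)) = aeval (aeval x (itr F R)) a
      rw [aeval_comp]
    have e4 : (itr F R).eval₂ ((Polynomial.aeval x : k[X] →ₐ[k] L k).toRingHom.comp C) y =
        aeval y (itr F R) := by
      rw [aeval_def]
      congr 1
      refine RingHom.ext fun a => ?_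
      change aeval x (C a) = _
      rw [aeval_C]
    rw [e3, e4]
  -- the orders
  by_contra hne
  set η := ev2 x y G with hη
  have hHne : ev2 x y H ≠ 0 := by
    intro h
    rw [h] at htH
    exact hh (htH.unique (Top.zero W))
  have hoH : (ev2 x y H).order = -(W : ℤ) := by
    apply le_antisymm
    · apply HahnSeries.order_le_of_coeff_ne_zero
      rw [htH.2]
      exact hh
    · by_contra h
      push Not at h
      exact hHne (HahnSeries.coeff_order_eq_zero.1 (htH.1 _ h))
  have hoS : (th 1 M η).order = M * η.order := by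
    have hne' : th 1 M η ≠ 0 := by
      intro h
      exact hne (th_injective 1 M (by rw [h, map_zero]))
    apply le_antisymm
    · apply HahnSeries.order_le_of_coeff_ne_zero
      rw [th_coeff_mul _ (by omega)]
      exact mul_ne_zero (Units.ne_zero _) (fun h => hne (HahnSeries.coeff_order_eq_zero.1 h))
    · by_contra h
      push Not at h
      have h1 : (th 1 M η).coeff (th 1 M η).order ≠ 0 :=
        fun h => hne' (HahnSeries.coeff_order_eq_zero.1 h)
      by_cases h2 : (M : ℤ) ∣ (th 1 M η).order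
      · obtain ⟨i', hi'⟩ := h2
        rw [hi'] at h h1
        rw [th_coeff_mul _ (by omega)] at h1
        have h3 : i' < η.order := lt_of_mul_lt_mul_left h (by omega)
        rw [HahnSeries.coeff_eq_zero_of_lt_order h3, mul_zero] at h1
        exact h1 rfl
      · exact h1 (th_coeff_of_not_dvd _ (by omega) _ _ h2)
  have hord := congrArg HahnSeries.order hS
  rw [HahnSeries.order_mul hne hHne, hoH, hoS] at hord
  have hWz : ((p * G.natDegree : ℕ) : ℤ) + W = (p * G.natDegree : ℕ) * M := by exact_mod_cast hW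
  have h1 : ((M : ℤ) - 1) * (η.order + (p * G.natDegree : ℕ)) = 0 := by
    linear_combination hord - hWz
  have h2 : η.order = -((p * G.natDegree : ℕ) : ℤ) := by
    rcases mul_eq_zero.1 h1 with h | h
    · omega
    · omega
  apply hne
  apply HahnSeries.coeff_order_eq_zero.1
  rw [h2]
  exact htG.2

end

end Pool.Agent.Lib_helper45.BDP.BRAN
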