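import Pool.Agent.Lib_helper45.BDP.Defs

/-!
# Block CHEB
-/

namespace Pool.Agent.Lib_helper45.BDP.CHEB

open Polynomial Pool.Agent.Lib_helper45.BDP

noncomputable section

variable {k : Type*} [Field k] [IsAlgClosed k] [CharZero k]

omit [IsAlgClosed k] in
/-- the first order equation gives the second order equation -/
theorem cheb_second {P : k[X]} {c : k} (hP : derivative P ≠ 0)
    (h : C (c ^ 2) * (P ^ 2 - 1) = (X ^ 2 - 1) * derivative P ^ 2) :
    C (c ^ 2) * P = X * derivative P + (X ^ 2 - 1) * derivative (derivative P) := by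
  have h1 := congrArg derivative h
  simp only [derivative_mul, derivative_C, derivative_sub, derivative_one, derivative_pow,
    derivative_X, zero_mul, zero_add, sub_zero] at h1
  have h2 : (2 : k[X]) * derivative P ≠ 0 := mul_ne_zero two_ne_zero hP
  apply mul_left_cancel₀ h2
  simp only [Nat.cast_ofNat, map_ofNat, Nat.add_one_sub_one, pow_one, mul_one] at h1
  linear_combination h1

omit [IsAlgClosed k] in
/-- uniqueness of the polynomial solution -/
theorem cheb_unique {D : k[X]} {M : ℕ} (hdeg : D.degree < M)
    (h : C ((M : k) ^ 2) * D = X * derivative D + (X ^ 2 - 1) * derivative (derivative D)) :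
    D = 0 := by
  by_contra hD
  set m := D.natDegree with hm
  have hmM : m < M := by
    rw [hm]
    exact (Polynomial.natDegree_lt_iff_degree_lt hD).2 hdeg
  have hlead : D.coeff m ≠ 0 := by
    rw [hm]
    exact Polynomial.leadingCoeff_ne_zero.2 hD
  have hbig : D.coeff (m + 1 + 1) = 0 := Polynomial.coeff_eq_zero_of_natDegree_lt (by omega)
  have hc := congrArg (fun p : k[X] => p.coeff m) h
  simp only [coeff_C_mul, coeff_add, sub_mul, one_mul, coeff_sub, coeff_derivative, hbig,
    zero_mul] at hc
  have h1 : (X * derivative D).coeff m = D.coeff m * m := by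
    rcases Nat.eq_zero_or_pos m with h0 | h0
    · rw [h0]; simp
    · obtain ⟨l, hl⟩ := Nat.exists_eq_succ_of_ne_zero h0.ne'
      rw [hl, Nat.succ_eq_add_one, coeff_X_mul, coeff_derivative]
      push_cast
      ring
  have h2 : (X ^ 2 * derivative (derivative D)).coeff m = D.coeff m * (m * (m - 1)) := by
    rw [coeff_X_pow_mul']
    split_ifs with h2
    · obtain ⟨l, hl⟩ := Nat.exists_eq_add_of_le h2
      have e1 : m - 2 + 1 + 1 = m := by omega
      rw [coeff_derivative, coeff_derivative, e1]
      have e2 : ((m - 2 : ℕ) : k) = (m : k) - 2 := by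
        rw [Nat.cast_sub h2]; simp
      push_cast
      rw [e2]
      ring
    · have h3 : m = 0 ∨ m = 1 := by omega
      rcases h3 with h3 | h3
      · rw [h3]; simp
      · rw [h3]; simp
  rw [h1, h2] at hc
  have h3 : D.coeff m * ((M : k) ^ 2 - (m : k) ^ 2) = 0 := by linear_combination hc
  rcases mul_eq_zero.1 h3 with h4 | h4
  · exact hlead h4
  · have h5 : ((M : k) - m) * ((M : k) + m) = 0 := by linear_combination h4
    rcases mul_eq_zero.1 h5 with h6 | h6
    · have : (M : k) = m := by linear_combination h6
      have := Nat.cast_injective this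
      omega
    · have : ((M + m : ℕ) : k) = 0 := by push_cast; exact h6
      rw [Nat.cast_eq_zero] at this
      omega

omit [IsAlgClosed k] in
/-- the first order equation of the Chebyshev polynomials -/
theorem cheb_first (M : ℕ) :
    C ((M : k) ^ 2) * (Chebyshev.T k M ^ 2 - 1) = (X ^ 2 - 1) * derivative (Chebyshev.T k M) ^ 2 := by
  have hode := Chebyshev.one_sub_X_sq_mul_derivative_derivative_T_eq_poly_in_T (R := k) (M : ℤ)
  rw [Function.iterate_succ, Function.iterate_one, Function.comp_apply] at hode
  have hMc : ((M : ℤ) : k[X]) = C (M : k) := by simp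
  rw [hMc] at hode
  set P := Chebyshev.T k (M : ℤ) with hPdef
  set E := C ((M : k) ^ 2) * (P ^ 2 - 1) - (X ^ 2 - 1) * derivative P ^ 2 with hE
  have hE' : derivative E = 0 := by
    rw [hE]
    simp only [derivative_mul, derivative_C, derivative_sub, derivative_one, derivative_pow,
      derivative_X, zero_mul, zero_add, sub_zero, Nat.cast_ofNat, map_ofNat, Nat.add_one_sub_one,
      pow_one, mul_one]
    rw [C_pow]
    linear_combination (2 * derivative P) * hode
  have hE0 : E = C (E.coeff 0) := Polynomial.eq_C_of_derivative_eq_zero hE'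
  have hE1 : E.eval 1 = 0 := by
    rw [hE]
    simp only [eval_sub, eval_mul, eval_C, eval_pow, eval_one, eval_X, one_pow, sub_self, zero_mul]
    have h1 : P.eval 1 = 1 := by rw [hPdef]; exact Chebyshev.T_eval_one k (M : ℤ)
    rw [h1]
    simp
  have hE2 : E.coeff 0 = 0 := by
    rw [hE0, eval_C] at hE1
    exact hE1
  rw [hE2, C_0, hE, sub_eq_zero] at hE0
  exact hE0

omit [IsAlgClosed k] in
/-- the normalized statement -/
theorem cheb_norm {P : k[X]} (hd : 2 ≤ P.natDegree)
    (h : C ((P.natDegree : k) ^ 2) * (P ^ 2 - 1) = (X ^ 2 - 1) * derivative P ^ 2) :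
    P = Chebyshev.T k P.natDegree ∨ P = -Chebyshev.T k P.natDegree := by
  set M := P.natDegree with hM
  set T := Chebyshev.T k (M : ℤ) with hT
  have hTd : T.natDegree = M := by
    rw [hT, Chebyshev.natDegree_T]; simp
  have hP0 : derivative P ≠ 0 := by
    intro h0
    have := Polynomial.eq_C_of_derivative_eq_zero h0
    rw [this, natDegree_C] at hM
    omega
  have hT0 : derivative T ≠ 0 := by
    intro h0
    have := Polynomial.eq_C_of_derivative_eq_zero h0
    rw [this, natDegree_C] at hTd
    omega
  have hTf := cheb_first (k := k) M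
  rw [← hT] at hTf
  have hP2 := cheb_second hP0 h
  have hT2 := cheb_second hT0 hTf
  have hTne : T ≠ 0 := by
    rintro h0
    rw [h0, natDegree_zero] at hTd
    omega
  have hPne : P ≠ 0 := by
    rintro h0
    rw [h0, natDegree_zero] at hM
    omega
  have hlT : T.leadingCoeff ≠ 0 := leadingCoeff_ne_zero.2 hTne
  have hlP : P.leadingCoeff ≠ 0 := leadingCoeff_ne_zero.2 hPne
  set c : k := P.leadingCoeff / T.leadingCoeff with hc
  have hc0 : c ≠ 0 := div_ne_zero hlP hlT
  have hD : P - C c * T = 0 := by
    apply cheb_unique (M := M)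
    · have hd1 : P.degree = (C c * T).degree := by
        rw [degree_C_mul hc0, degree_eq_natDegree hPne, degree_eq_natDegree hTne, hTd]
      have hl1 : P.leadingCoeff = (C c * T).leadingCoeff := by
        rw [leadingCoeff_mul, leadingCoeff_C, hc, div_mul_cancel₀ _ hlT]
      have := degree_sub_lt_left hd1 hPne hl1
      rw [degree_eq_natDegree hPne] at this
      exact this
    · simp only [derivative_sub, derivative_mul, derivative_C, zero_mul, zero_add]
      linear_combination hP2 - C c * hT2
  have hPT : P = C c * T := by linear_combination hD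
  have hc2 : c ^ 2 = 1 := by
    have h1 : C ((M : k) ^ 2) * (C c ^ 2 - 1) = 0 := by
      have h2 := h
      rw [hPT] at h2
      simp only [derivative_mul, derivative_C, zero_mul, zero_add] at h2
      linear_combination h2 - C c ^ 2 * hTf
    rcases mul_eq_zero.1 h1 with h2 | h2
    · exfalso
      rw [C_eq_zero] at h2
      have : (M : k) = 0 := pow_eq_zero_iff (two_ne_zero) |>.1 h2
      rw [Nat.cast_eq_zero] at this
      omega
    · have h3 : C (c ^ 2 - 1) = 0 := by
        rw [C_sub, C_pow, C_1]; exact h2
      rw [C_eq_zero] at h3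
      linear_combination h3
  have hc3 : c = 1 ∨ c = -1 := by
    have h3 : (c - 1) * (c + 1) = 0 := by linear_combination hc2
    rcases mul_eq_zero.1 h3 with h4 | h4
    · left; linear_combination h4
    · right; linear_combination h4
  rcases hc3 with h1 | h1
  · left; rw [hPT, h1, C_1, one_mul]
  · right; rw [hPT, h1, C_neg, C_1, neg_mul, one_mul]

theorem CHEB {F : k[X]} (hd : 2 ≤ F.natDegree) {v w : k} (hvw : v ≠ w)
    (h : C ((F.natDegree : k) ^ 2) * ((F - C v) * (F - C w)) =
      (X - C v) * (X - C w) * derivative F ^ 2) :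
    IsConj F (Chebyshev.C k F.natDegree) ∨ IsConj F (-Chebyshev.C k F.natDegree) := by
  -- `L = a X + b`, `L 1 = w`, `L (-1) = v`
  set a : k := (w - v) / 2 with ha
  set b : k := (v + w) / 2 with hb
  have ha0 : a ≠ 0 := div_ne_zero (sub_ne_zero.2 hvw.symm) two_ne_zero
  have hv' : v = b - a := by rw [ha, hb]; ring
  have hw' : w = b + a := by rw [ha, hb]; ring
  set L : k[X] := C a * X + C b with hL
  set P : k[X] := C a⁻¹ * (F.comp L - C b) with hP
  have hCa : C a * C a⁻¹ = (1 : k[X]) := by rw [← C_mul, mul_inv_cancel₀ ha0, C_1]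
  have hFL : F.comp L = C a * P + C b := by
    rw [hP, ← mul_assoc, hCa]; ring
  have hLd : L.natDegree = 1 := by rw [hL]; exact natDegree_linear ha0
  have hPd : P.natDegree = F.natDegree := by
    have h1 : (C a * P + C b).natDegree = P.natDegree := by
      rw [natDegree_add_C, natDegree_C_mul ha0]
    rw [← h1, ← hFL, natDegree_comp, hLd, mul_one]
  have hder : (derivative F).comp L = derivative P := by
    have h1 := congrArg derivative hFL
    rw [derivative_comp] at h1
    simp only [hL, derivative_add, derivative_mul, derivative_C, derivative_X, zero_mul, zero_add,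
      mul_one, add_zero] at h1
    have h2 : C a * ((derivative F).comp (C a * X + C b)) = C a * derivative P := by
      linear_combination h1
    exact mul_left_cancel₀ (C_ne_zero.2 ha0) h2
  have hPeq : C ((P.natDegree : k) ^ 2) * (P ^ 2 - 1) = (X ^ 2 - 1) * derivative P ^ 2 := by
    have h1 := congrArg (fun p : k[X] => p.comp L) h
    simp only [mul_comp, sub_comp, C_comp, X_comp, pow_comp] at h1
    rw [hFL, hder, hL, hv', hw'] at h1
    simp only [C_sub, C_add] at h1
    rw [hPd]
    apply mul_left_cancel₀ (pow_ne_zero 2 (C_ne_zero.2 ha0))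
    linear_combination h1
  have key := cheb_norm (by rw [hPd]; exact hd) hPeq
  rw [hPd] at key
  let _ : Invertible (2 : k) := invertibleOfNonzero two_ne_zero
  have hC := Chebyshev.C_eq_two_mul_T_comp_half_mul_X k (F.natDegree : ℤ)
  have hhalf : (⅟2 : k) = 2⁻¹ := invOf_eq_inv 2
  rw [hhalf] at hC
  -- conjugation by `L ∘ (X / 2)`
  set H : k[X] := C (2⁻¹ : k) * X with hH
  have hLH : L.comp H = C (a / 2) * X + C b := by
    rw [hL, hH, add_comp, mul_comp, C_comp, C_comp, X_comp, ← mul_assoc, ← C_mul, div_eq_mul_inv]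
  have h22 : C (2⁻¹ : k) * (2 : k[X]) = 1 := by
    have : (2 : k[X]) = C 2 := (map_ofNat C 2).symm
    rw [this, ← C_mul, inv_mul_cancel₀ two_ne_zero, C_1]
  have hcomp : ∀ Q : k[X], P = Q → F.comp (C (a / 2) * X + C b) =
      (C (a / 2) * X + C b).comp (2 * Q.comp H) := by
    intro Q hQ
    rw [← hLH, ← comp_assoc, hFL, hQ, hLH, add_comp, mul_comp, C_comp, C_comp, add_comp, mul_comp,
      C_comp, C_comp, X_comp]
    have : C (a / 2) = C a * C (2⁻¹ : k) := by rw [← C_mul, div_eq_mul_inv]
    rw [this]
    linear_combination (-(C a * Q.comp H)) * h22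
  rcases key with h1 | h1
  · left
    refine ⟨a / 2, b, div_ne_zero ha0 two_ne_zero, ?_⟩
    rw [hcomp _ h1, hC]
  · right
    refine ⟨a / 2, b, div_ne_zero ha0 two_ne_zero, ?_⟩
    rw [hcomp _ h1, hC, neg_comp, mul_neg]

end

end Pool.Agent.Lib_helper45.BDP.CHEB
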