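import Pool.Agent.Lib_helper45.BDP.Defs

set_option autoImplicit false

namespace Pool.Agent.Lib_helper45.BDP.CONJ

open Polynomial

variable {k : Type*} [Field k] {n : ℕ}

variable [IsAlgClosed k] [CharZero k]

theorem CONJ_trans {f f' g : k[X]} (h1 : IsConj f f') (h2 : IsConj f' g) : IsConj f g := by
  obtain ⟨a, b, ha, h⟩ := h1
  obtain ⟨a', b', ha', h'⟩ := h2
  refine ⟨a * a', a * b' + b, mul_ne_zero ha ha', ?_⟩
  have e : (C (a * a') * X + C (a * b' + b) : k[X]) = (C a * X + C b).comp (C a' * X + C b') := by
    simp only [add_comp, mul_comp, C_comp, X_comp, C_mul, C_add]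
    ring
  rw [e, ← comp_assoc, h, comp_assoc, h', ← comp_assoc]

/-- conjugation to a monic centered polynomial -/
theorem CONJ {f : k[X]} (hf : Disintegrated f) :
    ∃ (a b : k) (f' : k[X]), a ≠ 0 ∧ Good f' ∧
      f.comp (C a * X + C b) = (C a * X + C b).comp f' := by
  obtain ⟨hd, hs⟩ := hf
  set d := f.natDegree with hdd
  have hf0 : f ≠ 0 := by
    rintro rfl
    simp at hdd
    omega
  have hlc : f.leadingCoeff ≠ 0 := by rwa [Ne, leadingCoeff_eq_zero]
  obtain ⟨a, ha⟩ := IsAlgClosed.exists_pow_nat_eq (f.leadingCoeff)⁻¹ (n := d - 1) (by omega)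
  have ha0 : a ≠ 0 := by
    rintro rfl
    rw [zero_pow (by omega)] at ha
    exact (inv_ne_zero hlc) ha.symm
  have hdk : (d : k) ≠ 0 := by exact_mod_cast (by omega : d ≠ 0)
  set b : k := -(f.coeff (d - 1)) / (d * f.leadingCoeff) with hb
  set f' : k[X] := C a⁻¹ * (f.comp (C a * X + C b) - C b) with hf'
  have hcomp : f.comp (C a * X + C b) = (C a * X + C b).comp f' := by
    simp only [add_comp, mul_comp, C_comp, X_comp]
    rw [hf', ← mul_assoc, ← C_mul, mul_inv_cancel₀ ha0, C_1, one_mul, sub_add_cancel]
  have hld : (C a * X + C b : k[X]).natDegree = 1 := natDegree_linear ha0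
  have hlin : (C a * X + C b : k[X]) = (X + C b).comp (C a * X) := by
    simp only [add_comp, C_comp, X_comp]
  have hfc : f.comp (C a * X + C b) = (taylor b f).comp (C a * X) := by
    rw [hlin, ← comp_assoc]; rfl
  have hcoeff : ∀ i, (f.comp (C a * X + C b)).coeff i = (hasseDeriv i f).eval b * a ^ i := by
    intro i
    rw [hfc, comp_C_mul_X_coeff, taylor_coeff]
  have hdeg : f'.natDegree = d := by
    have h1 : (f.comp (C a * X + C b)).natDegree = d := by
      rw [natDegree_comp, hld, mul_one]
    rw [hf', natDegree_C_mul (inv_ne_zero ha0), natDegree_sub_C, h1]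
  have hcd : (hasseDeriv d f).eval b = f.leadingCoeff := by
    have h1 : hasseDeriv d f = C f.leadingCoeff := by
      ext i
      rw [hasseDeriv_coeff, coeff_C]
      split_ifs with h
      · subst h
        rw [zero_add, Nat.choose_self, Nat.cast_one, one_mul]
        rfl
      · have h2 : f.coeff (i + d) = 0 := coeff_eq_zero_of_natDegree_lt (by omega)
        rw [h2, mul_zero]
    rw [h1, eval_C]
  have hcd1 : (hasseDeriv (d - 1) f).eval b = f.coeff (d - 1) + d * f.leadingCoeff * b := by
    have h1 : hasseDeriv (d - 1) f = C (f.coeff (d - 1)) + C (d * f.leadingCoeff) * X := by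
      ext i
      rw [hasseDeriv_coeff, coeff_add, coeff_C, coeff_C_mul, coeff_X]
      rcases i with _ | _ | i
      · simp
      · have h2 : 0 + 1 + (d - 1) = d := by omega
        rw [h2]
        have h3 : d.choose (d - 1) = d := by
          have := Nat.choose_symm (n := d) (k := 1) (by omega)
          rw [this, Nat.choose_one_right]
        rw [h3]
        simp
        left
        rfl
      · have h2 : f.coeff (i + 1 + 1 + (d - 1)) = 0 := coeff_eq_zero_of_natDegree_lt (by omega)
        rw [h2]
        simp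
    rw [h1]
    simp
  have hmonic : f'.Monic := by
    rw [Monic, leadingCoeff, hdeg, hf', coeff_C_mul, coeff_sub, coeff_C_ne_zero (by omega), sub_zero,
      hcoeff, hcd]
    have h1 : a ^ d = a ^ (d - 1) * a := by rw [← pow_succ]; congr 1; omega
    rw [h1, ha]
    field_simp
  refine ⟨a, b, f', ha0, ⟨hmonic, by rw [hdeg]; exact hd, ?_, ?_⟩, hcomp⟩
  · rw [hdeg, hf', coeff_C_mul, coeff_sub, coeff_C_ne_zero (by omega), sub_zero, hcoeff, hcd1, hb]
    have h1 : f.coeff (d - 1) + d * f.leadingCoeff * (-(f.coeff (d - 1)) / (d * f.leadingCoeff)) = 0 := by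
      field_simp
      ring
    rw [h1]
    ring
  · intro h
    apply hs
    have hconj : IsConj f f' := ⟨a, b, ha0, hcomp⟩
    rcases h with h | h | h
    · left
      rw [hdeg] at h
      exact CONJ_trans hconj h
    · right; left
      rw [hdeg] at h
      exact CONJ_trans hconj h
    · right; right
      rw [hdeg] at h
      exact CONJ_trans hconj h

end Pool.Agent.Lib_helper45.BDP.CONJ
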