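import Pool.Agent.Lib_helper45.BDP.Defs

namespace Pool.Agent.Lib_helper45.BDP.DEGG

open Polynomial

noncomputable section

variable {k : Type*} [Field k]

/-- lowest terms of a product -/
theorem degg_low {u v : L k} {m n : ℤ} (hu : ∀ i < m, u.coeff i = 0) (hv : ∀ i < n, v.coeff i = 0) :
    (∀ j < m + n, (u * v).coeff j = 0) ∧ (u * v).coeff (m + n) = u.coeff m * v.coeff n := by
  have hsu : ∀ i, i ∈ u.support → m ≤ i := by
    intro i hi
    by_contra h
    push Not at h
    exact hi (hu i h)
  have hsv : ∀ i, i ∈ v.support → n ≤ i := by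
    intro i hi
    by_contra h
    push Not at h
    exact hi (hv i h)
  constructor
  · intro j hj
    rw [HahnSeries.coeff_mul]
    apply Finset.sum_eq_zero
    intro p hp
    obtain ⟨h1, h2, h3⟩ := Finset.mem_antidiagonal.1 hp
    have h4 := hsu _ h1
    have h5 := hsv _ h2
    omega
  · rw [HahnSeries.coeff_mul]
    by_cases h0 : u.coeff m = 0 ∨ v.coeff n = 0
    · have h1 : u.coeff m * v.coeff n = 0 := by
        rcases h0 with h | h <;> simp [h]
      rw [h1]
      apply Finset.sum_eq_zero
      intro p hp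
      obtain ⟨h1, h2, h3⟩ := Finset.mem_antidiagonal.1 hp
      have h4 := hsu _ h1
      have h5 := hsv _ h2
      have h6 : p.1 = m := by omega
      have h7 : p.2 = n := by omega
      rw [h6, h7]
      rcases h0 with h | h <;> simp [h]
    · push Not at h0
      rw [Finset.sum_eq_single (m, n)]
      · intro p hp hne
        obtain ⟨h1, h2, h3⟩ := Finset.mem_antidiagonal.1 hp
        have h4 := hsu _ h1
        have h5 := hsv _ h2
        have h6 : p.1 = m := by omega
        have h7 : p.2 = n := by omega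
        exact absurd (Prod.ext h6 h7) hne
      · intro h
        exfalso
        apply h
        exact Finset.mem_antidiagonal.2 ⟨h0.1, h0.2, rfl⟩

theorem degg_pow {T : L k} (hT : SimplePole T) (n : ℕ) :
    (∀ j < -(n : ℤ), (T ^ n).coeff j = 0) ∧ (T ^ n).coeff (-(n : ℤ)) = T.coeff (-1) ^ n := by
  induction n with
  | zero =>
    constructor
    · intro j hj
      have : j ≠ 0 := by push_cast at hj; omega
      simp [HahnSeries.coeff_one, this]
    · simp
  | succ n ih =>
    have h := degg_low ih.1 hT.2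
    have e : -((n + 1 : ℕ) : ℤ) = -(n : ℤ) + -1 := by push_cast; ring
    rw [pow_succ, e]
    refine ⟨h.1, ?_⟩
    rw [h.2, ih.2, pow_succ]

theorem degg_aeval {T : L k} (hT : SimplePole T) (g : k[X]) :
    (∀ j < -(g.natDegree : ℤ), (aeval T g).coeff j = 0) ∧
      (aeval T g).coeff (-(g.natDegree : ℤ)) = g.leadingCoeff * T.coeff (-1) ^ g.natDegree := by
  have h1 : ∀ j, (aeval T g).coeff j =
      ∑ i ∈ Finset.range (g.natDegree + 1), g.coeff i * (T ^ i).coeff j := by
    intro j
    rw [aeval_eq_sum_range, HahnSeries.coeff_sum]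
    apply Finset.sum_congr rfl
    intro i _
    rw [HahnSeries.coeff_smul, smul_eq_mul]
  constructor
  · intro j hj
    rw [h1]
    apply Finset.sum_eq_zero
    intro i hi
    rw [Finset.mem_range] at hi
    rw [(degg_pow hT i).1 j (by omega), mul_zero]
  · rw [h1, Finset.sum_range_succ, (degg_pow hT g.natDegree).2, leadingCoeff]
    have : ∑ i ∈ Finset.range g.natDegree, g.coeff i * (T ^ i).coeff (-(g.natDegree : ℤ)) = 0 := by
      apply Finset.sum_eq_zero
      intro i hi
      rw [Finset.mem_range] at hi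
      rw [(degg_pow hT i).1 _ (by omega), mul_zero]
    rw [this, zero_add]

end

noncomputable section

variable {k : Type*} [Field k] [IsAlgClosed k] [CharZero k]

theorem DEGG {T : L k} (hT : SimplePole T) {c : kˣ} {m : ℕ} (hm : 1 ≤ m) {g : k[X]}
    (h : th c m T = aeval T g) : g.natDegree = m := by
  have h1 : (th c m T).coeff (m * (-1)) ≠ 0 := by
    rw [th_coeff_mul c hm]
    exact mul_ne_zero (Units.ne_zero _) hT.1
  have h2 : ∀ j < -(m : ℤ), (th c m T).coeff j = 0 := by
    intro j hj
    by_cases hd : (m : ℤ) ∣ j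
    · obtain ⟨i, rfl⟩ := hd
      rw [th_coeff_mul c hm, hT.2 i, mul_zero]
      have : (m : ℤ) * i < m * (-1) := by linarith
      exact lt_of_mul_lt_mul_left this (by positivity)
    · exact th_coeff_of_not_dvd c hm _ _ hd
  have hg : g ≠ 0 := by
    intro h0
    rw [h0, map_zero] at h
    rw [h] at h1
    simp at h1
  have h3 := degg_aeval hT g
  rw [← h] at h3
  have h4 : (th c m T).coeff (-(g.natDegree : ℤ)) ≠ 0 := by
    rw [h3.2]
    exact mul_ne_zero (leadingCoeff_ne_zero.2 hg) (pow_ne_zero _ hT.1)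
  have h5 : ¬ (-(g.natDegree : ℤ) < -(m : ℤ)) := fun h6 => h4 (h2 _ h6)
  have h6 : ¬ ((m : ℤ) * (-1) < -(g.natDegree : ℤ)) := fun h7 => h1 (h3.1 _ h7)
  omega

end

end Pool.Agent.Lib_helper45.BDP.DEGG
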