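import Pool.Agent.Lib_helper45.BDP.Defs

namespace Pool.Agent.Lib_helper45.BDP.DEGX

open Polynomial Pool.Agent.Lib_helper45.BDP

noncomputable section

/-- degrees -/
theorem DEGX (K : Type*) [Field K] [NumberField K] (D : ℕ) (S : Finset (AlgebraicClosure K)) :
    ∃ m : ℕ, ∀ X : Set (AlgebraicClosure K), X.Finite →
      Module.finrank K (IntermediateField.adjoin K X) ≤ D →
      ∀ u ∈ IntermediateField.adjoin K (X ∪ S), ∀ v ∈ IntermediateField.adjoin K (X ∪ S),
        Module.finrank ℚ (IntermediateField.adjoin ℚ {u, v}) ≤ m ∧ (minpoly ℚ u).natDegree ≤ m := by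
  set B := IntermediateField.adjoin K (S : Set (AlgebraicClosure K)) with hB
  refine ⟨Module.finrank ℚ K * (D * Module.finrank K B), fun X hX hD u hu v hv => ?_⟩
  set A := IntermediateField.adjoin K X with hA
  have hfA : FiniteDimensional K A := by
    haveI : Finite X := hX
    exact IntermediateField.finiteDimensional_adjoin fun x _ => Algebra.IsIntegral.isIntegral x
  have hfB : FiniteDimensional K B := by
    exact IntermediateField.finiteDimensional_adjoin fun x _ => Algebra.IsIntegral.isIntegral x
  have hsup : IntermediateField.adjoin K (X ∪ S) = A ⊔ B :=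
    IntermediateField.adjoin_union K
  rw [hsup] at hu hv
  have h1 : Module.finrank K ↥(A ⊔ B) ≤ D * Module.finrank K B :=
    (IntermediateField.finrank_sup_le A B).trans (Nat.mul_le_mul_right _ hD)
  haveI hfL : FiniteDimensional K ↥(A ⊔ B) := IntermediateField.finiteDimensional_sup A B
  haveI : FiniteDimensional ℚ ↥(A ⊔ B) := FiniteDimensional.trans ℚ K ↥(A ⊔ B)
  have h2 : Module.finrank ℚ ↥(A ⊔ B) = Module.finrank ℚ K * Module.finrank K ↥(A ⊔ B) :=
    (Module.finrank_mul_finrank ℚ K ↥(A ⊔ B)).symm
  have h3 : Module.finrank ℚ ↥(A ⊔ B) ≤ Module.finrank ℚ K * (D * Module.finrank K B) := by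
    rw [h2]; exact Nat.mul_le_mul_left _ h1
  set L : IntermediateField ℚ (AlgebraicClosure K) := (A ⊔ B).restrictScalars ℚ with hL
  haveI : FiniteDimensional ℚ L := this
  have h4 : Module.finrank ℚ L ≤ Module.finrank ℚ K * (D * Module.finrank K B) := h3
  have hle : IntermediateField.adjoin ℚ {u, v} ≤ L := by
    rw [IntermediateField.adjoin_le_iff]
    rintro x (rfl | hx)
    · exact hu
    · rw [Set.mem_singleton_iff] at hx; rw [hx]; exact hv
  have hle' : IntermediateField.adjoin ℚ {u} ≤ L := by
    rw [IntermediateField.adjoin_le_iff]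
    rintro x hx
    rw [Set.mem_singleton_iff] at hx; rw [hx]; exact hu
  refine ⟨(IntermediateField.finrank_le_of_le_right hle).trans h4, ?_⟩
  have hint : IsIntegral ℚ u := by
    have : Algebra.IsIntegral ℚ L := inferInstance
    have h5 := this.isIntegral (⟨u, hu⟩ : L)
    exact h5.map L.val
  rw [← IntermediateField.adjoin.finrank hint]
  exact (IntermediateField.finrank_le_of_le_right hle').trans h4

end

end Pool.Agent.Lib_helper45.BDP.DEGX
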