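import Pool.Agent.Lib_helper45.BDP.Defs

set_option linter.unusedSectionVars false
set_option linter.unusedVariables false
set_option linter.style.haveILetI false

namespace Pool.Agent.Lib_helper45.BDP.DPOL

open Polynomial

noncomputable section

section gen

variable {k : Type*} [Field k]

/-- The evaluation `k[X] → L k` at `u` as a ring homomorphism. -/
def evh (u : L k) : k[X] →+* L k := (Polynomial.aeval u : k[X] →ₐ[k] L k).toRingHom

theorem evh_apply (u : L k) (p : k[X]) : evh u p = Polynomial.aeval u p := rfl

open scoped IntermediateField.algebraAdjoinAdjoin in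
theorem dep_iff_adjoin {u v : L k} : Dep u v ↔ IsAlgebraic (Algebra.adjoin k {u}) v :=
  (IsFractionRing.isAlgebraic_iff (Algebra.adjoin k {u}) (IntermediateField.adjoin k {u})
      (L k)).symm

theorem dep_iff {u v : L k} :
    Dep u v ↔ ∃ P : k[X][X], P.map (evh u) ≠ 0 ∧ P.eval₂ (evh u) v = 0 := by
  rw [dep_iff_adjoin]
  constructor
  · rintro ⟨p, hp, hpv⟩
    have hlift : ∀ a : Algebra.adjoin k {u}, ∃ q : k[X], evh u q = a := by
      rintro ⟨a, ha⟩
      rw [Algebra.adjoin_singleton_eq_range_aeval] at ha
      obtain ⟨q, hq⟩ := ha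
      exact ⟨q, hq⟩
    choose f hf using hlift
    refine ⟨∑ i ∈ p.support, C (f (p.coeff i)) * X ^ i, ?_, ?_⟩
    · have h1 : (∑ i ∈ p.support, C (f (p.coeff i)) * X ^ i : k[X][X]).map (evh u) =
          p.map (algebraMap (Algebra.adjoin k {u}) (L k)) := by
        rw [Polynomial.map_sum]
        conv_rhs => rw [p.as_sum_support_C_mul_X_pow, Polynomial.map_sum]
        refine Finset.sum_congr rfl fun i _ => ?_
        rw [Polynomial.map_mul, Polynomial.map_mul, Polynomial.map_C, Polynomial.map_C,
          Polynomial.map_pow, Polynomial.map_pow, Polynomial.map_X, Polynomial.map_X, hf]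
        rfl
      rw [h1]
      intro h0
      apply hp
      exact (Polynomial.map_eq_zero_iff
        (FaithfulSMul.algebraMap_injective (Algebra.adjoin k {u}) (L k))).1 h0
    · rw [Polynomial.eval₂_finsetSum]
      rw [Polynomial.aeval_def, Polynomial.eval₂_eq_sum, Polynomial.sum_def] at hpv
      rw [← hpv]
      refine Finset.sum_congr rfl fun i _ => ?_
      rw [Polynomial.eval₂_mul, Polynomial.eval₂_C, Polynomial.eval₂_X_pow, hf]
      rfl
  · rintro ⟨P, hP, hPv⟩
    have hmem : ∀ q : k[X], evh u q ∈ Algebra.adjoin k {u} := by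
      intro q
      rw [Algebra.adjoin_singleton_eq_range_aeval]
      exact ⟨q, rfl⟩
    let g : k[X] →+* Algebra.adjoin k {u} := (evh u).codRestrict _ hmem
    have hg : (algebraMap (Algebra.adjoin k {u}) (L k)).comp g = evh u := by
      ext1 <;> rfl
    refine ⟨P.map g, ?_, ?_⟩
    · intro h0
      apply hP
      rw [← hg, ← Polynomial.map_map, h0, Polynomial.map_zero]
    · rw [Polynomial.aeval_def, Polynomial.eval₂_map, hg]
      exact hPv

theorem evh_map (φ : L k →ₐ[k] L k) (u : L k) : evh (φ u) = φ.toRingHom.comp (evh u) := by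
  apply RingHom.ext
  intro p
  exact Polynomial.aeval_algHom_apply φ u p

theorem evh_swap (u v : L k) (P : k[X][X]) :
    P.eval₂ (evh u) v = (Polynomial.Bivariate.swap P).eval₂ (evh v) u := by
  have h : ((Polynomial.eval₂RingHom (evh u) v) : k[X][X] →+* L k) =
      (Polynomial.eval₂RingHom (evh v) u).comp
        (Polynomial.Bivariate.swap (R := k)).toRingEquiv.toRingHom := by
    apply Polynomial.ringHom_ext
    · intro a
      have h1 : (Polynomial.Bivariate.swap (R := k)).toRingEquiv.toRingHom (C a) = a.map C :=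
        Polynomial.Bivariate.swap_C a
      rw [RingHom.comp_apply, h1, Polynomial.coe_eval₂RingHom, Polynomial.eval₂_C,
        Polynomial.coe_eval₂RingHom, Polynomial.eval₂_map, evh_apply, Polynomial.aeval_def]
      congr 1
      ext b
      simp [evh_apply]
    · have h1 : (Polynomial.Bivariate.swap (R := k)).toRingEquiv.toRingHom X = C X :=
        Polynomial.Bivariate.swap_Y
      rw [RingHom.comp_apply, h1, Polynomial.coe_eval₂RingHom, Polynomial.eval₂_X,
        Polynomial.coe_eval₂RingHom, Polynomial.eval₂_C, evh_apply, Polynomial.aeval_X]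
  exact DFunLike.congr_fun h P

end gen

variable {k : Type*} [Field k] [IsAlgClosed k] [CharZero k]

theorem DPOL {u : L k} {g : k[X]} (hg : 1 ≤ g.natDegree) : Dep (aeval u g) u := by
  rw [dep_iff]
  refine ⟨g.map C - C X, ?_, ?_⟩
  · rw [Polynomial.map_sub, Polynomial.map_C, Polynomial.map_map, sub_ne_zero]
    intro h0
    have h1 := congrArg Polynomial.natDegree h0
    rw [Polynomial.natDegree_C, Polynomial.natDegree_map] at h1
    omega
  · rw [Polynomial.eval₂_sub, Polynomial.eval₂_C, Polynomial.eval₂_map, evh_apply,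
      Polynomial.aeval_X, sub_eq_zero, Polynomial.aeval_def]
    congr 1
    ext a
    simp [evh_apply]

end

end Pool.Agent.Lib_helper45.BDP.DPOL
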