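import Pool.Agent.Lib_helper45.BDP.Defs

set_option linter.unusedSectionVars false
set_option linter.unusedVariables false
set_option linter.style.haveILetI false

namespace Pool.Agent.Lib_helper45.BDP.DPOW

open Polynomial

noncomputable section

section gen

variable {k : Type*} [Field k]

/-- The evaluation `k[X] → L k` at `u` as a ring homomorphism. -/
def evh (u : L k) : k[X] →+* L k := (Polynomial.aeval u : k[X] →ₐ[k] L k).toRingHom

theorem evh_apply (u : L k) (p : k[X]) : evh u p = Polynomial.aeval u p := rfl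

open scoped IntermediateField.algebraAdjoinAdjoin in
theorem dep_iff_adjoin {u v : L k} : Dep u v ↔ IsAlgebraic (Algebra.adjoin k {u}) v :=
  (IsFractionRing.isAlgebraic_iff (Algebra.adjoin k {u}) (IntermediateField.adjoin k {u})
      (L k)).symm

theorem dep_iff {u v : L k} :
    Dep u v ↔ ∃ P : k[X][X], P.map (evh u) ≠ 0 ∧ P.eval₂ (evh u) v = 0 := by
  rw [dep_iff_adjoin]
  constructor
  · rintro ⟨p, hp, hpv⟩
    have hlift : ∀ a : Algebra.adjoin k {u}, ∃ q : k[X], evh u q = a := by
      rintro ⟨a, ha⟩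
      rw [Algebra.adjoin_singleton_eq_range_aeval] at ha
      obtain ⟨q, hq⟩ := ha
      exact ⟨q, hq⟩
    choose f hf using hlift
    refine ⟨∑ i ∈ p.support, C (f (p.coeff i)) * X ^ i, ?_, ?_⟩
    · have h1 : (∑ i ∈ p.support, C (f (p.coeff i)) * X ^ i : k[X][X]).map (evh u) =
          p.map (algebraMap (Algebra.adjoin k {u}) (L k)) := by
        rw [Polynomial.map_sum]
        conv_rhs => rw [p.as_sum_support_C_mul_X_pow, Polynomial.map_sum]
        refine Finset.sum_congr rfl fun i _ => ?_
        rw [Polynomial.map_mul, Polynomial.map_mul, Polynomial.map_C, Polynomial.map_C,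
          Polynomial.map_pow, Polynomial.map_pow, Polynomial.map_X, Polynomial.map_X, hf]
        rfl
      rw [h1]
      intro h0
      apply hp
      exact (Polynomial.map_eq_zero_iff
        (FaithfulSMul.algebraMap_injective (Algebra.adjoin k {u}) (L k))).1 h0
    · rw [Polynomial.eval₂_finsetSum]
      rw [Polynomial.aeval_def, Polynomial.eval₂_eq_sum, Polynomial.sum_def] at hpv
      rw [← hpv]
      refine Finset.sum_congr rfl fun i _ => ?_
      rw [Polynomial.eval₂_mul, Polynomial.eval₂_C, Polynomial.eval₂_X_pow, hf]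
      rfl
  · rintro ⟨P, hP, hPv⟩
    have hmem : ∀ q : k[X], evh u q ∈ Algebra.adjoin k {u} := by
      intro q
      rw [Algebra.adjoin_singleton_eq_range_aeval]
      exact ⟨q, rfl⟩
    let g : k[X] →+* Algebra.adjoin k {u} := (evh u).codRestrict _ hmem
    have hg : (algebraMap (Algebra.adjoin k {u}) (L k)).comp g = evh u := by
      ext1 <;> rfl
    refine ⟨P.map g, ?_, ?_⟩
    · intro h0
      apply hP
      rw [← hg, ← Polynomial.map_map, h0, Polynomial.map_zero]
    · rw [Polynomial.aeval_def, Polynomial.eval₂_map, hg]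
      exact hPv

theorem evh_map (φ : L k →ₐ[k] L k) (u : L k) : evh (φ u) = φ.toRingHom.comp (evh u) := by
  apply RingHom.ext
  intro p
  exact Polynomial.aeval_algHom_apply φ u p

theorem evh_swap (u v : L k) (P : k[X][X]) :
    P.eval₂ (evh u) v = (Polynomial.Bivariate.swap P).eval₂ (evh v) u := by
  have h : ((Polynomial.eval₂RingHom (evh u) v) : k[X][X] →+* L k) =
      (Polynomial.eval₂RingHom (evh v) u).comp
        (Polynomial.Bivariate.swap (R := k)).toRingEquiv.toRingHom := by
    apply Polynomial.ringHom_ext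
    · intro a
      have h1 : (Polynomial.Bivariate.swap (R := k)).toRingEquiv.toRingHom (C a) = a.map C :=
        Polynomial.Bivariate.swap_C a
      rw [RingHom.comp_apply, h1, Polynomial.coe_eval₂RingHom, Polynomial.eval₂_C,
        Polynomial.coe_eval₂RingHom, Polynomial.eval₂_map, evh_apply, Polynomial.aeval_def]
      congr 1
      ext b
      simp [evh_apply]
    · have h1 : (Polynomial.Bivariate.swap (R := k)).toRingEquiv.toRingHom X = C X :=
        Polynomial.Bivariate.swap_Y
      rw [RingHom.comp_apply, h1, Polynomial.coe_eval₂RingHom, Polynomial.eval₂_X,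
        Polynomial.coe_eval₂RingHom, Polynomial.eval₂_C, evh_apply, Polynomial.aeval_X]
  exact DFunLike.congr_fun h P

end gen

variable {k : Type*} [Field k] [IsAlgClosed k] [CharZero k]

theorem DTRA {u v w : L k} (h : Dep u v) (h' : Dep v w) : Dep u w := by
  let K := IntermediateField.adjoin k {u}
  let A : IntermediateField K (L k) := algebraicClosure K (L k)
  have hv : v ∈ A := (mem_algebraicClosure_iff).2 h
  have hle : IntermediateField.adjoin k {v} ≤ A.restrictScalars k := by
    rw [IntermediateField.adjoin_le_iff]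
    intro x hx
    rw [Set.mem_singleton_iff] at hx
    rw [hx]
    exact hv
  have h1 : IsAlgebraic A w := by
    obtain ⟨p, hp, hpw⟩ := h'
    let ι : IntermediateField.adjoin k {v} →+* A :=
      (IntermediateField.inclusion hle).toRingHom
    refine ⟨p.map ι, ?_, ?_⟩
    · intro h0
      exact hp ((Polynomial.map_eq_zero_iff ι.injective).1 h0)
    · rw [Polynomial.aeval_def, Polynomial.eval₂_map]
      rw [Polynomial.aeval_def] at hpw
      rw [← hpw]
      rfl
  haveI : Algebra.IsAlgebraic K A := algebraicClosure.isAlgebraic K (L k)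
  exact IsAlgebraic.restrictScalars K h1

theorem DMAP (φ : L k →ₐ[k] L k) {u v : L k} (h : Dep u v) : Dep (φ u) (φ v) := by
  rw [dep_iff] at h ⊢
  obtain ⟨P, hP, hv⟩ := h
  refine ⟨P, ?_, ?_⟩
  · rw [evh_map, ← Polynomial.map_map]
    intro h0
    exact hP ((Polynomial.map_eq_zero_iff φ.toRingHom.injective).1 h0)
  · rw [evh_map]
    have h1 := Polynomial.hom_eval₂ P (evh u) φ.toRingHom v
    rw [hv, map_zero] at h1
    exact h1.symm

theorem DREF (u : L k) : Dep u u := by
  have h := isAlgebraic_algebraMap (A := L k)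
    (⟨u, IntermediateField.subset_adjoin k {u} rfl⟩ : IntermediateField.adjoin k {u})
  exact h

theorem DPOW {T : L k} (hT : SimplePole T) {c : kˣ} {p q N : ℕ} (hp : 1 ≤ p) (hq : 1 ≤ q)
    (hN : 1 ≤ N) (hc : c ^ N = 1) (h : Dep (th 1 q T) (th c p T)) (e : ℕ) :
    ∃ (c' : kˣ) (N' : ℕ), 1 ≤ N' ∧ c' ^ N' = 1 ∧ Dep (th 1 (q ^ e) T) (th c' (p ^ e) T) := by
  induction e with
  | zero => exact ⟨1, 1, le_rfl, one_pow 1, by rw [pow_zero, pow_zero]; exact DREF _⟩
  | succ e ih =>
    obtain ⟨c', N', hN', hc', hd⟩ := ih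
    obtain ⟨a0, ha0⟩ := IsAlgClosed.exists_pow_nat_eq (c' : k) (show 0 < q from hq)
    have ha00 : a0 ≠ 0 := by
      rintro rfl
      rw [zero_pow (by omega)] at ha0
      exact c'.ne_zero ha0.symm
    let a : kˣ := Units.mk0 a0 ha00
    have ha : a ^ q = c' := Units.ext (by rw [Units.val_pow_eq_pow_val]; exact ha0)
    have hpe : 0 < p ^ e := pow_pos (by omega) e
    have hqe : 0 < q ^ e := pow_pos (by omega) e
    refine ⟨c * a ^ p, N * (q * N'), ?_, ?_, ?_⟩
    · exact Nat.mul_pos hN (Nat.mul_pos hq hN')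
    · rw [mul_pow, pow_mul c, hc, one_pow, one_mul, ← pow_mul, show p * (N * (q * N')) =
        q * (N' * (p * N)) by ring, pow_mul a, ha, pow_mul, hc', one_pow]
    · have h1 := DMAP (th 1 q) hd
      rw [th_th _ _ hq hqe, th_th _ _ hq hpe, one_pow, one_pow, mul_one, mul_one] at h1
      have h2 := DMAP (th a (p ^ e)) h
      rw [th_th _ _ hpe hq, th_th _ _ hpe hp, one_mul, ha] at h2
      rw [show q * p ^ e = p ^ e * q by ring] at h1
      rw [show q * q ^ e = q ^ (e + 1) by ring] at h1
      rw [show p ^ e * p = p ^ (e + 1) by ring] at h2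
      exact DTRA h1 h2

end

end Pool.Agent.Lib_helper45.BDP.DPOW
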