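import Pool.Agent.Lib_helper45.BDP.Defs

set_option linter.unusedSectionVars false
set_option linter.unusedVariables false
set_option linter.style.haveILetI false

namespace Pool.Agent.Lib_helper45.BDP.DROT

open Polynomial

noncomputable section

section gen

variable {k : Type*} [Field k]

/-- The evaluation `k[X] → L k` at `u` as a ring homomorphism. -/
def evh (u : L k) : k[X] →+* L k := (Polynomial.aeval u : k[X] →ₐ[k] L k).toRingHom

theorem evh_apply (u : L k) (p : k[X]) : evh u p = Polynomial.aeval u p := rfl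

open scoped IntermediateField.algebraAdjoinAdjoin in
theorem dep_iff_adjoin {u v : L k} : Dep u v ↔ IsAlgebraic (Algebra.adjoin k {u}) v :=
  (IsFractionRing.isAlgebraic_iff (Algebra.adjoin k {u}) (IntermediateField.adjoin k {u})
      (L k)).symm

theorem dep_iff {u v : L k} :
    Dep u v ↔ ∃ P : k[X][X], P.map (evh u) ≠ 0 ∧ P.eval₂ (evh u) v = 0 := by
  rw [dep_iff_adjoin]
  constructor
  · rintro ⟨p, hp, hpv⟩
    have hlift : ∀ a : Algebra.adjoin k {u}, ∃ q : k[X], evh u q = a := by
      rintro ⟨a, ha⟩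
      rw [Algebra.adjoin_singleton_eq_range_aeval] at ha
      obtain ⟨q, hq⟩ := ha
      exact ⟨q, hq⟩
    choose f hf using hlift
    refine ⟨∑ i ∈ p.support, C (f (p.coeff i)) * X ^ i, ?_, ?_⟩
    · have h1 : (∑ i ∈ p.support, C (f (p.coeff i)) * X ^ i : k[X][X]).map (evh u) =
          p.map (algebraMap (Algebra.adjoin k {u}) (L k)) := by
        rw [Polynomial.map_sum]
        conv_rhs => rw [p.as_sum_support_C_mul_X_pow, Polynomial.map_sum]
        refine Finset.sum_congr rfl fun i _ => ?_
        rw [Polynomial.map_mul, Polynomial.map_mul, Polynomial.map_C, Polynomial.map_C,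
          Polynomial.map_pow, Polynomial.map_pow, Polynomial.map_X, Polynomial.map_X, hf]
        rfl
      rw [h1]
      intro h0
      apply hp
      exact (Polynomial.map_eq_zero_iff
        (FaithfulSMul.algebraMap_injective (Algebra.adjoin k {u}) (L k))).1 h0
    · rw [Polynomial.eval₂_finsetSum]
      rw [Polynomial.aeval_def, Polynomial.eval₂_eq_sum, Polynomial.sum_def] at hpv
      rw [← hpv]
      refine Finset.sum_congr rfl fun i _ => ?_
      rw [Polynomial.eval₂_mul, Polynomial.eval₂_C, Polynomial.eval₂_X_pow, hf]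
      rfl
  · rintro ⟨P, hP, hPv⟩
    have hmem : ∀ q : k[X], evh u q ∈ Algebra.adjoin k {u} := by
      intro q
      rw [Algebra.adjoin_singleton_eq_range_aeval]
      exact ⟨q, rfl⟩
    let g : k[X] →+* Algebra.adjoin k {u} := (evh u).codRestrict _ hmem
    have hg : (algebraMap (Algebra.adjoin k {u}) (L k)).comp g = evh u := by
      ext1 <;> rfl
    refine ⟨P.map g, ?_, ?_⟩
    · intro h0
      apply hP
      rw [← hg, ← Polynomial.map_map, h0, Polynomial.map_zero]
    · rw [Polynomial.aeval_def, Polynomial.eval₂_map, hg]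
      exact hPv

theorem evh_map (φ : L k →ₐ[k] L k) (u : L k) : evh (φ u) = φ.toRingHom.comp (evh u) := by
  apply RingHom.ext
  intro p
  exact Polynomial.aeval_algHom_apply φ u p

theorem evh_swap (u v : L k) (P : k[X][X]) :
    P.eval₂ (evh u) v = (Polynomial.Bivariate.swap P).eval₂ (evh v) u := by
  have h : ((Polynomial.eval₂RingHom (evh u) v) : k[X][X] →+* L k) =
      (Polynomial.eval₂RingHom (evh v) u).comp
        (Polynomial.Bivariate.swap (R := k)).toRingEquiv.toRingHom := by
    apply Polynomial.ringHom_ext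
    · intro a
      have h1 : (Polynomial.Bivariate.swap (R := k)).toRingEquiv.toRingHom (C a) = a.map C :=
        Polynomial.Bivariate.swap_C a
      rw [RingHom.comp_apply, h1, Polynomial.coe_eval₂RingHom, Polynomial.eval₂_C,
        Polynomial.coe_eval₂RingHom, Polynomial.eval₂_map, evh_apply, Polynomial.aeval_def]
      congr 1
      ext b
      simp [evh_apply]
    · have h1 : (Polynomial.Bivariate.swap (R := k)).toRingEquiv.toRingHom X = C X :=
        Polynomial.Bivariate.swap_Y
      rw [RingHom.comp_apply, h1, Polynomial.coe_eval₂RingHom, Polynomial.eval₂_X,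
        Polynomial.coe_eval₂RingHom, Polynomial.eval₂_C, evh_apply, Polynomial.aeval_X]
  exact DFunLike.congr_fun h P

end gen

variable {k : Type*} [Field k] [IsAlgClosed k] [CharZero k]

theorem DSYM {u v : L k} (hu : Transcendental k u) (hv : Transcendental k v) (h : Dep u v) :
    Dep v u := by
  rw [dep_iff] at h ⊢
  obtain ⟨P, hP, hPv⟩ := h
  refine ⟨Polynomial.Bivariate.swap P, ?_, ?_⟩
  · intro h0
    have hinj : Function.Injective (evh v) := transcendental_iff_injective.1 hv
    rw [Polynomial.map_eq_zero_iff hinj] at h0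
    have h1 : P = 0 := by
      rw [← Polynomial.Bivariate.swap_swap_apply P, h0, map_zero]
    apply hP
    rw [h1, Polynomial.map_zero]
  · rw [← evh_swap]
    exact hPv

theorem DTRA {u v w : L k} (h : Dep u v) (h' : Dep v w) : Dep u w := by
  let K := IntermediateField.adjoin k {u}
  let A : IntermediateField K (L k) := algebraicClosure K (L k)
  have hv : v ∈ A := (mem_algebraicClosure_iff).2 h
  have hle : IntermediateField.adjoin k {v} ≤ A.restrictScalars k := by
    rw [IntermediateField.adjoin_le_iff]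
    intro x hx
    rw [Set.mem_singleton_iff] at hx
    rw [hx]
    exact hv
  have h1 : IsAlgebraic A w := by
    obtain ⟨p, hp, hpw⟩ := h'
    let ι : IntermediateField.adjoin k {v} →+* A :=
      (IntermediateField.inclusion hle).toRingHom
    refine ⟨p.map ι, ?_, ?_⟩
    · intro h0
      exact hp ((Polynomial.map_eq_zero_iff ι.injective).1 h0)
    · rw [Polynomial.aeval_def, Polynomial.eval₂_map]
      rw [Polynomial.aeval_def] at hpw
      rw [← hpw]
      rfl
  haveI : Algebra.IsAlgebraic K A := algebraicClosure.isAlgebraic K (L k)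
  exact IsAlgebraic.restrictScalars K h1

theorem DMAP (φ : L k →ₐ[k] L k) {u v : L k} (h : Dep u v) : Dep (φ u) (φ v) := by
  rw [dep_iff] at h ⊢
  obtain ⟨P, hP, hv⟩ := h
  refine ⟨P, ?_, ?_⟩
  · rw [evh_map, ← Polynomial.map_map]
    intro h0
    exact hP ((Polynomial.map_eq_zero_iff φ.toRingHom.injective).1 h0)
  · rw [evh_map]
    have h1 := Polynomial.hom_eval₂ P (evh u) φ.toRingHom v
    rw [hv, map_zero] at h1
    exact h1.symm

theorem DINV (φ : L k →ₐ[k] L k) {u v : L k} (h : Dep (φ u) (φ v)) : Dep u v := by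
  rw [dep_iff] at h ⊢
  obtain ⟨P, hP, hv⟩ := h
  refine ⟨P, ?_, ?_⟩
  · rw [evh_map, ← Polynomial.map_map] at hP
    intro h0
    apply hP
    rw [h0, Polynomial.map_zero]
  · rw [evh_map] at hv
    have h1 := Polynomial.hom_eval₂ P (evh u) φ.toRingHom v
    apply φ.toRingHom.injective
    rw [h1, map_zero]
    exact hv

theorem TTH {T : L k} (hT : SimplePole T) (c : kˣ) {m : ℕ} (hm : 1 ≤ m) :
    Transcendental k (th c m T) := by
  intro halg
  have hint : IsIntegral k (th c m T) := halg.isIntegral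
  have hdeg : (minpoly k (th c m T)).degree = 1 :=
    IsAlgClosed.degree_eq_one_of_irreducible k (minpoly.irreducible hint)
  obtain ⟨a, ha⟩ := minpoly.mem_range_of_degree_eq_one k _ hdeg
  have h1 : (algebraMap k (L k) a).coeff ((m : ℤ) * (-1)) =
      (th c m T).coeff ((m : ℤ) * (-1)) := by rw [ha]
  rw [th_coeff_mul c hm] at h1
  have h2 : (algebraMap k (L k) a).coeff ((m : ℤ) * (-1)) = 0 := by
    rw [algebraMap_L, HahnSeries.C_apply]
    apply HahnSeries.coeff_single_of_ne
    have : (1 : ℤ) ≤ m := by exact_mod_cast hm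
    omega
  rw [h2] at h1
  exact mul_ne_zero (Units.ne_zero _) hT.1 h1.symm

theorem DROT {T : L k} (hT : SimplePole T) {c ζ : kˣ} {p q : ℕ} (hp : 1 ≤ p) (hq : 1 ≤ q)
    (hpq : Nat.Coprime p q) (hζ : ζ ^ q = 1) (h : Dep (th 1 q T) (th c p T)) :
    Dep T (th ζ 1 T) := by
  obtain ⟨ξ, hξ1, hξ2⟩ : ∃ ξ : kˣ, ξ ^ q = 1 ∧ ξ ^ p = ζ := by
    have hb : (1 : ℤ) = p * Nat.gcdA p q + q * Nat.gcdB p q := by
      have h0 := Nat.gcd_eq_gcd_ab p q
      rw [hpq] at h0
      exact_mod_cast h0
    refine ⟨ζ ^ (Nat.gcdA p q), ?_, ?_⟩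
    · rw [← zpow_natCast, ← zpow_mul, mul_comm, zpow_mul, zpow_natCast, hζ, one_zpow]
    · rw [← zpow_natCast, ← zpow_mul, mul_comm]
      have h0 : ζ ^ ((p : ℤ) * Nat.gcdA p q) = ζ ^ ((1 : ℤ) - q * Nat.gcdB p q) := by
        congr 1
        linarith
      rw [h0, zpow_sub, zpow_one, zpow_mul, zpow_natCast, hζ, one_zpow, inv_one, mul_one]
  have h1 := DMAP (th ξ 1) h
  rw [th_th _ _ Nat.one_pos hq, th_th _ _ Nat.one_pos hp, one_mul, one_mul, one_mul, hξ1,
    hξ2] at h1
  have h2 : Dep (th c p T) (th 1 q T) := DSYM (TTH hT 1 hq) (TTH hT c hp) h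
  have h3 := DTRA h2 h1
  have h4 : th (c * ζ) p T = th c p (th ζ 1 T) := by
    rw [th_th _ _ hp Nat.one_pos, pow_one, mul_one, mul_comm]
  rw [h4] at h3
  exact DINV _ h3

end

end Pool.Agent.Lib_helper45.BDP.DROT
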