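import Pool.Agent.Lib_helper45.BDP.Defs

set_option linter.unusedSectionVars false
set_option linter.unusedVariables false
set_option linter.style.haveILetI false

namespace Pool.Agent.Lib_helper45.BDP.DTRA

open Polynomial

noncomputable section

variable {k : Type*} [Field k] [IsAlgClosed k] [CharZero k]

theorem DTRA {u v w : L k} (h : Dep u v) (h' : Dep v w) : Dep u w := by
  let K := IntermediateField.adjoin k {u}
  let A : IntermediateField K (L k) := algebraicClosure K (L k)
  have hv : v ∈ A := (mem_algebraicClosure_iff).2 h
  have hle : IntermediateField.adjoin k {v} ≤ A.restrictScalars k := by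
    rw [IntermediateField.adjoin_le_iff]
    intro x hx
    rw [Set.mem_singleton_iff] at hx
    rw [hx]
    exact hv
  have h1 : IsAlgebraic A w := by
    obtain ⟨p, hp, hpw⟩ := h'
    let ι : IntermediateField.adjoin k {v} →+* A :=
      (IntermediateField.inclusion hle).toRingHom
    refine ⟨p.map ι, ?_, ?_⟩
    · intro h0
      exact hp ((Polynomial.map_eq_zero_iff ι.injective).1 h0)
    · rw [Polynomial.aeval_def, Polynomial.eval₂_map]
      rw [Polynomial.aeval_def] at hpw
      rw [← hpw]
      rfl
  haveI : Algebra.IsAlgebraic K A := algebraicClosure.isAlgebraic K (L k)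
  exact IsAlgebraic.restrictScalars K h1

end

end Pool.Agent.Lib_helper45.BDP.DTRA
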