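import Pool.Agent.Lib_helper45.BDP.Defs

set_option linter.unusedSectionVars false
set_option linter.unusedVariables false
set_option linter.style.haveILetI false

namespace Pool.Agent.Lib_helper45.BDP.DXI

open Polynomial

noncomputable section

section gen

variable {k : Type*} [Field k]

/-- The evaluation `k[X] → L k` at `u` as a ring homomorphism. -/
def evh (u : L k) : k[X] →+* L k := (Polynomial.aeval u : k[X] →ₐ[k] L k).toRingHom

theorem evh_apply (u : L k) (p : k[X]) : evh u p = Polynomial.aeval u p := rfl

open scoped IntermediateField.algebraAdjoinAdjoin in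
theorem dep_iff_adjoin {u v : L k} : Dep u v ↔ IsAlgebraic (Algebra.adjoin k {u}) v :=
  (IsFractionRing.isAlgebraic_iff (Algebra.adjoin k {u}) (IntermediateField.adjoin k {u})
      (L k)).symm

theorem dep_iff {u v : L k} :
    Dep u v ↔ ∃ P : k[X][X], P.map (evh u) ≠ 0 ∧ P.eval₂ (evh u) v = 0 := by
  rw [dep_iff_adjoin]
  constructor
  · rintro ⟨p, hp, hpv⟩
    have hlift : ∀ a : Algebra.adjoin k {u}, ∃ q : k[X], evh u q = a := by
      rintro ⟨a, ha⟩
      rw [Algebra.adjoin_singleton_eq_range_aeval] at ha
      obtain ⟨q, hq⟩ := ha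
      exact ⟨q, hq⟩
    choose f hf using hlift
    refine ⟨∑ i ∈ p.support, C (f (p.coeff i)) * X ^ i, ?_, ?_⟩
    · have h1 : (∑ i ∈ p.support, C (f (p.coeff i)) * X ^ i : k[X][X]).map (evh u) =
          p.map (algebraMap (Algebra.adjoin k {u}) (L k)) := by
        rw [Polynomial.map_sum]
        conv_rhs => rw [p.as_sum_support_C_mul_X_pow, Polynomial.map_sum]
        refine Finset.sum_congr rfl fun i _ => ?_
        rw [Polynomial.map_mul, Polynomial.map_mul, Polynomial.map_C, Polynomial.map_C,
          Polynomial.map_pow, Polynomial.map_pow, Polynomial.map_X, Polynomial.map_X, hf]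
        rfl
      rw [h1]
      intro h0
      apply hp
      exact (Polynomial.map_eq_zero_iff
        (FaithfulSMul.algebraMap_injective (Algebra.adjoin k {u}) (L k))).1 h0
    · rw [Polynomial.eval₂_finsetSum]
      rw [Polynomial.aeval_def, Polynomial.eval₂_eq_sum, Polynomial.sum_def] at hpv
      rw [← hpv]
      refine Finset.sum_congr rfl fun i _ => ?_
      rw [Polynomial.eval₂_mul, Polynomial.eval₂_C, Polynomial.eval₂_X_pow, hf]
      rfl
  · rintro ⟨P, hP, hPv⟩
    have hmem : ∀ q : k[X], evh u q ∈ Algebra.adjoin k {u} := by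
      intro q
      rw [Algebra.adjoin_singleton_eq_range_aeval]
      exact ⟨q, rfl⟩
    let g : k[X] →+* Algebra.adjoin k {u} := (evh u).codRestrict _ hmem
    have hg : (algebraMap (Algebra.adjoin k {u}) (L k)).comp g = evh u := by
      ext1 <;> rfl
    refine ⟨P.map g, ?_, ?_⟩
    · intro h0
      apply hP
      rw [← hg, ← Polynomial.map_map, h0, Polynomial.map_zero]
    · rw [Polynomial.aeval_def, Polynomial.eval₂_map, hg]
      exact hPv

theorem evh_map (φ : L k →ₐ[k] L k) (u : L k) : evh (φ u) = φ.toRingHom.comp (evh u) := by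
  apply RingHom.ext
  intro p
  exact Polynomial.aeval_algHom_apply φ u p

theorem evh_swap (u v : L k) (P : k[X][X]) :
    P.eval₂ (evh u) v = (Polynomial.Bivariate.swap P).eval₂ (evh v) u := by
  have h : ((Polynomial.eval₂RingHom (evh u) v) : k[X][X] →+* L k) =
      (Polynomial.eval₂RingHom (evh v) u).comp
        (Polynomial.Bivariate.swap (R := k)).toRingEquiv.toRingHom := by
    apply Polynomial.ringHom_ext
    · intro a
      have h1 : (Polynomial.Bivariate.swap (R := k)).toRingEquiv.toRingHom (C a) = a.map C :=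
        Polynomial.Bivariate.swap_C a
      rw [RingHom.comp_apply, h1, Polynomial.coe_eval₂RingHom, Polynomial.eval₂_C,
        Polynomial.coe_eval₂RingHom, Polynomial.eval₂_map, evh_apply, Polynomial.aeval_def]
      congr 1
      ext b
      simp [evh_apply]
    · have h1 : (Polynomial.Bivariate.swap (R := k)).toRingEquiv.toRingHom X = C X :=
        Polynomial.Bivariate.swap_Y
      rw [RingHom.comp_apply, h1, Polynomial.coe_eval₂RingHom, Polynomial.eval₂_X,
        Polynomial.coe_eval₂RingHom, Polynomial.eval₂_C, evh_apply, Polynomial.aeval_X]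
  exact DFunLike.congr_fun h P

end gen

variable {k : Type*} [Field k] [IsAlgClosed k] [CharZero k]

theorem DTRA {u v w : L k} (h : Dep u v) (h' : Dep v w) : Dep u w := by
  let K := IntermediateField.adjoin k {u}
  let A : IntermediateField K (L k) := algebraicClosure K (L k)
  have hv : v ∈ A := (mem_algebraicClosure_iff).2 h
  have hle : IntermediateField.adjoin k {v} ≤ A.restrictScalars k := by
    rw [IntermediateField.adjoin_le_iff]
    intro x hx
    rw [Set.mem_singleton_iff] at hx
    rw [hx]
    exact hv
  have h1 : IsAlgebraic A w := by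
    obtain ⟨p, hp, hpw⟩ := h'
    let ι : IntermediateField.adjoin k {v} →+* A :=
      (IntermediateField.inclusion hle).toRingHom
    refine ⟨p.map ι, ?_, ?_⟩
    · intro h0
      exact hp ((Polynomial.map_eq_zero_iff ι.injective).1 h0)
    · rw [Polynomial.aeval_def, Polynomial.eval₂_map]
      rw [Polynomial.aeval_def] at hpw
      rw [← hpw]
      rfl
  haveI : Algebra.IsAlgebraic K A := algebraicClosure.isAlgebraic K (L k)
  exact IsAlgebraic.restrictScalars K h1

theorem DPOL {u : L k} {g : k[X]} (hg : 1 ≤ g.natDegree) : Dep (aeval u g) u := by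
  rw [dep_iff]
  refine ⟨g.map C - C X, ?_, ?_⟩
  · rw [Polynomial.map_sub, Polynomial.map_C, Polynomial.map_map, sub_ne_zero]
    intro h0
    have h1 := congrArg Polynomial.natDegree h0
    rw [Polynomial.natDegree_C, Polynomial.natDegree_map] at h1
    omega
  · rw [Polynomial.eval₂_sub, Polynomial.eval₂_C, Polynomial.eval₂_map, evh_apply,
      Polynomial.aeval_X, sub_eq_zero, Polynomial.aeval_def]
    congr 1
    ext a
    simp [evh_apply]

theorem DXI {F : k[X]} {T : L k} (hF : Frob F T) {c ξ : kˣ} {m e : ℕ} (hm : 1 ≤ m)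
    (hξ : ξ ^ (F.natDegree ^ e) = 1) : Dep (th c m T) (th (ξ * c) m T) := by
  have hpos : ∀ e : ℕ, 0 < F.natDegree ^ e := fun e => pow_pos (by have := hF.deg; omega) e
  have hit : ∀ e : ℕ, aeval T (itr F e) = th 1 (F.natDegree ^ e) T := by
    intro e
    induction e with
    | zero => rw [itr_zero, aeval_X, pow_zero, th_one_one]
    | succ e ih =>
      rw [itr_succ, aeval_comp, ih, Polynomial.aeval_algHom_apply, hF.eq, th_th _ _ (hpos e)
        (by have := hF.deg; omega), one_pow, mul_one, ← pow_succ]
  have h1 : aeval (th c m T) (itr F e) = aeval (th (ξ * c) m T) (itr F e) := by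
    rw [Polynomial.aeval_algHom_apply, Polynomial.aeval_algHom_apply, hit,
      th_th _ _ hm (hpos e), th_th _ _ hm (hpos e), mul_pow, hξ, one_mul, one_mul]
  have hd : 1 ≤ (itr F e).natDegree := by
    rw [natDegree_itr]
    exact hpos e
  have h2 : Dep (aeval (th (ξ * c) m T) (itr F e)) (th (ξ * c) m T) := DPOL hd
  rw [← h1] at h2
  have h3 : Dep (th c m T) (aeval (th c m T) (itr F e)) := by
    have hmem : aeval (th c m T) (itr F e) ∈ IntermediateField.adjoin k {th c m T} := by
      apply IntermediateField.algebra_adjoin_le_adjoin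
      rw [Algebra.adjoin_singleton_eq_range_aeval]
      exact ⟨_, rfl⟩
    have h := isAlgebraic_algebraMap (A := L k)
      (⟨_, hmem⟩ : IntermediateField.adjoin k {th c m T})
    exact h
  exact DTRA h3 h2

end

end Pool.Agent.Lib_helper45.BDP.DXI
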