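import Pool.Agent.Lib_helper45.BDP.Defs

/-!
# Block EDGE
-/

namespace Pool.Agent.Lib_helper45.BDP.EDGE

open Polynomial

noncomputable section

variable {k : Type*} [Field k] [IsAlgClosed k] [CharZero k]

theorem EDGE {G : k[X][X]} (hy : 1 ≤ G.natDegree) (hlc : G.leadingCoeff.natDegree = 0)
    (hx : ∃ j, 1 ≤ (G.coeff j).natDegree) :
    ∃ q p : ℕ, 1 ≤ q ∧ 1 ≤ p ∧ Nat.Coprime p q ∧
      (∀ j i, (G.coeff j).coeff i ≠ 0 → q * i + p * j ≤ p * G.natDegree) ∧
      ∃ j i, j < G.natDegree ∧ (G.coeff j).coeff i ≠ 0 ∧ q * i + p * j = p * G.natDegree := by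
  classical
  have hjb : ∀ j i, (G.coeff j).coeff i ≠ 0 → j ≤ G.natDegree := by
    intro j i h
    refine le_natDegree_of_ne_zero fun h0 => h ?_
    rw [h0, coeff_zero]
  have hlt : ∀ j i, (G.coeff j).coeff i ≠ 0 → 1 ≤ i → j < G.natDegree := by
    intro j i h hi
    rcases (hjb j i h).lt_or_eq with h1 | h1
    · exact h1
    · exfalso
      have h2 : (G.leadingCoeff).coeff i ≠ 0 := by
        rw [leadingCoeff, ← h1]
        exact h
      have h3 := le_natDegree_of_ne_zero h2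
      omega
  let S : Finset (ℕ × ℕ) := (G.support.sigma fun j => (G.coeff j).support).image
    (fun x => (x.1, x.2)) |>.filter fun x => 1 ≤ x.2
  have hmem : ∀ j i, (j, i) ∈ S ↔ (G.coeff j).coeff i ≠ 0 ∧ 1 ≤ i := by
    intro j i
    simp only [S, Finset.mem_filter, Finset.mem_image, Finset.mem_sigma, mem_support_iff,
      Sigma.exists, Prod.mk.injEq]
    constructor
    · rintro ⟨⟨j', i', ⟨_, h2⟩, rfl, rfl⟩, h3⟩
      exact ⟨h2, h3⟩
    · rintro ⟨h1, h2⟩
      refine ⟨⟨j, i, ⟨?_, h1⟩, rfl, rfl⟩, h2⟩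
      intro h0
      rw [h0, coeff_zero] at h1
      exact h1 rfl
  have hne : S.Nonempty := by
    obtain ⟨j, hj⟩ := hx
    refine ⟨(j, (G.coeff j).natDegree), (hmem _ _).2 ⟨?_, hj⟩⟩
    intro h0
    have h1 : G.coeff j = 0 := leadingCoeff_eq_zero.1 h0
    rw [h1, natDegree_zero] at hj
    omega
  obtain ⟨⟨j0, i0⟩, h0, hmin⟩ :=
    S.exists_min_image (fun x => ((G.natDegree : ℚ) - x.1) / x.2) hne
  obtain ⟨hc0, hi0⟩ := (hmem _ _).1 h0
  have hj0 := hlt j0 i0 hc0 hi0
  -- cross multiplied form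
  have hcross : ∀ j i, (G.coeff j).coeff i ≠ 0 →
      (G.natDegree - j0) * i ≤ (G.natDegree - j) * i0 := by
    intro j i h
    rcases Nat.eq_zero_or_pos i with rfl | hi
    · rw [mul_zero]
      exact Nat.zero_le _
    · have h1 := hmin (j, i) ((hmem _ _).2 ⟨h, hi⟩)
      simp only at h1
      have hi' : (0 : ℚ) < i := by exact_mod_cast hi
      have hi0' : (0 : ℚ) < i0 := by exact_mod_cast hi0
      rw [div_le_div_iff₀ hi0' hi'] at h1
      have h2 := hlt j i h hi
      have e1 : ((G.natDegree - j0 : ℕ) : ℚ) = (G.natDegree : ℚ) - j0 := by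
        rw [Nat.cast_sub hj0.le]
      have e2 : ((G.natDegree - j : ℕ) : ℚ) = (G.natDegree : ℚ) - j := by
        rw [Nat.cast_sub h2.le]
      rw [← e1, ← e2] at h1
      exact_mod_cast h1
  set a := G.natDegree - j0 with ha
  have ha0 : 0 < a := by omega
  obtain ⟨g, q, p, hg, hco, hq, hp⟩ : ∃ g q p : ℕ, 0 < g ∧ Nat.Coprime q p ∧ a = q * g ∧
      i0 = p * g := by
    obtain ⟨g, q, p, hg, hco, hq, hp⟩ := Nat.exists_coprime' (Nat.gcd_pos_of_pos_left i0 ha0)
    exact ⟨g, q, p, hg, hco, hq, hp⟩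
  have hq0 : 1 ≤ q := by
    rcases Nat.eq_zero_or_pos q with rfl | h
    · rw [zero_mul] at hq
      omega
    · exact h
  have hp0 : 1 ≤ p := by
    rcases Nat.eq_zero_or_pos p with rfl | h
    · rw [zero_mul] at hp
      omega
    · exact h
  refine ⟨q, p, hq0, hp0, hco.symm, ?_, j0, i0, hj0, hc0, ?_⟩
  · intro j i h
    have h1 := hcross j i h
    rw [hq, hp] at h1
    have h2 : g * (q * i) ≤ g * (p * (G.natDegree - j)) := by
      calc g * (q * i) = q * g * i := by ring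
        _ ≤ (G.natDegree - j) * (p * g) := h1
        _ = _ := by ring
    have h3 := Nat.le_of_mul_le_mul_left h2 hg
    have h4 := hjb j i h
    calc q * i + p * j ≤ p * (G.natDegree - j) + p * j := Nat.add_le_add_right h3 _
      _ = p * G.natDegree := by rw [← mul_add, Nat.sub_add_cancel h4]
  · have h4 : p * (G.natDegree - j0) + p * j0 = p * G.natDegree := by
      rw [← mul_add, Nat.sub_add_cancel hj0.le]
    rw [← h4, ← ha, hq, hp]
    ring

end

end Pool.Agent.Lib_helper45.BDP.EDGE
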