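import Pool.Agent.Lib_helper45.BDP.DefsB

/-!
# EMBD: a single algebraic number is bounded at all places
-/

namespace Pool.Agent.Lib_helper45.BDP.EMBD

open Polynomial

noncomputable section

/-- The image of an algebraic number under an embedding is a root of its minimal polynomial. -/
theorem embd_root {K Ω : Type*} [Field K] [CharZero K] [Field Ω] [CharZero Ω] (σ : K →+* Ω) (a : K) :
    ((minpoly ℚ a).map (algebraMap ℚ Ω)).eval (σ a) = 0 := by
  have h1 : σ.comp (algebraMap ℚ K) = algebraMap ℚ Ω := Subsingleton.elim _ _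
  rw [eval_map, ← h1, ← hom_eval₂, ← aeval_def, minpoly.aeval, map_zero]

/-- A monic polynomial with small coefficients has small roots (ultrametric fields). -/
theorem embd_ultra {Ω : Type*} [NormedField Ω] [IsUltrametricDist Ω] {P : Polynomial Ω}
    (hm : P.Monic) (hc : ∀ i, ‖P.coeff i‖ ≤ 1) {x : Ω} (hx : P.eval x = 0) : ‖x‖ ≤ 1 := by
  by_contra hcon
  rw [not_le] at hcon
  rcases Nat.eq_zero_or_pos P.natDegree with h0 | h0
  · rw [hm.natDegree_eq_zero.1 h0, eval_one] at hx
    exact one_ne_zero hx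
  · have h1 : x ^ P.natDegree = - ∑ i ∈ Finset.range P.natDegree, P.coeff i * x ^ i := by
      rw [eval_eq_sum_range, Finset.sum_range_succ, hm.coeff_natDegree, one_mul] at hx
      linear_combination hx
    have h2 : ‖x‖ ^ P.natDegree ≤ ‖x‖ ^ (P.natDegree - 1) := by
      rw [← norm_pow, h1, norm_neg]
      refine IsUltrametricDist.norm_sum_le_of_forall_le_of_nonneg (by positivity) fun i hi => ?_
      rw [norm_mul, norm_pow]
      calc ‖P.coeff i‖ * ‖x‖ ^ i ≤ 1 * ‖x‖ ^ (P.natDegree - 1) := by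
            refine mul_le_mul (hc i) (pow_le_pow_right₀ hcon.le ?_) (by positivity) zero_le_one
            have := Finset.mem_range.1 hi
            omega
        _ = _ := one_mul _
    have h3 : ‖x‖ ^ (P.natDegree - 1) < ‖x‖ ^ P.natDegree :=
      pow_lt_pow_right₀ hcon (by omega)
    exact absurd h2 (not_le.2 h3)

/-- A common bound for the images of an algebraic number. -/
theorem embd_bound {K Ω : Type*} [Field K] [CharZero K] [Algebra.IsAlgebraic ℚ K] [NormedField Ω]
    [CharZero Ω] (a : K) : ∃ B : ℝ, ∀ σ : K →+* Ω, ‖σ a‖ ≤ B := by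
  classical
  have hne : (minpoly ℚ a).map (algebraMap ℚ Ω) ≠ 0 := by
    rw [Polynomial.map_ne_zero_iff (algebraMap ℚ Ω).injective]
    exact minpoly.ne_zero (Algebra.IsIntegral.isIntegral a)
  refine ⟨∑ z ∈ ((minpoly ℚ a).map (algebraMap ℚ Ω)).roots.toFinset, ‖z‖, fun σ => ?_⟩
  refine Finset.single_le_sum (f := fun z : Ω => ‖z‖) (fun z _ => norm_nonneg z) ?_
  rw [Multiset.mem_toFinset, mem_roots hne]
  exact embd_root σ a

/-- The norm of a rational number in the algebraic closure of the `p`-adic numbers. -/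
theorem embd_norm (p : ℕ) [Fact p.Prime] (q : ℚ) :
    ‖algebraMap ℚ (PadicAlgCl p) q‖ = ‖(q : ℚ_[p])‖ := by
  rw [← PadicAlgCl.norm_extends p (q : ℚ_[p])]
  congr 1

variable {K : Type*} [Field K] [CharZero K] [Algebra.IsAlgebraic ℚ K] [IsAlgClosed K]

omit [IsAlgClosed K] in
theorem embd_aux (a : K) : AllBdd ({a} : Set K) := by
  classical
  refine ⟨?_, ?_, ?_⟩
  · -- almost all primes
    have hden : (∏ i ∈ (minpoly ℚ a).support, ((minpoly ℚ a).coeff i).den) ≠ 0 :=
      Finset.prod_ne_zero_iff.2 fun i _ => Rat.den_nz _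
    refine ⟨(∏ i ∈ (minpoly ℚ a).support, ((minpoly ℚ a).coeff i).den).primeFactors, ?_⟩
    intro p hp hpS σ y hy
    rw [Set.mem_singleton_iff] at hy
    subst hy
    have hp' : ¬ p ∣ ∏ i ∈ (minpoly ℚ y).support, ((minpoly ℚ y).coeff i).den := fun h =>
      hpS (Nat.mem_primeFactors.2 ⟨hp.out, h, hden⟩)
    refine embd_ultra (P := (minpoly ℚ y).map (algebraMap ℚ (PadicAlgCl p)))
      ((minpoly.monic (Algebra.IsIntegral.isIntegral y)).map _) (fun i => ?_) (embd_root σ y)
    rw [coeff_map, embd_norm]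
    refine Padic.norm_rat_le_one fun h => ?_
    by_cases hi : i ∈ (minpoly ℚ y).support
    · exact hp' (h.trans (Finset.dvd_prod_of_mem _ hi))
    · rw [notMem_support_iff.1 hi, Rat.den_zero] at h
      exact hp.out.one_lt.ne' (Nat.dvd_one.1 h)
  · intro p hp
    obtain ⟨B, hB⟩ := embd_bound (Ω := PadicAlgCl p) a
    refine ⟨B, fun σ y hy => ?_⟩
    rw [Set.mem_singleton_iff] at hy
    rw [hy]
    exact hB σ
  · obtain ⟨B, hB⟩ := embd_bound (Ω := ℂ) a
    refine ⟨B, fun σ y hy => ?_⟩
    rw [Set.mem_singleton_iff] at hy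
    rw [hy]
    exact hB σ

theorem EMBD (a : K) : AllBdd ({a} : Set K) := embd_aux a

end

end Pool.Agent.Lib_helper45.BDP.EMBD
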