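import Pool.Agent.Lib_helper45.BDP.Defs

/-!
# Block FACP
-/

namespace Pool.Agent.Lib_helper45.BDP.FACP

open Polynomial Pool.Agent.Lib_helper45.BDP

noncomputable section

variable {k : Type*} [Field k] [IsAlgClosed k] [CharZero k]

/-- `cmp2 F` as a ring homomorphism -/
def facp_hom (F : k[X]) : k[X][X] →+* k[X][X] :=
  Polynomial.eval₂RingHom ((C : k[X] →+* k[X][X]).comp (compRingHom F)) (F.map C)

omit [IsAlgClosed k] [CharZero k] in
theorem facp_hom_apply (F : k[X]) (G : k[X][X]) : facp_hom F G = cmp2 F G := by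
  rw [facp_hom, Polynomial.coe_eval₂RingHom, cmp2, Polynomial.comp, Polynomial.eval₂_map]

omit [IsAlgClosed k] [CharZero k] in
theorem facp_cmp (F E : k[X]) (G : k[X][X]) : cmp2 F (cmp2 E G) = cmp2 (E.comp F) G := by
  have h : (facp_hom F).comp (facp_hom E) = facp_hom (E.comp F) := by
    apply Polynomial.ringHom_ext
    · intro a
      rw [RingHom.comp_apply, facp_hom_apply, facp_hom_apply, facp_hom_apply, cmp2_CC, cmp2_CC,
        cmp2_CC, comp_assoc]
    · rw [RingHom.comp_apply, facp_hom_apply, facp_hom_apply, facp_hom_apply, cmp2_X, cmp2_mapC,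
        cmp2_X]
  rw [← facp_hom_apply, ← facp_hom_apply, ← facp_hom_apply, ← h, RingHom.comp_apply]

omit [IsAlgClosed k] [CharZero k] in
theorem facp_zero (F : k[X]) (G : k[X][X]) : cmp2 (itr F 0) G = G := by
  have h : facp_hom (itr F 0) = RingHom.id k[X][X] := by
    apply Polynomial.ringHom_ext
    · intro a
      rw [facp_hom_apply, cmp2_CC, itr_zero, comp_X, RingHom.id_apply]
    · rw [facp_hom_apply, cmp2_X, itr_zero, Polynomial.map_X, RingHom.id_apply]
  rw [← facp_hom_apply, h, RingHom.id_apply]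

/-- every irreducible factor of `G`, `G ∣ G ∘ F`, is mapped to a periodic one -/
theorem FACP {F : k[X]} (hd : 1 ≤ F.natDegree) {G : k[X][X]} (hG : G ≠ 0) (hdvd : G ∣ cmp2 F G)
    {H : k[X][X]} (hH : Irreducible H) (hHG : H ∣ G) :
    ∃ (H' : k[X][X]) (s R : ℕ), Irreducible H' ∧ H' ∣ G ∧ 1 ≤ R ∧ H' ∣ cmp2 (itr F R) H' ∧
      H ∣ cmp2 (itr F s) H' := by
  classical
  have hmem : ∀ K : k[X][X], Irreducible K → K ∣ G →
      ∃ K' ∈ UniqueFactorizationMonoid.factors G, Associated K K' := fun K hK hKG =>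
    UniqueFactorizationMonoid.exists_mem_factors_of_dvd hG hK hKG
  -- a prime divisor of `G` divides `cmp2 F` of some factor
  have hstep : ∀ K : k[X][X], Irreducible K → K ∣ G →
      ∃ K' ∈ UniqueFactorizationMonoid.factors G, K ∣ cmp2 F K' := by
    intro K hK hKG
    have hp : Prime K := hK.prime
    have h1 : K ∣ facp_hom F G := by
      rw [facp_hom_apply]
      exact hKG.trans hdvd
    have h2 : Associated (facp_hom F (UniqueFactorizationMonoid.factors G).prod) (facp_hom F G) :=
      (UniqueFactorizationMonoid.factors_prod hG).map (facp_hom F)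
    have h3 : K ∣ facp_hom F (UniqueFactorizationMonoid.factors G).prod := h1.trans h2.symm.dvd
    rw [map_multiset_prod] at h3
    obtain ⟨Q, hQ, hKQ⟩ := hp.exists_mem_multiset_dvd h3
    rw [Multiset.mem_map] at hQ
    obtain ⟨K', hK', rfl⟩ := hQ
    rw [facp_hom_apply] at hKQ
    exact ⟨K', hK', hKQ⟩
  have hirr : ∀ K ∈ UniqueFactorizationMonoid.factors G, Irreducible K ∧ K ∣ G := fun K hK =>
    ⟨UniqueFactorizationMonoid.irreducible_of_factor K hK,
      UniqueFactorizationMonoid.dvd_of_mem_factors hK⟩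
  -- the next factor
  let S := {K : k[X][X] // K ∈ (UniqueFactorizationMonoid.factors G).toFinset}
  have hnext : ∀ K : S, ∃ K' : S, K.1 ∣ cmp2 F K'.1 := by
    intro K
    have hK := Multiset.mem_toFinset.1 K.2
    obtain ⟨K', hK', h⟩ := hstep K.1 (hirr _ hK).1 (hirr _ hK).2
    exact ⟨⟨K', Multiset.mem_toFinset.2 hK'⟩, h⟩
  choose nx hnx using hnext
  obtain ⟨K0, hK0, hHK0⟩ := hmem H hH hHG
  let s0 : S := ⟨K0, Multiset.mem_toFinset.2 hK0⟩
  -- divisibility along the orbit
  have horb : ∀ (j : ℕ) (K : S), K.1 ∣ cmp2 (itr F j) (nx^[j] K).1 := by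
    intro j
    induction j with
    | zero => intro K; rw [facp_zero]; exact dvd_rfl
    | succ j ih =>
      intro K
      rw [Function.iterate_succ_apply]
      have h1 := hnx K
      have h2 := cmp2_dvd F (ih (nx K))
      rw [facp_cmp, ← itr_succ'] at h2
      exact h1.trans h2
  -- pigeonhole
  haveI : Finite S := inferInstance
  obtain ⟨a, b, hab, heq⟩ := Finite.exists_ne_map_eq_of_infinite (fun j : ℕ => nx^[j] s0)
  have main : ∀ a b : ℕ, a < b → nx^[a] s0 = nx^[b] s0 →
      ∃ (H' : k[X][X]) (s R : ℕ), Irreducible H' ∧ H' ∣ G ∧ 1 ≤ R ∧ H' ∣ cmp2 (itr F R) H' ∧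
      H ∣ cmp2 (itr F s) H' := by
    intro a b hab heq
    have hK := Multiset.mem_toFinset.1 (nx^[a] s0).2
    refine ⟨(nx^[a] s0).1, a, b - a, (hirr _ hK).1, (hirr _ hK).2, by omega, ?_, ?_⟩
    · have h1 := horb (b - a) (nx^[a] s0)
      rw [← Function.iterate_add_apply, Nat.sub_add_cancel hab.le, ← heq] at h1
      exact h1
    · exact hHK0.dvd.trans (horb a s0)
  rcases lt_or_gt_of_ne hab with h | h
  · exact main a b h heq
  · exact main b a h heq.symm

end

end Pool.Agent.Lib_helper45.BDP.FACP
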