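import Pool.Agent.Lib_helper45.BDP.Defs

namespace Pool.Agent.Lib_helper45.BDP.FIBX

open Polynomial Pool.Agent.Lib_helper45.BDP

noncomputable section

variable {k : Type*} [Field k] {n : ℕ}

theorem mval_sub (e : Fin n → ℕ) (F : MvPolynomial (Fin n) k) (P : Fin n → OnePoint k)
    (s : Finset (Fin n →₀ ℕ)) (hs : F.support ⊆ s) :
    mval e F P = ∑ m ∈ s, F.coeff m * ∏ i, cval (e i) (m i) (P i) := by
  unfold mval
  refine Finset.sum_subset hs fun m _ hm => ?_
  rw [MvPolynomial.notMem_support_iff.1 hm, zero_mul]

theorem cval_zero_zero (z : OnePoint k) : cval 0 0 z = 1 := by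
  induction z using OnePoint.rec with
  | infty => simp [cval]
  | coe x => simp [cval]

/-- the set `{P | P i = z}` is Zariski closed -/
theorem closed_fib (i : Fin n) (z : OnePoint k) :
    ∃ (e : Fin n → ℕ) (F : MvPolynomial (Fin n) k), (∀ j, F.degreeOf j ≤ e j) ∧
      ∀ P : Fin n → OnePoint k, mval e F P = 0 ↔ P i = z := by
  classical
  induction z using OnePoint.rec with
  | infty =>
    refine ⟨Pi.single i 1, 1, fun j => ?_, fun P => ?_⟩
    · rw [← MvPolynomial.C_1, MvPolynomial.degreeOf_C]; exact Nat.zero_le _
    · rw [mval_sub _ _ _ {0} (by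
        intro m hm
        rw [MvPolynomial.mem_support_iff, MvPolynomial.coeff_one] at hm
        by_contra hcon
        rw [Finset.mem_singleton] at hcon
        rw [if_neg (Ne.symm hcon)] at hm
        exact hm rfl)]
      rw [Finset.sum_singleton, MvPolynomial.coeff_zero_one, one_mul,
        Finset.prod_eq_single i]
      · simp only [Pi.single_eq_same, Finsupp.coe_zero, Pi.zero_apply]
        generalize P i = z
        induction z using OnePoint.rec with
        | infty => simp [cval]
        | coe x => simp [cval]
      · intro j _ hj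
        rw [Pi.single_eq_of_ne hj, Finsupp.coe_zero, Pi.zero_apply, cval_zero_zero]
      · intro h; exact absurd (Finset.mem_univ i) h
  | coe a =>
    refine ⟨Pi.single i 1, MvPolynomial.X i - MvPolynomial.C a, fun j => ?_, fun P => ?_⟩
    · refine (MvPolynomial.degreeOf_sub_le _ _ _).trans ?_
      rw [MvPolynomial.degreeOf_C, MvPolynomial.degreeOf_X]
      by_cases h : j = i
      · subst h; simp
      · simp [h]
    · have hne : (Finsupp.single i 1 : Fin n →₀ ℕ) ≠ 0 := by
        simp
      rw [mval_sub _ _ _ {Finsupp.single i 1, 0} (by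
        intro m hm
        rw [MvPolynomial.mem_support_iff, MvPolynomial.coeff_sub, MvPolynomial.coeff_X,
          MvPolynomial.coeff_C] at hm
        rw [Finset.mem_insert, Finset.mem_singleton]
        by_contra hcon
        push Not at hcon
        rw [if_neg (Ne.symm hcon.1), if_neg (Ne.symm hcon.2), sub_zero] at hm
        exact hm rfl)]
      rw [Finset.sum_pair hne]
      have c1 : (MvPolynomial.X i - MvPolynomial.C a : MvPolynomial (Fin n) k).coeff
          (Finsupp.single i 1) = 1 := by
        rw [MvPolynomial.coeff_sub, MvPolynomial.coeff_X, MvPolynomial.coeff_C,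
          if_neg hne.symm, sub_zero, if_pos rfl]
      have c2 : (MvPolynomial.X i - MvPolynomial.C a : MvPolynomial (Fin n) k).coeff 0 = -a := by
        rw [MvPolynomial.coeff_sub, MvPolynomial.coeff_X, if_neg hne, MvPolynomial.coeff_C,
          if_pos rfl, zero_sub]
      rw [c1, c2, one_mul, Finset.prod_eq_single i, Finset.prod_eq_single i]
      · simp only [Pi.single_eq_same, Finsupp.coe_zero, Pi.zero_apply, Finsupp.single_eq_same]
        generalize P i = z
        induction z using OnePoint.rec with
        | infty => simp [cval]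
        | coe x => simp [cval, ← sub_eq_add_neg, sub_eq_zero]
      · intro j _ hj
        rw [Pi.single_eq_of_ne hj, Finsupp.coe_zero, Pi.zero_apply, cval_zero_zero]
      · intro h; exact absurd (Finset.mem_univ i) h
      · intro j _ hj
        rw [Pi.single_eq_of_ne hj, Finsupp.single_eq_of_ne hj, cval_zero_zero]
      · intro h; exact absurd (Finset.mem_univ i) h

variable [IsAlgClosed k] [CharZero k]

theorem FIBX {C : Set (Fin n → OnePoint k)} (hC : IsIrrCurve C) (hN : NonVertical C) (i : Fin n)
    (z : OnePoint k) : {P | P ∈ C ∧ P i = z}.Finite := by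
  obtain ⟨⟨S, hS, hCS⟩, -, hirr⟩ := hC
  obtain ⟨e, F, hF, hz⟩ := closed_fib (k := k) i z
  refine hirr _ ⟨insert (e, F) S, ?_, ?_⟩ (fun P hP => hP.1) ?_
  · rintro t (rfl | ht)
    · exact hF
    · exact hS t ht
  · ext P
    simp only [Set.mem_setOf_eq, Set.mem_insert_iff, forall_eq_or_imp, hz, hCS]
    exact and_comm
  · intro heq
    obtain ⟨w, hw⟩ : ∃ w : OnePoint k, w ≠ z := exists_ne z
    obtain ⟨P, hP, hPi⟩ := hN i w
    rw [← heq] at hP
    exact hw (hPi.symm.trans hP.2)

end

end Pool.Agent.Lib_helper45.BDP.FIBX
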