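import Pool.Agent.Lib_helper45.BDP.DefsB

/-!
# FINI: finiteness of sets of algebraic numbers of bounded degree bounded at all places
-/

namespace Pool.Agent.Lib_helper45.BDP.FINI

open Polynomial

noncomputable section

/-- A product of linear factors with small roots has small coefficients (ultrametric fields). -/
theorem fini_prod {Ω : Type*} [NormedField Ω] [IsUltrametricDist Ω] (s : Multiset Ω)
    (hs : ∀ r ∈ s, ‖r‖ ≤ 1) (i : ℕ) : ‖((s.map fun r => X - C r).prod).coeff i‖ ≤ 1 := by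
  induction s using Multiset.induction_on generalizing i with
  | empty =>
    rw [Multiset.map_zero, Multiset.prod_zero, coeff_one]
    split_ifs <;> simp
  | cons a s ih =>
    have ha := hs a (Multiset.mem_cons_self a s)
    have ih' := ih fun r hr => hs r (Multiset.mem_cons_of_mem hr)
    rw [Multiset.map_cons, Multiset.prod_cons, sub_mul, coeff_sub, coeff_C_mul]
    have h2 : ‖a * ((s.map fun r => X - C r).prod).coeff i‖ ≤ 1 := by
      rw [norm_mul]
      exact mul_le_one₀ ha (norm_nonneg _) (ih' i)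
    rw [sub_eq_add_neg]
    refine (IsUltrametricDist.norm_add_le_max _ _).trans (max_le ?_ (by rwa [norm_neg]))
    cases i with
    | zero => simp
    | succ i =>
      rw [coeff_X_mul]
      exact ih' i

/-- The norm of a rational number in the algebraic closure of the `p`-adic numbers. -/
theorem fini_norm (p : ℕ) [Fact p.Prime] (q : ℚ) :
    ‖algebraMap ℚ (PadicAlgCl p) q‖ = ‖(q : ℚ_[p])‖ := by
  rw [← PadicAlgCl.norm_extends p (q : ℚ_[p])]
  congr 1

/-- A rational number which is integral at all primes is an integer. -/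
theorem fini_int {q : ℚ} (h : ∀ (p : ℕ) [Fact p.Prime], ‖(q : ℚ_[p])‖ ≤ 1) :
    ∃ z : ℤ, (z : ℚ) = q := by
  have hden : q.den = 1 := by
    by_contra hne
    obtain ⟨p, hp, hpd⟩ := Nat.exists_prime_and_dvd hne
    haveI : Fact p.Prime := ⟨hp⟩
    have h1 := h p
    rw [Padic.norm_rat_le_one_iff_padicValuation_le_one, Rat.padicValuation_le_one_iff] at h1
    exact h1 hpd
  exact ⟨q.num, Rat.coe_int_num_of_den_eq_one hden⟩

variable {K : Type*} [Field K] [CharZero K] [Algebra.IsAlgebraic ℚ K] [IsAlgClosed K]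

omit [IsAlgClosed K] in
/-- the case of integral elements -/
theorem fini_integral {Z : Set K} {B : ℝ} (D : ℕ)
    (h1 : ∀ (p : ℕ) [Fact p.Prime] (σ : K →+* PadicAlgCl p), ∀ z ∈ Z, ‖σ z‖ ≤ 1)
    (h2 : ∀ (σ : K →+* ℂ), ∀ z ∈ Z, ‖σ z‖ ≤ B) :
    {z | z ∈ Z ∧ (minpoly ℚ z).natDegree ≤ D}.Finite := by
  classical
  set C₀ : ℝ := max B 1 ^ D * D.choose (D / 2) with hC
  set U : Set ℚ := (fun z : ℤ => (z : ℚ)) '' Set.Icc (-⌈C₀⌉) ⌈C₀⌉ with hU
  have hUf : U.Finite := (Set.finite_Icc _ _).image _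
  refine (bUnion_roots_finite (algebraMap ℚ K) D hUf).subset ?_
  rintro z ⟨hz, hD⟩
  have hzi : IsIntegral ℚ z := Algebra.IsIntegral.isIntegral z
  have hmon := minpoly.monic hzi
  refine Set.mem_iUnion.2 ⟨minpoly ℚ z, Set.mem_iUnion.2 ⟨⟨hD, fun i => ?_⟩, ?_⟩⟩
  · -- the coefficients are integers
    have hint : ∃ w : ℤ, (w : ℚ) = (minpoly ℚ z).coeff i := by
      refine fini_int fun p hp => ?_
      have hsp : ((minpoly ℚ z).map (algebraMap ℚ (PadicAlgCl p))).Splits :=
        IsAlgClosed.splits _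
      have h3 := hsp.eq_prod_roots_of_monic (hmon.map _)
      rw [← fini_norm, ← coeff_map, h3]
      refine fini_prod _ (fun r hr => ?_) i
      have h4 : r ∈ (minpoly ℚ z).rootSet (PadicAlgCl p) := by
        rw [mem_rootSet']
        rw [mem_roots (hmon.map _).ne_zero] at hr
        refine ⟨(hmon.map _).ne_zero, ?_⟩
        rw [aeval_def, ← eval_map]
        exact hr
      rw [← Algebra.IsAlgebraic.range_eval_eq_rootSet_minpoly (PadicAlgCl p) z] at h4
      obtain ⟨ψ, rfl⟩ := h4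
      exact h1 p ψ.toRingHom z hz
    obtain ⟨w, hw⟩ := hint
    refine ⟨w, ?_, hw⟩
    have hb := coeff_bdd_of_roots_le (B := B) (d := D) (algebraMap ℚ ℂ) hmon
      (IsAlgClosed.splits _) hD (fun r hr => ?_) i
    · rw [coeff_map, ← hw, ← hC] at hb
      have h5 : ‖(algebraMap ℚ ℂ) (w : ℚ)‖ = |(w : ℝ)| := by
        rw [map_intCast, Complex.norm_intCast]
      rw [h5] at hb
      have h6 := abs_le.1 (hb.trans (Int.le_ceil C₀))
      constructor
      · have := h6.1
        exact_mod_cast this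
      · exact_mod_cast h6.2
    · have h4 : r ∈ (minpoly ℚ z).rootSet ℂ := by
        rw [mem_rootSet']
        rw [mem_roots (hmon.map _).ne_zero] at hr
        refine ⟨(hmon.map _).ne_zero, ?_⟩
        rw [aeval_def, ← eval_map]
        exact hr
      rw [← Algebra.IsAlgebraic.range_eval_eq_rootSet_minpoly ℂ z] at h4
      obtain ⟨ψ, rfl⟩ := h4
      exact h2 ψ.toRingHom z hz
  · rw [Finset.mem_coe, Multiset.mem_toFinset, mem_roots (hmon.map _).ne_zero, IsRoot.def,
      eval_map, ← aeval_def, minpoly.aeval]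

/-- The degree does not increase under multiplication by integers. -/
theorem fini_deg {K : Type*} [Field K] [CharZero K] [Algebra.IsAlgebraic ℚ K] (y : K) (M : ℕ) :
    (minpoly ℚ ((M : K) * y)).natDegree ≤ (minpoly ℚ y).natDegree := by
  have hy : IsIntegral ℚ y := Algebra.IsIntegral.isIntegral y
  have hmem : (M : K) * y ∈ IntermediateField.adjoin ℚ {y} :=
    mul_mem (natCast_mem _ M) (IntermediateField.mem_adjoin_simple_self ℚ y)
  haveI : FiniteDimensional ℚ (IntermediateField.adjoin ℚ {y}) :=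
    IntermediateField.adjoin.finiteDimensional hy
  have h1 := minpoly.natDegree_le (A := ℚ) (⟨(M : K) * y, hmem⟩ : IntermediateField.adjoin ℚ {y})
  have h2 : minpoly ℚ (⟨(M : K) * y, hmem⟩ : IntermediateField.adjoin ℚ {y}) =
      minpoly ℚ ((M : K) * y) := IntermediateField.minpoly_eq _
  rw [h2, IntermediateField.adjoin.finrank hy] at h1
  exact h1

omit [IsAlgClosed K] in
theorem fini_aux {Y : Set K} (hY : AllBdd Y) (D : ℕ) :
    {y | y ∈ Y ∧ (minpoly ℚ y).natDegree ≤ D}.Finite := by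
  classical
  obtain ⟨⟨S, hS⟩, hp, B, hB⟩ := hY
  -- the exponents
  have hex : ∀ p : ℕ, ∃ e : ℕ, ∀ (_ : Fact p.Prime) (σ : K →+* PadicAlgCl p), ∀ y ∈ Y,
      ‖σ y‖ ≤ (p : ℝ) ^ e := by
    intro p
    by_cases hpp : p.Prime
    · haveI : Fact p.Prime := ⟨hpp⟩
      obtain ⟨B', hB'⟩ := hp p
      obtain ⟨e, he⟩ := pow_unbounded_of_one_lt B' (show (1 : ℝ) < p by exact_mod_cast hpp.one_lt)
      exact ⟨e, fun _ σ y hy => (hB' σ y hy).trans he.le⟩
    · exact ⟨0, fun h => (hpp h.out).elim⟩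
  choose e he using hex
  set M : ℕ := ∏ p ∈ S.filter Nat.Prime, p ^ e p with hM
  have hM0 : M ≠ 0 := Finset.prod_ne_zero_iff.2 fun p hp' =>
    pow_ne_zero _ (Finset.mem_filter.1 hp').2.ne_zero
  have hMK : (M : K) ≠ 0 := by exact_mod_cast hM0
  have hfin := fini_integral (Z := (fun y => (M : K) * y) '' Y) (B := M * B) D ?_ ?_
  · refine Set.Finite.of_finite_image (f := fun y => (M : K) * y) (hfin.subset ?_)
      (fun a _ b _ h => mul_left_cancel₀ hMK h)
    rintro _ ⟨y, ⟨hy, hyD⟩, rfl⟩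
    exact ⟨⟨y, hy, rfl⟩, (fini_deg y M).trans hyD⟩
  · intro p hp' σ z hz
    obtain ⟨y, hy, rfl⟩ := hz
    simp only
    rw [map_mul, map_natCast, norm_mul]
    have hMle : ‖(M : PadicAlgCl p)‖ ≤ 1 := by
      have := IsUltrametricDist.norm_natCast_le_one (PadicAlgCl p) M
      exact this
    by_cases hpS : p ∈ S
    · have hdvd : p ^ e p ∣ M := by
        rw [hM]
        exact Finset.dvd_prod_of_mem (fun p => p ^ e p) (Finset.mem_filter.2 ⟨hpS, hp'.out⟩)
      obtain ⟨c, hc⟩ := hdvd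
      have hp0 : (0 : ℝ) < p := by exact_mod_cast hp'.out.pos
      have hnp : ‖(p : PadicAlgCl p)‖ = (p : ℝ)⁻¹ := by
        have h1 := PadicAlgCl.norm_extends p (p : ℚ_[p])
        rw [Padic.norm_p] at h1
        rw [← h1]
        congr 1
      have h2 : ‖(M : PadicAlgCl p)‖ ≤ ((p : ℝ) ^ e p)⁻¹ := by
        rw [hc, Nat.cast_mul, Nat.cast_pow, norm_mul, norm_pow, hnp, inv_pow]
        have := IsUltrametricDist.norm_natCast_le_one (PadicAlgCl p) c
        exact mul_le_of_le_one_right (by positivity) this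
      have h3 := he p hp' σ y hy
      calc ‖(M : PadicAlgCl p)‖ * ‖σ y‖ ≤ ((p : ℝ) ^ e p)⁻¹ * (p : ℝ) ^ e p :=
            mul_le_mul h2 h3 (norm_nonneg _) (by positivity)
        _ = 1 := inv_mul_cancel₀ (by positivity)
    · exact mul_le_one₀ hMle (norm_nonneg _) (hS p hpS σ y hy)
  · intro σ z hz
    obtain ⟨y, hy, rfl⟩ := hz
    simp only
    rw [map_mul, map_natCast, norm_mul, Complex.norm_natCast]
    exact mul_le_mul_of_nonneg_left (hB σ y hy) (Nat.cast_nonneg _)

theorem FINI {Y : Set K} (hY : AllBdd Y) (D : ℕ) :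
    {y | y ∈ Y ∧ (minpoly ℚ y).natDegree ≤ D}.Finite := fini_aux hY D

end

end Pool.Agent.Lib_helper45.BDP.FINI
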