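import Pool.Agent.Lib_helper45.BDP.Defs

namespace Pool.Agent.Lib_helper45.BDP.FITR

open Polynomial

noncomputable section

variable {k : Type*} [Field k] [IsAlgClosed k] [CharZero k]

theorem FITR {F : k[X]} {T : L k} (hF : Frob F T) {r : ℕ} (hr : 1 ≤ r) : Frob (itr F r) T := by
  have hM : 0 < F.natDegree := by have := hF.deg; omega
  have key : ∀ r : ℕ, aeval T (itr F r) = th 1 (F.natDegree ^ r) T := by
    intro r
    induction r with
    | zero => rw [itr_zero, aeval_X, pow_zero, th_one_one]
    | succ r ih =>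
      rw [itr_succ, aeval_comp, ih, aeval_algHom_apply, hF.eq, th_th _ _ (pow_pos hM r) hM]
      rw [one_pow, mul_one, pow_succ]
  refine ⟨?_, hF.pole, ?_⟩
  · rw [natDegree_itr]
    calc 2 ≤ F.natDegree := hF.deg
      _ = F.natDegree ^ 1 := (pow_one _).symm
      _ ≤ F.natDegree ^ r := Nat.pow_le_pow_right hM hr
  · rw [key, natDegree_itr]

end

end Pool.Agent.Lib_helper45.BDP.FITR
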