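import Pool.Agent.Lib_helper45.BDP.Defs

namespace Pool.Agent.Lib_helper45.BDP.GR0

open Polynomial

noncomputable section

/-- a root of a monic polynomial with coefficients in the subalgebra `B` is integral over `B` -/
theorem int_of_coeff {k A : Type*} [CommRing k] [CommRing A] [Algebra k A] (B : Subalgebra k A)
    {q : A[X]} (hq : q.Monic) (hc : ∀ i, q.coeff i ∈ B) {x : A} (hx : q.eval x = 0) :
    IsIntegral B x := by
  have hl : q ∈ Polynomial.lifts (algebraMap B A) := by
    rw [Polynomial.lifts_iff_coeff_lifts]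
    intro i
    exact ⟨⟨q.coeff i, hc i⟩, rfl⟩
  obtain ⟨p, hp1, -, hp3⟩ := Polynomial.lifts_and_natDegree_eq_and_monic hl hq
  refine ⟨p, hp3, ?_⟩
  rw [← Polynomial.eval_map, hp1, hx]

/-- an integral element is a root of a monic polynomial with coefficients in `B` -/
theorem coeff_of_int {k A : Type*} [CommRing k] [CommRing A] [Algebra k A] {B : Subalgebra k A}
    {x : A} (hx : IsIntegral B x) : ∃ q : A[X], q.Monic ∧ (∀ i, q.coeff i ∈ B) ∧ q.eval x = 0 := by
  obtain ⟨p, hp, hx⟩ := hx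
  refine ⟨p.map (algebraMap B A), hp.map _, fun i => ?_, ?_⟩
  · rw [coeff_map]
    exact (p.coeff i).2
  · rw [Polynomial.eval_map, hx]

variable {k : Type*} [Field k]

theorem mem_of_large {T c : L k} (hc : c ∈ Algebra.adjoin k {T}) :
    ∃ n : ℕ, ∀ N, n ≤ N → (C c * X ^ N : (L k)[X]) ∈
      Algebra.adjoin k {(X ^ 1 : (L k)[X]), C T * X ^ 1} := by
  have hX : (X : (L k)[X]) ∈ Algebra.adjoin k {(X ^ 1 : (L k)[X]), C T * X ^ 1} :=
    Algebra.subset_adjoin (by simp)
  have hTX : (C T * X : (L k)[X]) ∈ Algebra.adjoin k {(X ^ 1 : (L k)[X]), C T * X ^ 1} :=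
    Algebra.subset_adjoin (by simp)
  induction hc using Algebra.adjoin_induction with
  | mem x hx =>
    rw [Set.mem_singleton_iff] at hx
    subst hx
    refine ⟨1, fun N hN => ?_⟩
    obtain ⟨m, rfl⟩ := Nat.exists_eq_add_of_le hN
    have e : (C x * X ^ (1 + m) : (L k)[X]) = (C x * X) * X ^ m := by ring
    rw [e]
    exact mul_mem hTX (pow_mem hX m)
  | algebraMap r =>
    refine ⟨0, fun N _ => ?_⟩
    refine mul_mem ?_ (pow_mem hX N)
    exact (Algebra.adjoin k {(X ^ 1 : (L k)[X]), C T * X ^ 1}).algebraMap_mem r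
  | add x y _ _ hx hy =>
    obtain ⟨n, hn⟩ := hx
    obtain ⟨m, hm⟩ := hy
    refine ⟨max n m, fun N hN => ?_⟩
    rw [C_add, add_mul]
    exact add_mem (hn N (le_trans (le_max_left _ _) hN)) (hm N (le_trans (le_max_right _ _) hN))
  | mul x y _ _ hx hy =>
    obtain ⟨n, hn⟩ := hx
    obtain ⟨m, hm⟩ := hy
    refine ⟨n + m, fun N hN => ?_⟩
    obtain ⟨j, rfl⟩ := Nat.exists_eq_add_of_le hN
    have e : (C (x * y) * X ^ (n + m + j) : (L k)[X]) = (C x * X ^ n) * (C y * X ^ (m + j)) := by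
      rw [C_mul]; ring
    rw [e]
    exact mul_mem (hn n le_rfl) (hm _ (by omega))

theorem GR0 [IsAlgClosed k] [CharZero k] {T z : L k} (hz : IsIntegral (Algebra.adjoin k {T}) z) :
    ∃ a, Gr T z a 1 := by
  obtain ⟨q, hq, hc, hx⟩ := coeff_of_int hz
  choose n hn using fun i => mem_of_large (hc i)
  refine ⟨∑ i ∈ Finset.range q.natDegree, n i, ?_⟩
  set a := ∑ i ∈ Finset.range q.natDegree, n i with ha
  have hXm : (X : (L k)[X]) ∈ Algebra.adjoin k {(X ^ 1 : (L k)[X]), C T * X ^ 1} :=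
    Algebra.subset_adjoin (by simp)
  have hq1 : ((q.map C : (L k)[X][X])).Monic := hq.map _
  have hdeg : (q.map C : (L k)[X][X]).natDegree = q.natDegree := hq.natDegree_map _
  refine int_of_coeff _ (q := scaleRoots (q.map C) (X ^ a)) ?_ ?_ ?_
  · exact (monic_scaleRoots_iff _).2 hq1
  · intro i
    rw [coeff_scaleRoots, hdeg, coeff_map, ← pow_mul]
    rcases lt_trichotomy i q.natDegree with hi | hi | hi
    · apply hn i
      have h1 : n i ≤ a := Finset.single_le_sum (f := n) (fun _ _ => Nat.zero_le _)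
        (Finset.mem_range.2 hi)
      calc n i ≤ a * 1 := by simpa using h1
        _ ≤ a * (q.natDegree - i) := Nat.mul_le_mul_left _ (by omega)
    · rw [hi, hq.coeff_natDegree, Nat.sub_self, Nat.mul_zero, pow_zero, C_1, mul_one]
      exact one_mem _
    · rw [coeff_eq_zero_of_natDegree_lt hi, C_0, zero_mul]
      exact zero_mem _
  · have h1 : aeval (C z : (L k)[X]) (q.map C : (L k)[X][X]) = 0 := by
      rw [coe_aeval_eq_eval, eval_map, eval₂_at_apply, hx, C_0]
    have h2 := scaleRoots_aeval_eq_zero (r := (X ^ a : (L k)[X])) h1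
    rw [coe_aeval_eq_eval, mul_comm] at h2
    exact h2

end

end Pool.Agent.Lib_helper45.BDP.GR0
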