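import Pool.Agent.Lib_helper45.BDP.Defs

namespace Pool.Agent.Lib_helper45.BDP.GR2

open Polynomial

noncomputable section

/-- a root of a monic polynomial with coefficients in the subalgebra `B` is integral over `B` -/
theorem int_of_coeff {k A : Type*} [CommRing k] [CommRing A] [Algebra k A] (B : Subalgebra k A)
    {q : A[X]} (hq : q.Monic) (hc : ∀ i, q.coeff i ∈ B) {x : A} (hx : q.eval x = 0) :
    IsIntegral B x := by
  have hl : q ∈ Polynomial.lifts (algebraMap B A) := by
    rw [Polynomial.lifts_iff_coeff_lifts]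
    intro i
    exact ⟨⟨q.coeff i, hc i⟩, rfl⟩
  obtain ⟨p, hp1, -, hp3⟩ := Polynomial.lifts_and_natDegree_eq_and_monic hl hq
  refine ⟨p, hp3, ?_⟩
  rw [← Polynomial.eval_map, hp1, hx]

/-- an integral element is a root of a monic polynomial with coefficients in `B` -/
theorem coeff_of_int {k A : Type*} [CommRing k] [CommRing A] [Algebra k A] {B : Subalgebra k A}
    {x : A} (hx : IsIntegral B x) : ∃ q : A[X], q.Monic ∧ (∀ i, q.coeff i ∈ B) ∧ q.eval x = 0 := by
  obtain ⟨p, hp, hx⟩ := hx
  refine ⟨p.map (algebraMap B A), hp.map _, fun i => ?_, ?_⟩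
  · rw [coeff_map]
    exact (p.coeff i).2
  · rw [Polynomial.eval_map, hx]

theorem int_map {k A A' : Type*} [CommRing k] [CommRing A] [Algebra k A] [CommRing A']
    [Algebra k A'] (φ : A →ₐ[k] A') {B : Subalgebra k A} {x : A} (hx : IsIntegral B x) :
    IsIntegral (B.map φ) (φ x) := by
  obtain ⟨q, hq, hc, h0⟩ := coeff_of_int hx
  refine int_of_coeff _ (hq.map (φ : A →+* A')) (fun i => ?_) ?_
  · rw [coeff_map]
    exact ⟨_, hc i, rfl⟩
  · rw [← AlgHom.coe_toRingHom, eval_map, eval₂_at_apply, h0, map_zero]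

theorem int_mono {k A : Type*} [CommRing k] [CommRing A] [Algebra k A] {B B' : Subalgebra k A}
    (h : B ≤ B') {x : A} (hx : IsIntegral B x) : IsIntegral B' x := by
  obtain ⟨q, hq, hc, h0⟩ := coeff_of_int hx
  exact int_of_coeff _ hq (fun i => h (hc i)) h0

theorem int_comap {k A A' : Type*} [CommRing k] [CommRing A] [Algebra k A] [CommRing A']
    [Algebra k A'] (φ : A →ₐ[k] A') (hφ : Function.Injective φ) {B : Subalgebra k A} {x : A}
    (hx : IsIntegral (B.map φ) (φ x)) : IsIntegral B x := by
  obtain ⟨q, hq, hc, h0⟩ := coeff_of_int hx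
  have hl : q ∈ Polynomial.lifts (φ : A →+* A') := by
    rw [Polynomial.lifts_iff_coeff_lifts]
    intro i
    obtain ⟨y, -, hy⟩ := hc i
    exact ⟨y, hy⟩
  obtain ⟨p, hp1, -, hp3⟩ := Polynomial.lifts_and_natDegree_eq_and_monic hl hq
  refine int_of_coeff _ hp3 (fun i => ?_) (x := x) ?_
  · obtain ⟨y, hy, hy2⟩ := hc i
    rw [← hp1, coeff_map] at hy2
    have : y = p.coeff i := hφ hy2
    rw [← this]
    exact hy
  · apply hφ
    rw [← hp1, ← AlgHom.coe_toRingHom, eval_map, eval₂_at_apply] at h0
    rw [map_zero]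
    exact h0

theorem int_of_mem {k A : Type*} [CommRing k] [CommRing A] [Algebra k A] {B : Subalgebra k A}
    {x : A} (hx : x ∈ B) : IsIntegral B x :=
  isIntegral_algebraMap (R := B) (A := A) (x := ⟨x, hx⟩)

variable {k : Type*} [Field k]

/-- the subalgebra `k[w^b, T w^b]` of `A[w]` -/
abbrev AB {A : Type*} [CommRing A] [Algebra k A] (T : A) (b : ℕ) : Subalgebra k A[X] :=
  Algebra.adjoin k {(X ^ b : A[X]), C T * X ^ b}

theorem AB_map {A A' : Type*} [CommRing A] [Algebra k A] [CommRing A'] [Algebra k A']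
    (φ : A →ₐ[k] A') (T : A) (b : ℕ) :
    (AB (k := k) T b).map (mapAlgHom φ) = AB (φ T) b := by
  rw [AlgHom.map_adjoin, Set.image_pair]
  congr 2
  · simp
  · simp

open scoped IntermediateField.algebraAdjoinAdjoin in
theorem mem_of_int {T g : L k} (hT : Transcendental k T)
    (hg : g ∈ IntermediateField.adjoin k {T}) (hi : IsIntegral (Algebra.adjoin k {T}) g) :
    ∃ P : k[X], g = aeval T P := by
  have hR : IsIntegrallyClosed (Algebra.adjoin k {T}) :=
    IsIntegrallyClosed.of_equiv (Polynomial.algEquivOfTranscendental k T hT).toRingEquiv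
  have h1 : IsIntegral (Algebra.adjoin k {T}) (⟨g, hg⟩ : IntermediateField.adjoin k {T}) := by
    obtain ⟨p, hp, h0⟩ := hi
    refine ⟨p, hp, ?_⟩
    apply Subtype.ext
    change algebraMap (IntermediateField.adjoin k {T}) (L k) _ = 0
    rw [hom_eval₂]
    exact h0
  obtain ⟨y, hy⟩ := IsIntegrallyClosed.algebraMap_eq_of_integral h1
  obtain ⟨P, hP⟩ := Algebra.adjoin_mem_exists_aeval k T y.2
  refine ⟨P, ?_⟩
  rw [hP]
  exact (congrArg Subtype.val hy).symm

theorem expand_AB (T : L k) {b : ℕ} :
    (AB (k := k) T 1).map ((expand (L k) b).restrictScalars k) = AB T b := by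
  rw [AlgHom.map_adjoin, Set.image_pair]
  congr 2
  · simp
  · simp

/-- the main lemma: an element `g` of `k(T)` with `g w^m` integral over `k[w^b, T w^b]`,
`m < b`, is constant -/
theorem const_of_int {T g : L k} (hT : Transcendental k T)
    (hg : g ∈ IntermediateField.adjoin k {T}) {m b : ℕ} (hm : m < b)
    (h : IsIntegral (AB (k := k) T b) (C g * X ^ m : (L k)[X])) :
    ∃ c : k, g = algebraMap k (L k) c := by
  have hT0 : T ≠ 0 := by
    rintro rfl
    exact hT (isAlgebraic_zero)
  -- specialise `w = 1`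
  have h1 : IsIntegral (Algebra.adjoin k {T}) g := by
    have h2 := int_map ((aeval (1 : L k)).restrictScalars k : (L k)[X] →ₐ[k] L k) h
    have e : ((aeval (1 : L k)).restrictScalars k : (L k)[X] →ₐ[k] L k) (C g * X ^ m) = g := by
      simp
    rw [e] at h2
    refine int_mono ?_ h2
    rw [AlgHom.map_adjoin, Algebra.adjoin_le_iff]
    rintro _ ⟨x, hx, rfl⟩
    rcases hx with rfl | rfl
    · simp
    · simp [Algebra.self_mem_adjoin_singleton]
  obtain ⟨P, hP⟩ := mem_of_int hT hg h1
  -- specialise `w^b = 1/T`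
  have h2 : IsIntegral (Algebra.adjoin k {T⁻¹}) (g ^ b * (T⁻¹) ^ m) := by
    have h3 := h.pow b
    have e : (C g * X ^ m : (L k)[X]) ^ b =
        ((expand (L k) b).restrictScalars k : (L k)[X] →ₐ[k] (L k)[X]) (C (g ^ b) * X ^ m) := by
      rw [AlgHom.restrictScalars_apply, C_pow, map_mul, map_pow, map_pow, expand_C, expand_X,
        ← pow_mul, mul_pow, ← pow_mul, mul_comm m b]
    rw [e, ← expand_AB] at h3
    have h4 := int_comap _ (by
      intro p q hpq
      exact expand_injective (by omega) hpq) h3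
    have h5 := int_map ((aeval (T⁻¹ : L k)).restrictScalars k : (L k)[X] →ₐ[k] L k) h4
    have e : ((aeval (T⁻¹ : L k)).restrictScalars k : (L k)[X] →ₐ[k] L k) (C (g ^ b) * X ^ m) =
        g ^ b * (T⁻¹) ^ m := by
      simp
    rw [e] at h5
    refine int_mono ?_ h5
    rw [AlgHom.map_adjoin, Algebra.adjoin_le_iff]
    rintro _ ⟨x, hx, rfl⟩
    rcases hx with rfl | rfl
    · simp [Algebra.self_mem_adjoin_singleton]
    · simp [hT0]
  have hT' : Transcendental k (T⁻¹) := by
    intro h
    exact hT (by simpa using h.inv)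
  have had : IntermediateField.adjoin k {T⁻¹} = IntermediateField.adjoin k {T} := by
    apply le_antisymm
    · rw [IntermediateField.adjoin_le_iff, Set.singleton_subset_iff]
      exact inv_mem (IntermediateField.mem_adjoin_simple_self k T)
    · rw [IntermediateField.adjoin_le_iff, Set.singleton_subset_iff]
      have := inv_mem (IntermediateField.mem_adjoin_simple_self k T⁻¹)
      rwa [inv_inv] at this
  have hg2 : g ^ b * (T⁻¹) ^ m ∈ IntermediateField.adjoin k {T⁻¹} := by
    rw [had]
    exact mul_mem (pow_mem hg _) (pow_mem (inv_mem (IntermediateField.mem_adjoin_simple_self k T)) _)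
  obtain ⟨Q, hQ⟩ := mem_of_int hT' hg2 h2
  -- compare degrees
  have hQ2 : aeval T Q.reverse * (T⁻¹) ^ Q.natDegree = aeval T⁻¹ Q := by
    let _ : Invertible (T⁻¹) := ⟨T, mul_inv_cancel₀ hT0, inv_mul_cancel₀ hT0⟩
    exact eval₂_reverse_mul_pow (algebraMap k (L k)) (T⁻¹) Q
  have key : aeval T (P ^ b * X ^ Q.natDegree) = aeval T (Q.reverse * X ^ m) := by
    rw [map_mul, map_mul, map_pow, map_pow, map_pow, aeval_X, ← hP]
    have h6 : g ^ b * (T⁻¹) ^ m = aeval T Q.reverse * (T⁻¹) ^ Q.natDegree := by rw [hQ, hQ2]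
    have h7 := congrArg (fun x => x * T ^ m * T ^ Q.natDegree) h6
    have h8 : (T⁻¹) ^ m * T ^ m = 1 := by rw [← mul_pow, inv_mul_cancel₀ hT0, one_pow]
    have h9 : (T⁻¹) ^ Q.natDegree * T ^ Q.natDegree = 1 := by
      rw [← mul_pow, inv_mul_cancel₀ hT0, one_pow]
    calc g ^ b * T ^ Q.natDegree = (g ^ b * (T⁻¹) ^ m) * T ^ m * T ^ Q.natDegree := by
          rw [mul_assoc (g ^ b), h8, mul_one]
      _ = aeval T Q.reverse * (T⁻¹) ^ Q.natDegree * T ^ m * T ^ Q.natDegree := h7
      _ = aeval T Q.reverse * T ^ m * ((T⁻¹) ^ Q.natDegree * T ^ Q.natDegree) := by ring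
      _ = aeval T Q.reverse * T ^ m := by rw [h9, mul_one]
  have key2 := (transcendental_iff_injective.1 hT) key
  have hP0 : P.natDegree = 0 := by
    by_contra hne
    have hPne : P ≠ 0 := by
      rintro rfl
      simp at hne
    have h10 := congrArg natDegree key2
    rw [natDegree_mul_X_pow _ (pow_ne_zero _ hPne), natDegree_pow] at h10
    have h11 : (Q.reverse * X ^ m).natDegree ≤ Q.natDegree + m := by
      refine natDegree_mul_le.trans ?_
      rw [natDegree_X_pow]
      exact Nat.add_le_add_right (reverse_natDegree_le Q) m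
    have h12 : b * P.natDegree ≤ m := by omega
    have h13 : b ≤ b * P.natDegree := Nat.le_mul_of_pos_right b (Nat.pos_of_ne_zero hne)
    omega
  refine ⟨P.coeff 0, ?_⟩
  rw [hP, eq_C_of_natDegree_eq_zero hP0]
  simp

/-- elementary symmetric functions of elements `r` with `r w^a` integral -/
theorem esymm_int {W : Type*} [Field W] [Algebra k W] {B : Subalgebra k W[X]} {a : ℕ}
    {s : Multiset W} (hs : ∀ r ∈ s, IsIntegral B (C r * X ^ a : W[X])) (i : ℕ) :
    IsIntegral B (C (s.esymm i) * X ^ (a * i) : W[X]) := by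
  have h1 : ∀ t : Multiset W, (∀ r ∈ t, IsIntegral B (C r * X ^ a : W[X])) →
      IsIntegral B (C t.prod * X ^ (a * t.card) : W[X]) := by
    intro t
    induction t using Multiset.induction_on with
    | empty =>
      intro _
      simpa using isIntegral_one (R := B) (B := W[X])
    | cons r t ih =>
      intro h
      have e : (C (r ::ₘ t).prod * X ^ (a * (r ::ₘ t).card) : W[X]) =
          (C r * X ^ a) * (C t.prod * X ^ (a * t.card)) := by
        rw [Multiset.prod_cons, Multiset.card_cons, C_mul, mul_add, mul_one, pow_add]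
        ring
      rw [e]
      exact (h r (Multiset.mem_cons_self r t)).mul
        (ih fun r' hr' => h r' (Multiset.mem_cons_of_mem hr'))
  have h2 : ∀ u : Multiset W, (∀ x ∈ u, IsIntegral B (C x * X ^ (a * i) : W[X])) →
      IsIntegral B (C u.sum * X ^ (a * i) : W[X]) := by
    intro u
    induction u using Multiset.induction_on with
    | empty =>
      intro _
      simpa using isIntegral_zero (R := B) (B := W[X])
    | cons x u ih =>
      intro h
      rw [Multiset.sum_cons, C_add, add_mul]
      exact (h x (Multiset.mem_cons_self x u)).add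
        (ih fun r' hr' => h r' (Multiset.mem_cons_of_mem hr'))
  apply h2
  intro x hx
  obtain ⟨t, ht, rfl⟩ := Multiset.mem_map.1 hx
  obtain ⟨ht1, ht2⟩ := Multiset.mem_powersetCard.1 ht
  rw [← ht2]
  exact h1 t fun r hr => hs r (Multiset.mem_of_le ht1 hr)

theorem GR2 [IsAlgClosed k] [CharZero k] {T z : L k} (hT : Transcendental k T) (hz : Dep T z)
    {a b n : ℕ} (hn : (minpoly (IntermediateField.adjoin k {T}) z).natDegree ≤ n)
    (hab : a * n < b) (h : Gr T z a b) : ∃ c : k, z = algebraMap k (L k) c := by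
  set K0 := IntermediateField.adjoin k {T} with hK0
  have hzi : IsIntegral K0 z := hz.isIntegral
  set μ := minpoly K0 z with hμ
  have hμm : μ.Monic := minpoly.monic hzi
  -- conjugates in an algebraic closure
  let W := AlgebraicClosure (L k)
  let T0 : K0 := ⟨T, IntermediateField.mem_adjoin_simple_self k T⟩
  have key : ∀ r ∈ (μ.map (algebraMap K0 W)).roots,
      IsIntegral (AB (k := k) (algebraMap (L k) W T) b) (C r * X ^ a : W[X]) := by
    intro r hr
    let E := IntermediateField.adjoin K0 {z}
    let σ : E →ₐ[K0] W := (IntermediateField.algHomAdjoinIntegralEquiv K0 hzi).symm ⟨r, hr⟩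
    have hσ : σ (IntermediateField.AdjoinSimple.gen K0 z) = r :=
      IntermediateField.algHomAdjoinIntegralEquiv_symm_apply_gen K0 hzi ⟨r, hr⟩
    have h1 : IsIntegral (AB (k := k) (algebraMap K0 E T0) b)
        (C (IntermediateField.AdjoinSimple.gen K0 z) * X ^ a : E[X]) := by
      refine int_comap (mapAlgHom (E.val.restrictScalars k)) ?_ ?_
      · intro p q hpq
        exact Polynomial.map_injective _ (E.val.toRingHom.injective) hpq
      · rw [AB_map]
        have e : (mapAlgHom (E.val.restrictScalars k))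
            (C (IntermediateField.AdjoinSimple.gen K0 z) * X ^ a : E[X]) =
            (C z * X ^ a : (L k)[X]) := by
          simp
        rw [e]
        exact h
    have h2 := int_map (mapAlgHom (σ.restrictScalars k)) h1
    rw [AB_map] at h2
    have e1 : (σ.restrictScalars k) (algebraMap K0 E T0) = algebraMap (L k) W T := by
      rw [AlgHom.restrictScalars_apply, AlgHom.commutes]
      rfl
    have e2 : (mapAlgHom (σ.restrictScalars k))
        (C (IntermediateField.AdjoinSimple.gen K0 z) * X ^ a : E[X]) = C r * X ^ a := by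
      rw [← hσ]
      simp
    rw [e1, e2] at h2
    exact h2
  have hdeg : (μ.map (algebraMap K0 W)).natDegree = μ.natDegree := hμm.natDegree_map _
  have coef : ∀ j ≤ μ.natDegree, IsIntegral (AB (k := k) T b)
      (C (algebraMap K0 (L k) (μ.coeff j)) * X ^ (a * (μ.natDegree - j)) : (L k)[X]) := by
    intro j hj
    have h1 := esymm_int key (μ.natDegree - j)
    have h2 := Polynomial.coeff_eq_esymm_roots_of_card (p := μ.map (algebraMap K0 W))
      (splits_iff_card_roots.1 (IsAlgClosed.splits _)) (k := j) (by rw [hdeg]; exact hj)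
    rw [hdeg, (hμm.map _).leadingCoeff, one_mul, coeff_map] at h2
    refine int_comap (mapAlgHom (IsScalarTower.toAlgHom k (L k) W)) ?_ ?_
    · intro p q hpq
      exact Polynomial.map_injective _ (algebraMap (L k) W).injective hpq
    · rw [AB_map]
      have e : (mapAlgHom (IsScalarTower.toAlgHom k (L k) W))
          (C (algebraMap K0 (L k) (μ.coeff j)) * X ^ (a * (μ.natDegree - j)) : (L k)[X]) =
          C ((-1) ^ (μ.natDegree - j)) *
          (C ((μ.map (algebraMap K0 W)).roots.esymm (μ.natDegree - j)) *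
            X ^ (a * (μ.natDegree - j)) : W[X]) := by
        rw [← mul_assoc, ← C_mul, ← h2]
        change Polynomial.map _ _ = _
        rw [Polynomial.map_mul, Polynomial.map_pow, map_C, map_X]
        rfl
      rw [e]
      refine IsIntegral.mul ?_ h1
      exact int_of_mem (by
        have := (AB (k := k) (algebraMap (L k) W T) b).algebraMap_mem
          ((-1 : k) ^ (μ.natDegree - j))
        simpa using this)
  have hk : ∀ j, ∃ c : k, algebraMap K0 (L k) (μ.coeff j) = algebraMap k (L k) c := by
    intro j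
    rcases lt_trichotomy j μ.natDegree with hj | hj | hj
    · refine const_of_int hT (μ.coeff j).2 (m := a * (μ.natDegree - j)) (b := b) ?_
        (coef j hj.le)
      refine lt_of_le_of_lt (Nat.mul_le_mul_left a ?_) hab
      exact (Nat.sub_le _ _).trans hn
    · exact ⟨1, by rw [hj, hμm.coeff_natDegree, map_one, map_one]⟩
    · exact ⟨0, by rw [coeff_eq_zero_of_natDegree_lt hj, map_zero, map_zero]⟩
  have hint : IsIntegral k z := by
    have hl : μ.map (algebraMap K0 (L k)) ∈ Polynomial.lifts (algebraMap k (L k)) := by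
      rw [Polynomial.lifts_iff_coeff_lifts]
      intro i
      obtain ⟨c, hc⟩ := hk i
      exact ⟨c, by rw [coeff_map, hc]⟩
    obtain ⟨p, hp1, -, hp3⟩ := Polynomial.lifts_and_natDegree_eq_and_monic hl (hμm.map _)
    refine ⟨p, hp3, ?_⟩
    rw [← Polynomial.eval_map, hp1, eval_map]
    exact minpoly.aeval K0 z
  obtain ⟨c, hc⟩ := minpoly.mem_range_of_degree_eq_one k z
    (IsAlgClosed.degree_eq_one_of_irreducible k (minpoly.irreducible hint))
  exact ⟨c, hc.symm⟩

end

end Pool.Agent.Lib_helper45.BDP.GR2
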