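import Pool.Agent.Lib_helper45.BDP.DefsB

namespace Pool.Agent.Lib_helper45.BDP.GROU

open Polynomial

theorem bound {Ω : Type*} [NormedField Ω] [IsUltrametricDist Ω] {p : Polynomial Ω} {m : ℝ} {A : ℕ}
    (hA : p.natDegree ≤ A) (hp : ∀ i, ‖p.coeff i‖ ≤ 1) {z : Ω} (hz : ‖z‖ ≤ m) (hm : 1 ≤ m) :
    ‖p.eval z‖ ≤ m ^ A := by
  rw [eval_eq_sum_range' (Nat.lt_succ_of_le hA)]
  refine IsUltrametricDist.norm_sum_le_of_forall_le_of_nonneg (by positivity) ?_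
  intro i hi
  rw [norm_mul, norm_pow]
  have h1 : ‖z‖ ^ i ≤ m ^ A :=
    (pow_le_pow_left₀ (norm_nonneg _) hz i).trans
      (pow_le_pow_right₀ hm (Nat.lt_succ_iff.1 (Finset.mem_range.1 hi)))
  calc ‖p.coeff i‖ * ‖z‖ ^ i ≤ 1 * m ^ A := mul_le_mul (hp i) h1 (by positivity) zero_le_one
    _ = m ^ A := one_mul _

/-- exact size for large arguments -/
theorem exact_size {Ω : Type*} [NormedField Ω] [IsUltrametricDist Ω] {p : Polynomial Ω}
    (hp : ∀ i, ‖p.coeff i‖ ≤ 1) (hc : ‖p.leadingCoeff‖ = 1) {z : Ω} (hz : 1 < ‖z‖) :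
    ‖p.eval z‖ = ‖z‖ ^ p.natDegree := by
  rcases Nat.eq_zero_or_pos p.natDegree with h0 | h0
  · have h1 : p = C p.leadingCoeff := by
      conv_lhs => rw [eq_C_of_natDegree_eq_zero h0]
      rw [leadingCoeff, h0]
    rw [h0, pow_zero]
    rw [h1, eval_C, hc]
  · obtain ⟨d, hd⟩ : ∃ d, p.natDegree = d + 1 := ⟨p.natDegree - 1, by omega⟩
    have e : p.eval z = (∑ i ∈ Finset.range (d + 1), p.coeff i * z ^ i) +
        p.leadingCoeff * z ^ (d + 1) := by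
      rw [eval_eq_sum_range, hd, Finset.sum_range_succ, leadingCoeff, hd]
    have h1 : ‖∑ i ∈ Finset.range (d + 1), p.coeff i * z ^ i‖ ≤ ‖z‖ ^ d := by
      refine IsUltrametricDist.norm_sum_le_of_forall_le_of_nonneg (by positivity) ?_
      intro i hi
      rw [norm_mul, norm_pow]
      calc ‖p.coeff i‖ * ‖z‖ ^ i ≤ 1 * ‖z‖ ^ d :=
            mul_le_mul (hp i) (pow_le_pow_right₀ hz.le (Nat.lt_succ_iff.1 (Finset.mem_range.1 hi)))
              (by positivity) zero_le_one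
        _ = ‖z‖ ^ d := one_mul _
    have h2 : ‖p.leadingCoeff * z ^ (d + 1)‖ = ‖z‖ ^ (d + 1) := by
      rw [norm_mul, norm_pow, hc, one_mul]
    have h3 : ‖z‖ ^ d < ‖z‖ ^ (d + 1) := pow_lt_pow_right₀ hz (Nat.lt_succ_self d)
    have h4 : ‖∑ i ∈ Finset.range (d + 1), p.coeff i * z ^ i‖ <
        ‖p.leadingCoeff * z ^ (d + 1)‖ := by rw [h2]; exact h1.trans_lt h3
    rw [e, IsUltrametricDist.norm_add_eq_max_of_norm_ne_norm h4.ne, max_eq_right h4.le, h2, hd]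

theorem GROU {Ω : Type*} [NormedField Ω] [IsUltrametricDist Ω] {f : Polynomial Ω} (hm : f.Monic)
    (hd : 2 ≤ f.natDegree) (hf : ∀ i, ‖f.coeff i‖ ≤ 1) : Grow f 1 1 := by
  refine ⟨le_refl _, le_refl _, ?_, ?_⟩
  · intro x hx
    have h1 := exact_size hf (by rw [hm.leadingCoeff, norm_one]) hx
    rw [one_mul, h1]
    refine ⟨le_refl _, ?_⟩
    calc ‖x‖ = ‖x‖ ^ 1 := (pow_one _).symm
      _ < ‖x‖ ^ f.natDegree := pow_lt_pow_right₀ hx (by omega)
  · intro x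
    rw [one_mul]
    exact bound (le_refl _) hf (le_max_left _ _) (le_max_right _ _)

end Pool.Agent.Lib_helper45.BDP.GROU
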