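import Pool.Agent.Lib_helper45.BDP.DefsB

namespace Pool.Agent.Lib_helper45.BDP.GROW

open Polynomial

theorem bound {Ω : Type*} [NormedField Ω] {p : Polynomial Ω} {B m : ℝ} {A : ℕ}
    (hA : p.natDegree ≤ A) (hp : ∀ i, ‖p.coeff i‖ ≤ B) {z : Ω} (hz : ‖z‖ ≤ m) (hm : 1 ≤ m) :
    ‖p.eval z‖ ≤ B * (A + 1) * m ^ A := by
  have hB : 0 ≤ B := (norm_nonneg _).trans (hp 0)
  rw [eval_eq_sum_range' (Nat.lt_succ_of_le hA)]
  refine (norm_sum_le _ _).trans ?_
  have : ∀ i ∈ Finset.range (A + 1), ‖p.coeff i * z ^ i‖ ≤ B * m ^ A := by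
    intro i hi
    rw [norm_mul, norm_pow]
    have h1 : ‖z‖ ^ i ≤ m ^ A :=
      (pow_le_pow_left₀ (norm_nonneg _) hz i).trans
        (pow_le_pow_right₀ hm (Nat.lt_succ_iff.1 (Finset.mem_range.1 hi)))
    exact mul_le_mul (hp i) h1 (by positivity) hB
  refine (Finset.sum_le_sum this).trans (le_of_eq ?_)
  rw [Finset.sum_const, Finset.card_range, nsmul_eq_mul]
  push_cast
  ring

/-- lower bound -/
theorem lower {Ω : Type*} [NormedField Ω] {p : Polynomial Ω} {B c : ℝ}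
    (hp : ∀ i, ‖p.coeff i‖ ≤ B) (hc : 0 < c) (hc' : c ≤ ‖p.leadingCoeff‖) {z : Ω} (hz1 : 1 ≤ ‖z‖)
    (hz : 2 * B * p.natDegree ≤ c * ‖z‖) :
    c * ‖z‖ ^ p.natDegree ≤ 2 * ‖p.eval z‖ := by
  have hB : 0 ≤ B := (norm_nonneg _).trans (hp 0)
  rcases Nat.eq_zero_or_pos p.natDegree with h0 | h0
  · have h1 : p = C p.leadingCoeff := by
      conv_lhs => rw [eq_C_of_natDegree_eq_zero h0]
      rw [leadingCoeff, h0]
    rw [h0, pow_zero, mul_one]
    rw [h1, eval_C]
    have := norm_nonneg p.leadingCoeff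
    linarith
  · obtain ⟨d, hd⟩ : ∃ d, p.natDegree = d + 1 := ⟨p.natDegree - 1, by omega⟩
    have e : p.eval z = (∑ i ∈ Finset.range (d + 1), p.coeff i * z ^ i) +
        p.leadingCoeff * z ^ (d + 1) := by
      rw [eval_eq_sum_range, hd, Finset.sum_range_succ, leadingCoeff, hd]
    have h1 : ‖∑ i ∈ Finset.range (d + 1), p.coeff i * z ^ i‖ ≤ B * (d + 1) * ‖z‖ ^ d := by
      refine (norm_sum_le _ _).trans ?_
      have : ∀ i ∈ Finset.range (d + 1), ‖p.coeff i * z ^ i‖ ≤ B * ‖z‖ ^ d := by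
        intro i hi
        rw [norm_mul, norm_pow]
        exact mul_le_mul (hp i) (pow_le_pow_right₀ hz1 (Nat.lt_succ_iff.1 (Finset.mem_range.1 hi)))
          (by positivity) hB
      refine (Finset.sum_le_sum this).trans (le_of_eq ?_)
      rw [Finset.sum_const, Finset.card_range, nsmul_eq_mul]
      push_cast
      ring
    have h2 : c * ‖z‖ ^ (d + 1) ≤ ‖p.leadingCoeff * z ^ (d + 1)‖ := by
      rw [norm_mul, norm_pow]
      exact mul_le_mul_of_nonneg_right hc' (by positivity)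
    have h3 : ‖p.leadingCoeff * z ^ (d + 1)‖ ≤ ‖p.eval z‖ +
        ‖∑ i ∈ Finset.range (d + 1), p.coeff i * z ^ i‖ := by
      have : p.leadingCoeff * z ^ (d + 1) = p.eval z -
          ∑ i ∈ Finset.range (d + 1), p.coeff i * z ^ i := by rw [e]; ring
      rw [this]
      exact norm_sub_le _ _
    have h4 : 2 * (B * (d + 1) * ‖z‖ ^ d) ≤ c * ‖z‖ ^ (d + 1) := by
      rw [hd] at hz
      push_cast at hz
      have := mul_le_mul_of_nonneg_right hz (by positivity : 0 ≤ ‖z‖ ^ d)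
      rw [pow_succ]
      nlinarith [this]
    rw [hd]
    linarith

theorem GROW {Ω : Type*} [NormedField Ω] {f : Polynomial Ω} (hm : f.Monic) (hd : 2 ≤ f.natDegree) {B R : ℝ}
    (hB : 1 ≤ B) (hf : ∀ i, ‖f.coeff i‖ ≤ B) (hR : 2 * B * (f.natDegree + 1) ≤ R) :
    Grow f R (2 * B * (f.natDegree + 1)) := by
  have hd' : (2 : ℝ) ≤ f.natDegree := by exact_mod_cast hd
  have h6 : 6 ≤ 2 * B * ((f.natDegree : ℝ) + 1) := by nlinarith
  refine ⟨by linarith, by linarith, ?_, ?_⟩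
  · intro x hx
    have hx1 : 1 ≤ ‖x‖ := by linarith
    have h1 := lower (p := f) hf one_pos (by rw [hm.leadingCoeff, norm_one]) hx1
      (by nlinarith)
    rw [one_mul] at h1
    constructor
    · have := norm_nonneg (f.eval x)
      nlinarith
    · have h2 : ‖x‖ ^ 2 ≤ ‖x‖ ^ f.natDegree := pow_le_pow_right₀ hx1 hd
      nlinarith
  · intro x
    have h1 := bound (p := f) (le_refl _) hf (le_max_left ‖x‖ R)
      ((by linarith : (1 : ℝ) ≤ R).trans (le_max_right _ _))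
    refine h1.trans (mul_le_mul_of_nonneg_right ?_ ?_)
    · nlinarith
    · have : 0 ≤ max ‖x‖ R := (norm_nonneg x).trans (le_max_left _ _)
      positivity

end Pool.Agent.Lib_helper45.BDP.GROW
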