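import Pool.Agent.Lib_helper45.BDP.DefsC

/-!
# Block HYPX: an affine point on a preperiodic hypersurface
-/

namespace Pool.Agent.Lib_helper45.BDP.HYPX

open Polynomial

noncomputable section

variable {k : Type*} [Field k] {n : ℕ}

theorem mval_aff (e : Fin n → ℕ) (F : MvPolynomial (Fin n) k) (y : Fin n → k) :
    mval e F (aff y) = MvPolynomial.eval y F := by
  rw [mval, MvPolynomial.eval_eq']
  refine Finset.sum_congr rfl fun m _ => ?_
  congr 1

theorem phi_iter_aff (f : k[X]) (m : ℕ) (y : Fin n → k) :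
    (phi f)^[m] (aff y) = aff fun i => (itr f m).eval (y i) := by
  induction m with
  | zero => simp [itr_zero]
  | succ m ih =>
    rw [Function.iterate_succ_apply', ih]
    funext i
    rw [itr_succ]
    simp only [eval_comp]
    rfl

variable [IsAlgClosed k] [CharZero k]

theorem dvd_of_vanish {H G : MvPolynomial (Fin n) k} (hH : Irreducible H)
    (h : ∀ y, MvPolynomial.eval y H = 0 → MvPolynomial.eval y G = 0) : H ∣ G := by
  haveI : (Ideal.span {H}).IsPrime := (Ideal.span_singleton_prime hH.ne_zero).2 hH.prime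
  have h1 : G ∈ MvPolynomial.vanishingIdeal k (MvPolynomial.zeroLocus k (Ideal.span {H})) := by
    rw [MvPolynomial.mem_vanishingIdeal_iff]
    intro y hy
    rw [MvPolynomial.mem_zeroLocus_iff] at hy
    have h2 := hy H (Ideal.mem_span_singleton_self H)
    rw [MvPolynomial.aeval_eq_eval] at h2 ⊢
    exact h y h2
  rw [MvPolynomial.IsPrime.vanishingIdeal_zeroLocus] at h1
  exact Ideal.mem_span_singleton.1 h1

theorem cmp_ne_zero {F : k[X]} (hF : 1 ≤ F.natDegree) {G : MvPolynomial (Fin n) k} (hG : G ≠ 0) :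
    cmp F G ≠ 0 := by
  intro h
  apply hG
  apply MvPolynomial.funext
  intro y
  have h1 : ∀ i, ∃ x : k, F.eval x = y i := by
    intro i
    have hdeg : (F - C (y i)).degree ≠ 0 := by
      intro h0
      have h2 := natDegree_eq_zero_iff_degree_le_zero.2 h0.le
      rw [natDegree_sub_C] at h2
      omega
    obtain ⟨x, hx⟩ := IsAlgClosed.exists_root _ hdeg
    refine ⟨x, ?_⟩
    rw [IsRoot.def, eval_sub, eval_C, sub_eq_zero] at hx
    exact hx
  choose x hx using h1
  have h2 := eval_cmp F G x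
  rw [h, map_zero] at h2
  rw [map_zero]
  rw [h2]
  congr 1
  exact congrArg _ (funext fun i => (hx i).symm)

theorem chain {f : k[X]} {m : ℕ} {H : ℕ → MvPolynomial (Fin n) k}
    (h : ∀ i, H i ∣ cmp (itr f m) (H (i + 1))) (i j : ℕ) : H i ∣ cmp (itr f (m * j)) (H (i + j)) := by
  induction j with
  | zero => rw [Nat.mul_zero, cmp_itr_zero, Nat.add_zero]
  | succ j ih =>
    rw [Nat.mul_succ, cmp_itr_add]
    exact ih.trans (map_dvd _ (h (i + j)))

theorem HYPX {f : k[X]} (hd : 1 ≤ f.natDegree) {V : Set (Fin n → OnePoint k)}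
    (hV : IsPreperiodicHyp f V) {x : Fin n → k} (hx : aff x ∈ V) :
    ∃ (G : MvPolynomial (Fin n) k) (r N : ℕ), Irreducible G ∧ 1 ≤ r ∧ r ∣ N ∧
      G ∣ cmp (itr f r) G ∧ MvPolynomial.eval x (cmp (itr f N) G) = 0 := by
  obtain ⟨-, k0, ⟨e, F', -, hF', -, hW⟩, m, hm, hper⟩ := hV
  set W := (phi f)^[k0] '' V with hWdef
  have hWaff : ∀ y : Fin n → k, aff y ∈ W ↔ MvPolynomial.eval y F' = 0 := by
    intro y
    rw [hW, Set.mem_ofPred_eq, mval_aff]
  set Q := cmp (itr f k0) F' with hQ
  have hQ0 : Q ≠ 0 := cmp_ne_zero (by rw [natDegree_itr]; exact Nat.one_le_pow _ _ hd) hF'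
  have hQx : MvPolynomial.eval x Q = 0 := by
    rw [hQ, eval_cmp, ← hWaff, ← phi_iter_aff]
    exact ⟨_, hx, rfl⟩
  -- every irreducible factor divides the pullback of `Q`
  have hdiv : ∀ H, Irreducible H → H ∣ Q → H ∣ cmp (itr f m) Q := by
    intro H hH hHQ
    apply dvd_of_vanish hH
    intro y hy
    have h1 : MvPolynomial.eval y Q = 0 := by
      obtain ⟨c, hc⟩ := hHQ
      rw [hc, map_mul, hy, zero_mul]
    rw [hQ, eval_cmp, ← hWaff] at h1
    have h2 : (phi f)^[m] (aff fun i => (itr f k0).eval (y i)) ∈ W := by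
      rw [← hper]
      exact ⟨_, h1, rfl⟩
    rw [phi_iter_aff, hWaff] at h2
    rw [hQ, cmp_cmp, eval_cmp, itr_comm, ← h2]
    congr 2
    funext i
    rw [eval_comp]
  classical
  let s := UniqueFactorizationMonoid.factors Q
  have hs : Associated s.prod Q := UniqueFactorizationMonoid.factors_prod hQ0
  have hirr : ∀ H ∈ s, Irreducible H := fun H hH => UniqueFactorizationMonoid.irreducible_of_factor H hH
  have hdvd : ∀ H ∈ s, H ∣ Q := fun H hH => UniqueFactorizationMonoid.dvd_of_mem_factors hH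
  have hnext : ∀ H : {H // H ∈ s}, ∃ H' : {H // H ∈ s}, (H : MvPolynomial (Fin n) k) ∣
      cmp (itr f m) (H' : MvPolynomial (Fin n) k) := by
    rintro ⟨H, hH⟩
    have h1 := hdiv H (hirr H hH) (hdvd H hH)
    have h2 : H ∣ cmp (itr f m) s.prod := h1.trans (map_dvd _ hs.symm.dvd)
    rw [map_multiset_prod] at h2
    obtain ⟨a, ha, hHa⟩ := (hirr H hH).prime.exists_mem_multiset_dvd h2
    obtain ⟨H', hH', rfl⟩ := Multiset.mem_map.1 ha
    exact ⟨⟨H', hH'⟩, hHa⟩
  choose nx hnx using hnext
  -- the starting factor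
  have hstart : ∃ H ∈ s, MvPolynomial.eval x H = 0 := by
    have h1 : MvPolynomial.eval x s.prod = 0 := by
      obtain ⟨u, hu⟩ := hs.symm
      rw [← hu, map_mul, hQx, zero_mul]
    rw [map_multiset_prod, Multiset.prod_eq_zero_iff] at h1
    obtain ⟨H, hH, h2⟩ := Multiset.mem_map.1 h1
    exact ⟨H, hH, h2⟩
  obtain ⟨H0, hH0, hH0x⟩ := hstart
  let h : ℕ → {H // H ∈ s} := fun i => nx^[i] ⟨H0, hH0⟩
  have hh : ∀ i, h (i + 1) = nx (h i) := fun i => Function.iterate_succ_apply' _ _ _
  have hfin : Finite {H // H ∈ s} := by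
    have : {H | H ∈ s}.Finite := s.finite_toSet
    exact this
  obtain ⟨a, b, hab, hEq⟩ := Finite.exists_ne_map_eq_of_infinite h
  wlog hlt : a < b generalizing a b
  · exact this b a hab.symm hEq.symm (by omega)
  obtain ⟨p, rfl⟩ : ∃ p, b = a + p := ⟨b - a, by omega⟩
  have hp : 1 ≤ p := by omega
  have hper2 : ∀ i, h (a + i) = h (a + i + p) := by
    intro i
    induction i with
    | zero => exact hEq
    | succ i ih =>
      have e1 : a + (i + 1) = (a + i) + 1 := by ring
      have e2 : a + (i + 1) + p = (a + i + p) + 1 := by ring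
      rw [e1, hh, ih, ← hh]
      congr 1
      ring
  -- index a multiple of the period
  have hidx : a ≤ p * a := by nlinarith
  have hG : h (p * a) = h (p * a + p) := by
    have h1 := hper2 (p * a - a)
    have e1 : a + (p * a - a) = p * a := by omega
    rw [e1] at h1
    exact h1
  have hch := chain (f := f) (m := m) (H := fun i => (h i : MvPolynomial (Fin n) k))
    (fun i => by
      have := hnx (h i)
      rw [← hh] at this
      exact this)
  refine ⟨h (p * a), m * p, m * (p * a), hirr _ (h (p * a)).2, Nat.mul_pos hm hp,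
    ⟨a, by ring⟩, ?_, ?_⟩
  · have h1 := hch (p * a) p
    rw [← hG] at h1
    exact h1
  · have h1 := hch 0 (p * a)
    simp only [Nat.zero_add] at h1
    obtain ⟨c, hc⟩ := h1
    rw [hc, map_mul]
    have h2 : ((h 0 : {H // H ∈ s}) : MvPolynomial (Fin n) k) = H0 := rfl
    rw [h2, hH0x, zero_mul]

end

end Pool.Agent.Lib_helper45.BDP.HYPX
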