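import Pool.Agent.Lib_helper45.BDP.Defs

/-!
# Blocks INFI, ATTR, CONT, FIXP, MULT (MP_30534a_nt)
-/

namespace Pool.Agent.Lib_helper45.BDP

open Polynomial

noncomputable section

namespace INFI

/-! ### ultrametric lemmas -/

section UM

variable {Ω : Type*} [NormedField Ω] [IsUltrametricDist Ω]

theorem um_sum_le {ι : Type*} (s : Finset ι) (g : ι → Ω) {C : ℝ} (hC : 0 ≤ C)
    (h : ∀ i ∈ s, ‖g i‖ ≤ C) : ‖∑ i ∈ s, g i‖ ≤ C :=
  IsUltrametricDist.norm_sum_le_of_forall_le_of_nonneg hC h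

theorem um_sum_lt {ι : Type*} (s : Finset ι) (g : ι → Ω) {C : ℝ} (hC : 0 < C)
    (h : ∀ i ∈ s, ‖g i‖ < C) : ‖∑ i ∈ s, g i‖ < C := by
  rcases s.eq_empty_or_nonempty with rfl | hs
  · simpa using hC
  · obtain ⟨i, hi, hle⟩ := IsUltrametricDist.exists_norm_finsetSum_le_of_nonempty hs g
    exact hle.trans_lt (h i hi)

theorem um_add_le (a b : Ω) : ‖a + b‖ ≤ max ‖a‖ ‖b‖ := IsUltrametricDist.norm_add_le_max a b

theorem um_sub_le (a b : Ω) : ‖a - b‖ ≤ max ‖a‖ ‖b‖ := by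
  rw [sub_eq_add_neg]
  exact (um_add_le _ _).trans (by rw [norm_neg])

theorem um_add_lt {a b : Ω} {C : ℝ} (ha : ‖a‖ < C) (hb : ‖b‖ < C) : ‖a + b‖ < C :=
  (um_add_le a b).trans_lt (max_lt ha hb)

theorem um_sub_lt {a b : Ω} {C : ℝ} (ha : ‖a‖ < C) (hb : ‖b‖ < C) : ‖a - b‖ < C := by
  rw [sub_eq_add_neg]
  exact um_add_lt ha (by rwa [norm_neg])

theorem um_eq_of_sub_lt {a b : Ω} (h : ‖a - b‖ < ‖b‖) : ‖a‖ = ‖b‖ := by
  have h1 : ‖a‖ ≤ ‖b‖ := by
    have := um_add_le (a - b) b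
    rw [sub_add_cancel] at this
    exact this.trans (max_le h.le le_rfl)
  refine le_antisymm h1 ?_
  by_contra hc
  push Not at hc
  have h2 : ‖b‖ ≤ max ‖a‖ ‖b - a‖ := by
    have := um_add_le a (b - a)
    rwa [add_sub_cancel] at this
  rw [norm_sub_rev] at h2
  have := max_lt hc h
  linarith

theorem um_natCast_le (n : ℕ) : ‖(n : Ω)‖ ≤ 1 := IsUltrametricDist.norm_natCast_le_one Ω n

theorem um_eval_le {F : Polynomial Ω} (hf : ∀ i, ‖F.coeff i‖ ≤ 1) {x : Ω} (hx : ‖x‖ ≤ 1) :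
    ‖F.eval x‖ ≤ 1 := by
  rw [eval_eq_sum_range]
  refine um_sum_le _ _ zero_le_one fun i _ => ?_
  rw [norm_mul, norm_pow]
  exact mul_le_one₀ (hf i) (by positivity) (pow_le_one₀ (norm_nonneg _) hx)

theorem um_taylor_coeff_le {F : Polynomial Ω} (hf : ∀ i, ‖F.coeff i‖ ≤ 1) {x : Ω} (hx : ‖x‖ ≤ 1)
    (i : ℕ) : ‖(taylor x F).coeff i‖ ≤ 1 := by
  rw [taylor_coeff]
  apply um_eval_le _ hx
  intro j
  rw [hasseDeriv_coeff, norm_mul]
  exact mul_le_one₀ (um_natCast_le _) (norm_nonneg _) (hf _)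

/-- `(1+t)^i - 1` is `i t` up to `t^2` -/
theorem um_pow_sub {t : Ω} (ht : ‖t‖ < 1) (i : ℕ) :
    ‖(1 + t) ^ i - 1 - i * t‖ ≤ ‖t‖ ^ 2 := by
  induction i with
  | zero => simp
  | succ i ih =>
    have h1 : (1 + t) ^ (i + 1) - 1 - ((i + 1 : ℕ) : Ω) * t =
        ((1 + t) ^ i - 1 - i * t) * (1 + t) + i * t ^ 2 := by
      push_cast
      ring
    rw [h1]
    refine (um_add_le _ _).trans (max_le ?_ ?_)
    · rw [norm_mul]
      have h2 : ‖(1 : Ω) + t‖ ≤ 1 := (um_add_le _ _).trans (max_le (by simp) ht.le)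
      calc _ ≤ ‖t‖ ^ 2 * 1 := mul_le_mul ih h2 (norm_nonneg _) (by positivity)
        _ = _ := mul_one _
    · rw [norm_mul, norm_pow]
      calc _ ≤ 1 * ‖t‖ ^ 2 := mul_le_mul_of_nonneg_right (um_natCast_le i) (by positivity)
        _ = _ := one_mul _

theorem um_pow_sub_le {t : Ω} (ht : ‖t‖ < 1) (i : ℕ) : ‖(1 + t) ^ i - 1‖ ≤ ‖t‖ := by
  have h1 : (1 + t) ^ i - 1 = ((1 + t) ^ i - 1 - i * t) + i * t := by ring
  rw [h1]
  refine (um_add_le _ _).trans (max_le ?_ ?_)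
  · refine (um_pow_sub ht i).trans ?_
    rw [sq]
    calc ‖t‖ * ‖t‖ ≤ ‖t‖ * 1 := mul_le_mul_of_nonneg_left ht.le (norm_nonneg _)
      _ = _ := mul_one _
  · rw [norm_mul]
    calc _ ≤ 1 * ‖t‖ := mul_le_mul_of_nonneg_right (um_natCast_le i) (norm_nonneg _)
      _ = _ := one_mul _

theorem um_pow_sub_eq {t : Ω} (ht : ‖t‖ < 1) {e : ℕ} (he : ‖(e : Ω)‖ = 1) :
    ‖(1 + t) ^ e - 1‖ = ‖t‖ := by
  by_cases h0 : t = 0
  · subst h0; simp
  have ht0 : 0 < ‖t‖ := norm_pos_iff.mpr h0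
  have h1 : ‖(e : Ω) * t‖ = ‖t‖ := by rw [norm_mul, he, one_mul]
  have h2 : ‖(1 + t) ^ e - 1 - (e : Ω) * t‖ < ‖(e : Ω) * t‖ := by
    rw [h1]
    refine (um_pow_sub ht e).trans_lt ?_
    rw [sq]
    calc ‖t‖ * ‖t‖ < ‖t‖ * 1 := mul_lt_mul_of_pos_left ht ht0
      _ = _ := mul_one _
  rw [um_eq_of_sub_lt h2, h1]

/-- dominant monomial -/
def Dom (P : Polynomial Ω) (e : ℕ) (ρ : ℝ) : Prop :=
  ∀ i, i ≠ e → ‖P.coeff i‖ * ρ ^ i < ‖P.coeff e‖ * ρ ^ e

omit [IsUltrametricDist Ω] in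
theorem Dom.pos {P : Polynomial Ω} {e : ℕ} {ρ : ℝ} (hρ : 0 ≤ ρ) (h : Dom P e ρ) :
    0 < ‖P.coeff e‖ * ρ ^ e :=
  (by positivity : 0 ≤ ‖P.coeff (e + 1)‖ * ρ ^ (e + 1)).trans_lt (h (e + 1) (by omega))

theorem Dom.sub_lt {P : Polynomial Ω} {e : ℕ} {u : Ω} (h : Dom P e ‖u‖) :
    ‖P.eval u - P.coeff e * u ^ e‖ < ‖P.coeff e * u ^ e‖ := by
  have hpos := h.pos (norm_nonneg _)
  have h1 : P.eval u - P.coeff e * u ^ e
      = ∑ i ∈ (Finset.range (P.natDegree + e + 1)).erase e, P.coeff i * u ^ i := by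
    rw [eval_eq_sum_range' (n := P.natDegree + e + 1) (by omega),
      ← Finset.sum_erase_add _ _ (Finset.mem_range.mpr (by omega : e < P.natDegree + e + 1))]
    ring
  rw [h1]
  have h2 : ‖P.coeff e * u ^ e‖ = ‖P.coeff e‖ * ‖u‖ ^ e := by rw [norm_mul, norm_pow]
  rw [h2]
  refine um_sum_lt _ _ hpos fun i hi => ?_
  rw [norm_mul, norm_pow]
  exact h i (Finset.ne_of_mem_erase hi)

theorem Dom.norm_eval {P : Polynomial Ω} {e : ℕ} {u : Ω} (h : Dom P e ‖u‖) :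
    ‖P.eval u‖ = ‖P.coeff e‖ * ‖u‖ ^ e := by
  rw [um_eq_of_sub_lt h.sub_lt, norm_mul, norm_pow]

theorem Dom.ratio {P : Polynomial Ω} {e : ℕ} {u v : Ω} (h : Dom P e ‖v‖) (hv : v ≠ 0)
    (huv : ‖u‖ = ‖v‖) : ‖P.eval u / P.eval v - (u / v) ^ e‖ < 1 := by
  have hu' : Dom P e ‖u‖ := by rw [huv]; exact h
  have hpos := h.pos (norm_nonneg _)
  have hPv : ‖P.eval v‖ = ‖P.coeff e‖ * ‖v‖ ^ e := h.norm_eval
  have hPv0 : P.eval v ≠ 0 := by
    intro h0
    rw [h0, norm_zero] at hPv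
    linarith
  have h1 : P.eval u / P.eval v - (u / v) ^ e
      = ((P.eval u - P.coeff e * u ^ e) - (u / v) ^ e * (P.eval v - P.coeff e * v ^ e))
        / P.eval v := by
    rw [div_pow]
    field_simp
    ring
  rw [h1, norm_div, div_lt_one (by rw [hPv]; exact hpos), hPv]
  have h3 : ‖P.coeff e * u ^ e‖ = ‖P.coeff e‖ * ‖v‖ ^ e := by rw [norm_mul, norm_pow, huv]
  have h4 : ‖P.coeff e * v ^ e‖ = ‖P.coeff e‖ * ‖v‖ ^ e := by rw [norm_mul, norm_pow]
  have h5 : ‖(u / v) ^ e‖ = 1 := by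
    rw [norm_pow, norm_div, huv, div_self (norm_ne_zero_iff.mpr hv), one_pow]
  apply um_sub_lt
  · rw [← h3]; exact hu'.sub_lt
  · rw [norm_mul, h5, one_mul, ← h4]; exact h.sub_lt

theorem Dom.close {P : Polynomial Ω} {e : ℕ} {u v : Ω} (h : Dom P e ‖v‖) (hv : v ≠ 0)
    (he : ‖(e : Ω)‖ = 1) (huv : ‖u / v - 1‖ < 1) :
    ‖P.eval u / P.eval v - 1‖ = ‖u / v - 1‖ := by
  set t : Ω := u / v - 1 with ht
  have hu : u = v * (1 + t) := by
    rw [ht]
    field_simp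
    ring
  by_cases h0 : t = 0
  · rw [h0, norm_zero]
    have : u = v := by rw [hu, h0]; ring
    rw [this]
    have hPv : ‖P.eval v‖ = ‖P.coeff e‖ * ‖v‖ ^ e := h.norm_eval
    have hpos := h.pos (norm_nonneg _)
    have hPv0 : P.eval v ≠ 0 := by
      intro h0
      rw [h0, norm_zero] at hPv
      linarith
    rw [div_self hPv0, sub_self, norm_zero]
  have ht0 : 0 < ‖t‖ := norm_pos_iff.mpr h0
  have hpos := h.pos (norm_nonneg _)
  have hPv : ‖P.eval v‖ = ‖P.coeff e‖ * ‖v‖ ^ e := h.norm_eval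
  have hPv0 : P.eval v ≠ 0 := by
    intro h0
    rw [h0, norm_zero] at hPv
    linarith
  have h1 : P.eval u - P.eval v = ∑ i ∈ Finset.range (P.natDegree + e + 1),
      P.coeff i * v ^ i * ((1 + t) ^ i - 1) := by
    rw [eval_eq_sum_range' (n := P.natDegree + e + 1) (by omega),
      eval_eq_sum_range' (n := P.natDegree + e + 1) (by omega), ← Finset.sum_sub_distrib]
    refine Finset.sum_congr rfl fun i _ => ?_
    rw [hu, mul_pow]
    ring
  have hmain : ‖P.coeff e * v ^ e * ((1 + t) ^ e - 1)‖ = ‖P.coeff e‖ * ‖v‖ ^ e * ‖t‖ := by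
    rw [norm_mul, norm_mul, norm_pow, um_pow_sub_eq huv he]
  have h2 : ‖(P.eval u - P.eval v) - P.coeff e * v ^ e * ((1 + t) ^ e - 1)‖
      < ‖P.coeff e * v ^ e * ((1 + t) ^ e - 1)‖ := by
    rw [hmain, h1, ← Finset.sum_erase_add _ _
      (Finset.mem_range.mpr (by omega : e < P.natDegree + e + 1)), add_sub_cancel_right]
    refine um_sum_lt _ _ (by positivity) fun i hi => ?_
    rw [norm_mul, norm_mul, norm_pow]
    have h3 := h i (Finset.ne_of_mem_erase hi)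
    calc ‖P.coeff i‖ * ‖v‖ ^ i * ‖(1 + t) ^ i - 1‖ ≤ ‖P.coeff i‖ * ‖v‖ ^ i * ‖t‖ :=
          mul_le_mul_of_nonneg_left (um_pow_sub_le huv i) (by positivity)
      _ < ‖P.coeff e‖ * ‖v‖ ^ e * ‖t‖ := mul_lt_mul_of_pos_right h3 ht0
  have h4 := um_eq_of_sub_lt h2
  have h5 : P.eval u / P.eval v - 1 = (P.eval u - P.eval v) / P.eval v := by
    field_simp
  rw [h5, norm_div, h4, hmain, hPv, mul_div_cancel_left₀ _ hpos.ne']

end UM

variable {Ω : Type*} [NormedField Ω] [IsUltrametricDist Ω]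

omit [IsUltrametricDist Ω] in
theorem dom_monic {f : Polynomial Ω} (hm : f.Monic) (hf : ∀ i, ‖f.coeff i‖ ≤ 1) {ρ : ℝ}
    (hρ : 1 < ρ) : Dom f f.natDegree ρ := by
  intro i hi
  rw [hm.coeff_natDegree, norm_one, one_mul]
  rcases lt_or_gt_of_ne hi with h | h
  · calc ‖f.coeff i‖ * ρ ^ i ≤ 1 * ρ ^ i := mul_le_mul_of_nonneg_right (hf i) (by positivity)
      _ < ρ ^ f.natDegree := by rw [one_mul]; exact pow_lt_pow_right₀ hρ h
  · rw [coeff_eq_zero_of_natDegree_lt h, norm_zero, zero_mul]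
    positivity

theorem INFI {f : Polynomial Ω} (hm : f.Monic) (hd : 2 ≤ f.natDegree) (hf : ∀ i, ‖f.coeff i‖ ≤ 1)
    (he : ‖(f.natDegree : Ω)‖ = 1) :
    (∀ u : Ω, 1 < ‖u‖ → 1 < ‖f.eval u‖) ∧
    (∀ u v : Ω, 1 < ‖u‖ → 1 < ‖v‖ → ‖f.eval u‖ = ‖f.eval v‖ → ‖u‖ = ‖v‖) ∧
    (∀ u v : Ω, 1 < ‖u‖ → 1 < ‖v‖ → ‖u‖ = ‖v‖ →
      ‖f.eval u / f.eval v - (u / v) ^ f.natDegree‖ < 1) ∧
    (∀ u v : Ω, 1 < ‖u‖ → 1 < ‖v‖ → ‖u / v - 1‖ < 1 →
      ‖f.eval u / f.eval v - 1‖ = ‖u / v - 1‖) := by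
  have hne : ∀ u : Ω, 1 < ‖u‖ → u ≠ 0 := by
    intro u hu h0
    rw [h0, norm_zero] at hu
    linarith
  have hnorm : ∀ u : Ω, 1 < ‖u‖ → ‖f.eval u‖ = ‖u‖ ^ f.natDegree := by
    intro u hu
    rw [(dom_monic hm hf hu).norm_eval, hm.coeff_natDegree, norm_one, one_mul]
  refine ⟨fun u hu => ?_, fun u v hu hv h => ?_, fun u v hu hv h => ?_, fun u v hu hv h => ?_⟩
  · rw [hnorm u hu]
    exact one_lt_pow₀ hu (by omega)
  · rw [hnorm u hu, hnorm v hv] at h
    exact (pow_left_inj₀ (norm_nonneg _) (norm_nonneg _) (by omega)).mp h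
  · exact (dom_monic hm hf hv).ratio (hne v hv) h
  · exact (dom_monic hm hf hv).close (hne v hv) he h

end INFI


namespace ATTR

open INFI

/-- behaviour near an attracting fixed point, `Φ u = F(x + u) - x` -/
theorem ATTR {Ω : Type*} [NormedField Ω] [IsUltrametricDist Ω] {F : Polynomial Ω} (hm : F.Monic) (hd : 2 ≤ F.natDegree) (hf : ∀ i, ‖F.coeff i‖ ≤ 1) {x : Ω}
    (hx : ‖x‖ ≤ 1) (hFx : F.eval x = x)
    (he : ‖((rootMultiplicity x (F - C x) : ℕ) : Ω)‖ = 1) :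
    ∃ (e : ℕ) (ρ : ℝ), 1 ≤ e ∧ 0 < ρ ∧ ρ ≤ 1 ∧
      (∀ u : Ω, u ≠ 0 → ‖u‖ < ρ → F.eval (x + u) - x ≠ 0) ∧
      (∀ u v : Ω, u ≠ 0 → v ≠ 0 → ‖u‖ < ρ → ‖v‖ < ρ →
        ‖F.eval (x + u) - x‖ = ‖F.eval (x + v) - x‖ → ‖u‖ = ‖v‖) ∧
      (∀ u v : Ω, u ≠ 0 → v ≠ 0 → ‖u‖ < ρ → ‖v‖ < ρ → ‖u‖ = ‖v‖ →
        ‖(F.eval (x + u) - x) / (F.eval (x + v) - x) - (u / v) ^ e‖ < 1) ∧
      (∀ u v : Ω, u ≠ 0 → v ≠ 0 → ‖u‖ < ρ → ‖v‖ < ρ → ‖u / v - 1‖ < 1 →
        ‖(F.eval (x + u) - x) / (F.eval (x + v) - x) - 1‖ = ‖u / v - 1‖) := by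
  set G : Polynomial Ω := F - C x with hG
  set e : ℕ := rootMultiplicity x G with hedef
  set P : Polynomial Ω := taylor x G with hP
  have hG0 : G ≠ 0 := by
    intro h0
    have : F = C x := sub_eq_zero.mp h0
    rw [this, natDegree_C] at hd
    omega
  have he1 : 1 ≤ e := by
    rw [Nat.one_le_iff_ne_zero]
    intro h0
    rw [h0, Nat.cast_zero, norm_zero] at he
    exact zero_ne_one he
  have hPe : ∀ u : Ω, P.eval u = F.eval (x + u) - x := by
    intro u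
    rw [hP, taylor_eval, hG, eval_sub, eval_C, add_comm]
  have hGc : ∀ i, ‖G.coeff i‖ ≤ 1 := by
    intro i
    rw [hG, coeff_sub, coeff_C]
    refine (um_sub_le _ _).trans (max_le (hf i) ?_)
    split_ifs
    · exact hx
    · rw [norm_zero]; exact zero_le_one
  have hPc : ∀ i, ‖P.coeff i‖ ≤ 1 := fun i => um_taylor_coeff_le hGc hx i
  -- coefficients below e vanish, coefficient e does not
  obtain ⟨Q, hQ, hQn⟩ := exists_eq_pow_rootMultiplicity_mul_and_not_dvd G hG0 x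
  have hPQ : P = X ^ e * taylor x Q := by
    rw [hP]
    conv_lhs => rw [hQ]
    rw [taylor_mul, taylor_pow]
    congr 1
    simp [taylor_apply, hedef]
  have hQx : (taylor x Q).coeff 0 ≠ 0 := by
    rw [taylor_coeff_zero]
    intro h0
    exact hQn (dvd_iff_isRoot.mpr h0)
  have hlow : ∀ i, i < e → P.coeff i = 0 := by
    intro i hi
    rw [hPQ, coeff_X_pow_mul', if_neg (by omega)]
  have hce : P.coeff e ≠ 0 := by
    rw [hPQ, coeff_X_pow_mul', if_pos le_rfl, Nat.sub_self]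
    exact hQx
  set ρ : ℝ := ‖P.coeff e‖ with hρ
  have hρ0 : 0 < ρ := norm_pos_iff.mpr hce
  have hρ1 : ρ ≤ 1 := hPc e
  have hdom : ∀ v : Ω, v ≠ 0 → ‖v‖ < ρ → Dom P e ‖v‖ := by
    intro v hv hvρ i hi
    have hv0 : 0 < ‖v‖ := norm_pos_iff.mpr hv
    rcases lt_or_gt_of_ne hi with h | h
    · rw [hlow i h, norm_zero, zero_mul]
      positivity
    · obtain ⟨j, rfl⟩ : ∃ j, i = e + (j + 1) := ⟨i - e - 1, by omega⟩
      calc ‖P.coeff (e + (j + 1))‖ * ‖v‖ ^ (e + (j + 1)) ≤ 1 * ‖v‖ ^ (e + (j + 1)) :=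
            mul_le_mul_of_nonneg_right (hPc _) (by positivity)
        _ = ‖v‖ ^ e * (‖v‖ ^ j * ‖v‖) := by ring
        _ ≤ ‖v‖ ^ e * (1 * ‖v‖) := by
            apply mul_le_mul_of_nonneg_left _ (by positivity)
            apply mul_le_mul_of_nonneg_right _ hv0.le
            exact pow_le_one₀ hv0.le (by linarith)
        _ < ‖v‖ ^ e * ρ := by
            rw [one_mul]
            exact mul_lt_mul_of_pos_left hvρ (by positivity)
        _ = ‖P.coeff e‖ * ‖v‖ ^ e := by rw [hρ]; ring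
  refine ⟨e, ρ, he1, hρ0, hρ1, fun u hu huρ => ?_, fun u v hu hv huρ hvρ h => ?_,
    fun u v hu hv huρ hvρ h => ?_, fun u v hu hv huρ hvρ h => ?_⟩
  · rw [← hPe]
    intro h0
    have h1 := (hdom u hu huρ).norm_eval
    have h2 := (hdom u hu huρ).pos (norm_nonneg _)
    rw [h0, norm_zero] at h1
    linarith
  · rw [← hPe, ← hPe, (hdom u hu huρ).norm_eval, (hdom v hv hvρ).norm_eval] at h
    have h1 : ‖u‖ ^ e = ‖v‖ ^ e := mul_left_cancel₀ hρ0.ne' h
    exact (pow_left_inj₀ (norm_nonneg _) (norm_nonneg _) (by omega)).mp h1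
  · rw [← hPe, ← hPe]
    exact (hdom v hv hvρ).ratio hv h
  · rw [← hPe, ← hPe]
    exact (hdom v hv hvρ).close hv he h

end ATTR

namespace CONT

open INFI

/-- contraction near an attracting fixed point -/
theorem CONT {Ω : Type*} [NormedField Ω] [IsUltrametricDist Ω] {F : Polynomial Ω} (hf : ∀ i, ‖F.coeff i‖ ≤ 1) {x : Ω}
    (hx : ‖x‖ ≤ 1) (hFx : F.eval x = x) {u : Ω} (hu : ‖u‖ ≤ 1) :
    ‖F.eval (x + u) - x‖ ≤ ‖u‖ * max ‖(derivative F).eval x‖ ‖u‖ := by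
  set P : Polynomial Ω := taylor x F with hP
  have hPc : ∀ i, ‖P.coeff i‖ ≤ 1 := fun i => um_taylor_coeff_le hf hx i
  have h0 : P.coeff 0 = x := by rw [hP, taylor_coeff_zero, hFx]
  have h1 : P.coeff 1 = (derivative F).eval x := by rw [hP, taylor_coeff_one]
  have hPe : P.eval u = F.eval (x + u) := by rw [hP, taylor_eval, add_comm]
  have h2 : F.eval (x + u) - x = ∑ i ∈ Finset.range (P.natDegree + 1),
      P.coeff (i + 1) * u ^ (i + 1) := by
    rw [← hPe, eval_eq_sum_range' (n := P.natDegree + 2) (by omega), Finset.sum_range_succ', h0]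
    simp
  rw [h2]
  refine um_sum_le _ _ (by positivity) fun i _ => ?_
  rw [norm_mul, norm_pow]
  rcases Nat.eq_zero_or_pos i with hi | hi
  · subst hi
    rw [zero_add, h1, pow_one, mul_comm]
    exact mul_le_mul_of_nonneg_left (le_max_left _ _) (norm_nonneg _)
  · obtain ⟨j, rfl⟩ : ∃ j, i = j + 1 := ⟨i - 1, by omega⟩
    calc ‖P.coeff (j + 1 + 1)‖ * ‖u‖ ^ (j + 1 + 1) ≤ 1 * ‖u‖ ^ (j + 1 + 1) :=
          mul_le_mul_of_nonneg_right (hPc _) (by positivity)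
      _ = ‖u‖ * (‖u‖ ^ j * ‖u‖) := by ring
      _ ≤ ‖u‖ * (1 * ‖u‖) := by
          apply mul_le_mul_of_nonneg_left _ (norm_nonneg _)
          apply mul_le_mul_of_nonneg_right _ (norm_nonneg _)
          exact pow_le_one₀ (norm_nonneg _) hu
      _ ≤ ‖u‖ * max ‖(derivative F).eval x‖ ‖u‖ := by
          rw [one_mul]
          exact mul_le_mul_of_nonneg_left (le_max_right _ _) (norm_nonneg _)

end CONT

namespace FIXP

open INFI

theorem FIXP {Ω : Type*} [NormedField Ω] [IsUltrametricDist Ω] [IsAlgClosed Ω] {F : Polynomial Ω} (hm : F.Monic) (hd : 2 ≤ F.natDegree)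
    (hf : ∀ i, ‖F.coeff i‖ ≤ 1) {a : Ω} (ha : ‖a‖ ≤ 1) (h : ‖F.eval a - a‖ < 1) :
    ∃ x : Ω, F.eval x = x ∧ ‖a - x‖ < 1 ∧ ‖x‖ ≤ 1 := by
  set G : Polynomial Ω := F - X with hG
  have hGm : G.Monic := by
    rw [hG]
    apply hm.sub_of_left
    rw [degree_X, degree_eq_natDegree hm.ne_zero]
    exact_mod_cast (by omega : 1 < F.natDegree)
  have hsp : G.Splits := IsAlgClosed.splits G
  have hGe : ∀ b, G.eval b = (G.roots.map fun r => b - r).prod := by
    intro b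
    conv_lhs => rw [hsp.eq_prod_roots_of_monic hGm]
    rw [eval_multiset_prod, Multiset.map_map]
    simp
  have hGa : ‖G.eval a‖ < 1 := by
    rw [hG, eval_sub, eval_X]
    exact h
  have hex : ∃ r ∈ G.roots, ‖a - r‖ < 1 := by
    by_contra hc
    push Not at hc
    have h1 : 1 ≤ ‖G.eval a‖ := by
      rw [hGe]
      have : ∀ s : Multiset Ω, (∀ r ∈ s, 1 ≤ ‖a - r‖) → 1 ≤ ‖(s.map fun r => a - r).prod‖ := by
        intro s
        induction s using Multiset.induction_on with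
        | empty => intro _; simp
        | cons b s ih =>
          intro hs
          rw [Multiset.map_cons, Multiset.prod_cons, norm_mul]
          exact one_le_mul_of_one_le_of_one_le (hs b (Multiset.mem_cons_self b s))
            (ih fun r hr => hs r (Multiset.mem_cons_of_mem hr))
      exact this _ hc
    linarith
  obtain ⟨r, hr, hr1⟩ := hex
  refine ⟨r, ?_, hr1, ?_⟩
  · have h2 : G.IsRoot r := isRoot_of_mem_roots hr
    rw [IsRoot, hG, eval_sub, eval_X] at h2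
    exact sub_eq_zero.mp h2
  · have h3 : r = a - (a - r) := by ring
    rw [h3]
    exact (um_sub_le _ _).trans (max_le ha hr1.le)

end FIXP

namespace MULT

/-- multiplicities of iterates at a point are products of numbers at most `deg f` -/
theorem MULT {k : Type*} [Field k] {f : k[X]} (hd : 2 ≤ f.natDegree) (M : ℕ) (x y : k)
    (h : (itr f M).eval x = y) {q : ℕ} (hq : q.Prime) (hqd : f.natDegree < q) :
    ¬ q ∣ rootMultiplicity x (itr f M - C y) := by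
  classical
  induction M generalizing y with
  | zero =>
    rw [itr_zero, eval_X] at h
    subst h
    rw [itr_zero, rootMultiplicity_X_sub_C_self]
    intro hc
    exact hq.one_lt.ne' (Nat.dvd_one.mp hc)
  | succ M ih =>
    set g := itr f M with hg
    set z := g.eval x with hz
    have hy : y = f.eval z := by
      rw [← h, itr_succ, eval_comp]
    have hf0 : f - C y ≠ 0 := by
      intro h0
      have : f = C y := sub_eq_zero.mp h0
      rw [this, natDegree_C] at hd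
      omega
    have hg0 : g - C z ≠ 0 := by
      intro h0
      have h1 : g = C z := sub_eq_zero.mp h0
      have h2 : g.natDegree = f.natDegree ^ M := natDegree_itr f M
      rw [h1, natDegree_C] at h2
      have : 0 < f.natDegree ^ M := by positivity
      omega
    obtain ⟨Q, hQ, hQn⟩ := exists_eq_pow_rootMultiplicity_mul_and_not_dvd (f - C y) hf0 z
    set e := rootMultiplicity z (f - C y) with he
    have he1 : 1 ≤ e := by
      rw [he, Nat.one_le_iff_ne_zero, ← Nat.pos_iff_ne_zero, rootMultiplicity_pos hf0, IsRoot,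
        eval_sub, eval_C, hy, sub_self]
    have heq : e < q := by
      have h1 : e ≤ (f - C y).natDegree := by
        rw [he, ← count_roots]
        exact (Multiset.count_le_card _ _).trans (card_roots' _)
      rw [natDegree_sub_C] at h1
      omega
    have hcomp : itr f (M + 1) - C y = (g - C z) ^ e * Q.comp g := by
      have h1 : itr f (M + 1) - C y = (f - C y).comp g := by
        rw [itr_succ, sub_comp, C_comp]
      rw [h1, hQ, mul_comp, pow_comp, sub_comp, X_comp, C_comp]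
    have hQg : ¬ (Q.comp g).IsRoot x := by
      rw [IsRoot, eval_comp]
      intro h0
      exact hQn (dvd_iff_isRoot.mpr h0)
    have hQg0 : Q.comp g ≠ 0 := by
      intro h0
      apply hQg
      rw [h0]
      simp
    have hmul : rootMultiplicity x (itr f (M + 1) - C y) = e * rootMultiplicity x (g - C z) := by
      rw [hcomp, rootMultiplicity_mul (mul_ne_zero (pow_ne_zero _ hg0) hQg0),
        rootMultiplicity_eq_zero hQg, add_zero, ← count_roots, roots_pow, Multiset.count_nsmul,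
        count_roots]
    rw [hmul]
    intro hc
    rcases (Nat.Prime.dvd_mul hq).mp hc with h1 | h1
    · exact absurd (Nat.le_of_dvd he1 h1) (by omega)
    · exact ih z rfl h1

end MULT

end

end Pool.Agent.Lib_helper45.BDP
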