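import Pool.Agent.Lib_helper45.BDP.Defs

/-!
# Block INTX: a curve meets a hypersurface not containing it in a finite set
-/

namespace Pool.Agent.Lib_helper45.BDP.INTX

open Polynomial

noncomputable section

variable {k : Type*} [Field k] {n : ℕ}

variable [IsAlgClosed k] [CharZero k]

theorem INTX {C V : Set (Fin n → OnePoint k)} (hC : IsIrrCurve C) (hV : IsHypersurface V)
    (hCV : ¬ C ⊆ V) : (C ∩ V).Finite := by
  obtain ⟨⟨S, hS, hCS⟩, _, hirr⟩ := hC
  obtain ⟨e, F, _, _, hdeg, hVF⟩ := hV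
  refine hirr (C ∩ V) ⟨insert (e, F) S, ?_, ?_⟩ Set.inter_subset_left ?_
  · rintro t (rfl | ht)
    · exact hdeg
    · exact hS t ht
  · rw [hCS, hVF]
    ext P
    constructor
    · rintro ⟨h1, h2⟩ t (rfl | ht)
      · exact h2
      · exact h1 t ht
    · intro h
      exact ⟨fun t ht => h t (Set.mem_insert_of_mem _ ht), h (e, F) (Set.mem_insert _ _)⟩
  · intro h
    exact hCV (h ▸ Set.inter_subset_right)

end

end Pool.Agent.Lib_helper45.BDP.INTX
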