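import Pool.Agent.Lib_helper45.BDP.Defs

/-!
# Block LAM2
-/

set_option linter.unusedSectionVars false

namespace Pool.Agent.Lib_helper45.BDP.LAM2

open Polynomial

noncomputable section

variable {k : Type*} [Field k] [IsAlgClosed k] [CharZero k]

theorem rm_pow (p : k[X]) (x : k) (n : ℕ) :
    rootMultiplicity x (p ^ n) = n * rootMultiplicity x p := by
  classical
  rw [← count_roots, ← count_roots, roots_pow, Multiset.count_nsmul]

theorem rm_comp {A F : k[X]} (hA : A ≠ 0) (hF : 1 ≤ F.natDegree) (x : k) :
    rootMultiplicity x (A.comp F) =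
      rootMultiplicity (F.eval x) A * rootMultiplicity x (F - C (F.eval x)) := by
  obtain ⟨B, hB, hnd⟩ := A.exists_eq_pow_rootMultiplicity_mul_and_not_dvd hA (F.eval x)
  set o := rootMultiplicity (F.eval x) A with ho
  have hBr : ¬ B.IsRoot (F.eval x) := fun h => hnd (dvd_iff_isRoot.2 h)
  have hFx : F - C (F.eval x) ≠ 0 := by
    intro h
    have h2 : F = C (F.eval x) := sub_eq_zero.1 h
    rw [h2, natDegree_C] at hF
    omega
  have hcomp : A.comp F = (F - C (F.eval x)) ^ o * B.comp F := by
    conv_lhs => rw [hB]
    simp
  have hBF : ¬ (B.comp F).IsRoot x := by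
    intro h
    apply hBr
    rw [IsRoot.def, eval_comp] at h
    exact h
  have hBF0 : B.comp F ≠ 0 := by
    intro h
    apply hBF
    rw [h]
    simp
  rw [hcomp, rootMultiplicity_mul (mul_ne_zero (pow_ne_zero _ hFx) hBF0), rm_pow,
    rootMultiplicity_eq_zero hBF, add_zero]

section main

variable {F A : k[X]} {j : ℕ}

theorem e_pos (hd : 2 ≤ F.natDegree) (x : k) : 1 ≤ rootMultiplicity x (F - C (F.eval x)) := by
  have hFx : F - C (F.eval x) ≠ 0 := by
    intro h
    have h2 : F = C (F.eval x) := sub_eq_zero.1 h
    rw [h2, natDegree_C] at hd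
    omega
  rw [Nat.succ_le_iff, rootMultiplicity_pos hFx]
  simp

theorem der_ne (hd : 2 ≤ F.natDegree) : derivative F ≠ 0 := by
  rw [derivative_ne_zero]
  omega

theorem rel (hd : 2 ≤ F.natDegree) (hA : A ≠ 0)
    (h : C ((F.natDegree : k) ^ j) * A.comp F = derivative F ^ j * A) (x : k) :
    rootMultiplicity (F.eval x) A * rootMultiplicity x (F - C (F.eval x)) =
      j * (rootMultiplicity x (F - C (F.eval x)) - 1) + rootMultiplicity x A := by
  have hM : ((F.natDegree : k) ^ j) ≠ 0 := pow_ne_zero _ (by
    have : F.natDegree ≠ 0 := by omega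
    exact_mod_cast this)
  have h1 : rootMultiplicity x (C ((F.natDegree : k) ^ j) * A.comp F) =
      rootMultiplicity (F.eval x) A * rootMultiplicity x (F - C (F.eval x)) := by
    classical
    rw [← rm_comp hA (by omega) x, ← count_roots, ← count_roots, roots_C_mul _ hM]
  have h2 : rootMultiplicity x (derivative F) = rootMultiplicity x (F - C (F.eval x)) - 1 := by
    have h3 := derivative_rootMultiplicity_of_root (p := F - C (F.eval x)) (t := x) (by simp)
    rw [← h3]
    simp
  rw [← h1, h, rootMultiplicity_mul (mul_ne_zero (pow_ne_zero _ (der_ne hd)) hA), rm_pow, h2]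

theorem degA (hd : 2 ≤ F.natDegree) (hA : A ≠ 0)
    (h : C ((F.natDegree : k) ^ j) * A.comp F = derivative F ^ j * A) : A.natDegree = j := by
  have hM : ((F.natDegree : k) ^ j) ≠ 0 := pow_ne_zero _ (by
    have : F.natDegree ≠ 0 := by omega
    exact_mod_cast this)
  have h1 := congrArg natDegree h
  rw [natDegree_C_mul hM, natDegree_comp, natDegree_mul (pow_ne_zero _ (der_ne hd)) hA,
    natDegree_pow, natDegree_derivative] at h1
  obtain ⟨m, hm⟩ : ∃ m, F.natDegree = m + 1 := ⟨F.natDegree - 1, by omega⟩
  rw [hm] at h1 hd
  simp only [Nat.add_sub_cancel] at h1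
  have h2 : A.natDegree * m = j * m := by
    have : A.natDegree * (m + 1) = A.natDegree * m + A.natDegree := by ring
    omega
  exact Nat.eq_of_mul_eq_mul_right (by omega) h2

theorem pow_case {y : k} (hd : 2 ≤ F.natDegree) (hr : ∀ x, F.eval x = y → x = y) :
    F = C F.leadingCoeff * (X - C y) ^ F.natDegree + C y := by
  have h0 : (F - C y).natDegree = F.natDegree := natDegree_sub_C
  have hne : F - C y ≠ 0 := by
    intro h
    rw [h, natDegree_zero] at h0
    omega
  have hlc : (F - C y).leadingCoeff = F.leadingCoeff := by
    rw [leadingCoeff, leadingCoeff, h0, coeff_sub, coeff_C]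
    have : F.natDegree ≠ 0 := by omega
    simp [this]
  have hrep : (F - C y).roots = Multiset.replicate F.natDegree y := by
    rw [Multiset.eq_replicate]
    refine ⟨by rw [IsAlgClosed.card_roots_eq_natDegree, h0], ?_⟩
    intro b hb
    rw [mem_roots hne] at hb
    apply hr
    have : F.eval b - y = 0 := by simpa using hb
    exact sub_eq_zero.1 this
  have h1 := (IsAlgClosed.splits (F - C y)).eq_prod_roots
  rw [hrep, hlc, Multiset.map_replicate, Multiset.prod_replicate] at h1
  rw [← h1]
  ring

theorem LAM2 (hd : 2 ≤ F.natDegree) (hj : 1 ≤ j) (hA : A ≠ 0)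
    (h : C ((F.natDegree : k) ^ j) * A.comp F = derivative F ^ j * A) :
    (∃ x c : k, F = C c * (X - C x) ^ F.natDegree + C x) ∨
    ∃ v w : k, v ≠ w ∧ C ((F.natDegree : k) ^ 2) * ((F - C v) * (F - C w)) =
      (X - C v) * (X - C w) * derivative F ^ 2 := by
  classical
  have hdeg := degA hd hA h
  have hrel := rel hd hA h
  set o : k → ℕ := fun y => rootMultiplicity y A with ho
  have hsum : ∑ y ∈ A.roots.toFinset, o y = j := by
    have h1 := Multiset.toFinset_sum_count_eq A.roots
    rw [IsAlgClosed.card_roots_eq_natDegree, hdeg] at h1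
    rw [← h1]
    refine Finset.sum_congr rfl fun y _ => ?_
    rw [count_roots]
  have hmem : ∀ y, y ∈ A.roots.toFinset ↔ 1 ≤ o y := by
    intro y
    rw [Multiset.mem_toFinset, ← Multiset.one_le_count_iff_mem, count_roots]
  have hle : ∀ y, o y ≤ j := by
    intro y
    by_cases hy : y ∈ A.roots.toFinset
    · rw [← hsum]
      exact Finset.single_le_sum (f := o) (fun _ _ => Nat.zero_le _) hy
    · rw [hmem] at hy
      omega
  have hle2 : ∀ y z, y ≠ z → o y + o z ≤ j := by
    intro y z hyz
    by_cases hy : y ∈ A.roots.toFinset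
    · by_cases hz : z ∈ A.roots.toFinset
      · rw [← hsum]
        have h1 : ∑ t ∈ ({y, z} : Finset k), o t ≤ ∑ t ∈ A.roots.toFinset, o t := by
          apply Finset.sum_le_sum_of_subset
          intro t ht
          rcases Finset.mem_insert.1 ht with rfl | ht
          · exact hy
          · rw [Finset.mem_singleton.1 ht]
            exact hz
        rwa [Finset.sum_pair hyz] at h1
      · rw [hmem] at hz
        have := hle y
        omega
    · rw [hmem] at hy
      have := hle z
      omega
  by_cases hcase : ∃ y, o y = j
  · left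
    obtain ⟨y, hy⟩ := hcase
    refine ⟨y, F.leadingCoeff, pow_case hd ?_⟩
    intro x hx
    by_contra hxy
    have h1 := hrel x
    have h2 := e_pos hd x
    have h3 := hle2 x y hxy
    rw [hx] at h1 h2
    change o y * _ = j * _ + o x at h1
    rw [hy] at h1 h3
    obtain ⟨e, he⟩ : ∃ e, rootMultiplicity x (F - C y) = e + 1 := ⟨_, (Nat.sub_add_cancel h2).symm⟩
    rw [he, Nat.add_sub_cancel, mul_add, mul_one] at h1
    have h4 : o x = j := by omega
    omega
  · right
    push Not at hcase
    -- all roots have `2 * o y ≥ j`
    have hhalf : ∀ y, 1 ≤ o y → j ≤ 2 * o y := by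
      intro y0 hy0
      by_contra hlt
      push Not at hlt
      set H := A.roots.toFinset.filter (fun y => o y = o y0) with hH
      have hpre : ∀ x, F.eval x ∈ H → rootMultiplicity x (F - C (F.eval x)) = 1 ∧ x ∈ H := by
        intro x hx
        have hx2 := (Finset.mem_filter.1 hx).2
        have h1 := hrel x
        have h2 := e_pos hd x
        change o (F.eval x) * _ = j * _ + o x at h1
        rw [hx2] at h1
        obtain ⟨e, he⟩ : ∃ e, rootMultiplicity x (F - C (F.eval x)) = e + 1 :=
          ⟨_, (Nat.sub_add_cancel h2).symm⟩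
        rw [he, Nat.add_sub_cancel] at h1
        have he0 : e = 0 := by
          by_contra hne
          have h3 : o y0 * (e + 1) ≤ o y0 * (2 * e) := Nat.mul_le_mul_left _ (by omega)
          have h4 : o y0 * (2 * e) = (2 * o y0) * e := by ring
          have h5 : (2 * o y0) * e < j * e := Nat.mul_lt_mul_of_pos_right hlt (by omega)
          omega
        subst he0
        refine ⟨by omega, ?_⟩
        rw [mul_zero, zero_add, zero_add, mul_one] at h1
        rw [hH, Finset.mem_filter, hmem]
        omega
      have hsub : H.biUnion (fun y => (F - C y).roots.toFinset) ⊆ H := by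
        intro x hx
        obtain ⟨y, hy, hxy⟩ := Finset.mem_biUnion.1 hx
        rw [Multiset.mem_toFinset] at hxy
        have h1 : F.eval x = y := by
          have := isRoot_of_mem_roots hxy
          have h2 : F.eval x - y = 0 := by simpa using this
          exact sub_eq_zero.1 h2
        exact (hpre x (by rw [h1]; exact hy)).2
      have hcard : (H.biUnion (fun y => (F - C y).roots.toFinset)).card =
          H.card * F.natDegree := by
        rw [Finset.card_biUnion]
        · rw [Finset.card_eq_sum_ones H, Finset.sum_mul]
          refine Finset.sum_congr rfl fun y hy => ?_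
          rw [one_mul]
          rw [Multiset.toFinset_card_of_nodup, IsAlgClosed.card_roots_eq_natDegree, natDegree_sub_C]
          rw [Multiset.nodup_iff_count_le_one]
          intro x
          by_cases hx : x ∈ (F - C y).roots
          · have h1 : F.eval x = y := by
              have := isRoot_of_mem_roots hx
              have h2 : F.eval x - y = 0 := by simpa using this
              exact sub_eq_zero.1 h2
            have h3 := (hpre x (by rw [h1]; exact hy)).1
            rw [h1] at h3
            rw [count_roots, h3]
          · rw [Multiset.count_eq_zero_of_notMem hx]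
            omega
        · intro y _ z _ hyz
          rw [Function.onFun, Finset.disjoint_left]
          intro x hx hx'
          apply hyz
          rw [Multiset.mem_toFinset] at hx hx'
          have h1 : F.eval x - y = 0 := by simpa using isRoot_of_mem_roots hx
          have h2 : F.eval x - z = 0 := by simpa using isRoot_of_mem_roots hx'
          rw [← sub_eq_zero.1 h1, ← sub_eq_zero.1 h2]
      have h1 := Finset.card_le_card hsub
      rw [hcard] at h1
      have h2 : 0 < H.card := Finset.card_pos.2 ⟨y0, by
        rw [hH, Finset.mem_filter, hmem]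
        exact ⟨hy0, rfl⟩⟩
      have h3 : H.card * 2 ≤ H.card * F.natDegree := Nat.mul_le_mul_left _ hd
      omega
    -- the two roots
    obtain ⟨v, hv⟩ : ∃ v, 1 ≤ o v := by
      by_contra hno
      push Not at hno
      have : ∑ y ∈ A.roots.toFinset, o y = 0 := Finset.sum_eq_zero fun y _ => by
        have := hno y
        omega
      omega
    obtain ⟨w, hwv, hw⟩ : ∃ w, w ≠ v ∧ 1 ≤ o w := by
      by_contra hno
      push Not at hno
      have : ∑ y ∈ A.roots.toFinset, o y = o v := by
        apply Finset.sum_eq_single_of_mem v ((hmem v).2 hv)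
        intro b _ hb
        have := hno b hb
        omega
      exact hcase v (by omega)
    have hvw := hle2 w v hwv
    have hv2 := hhalf v hv
    have hw2 := hhalf w hw
    obtain ⟨hh, hhv⟩ : ∃ n, o v = n := ⟨_, rfl⟩
    have hhw : o w = hh := by omega
    have hjh : j = 2 * hh := by omega
    have hh0 : hh ≠ 0 := by omega
    have hroots : A.roots.toFinset = {v, w} := by
      ext y
      rw [Finset.mem_insert, Finset.mem_singleton]
      constructor
      · intro hy
        by_contra hno
        push Not at hno
        have h1 : ∑ t ∈ ({y, v, w} : Finset k), o t ≤ ∑ t ∈ A.roots.toFinset, o t := by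
          apply Finset.sum_le_sum_of_subset
          intro t ht
          rw [Finset.mem_insert, Finset.mem_insert, Finset.mem_singleton] at ht
          rcases ht with rfl | rfl | rfl
          · exact hy
          · exact (hmem _).2 hv
          · exact (hmem _).2 hw
        rw [Finset.sum_insert (by simp [hno.1, hno.2]), Finset.sum_pair hwv.symm, hsum] at h1
        have := (hmem y).1 hy
        omega
      · rintro (rfl | rfl)
        · exact (hmem _).2 hv
        · exact (hmem _).2 hw
    have hAeq : A = C A.leadingCoeff * ((X - C v) ^ hh * (X - C w) ^ hh) := by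
      have h1 := (IsAlgClosed.splits A).eq_prod_roots
      rw [Finset.prod_multiset_map_count, hroots, Finset.prod_pair hwv.symm, count_roots,
        count_roots] at h1
      change A = C A.leadingCoeff * ((X - C v) ^ (o v) * (X - C w) ^ (o w)) at h1
      rwa [hhv, hhw] at h1
    set a := A.leadingCoeff with ha
    have ha0 : C a ≠ 0 := by
      rw [ha, Ne, C_eq_zero, leadingCoeff_eq_zero]
      exact hA
    refine ⟨v, w, hwv.symm, ?_⟩
    set P := C ((F.natDegree : k) ^ 2) * ((F - C v) * (F - C w)) with hP
    set Q := (X - C v) * (X - C w) * derivative F ^ 2 with hQ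
    have hPQ : P ^ hh = Q ^ hh := by
      have h1 : C a * P ^ hh = C a * Q ^ hh := by
        have h2 := h
        rw [hAeq, hjh] at h2
        simp only [mul_comp, C_comp, pow_comp, sub_comp, X_comp] at h2
        rw [hP, hQ]
        calc C a * (C ((F.natDegree : k) ^ 2) * ((F - C v) * (F - C w))) ^ hh
            = C ((F.natDegree : k) ^ (2 * hh)) * (C a * ((F - C v) ^ hh * (F - C w) ^ hh)) := by
              rw [mul_pow, mul_pow, ← C_pow, ← pow_mul]; ring
          _ = derivative F ^ (2 * hh) * (C a * ((X - C v) ^ hh * (X - C w) ^ hh)) := h2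
          _ = C a * ((X - C v) * (X - C w) * derivative F ^ 2) ^ hh := by
              rw [mul_pow, mul_pow, ← pow_mul]; ring
      exact mul_left_cancel₀ ha0 h1
    have hPd : P ∣ Q := (UniqueFactorizationMonoid.pow_dvd_pow_iff_dvd hh0).1 (dvd_of_eq hPQ)
    have hQd : Q ∣ P := (UniqueFactorizationMonoid.pow_dvd_pow_iff_dvd hh0).1 (dvd_of_eq hPQ.symm)
    obtain ⟨u, hu⟩ := associated_of_dvd_dvd hPd hQd
    obtain ⟨c, hc, hcu⟩ := Polynomial.isUnit_iff.1 u.isUnit
    have hlcP : P.leadingCoeff = (F.natDegree : k) ^ 2 * F.leadingCoeff ^ 2 := by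
      have h0 : ∀ y, (F - C y).leadingCoeff = F.leadingCoeff := by
        intro y
        rw [leadingCoeff, leadingCoeff, natDegree_sub_C, coeff_sub, coeff_C]
        have : F.natDegree ≠ 0 := by omega
        simp [this]
      rw [hP, leadingCoeff_mul, leadingCoeff_mul, leadingCoeff_C, h0, h0]
      ring
    have hlcQ : Q.leadingCoeff = (F.natDegree : k) ^ 2 * F.leadingCoeff ^ 2 := by
      rw [hQ, leadingCoeff_mul, leadingCoeff_mul, leadingCoeff_pow, leadingCoeff_derivative,
        leadingCoeff_X_sub_C, leadingCoeff_X_sub_C]
      ring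
    have hne : (F.natDegree : k) ^ 2 * F.leadingCoeff ^ 2 ≠ 0 := by
      have h1 : F.natDegree ≠ 0 := by omega
      have h2 : F ≠ 0 := by
        intro h3
        rw [h3, natDegree_zero] at h1
        exact h1 rfl
      exact mul_ne_zero (pow_ne_zero _ (by exact_mod_cast h1))
        (pow_ne_zero _ (leadingCoeff_ne_zero.2 h2))
    have hc1 : c = 1 := by
      have h1 := congrArg leadingCoeff hu
      rw [leadingCoeff_mul, ← hcu, leadingCoeff_C, hlcP, hlcQ] at h1
      exact mul_left_cancel₀ hne (by rw [h1, mul_one])
    rw [← hu, ← hcu, hc1, C_1, mul_one]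

end main

end

end Pool.Agent.Lib_helper45.BDP.LAM2
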