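import Pool.Agent.Lib_helper45.BDP.Defs

set_option autoImplicit false

namespace Pool.Agent.Lib_helper45.BDP.LCU

open Polynomial

variable {k : Type*} [Field k] [IsAlgClosed k] [CharZero k]

theorem LCU {f g : k[X]} (hf : Good f) {r : ℕ} (hr : 1 ≤ r) (hg : 1 ≤ g.natDegree)
    (h : g.comp (itr f r) = (itr f r).comp g) :
    g.leadingCoeff ^ (f.natDegree ^ r - 1) = 1 := by
  have hd := hf.deg
  have hm : (itr f r).Monic := itr_monic hf.monic (by omega) r
  have hdeg : (itr f r).natDegree = f.natDegree ^ r := natDegree_itr f r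
  have hpow : 1 ≤ f.natDegree ^ r := Nat.one_le_pow _ _ (by omega)
  have h1 : (g.comp (itr f r)).leadingCoeff = g.leadingCoeff := by
    rw [leadingCoeff_comp (by rw [hdeg]; omega), hm.leadingCoeff, one_pow, mul_one]
  have h2 : ((itr f r).comp g).leadingCoeff = g.leadingCoeff ^ (f.natDegree ^ r) := by
    rw [leadingCoeff_comp (by omega), hm.leadingCoeff, one_mul, hdeg]
  rw [h, h2] at h1
  have h3 : g.leadingCoeff ≠ 0 := by
    rw [Ne, leadingCoeff_eq_zero]
    rintro rfl
    simp at hg
  have h4 : g.leadingCoeff ^ (f.natDegree ^ r - 1) * g.leadingCoeff = 1 * g.leadingCoeff := by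
    rw [← pow_succ, Nat.sub_add_cancel hpow, h1, one_mul]
  exact mul_right_cancel₀ h3 h4

end Pool.Agent.Lib_helper45.BDP.LCU
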