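import Pool.Agent.Lib_helper45.BDP.DefsB

/-!
# LOCE: the escape lemma
-/

namespace Pool.Agent.Lib_helper45.BDP.LOCE

open Polynomial

noncomputable section

variable {Ω : Type*} [NormedField Ω]

/-- lower bound for a polynomial with leading coefficient of norm one -/
theorem loce_g {g : Polynomial Ω} (hg : ‖g.leadingCoeff‖ = 1) (he : 1 ≤ g.natDegree) :
    ∃ Z : ℝ, 1 ≤ Z ∧ ∀ z : Ω, Z ≤ ‖z‖ → ‖z‖ ^ g.natDegree ≤ 2 * ‖g.eval z‖ := by
  set e := g.natDegree with hedef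
  set S : ℝ := ∑ i ∈ Finset.range e, ‖g.coeff i‖ with hS
  have hS0 : 0 ≤ S := Finset.sum_nonneg fun _ _ => norm_nonneg _
  refine ⟨1 + 2 * S, by linarith, fun z hz => ?_⟩
  have hz1 : 1 ≤ ‖z‖ := by linarith
  have h1 : g.eval z = ∑ i ∈ Finset.range e, g.coeff i * z ^ i + g.leadingCoeff * z ^ e := by
    rw [eval_eq_sum_range, Finset.sum_range_succ]
    rfl
  have h2 : ‖∑ i ∈ Finset.range e, g.coeff i * z ^ i‖ ≤ S * ‖z‖ ^ (e - 1) := by
    rw [hS, Finset.sum_mul]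
    refine (norm_sum_le _ _).trans (Finset.sum_le_sum fun i hi => ?_)
    rw [norm_mul, norm_pow]
    refine mul_le_mul_of_nonneg_left (pow_le_pow_right₀ hz1 ?_) (norm_nonneg _)
    have := Finset.mem_range.1 hi
    omega
  have h3 : ‖g.leadingCoeff * z ^ e‖ = ‖z‖ ^ e := by rw [norm_mul, hg, one_mul, norm_pow]
  have h4 : ‖z‖ ^ e = ‖z‖ * ‖z‖ ^ (e - 1) := by
    rw [← pow_succ', Nat.sub_add_cancel he]
  have h5 : ‖g.leadingCoeff * z ^ e‖ ≤ ‖g.eval z‖ + ‖∑ i ∈ Finset.range e, g.coeff i * z ^ i‖ := by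
    have h6 : g.leadingCoeff * z ^ e = g.eval z - ∑ i ∈ Finset.range e, g.coeff i * z ^ i := by
      rw [h1]; ring
    rw [h6]
    exact norm_sub_le _ _
  have h7 : 2 * (S * ‖z‖ ^ (e - 1)) ≤ ‖z‖ ^ e := by
    rw [h4]
    have : 2 * S ≤ ‖z‖ := by linarith
    have h8 : (0 : ℝ) ≤ ‖z‖ ^ (e - 1) := by positivity
    nlinarith
  linarith

/-- the orbit stays large -/
theorem loce_big {f : Polynomial Ω} {R κ : ℝ} (h : Grow f R κ) {y : Ω} (hy : R < ‖y‖) (n : ℕ) :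
    R < ‖(itr f n).eval y‖ := by
  induction n with
  | zero => simpa [itr_zero] using hy
  | succ n ih =>
    rw [itr_succ, eval_comp]
    exact ih.trans (h.lo _ ih).2

/-- lower bound for the orbit -/
theorem loce_lo {f : Polynomial Ω} (hd : 2 ≤ f.natDegree) {R κ : ℝ} (h : Grow f R κ) {y : Ω}
    (hy : R < ‖y‖) (n : ℕ) :
    κ * (‖y‖ / κ) ^ (f.natDegree ^ n) ≤ ‖(itr f n).eval y‖ := by
  have hκ := h.hκ
  have hκ0 : 0 < κ := by linarith
  induction n with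
  | zero =>
    rw [pow_zero, pow_one, itr_zero, eval_X, mul_div_cancel₀ _ hκ0.ne']
  | succ n ih =>
    rw [itr_succ, eval_comp]
    have h1 := (h.lo _ (loce_big h hy n)).1
    have hq : 0 ≤ ‖y‖ / κ := by positivity
    have h2 : (κ * (‖y‖ / κ) ^ (f.natDegree ^ n)) ^ f.natDegree ≤ κ * ‖f.eval ((itr f n).eval y)‖ :=
      (pow_le_pow_left₀ (by positivity) ih _).trans h1
    have h3 : κ ^ 2 ≤ κ ^ f.natDegree := pow_le_pow_right₀ hκ hd
    rw [mul_pow, ← pow_mul, ← pow_succ] at h2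
    have h4 : κ ^ 2 * (‖y‖ / κ) ^ (f.natDegree ^ (n + 1)) ≤ κ * ‖f.eval ((itr f n).eval y)‖ :=
      (mul_le_mul_of_nonneg_right h3 (by positivity)).trans h2
    have h5 : κ * (κ * (‖y‖ / κ) ^ (f.natDegree ^ (n + 1))) ≤ κ * ‖f.eval ((itr f n).eval y)‖ := by
      calc _ = κ ^ 2 * (‖y‖ / κ) ^ (f.natDegree ^ (n + 1)) := by ring
        _ ≤ _ := h4
    exact le_of_mul_le_mul_left h5 hκ0

/-- upper bound for the orbit -/
theorem loce_up {f : Polynomial Ω} (hd : 2 ≤ f.natDegree) {R κ : ℝ} (h : Grow f R κ) (x : Ω) (n : ℕ) :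
    κ * max ‖(itr f n).eval x‖ R ≤ (κ * max ‖x‖ R) ^ (f.natDegree ^ n) := by
  have hκ := h.hκ
  have hR := h.hR
  have hκ0 : 0 < κ := by linarith
  induction n with
  | zero => rw [pow_zero, pow_one, itr_zero, eval_X]
  | succ n ih =>
    rw [itr_succ, eval_comp]
    set u := max ‖(itr f n).eval x‖ R with hu
    have hu1 : 1 ≤ u := hR.trans (le_max_right _ _)
    have huR : R ≤ u := le_max_right _ _
    have h1 : max ‖f.eval ((itr f n).eval x)‖ R ≤ κ * u ^ f.natDegree := by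
      refine max_le (h.up _) ?_
      have h2 : u ≤ u ^ f.natDegree := le_self_pow₀ hu1 (by omega)
      nlinarith
    have h3 : κ ^ 2 ≤ κ ^ f.natDegree := pow_le_pow_right₀ hκ hd
    calc κ * max ‖f.eval ((itr f n).eval x)‖ R ≤ κ * (κ * u ^ f.natDegree) :=
          mul_le_mul_of_nonneg_left h1 hκ0.le
      _ = κ ^ 2 * u ^ f.natDegree := by ring
      _ ≤ κ ^ f.natDegree * u ^ f.natDegree := mul_le_mul_of_nonneg_right h3 (by positivity)
      _ = (κ * u) ^ f.natDegree := (mul_pow _ _ _).symm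
      _ ≤ ((κ * max ‖x‖ R) ^ (f.natDegree ^ n)) ^ f.natDegree :=
          pow_le_pow_left₀ (by positivity) ih _
      _ = (κ * max ‖x‖ R) ^ (f.natDegree ^ (n + 1)) := by rw [← pow_mul, ← pow_succ]

theorem LOCE {Ω : Type*} [NormedField Ω] {f g : Polynomial Ω} (hd : 2 ≤ f.natDegree) {R κ C₁ : ℝ}
    (h : Grow f R κ) (hC : 1 ≤ C₁) {x y : Ω} {N r A : ℕ} (hr : 1 ≤ r) (hN : r ∣ N)
    (hg : ‖g.leadingCoeff‖ = 1) (hA : A + 1 ≤ g.natDegree)
    (hcomm : g.comp (itr f r) = (itr f r).comp g)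
    (hxy : (itr f N).eval x = g.eval ((itr f N).eval y))
    (hb : R < ‖y‖ → ‖x‖ ≤ C₁ * ‖y‖ ^ A) : ‖y‖ ≤ κ ^ (A + 2) * C₁ * R := by
  have hκ := h.hκ
  have hR := h.hR
  have hκ0 : 0 < κ := by linarith
  have hκA : 1 ≤ κ ^ (A + 2) := one_le_pow₀ hκ
  have hκA1 : κ ≤ κ ^ (A + 2) := le_self_pow₀ hκ (by omega)
  have hCR : 1 ≤ C₁ * R := by nlinarith
  by_cases hyR : R < ‖y‖
  swap
  · rw [not_lt] at hyR
    calc ‖y‖ ≤ 1 * 1 * R := by linarith
      _ ≤ κ ^ (A + 2) * C₁ * R := by gcongr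
  by_cases hyκ : κ < ‖y‖
  swap
  · rw [not_lt] at hyκ
    calc ‖y‖ ≤ κ * 1 * 1 := by linarith
      _ ≤ κ ^ (A + 2) * C₁ * R := by gcongr
  -- the main case
  have hx := hb hyR
  set u0 := max ‖x‖ R with hu0
  have hu1 : 1 ≤ u0 := hR.trans (le_max_right _ _)
  have hq1 : 1 < ‖y‖ / κ := (one_lt_div hκ0).2 hyκ
  have he : 1 ≤ g.natDegree := by omega
  obtain ⟨Z, hZ1, hZ⟩ := loce_g hg he
  have hkey : (‖y‖ / κ) ^ g.natDegree ≤ κ * u0 := by
    by_contra hcon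
    rw [not_le] at hcon
    have hku : 0 < κ * u0 := by positivity
    set ρ := (‖y‖ / κ) ^ g.natDegree / (κ * u0) with hρ
    have hρ1 : 1 < ρ := (one_lt_div hku).2 hcon
    -- choose `t` large
    obtain ⟨t1, ht1⟩ := pow_unbounded_of_one_lt (2 : ℝ) hρ1
    obtain ⟨t2, ht2⟩ := pow_unbounded_of_one_lt Z hq1
    set t := max t1 t2 with ht
    have hNt : t ≤ f.natDegree ^ (N + r * t) := by
      calc t ≤ N + r * t := by nlinarith
        _ ≤ f.natDegree ^ (N + r * t) := (Nat.lt_pow_self (by omega)).le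
    set E := f.natDegree ^ (N + r * t) with hE
    have hx' : (itr f (N + r * t)).eval x = g.eval ((itr f (N + r * t)).eval y) := by
      rw [Nat.add_comm, itr_add, eval_comp, eval_comp, hxy, ← eval_comp, ← eval_comp,
        ← comp_itr_mul hcomm t, eval_comp, eval_comp]
    have h1 := loce_lo hd h hyR (N + r * t)
    have h2 := loce_up hd h x (N + r * t)
    rw [← hE] at h1 h2
    have hqE : 1 ≤ (‖y‖ / κ) ^ E := one_le_pow₀ hq1.le
    have h3 : (‖y‖ / κ) ^ E ≤ ‖(itr f (N + r * t)).eval y‖ := by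
      refine le_trans ?_ h1
      nlinarith
    have h4 : Z ≤ ‖(itr f (N + r * t)).eval y‖ := by
      refine le_trans ht2.le (le_trans ?_ h3)
      exact pow_le_pow_right₀ hq1.le ((le_max_right _ _).trans hNt)
    have h5 := hZ _ h4
    rw [← hx'] at h5
    have h6 : ‖(itr f (N + r * t)).eval x‖ ≤ (κ * u0) ^ E := by
      refine le_trans ?_ h2
      have h7 : ‖(itr f (N + r * t)).eval x‖ ≤ max ‖(itr f (N + r * t)).eval x‖ R :=
        le_max_left _ _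
      have h8 : 0 ≤ max ‖(itr f (N + r * t)).eval x‖ R := (norm_nonneg _).trans h7
      nlinarith
    have h7 : ((‖y‖ / κ) ^ g.natDegree) ^ E ≤ 2 * (κ * u0) ^ E := by
      calc ((‖y‖ / κ) ^ g.natDegree) ^ E = ((‖y‖ / κ) ^ E) ^ g.natDegree := by
            rw [← pow_mul, ← pow_mul, mul_comm]
        _ ≤ ‖(itr f (N + r * t)).eval y‖ ^ g.natDegree := pow_le_pow_left₀ (by positivity) h3 _
        _ ≤ 2 * ‖(itr f (N + r * t)).eval x‖ := h5
        _ ≤ 2 * (κ * u0) ^ E := by linarith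
    have h8 : ρ ^ E ≤ 2 := by
      rw [hρ, div_pow, div_le_iff₀ (by positivity)]
      exact h7
    have h9 : (2 : ℝ) < ρ ^ E := ht1.trans_le (pow_le_pow_right₀ hρ1.le ((le_max_left _ _).trans hNt))
    linarith
  have hy0 : 0 < ‖y‖ := by linarith
  have hy1 : 1 ≤ ‖y‖ := by linarith
  have hyA : 1 ≤ ‖y‖ ^ A := one_le_pow₀ hy1
  have h1 : (‖y‖ / κ) ^ (A + 1) ≤ κ * (C₁ * R * ‖y‖ ^ A) := by
    refine (pow_le_pow_right₀ hq1.le hA).trans (hkey.trans ?_)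
    refine mul_le_mul_of_nonneg_left ?_ hκ0.le
    refine max_le (hx.trans ?_) ?_
    · have h3 : 0 ≤ C₁ * ‖y‖ ^ A := by positivity
      nlinarith
    · have h3 : 1 ≤ C₁ * ‖y‖ ^ A := by nlinarith
      nlinarith
  rw [div_pow, div_le_iff₀ (by positivity)] at h1
  have h2 : ‖y‖ * ‖y‖ ^ A ≤ κ ^ (A + 2) * C₁ * R * ‖y‖ ^ A := by
    calc ‖y‖ * ‖y‖ ^ A = ‖y‖ ^ (A + 1) := by ring
      _ ≤ κ * (C₁ * R * ‖y‖ ^ A) * κ ^ (A + 1) := h1
      _ = κ ^ (A + 2) * C₁ * R * ‖y‖ ^ A := by ring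
  exact le_of_mul_le_mul_right h2 (by positivity)

end

end Pool.Agent.Lib_helper45.BDP.LOCE
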