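import Pool.Agent.Lib_helper45.BDP.Defs

/-! Block NEWT (BDP): local Newton polygon lemma. -/

namespace Pool.Agent.Lib_helper45.BDP.NEWT

open Polynomial Pool.Agent.Lib_helper45.BDP

noncomputable section

variable {k : Type*} [Field k]

/-- `u ↦ t^q`, `z ↦ s t^p` -/
def newt_psi (k : Type*) [Field k] (q p : ℕ) : k[X][X] →+* k[X][X] :=
  Polynomial.eval₂RingHom (Polynomial.eval₂RingHom ((C : k[X] →+* k[X][X]).comp C) (X ^ q))
    (C X * X ^ p)

theorem newt_psi_C (q p : ℕ) (g : k[X]) :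
    newt_psi k q p (C g) = (expand k q g).map C := by
  simp only [newt_psi, coe_eval₂RingHom, eval₂_C, expand_eq_comp_X_pow, Polynomial.map_comp,
    Polynomial.map_pow, map_X]
  rw [← eval₂_map, Polynomial.comp]

theorem newt_psi_X (q p : ℕ) : newt_psi k q p X = C X * X ^ p := by
  simp [newt_psi]

theorem newt_psi_map (q p : ℕ) (hp : 1 ≤ p) (φ : k[X]) :
    (newt_psi k q p (φ.map C)).coeff 0 = C (φ.coeff 0) := by
  have h1 : newt_psi k q p (φ.map C) = φ.eval₂ ((C : k[X] →+* k[X][X]).comp C) (C X * X ^ p) := by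
    simp only [newt_psi, coe_eval₂RingHom, eval₂_map]
    congr 1
    ext a
    simp
  rw [h1, coeff_zero_eq_eval_zero, ← coe_evalRingHom, hom_eval₂]
  have h2 : (evalRingHom (0 : k[X])) (C X * X ^ p) = 0 := by
    rw [map_mul, map_pow, coe_evalRingHom, eval_X, zero_pow (by omega), mul_zero]
  rw [h2, eval₂_at_zero]
  simp

theorem newt_coeff (q p : ℕ) (G : k[X][X]) (n l : ℕ) :
    ((newt_psi k q p G).coeff n).coeff l =
      if p * l ≤ n then (expand k q (G.coeff l)).coeff (n - p * l) else 0 := by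
  induction G using Polynomial.induction_on' with
  | add G H hG hH =>
    rw [map_add, coeff_add, coeff_add, hG, hH, coeff_add, map_add, coeff_add]
    split_ifs <;> simp
  | monomial j a =>
    rw [← C_mul_X_pow_eq_monomial, map_mul, map_pow, newt_psi_C, newt_psi_X, mul_pow, ← C_pow,
      ← pow_mul, ← mul_assoc, coeff_mul_X_pow', coeff_C_mul_X_pow]
    by_cases hj : l = j
    · subst hj
      rw [if_pos rfl]
      split_ifs with h
      · rw [coeff_mul_C, coeff_map, coeff_C_mul_X_pow, if_pos rfl]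
      · simp
    · rw [if_neg hj, map_zero, coeff_zero, ite_self]
      split_ifs with h
      · rw [coeff_mul_C, coeff_map, coeff_C_mul_X_pow, if_neg hj]
      · simp

theorem newt_tr (n : ℕ) {P : k[X][X]} (h : P.coeff 0 ≠ 0) :
    trailingCoeff (X ^ n * P) = P.coeff 0 := by
  rw [trailingCoeff_mul]
  have h1 : trailingCoeff (X ^ n : k[X][X]) = 1 := by
    rw [← monomial_one_right_eq_X_pow, trailingCoeff, natTrailingDegree_monomial one_ne_zero,
      coeff_monomial, if_pos rfl]
  have h2 : natTrailingDegree P = 0 := natTrailingDegree_eq_zero.2 (Or.inr h)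
  rw [h1, one_mul, trailingCoeff, h2]

/-- factorization of a nonzero polynomial by the power of `X` -/
theorem newt_fac {g : k[X]} (hg : g ≠ 0) :
    ∃ g1 : k[X], g = X ^ g.natTrailingDegree * g1 ∧ g1.coeff 0 ≠ 0 := by
  have h1 : X ^ g.natTrailingDegree ∣ g := by
    rw [X_pow_dvd_iff]
    intro d hd
    exact coeff_eq_zero_of_lt_natTrailingDegree hd
  obtain ⟨g1, h2⟩ := h1
  refine ⟨g1, h2, ?_⟩
  intro h3
  have h4 : g.coeff g.natTrailingDegree ≠ 0 := by
    have := trailingCoeff_nonzero_iff_nonzero.2 hg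
    exact this
  apply h4
  have h5 : (X ^ g.natTrailingDegree * g1).coeff (0 + g.natTrailingDegree) = g1.coeff 0 :=
    coeff_X_pow_mul g1 _ 0
  rw [zero_add, ← h2] at h5
  rw [h5, h3]

theorem newt_term (q p e : ℕ) {ε : k[X]} {g : k[X]} (hg : g ≠ 0) :
    ∃ r : k[X], newt_psi k q p (C (g.comp (X ^ e * ε))) =
      X ^ (q * (e * g.natTrailingDegree)) * r.map C ∧
      (1 ≤ q → 1 ≤ e → ε.coeff 0 ≠ 0 → r.coeff 0 ≠ 0) := by
  obtain ⟨g1, h1, h2⟩ := newt_fac hg
  refine ⟨expand k q (ε ^ g.natTrailingDegree * g1.comp (X ^ e * ε)), ?_, ?_⟩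
  · rw [newt_psi_C]
    nth_rewrite 1 [h1]
    rw [mul_comp, pow_comp, X_comp, mul_pow, ← pow_mul, mul_assoc, map_mul, map_pow, expand_X,
      ← pow_mul, Polynomial.map_mul, Polynomial.map_pow, map_X]
  · intro hq he hε
    have h3 : ∀ r : k[X], (expand k q r).coeff 0 = r.coeff 0 := by
      intro r
      rw [coeff_expand (by omega)]
      simp
    rw [h3, mul_coeff_zero, coeff_zero_eq_eval_zero, coeff_zero_eq_eval_zero, eval_pow,
      eval_comp, eval_mul, eval_pow, eval_X, zero_pow (by omega), zero_mul,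
      ← coeff_zero_eq_eval_zero, ← coeff_zero_eq_eval_zero]
    exact mul_ne_zero (pow_ne_zero _ hε) h2

/-- choice of the weights -/
theorem newt_weights {G : k[X][X]} (h0 : G.coeff 0 ≠ 0)
    (h00 : (G.coeff 0).coeff 0 = 0) (hz : ∃ l, (G.coeff l).coeff 0 ≠ 0) :
    ∃ q p l₀ : ℕ, 1 ≤ q ∧ 1 ≤ p ∧ 1 ≤ l₀ ∧ G.coeff l₀ ≠ 0 ∧
      q * (G.coeff l₀).natTrailingDegree + p * l₀ = q * (G.coeff 0).natTrailingDegree ∧
      ∀ l, G.coeff l ≠ 0 → (G.coeff l).natTrailingDegree < (G.coeff 0).natTrailingDegree →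
        q * (G.coeff 0).natTrailingDegree ≤ q * (G.coeff l).natTrailingDegree + p * l := by
  set t : ℕ → ℕ := fun l => (G.coeff l).natTrailingDegree with ht
  have ht0 : 1 ≤ t 0 := by
    by_contra h
    have h1 : t 0 = 0 := by omega
    rcases natTrailingDegree_eq_zero.1 h1 with h2 | h2
    · exact h0 h2
    · exact h2 h00
  set s := G.support.filter (fun l => t l < t 0) with hs
  have hne : s.Nonempty := by
    obtain ⟨l, hl⟩ := hz
    refine ⟨l, Finset.mem_filter.2 ⟨?_, ?_⟩⟩
    · rw [mem_support_iff]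
      intro h
      rw [h, coeff_zero] at hl
      exact hl rfl
    · have h1 : t l = 0 := natTrailingDegree_eq_zero.2 (Or.inr hl)
      omega
  obtain ⟨l₀, hl₀, hmin⟩ := Finset.exists_min_image s
    (fun l => (l : ℚ) / ((t 0 : ℚ) - t l)) hne
  rw [hs, Finset.mem_filter, mem_support_iff] at hl₀
  obtain ⟨h1, h2⟩ := hl₀
  have hl0 : 1 ≤ l₀ := by
    rcases Nat.eq_zero_or_pos l₀ with h | h
    · rw [h] at h2
      omega
    · exact h
  refine ⟨l₀, t 0 - t l₀, l₀, hl0, by omega, hl0, h1, ?_, ?_⟩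
  · change l₀ * t l₀ + (t 0 - t l₀) * l₀ = l₀ * t 0
    rw [mul_comm (t 0 - t l₀), ← mul_add]
    congr 1
    omega
  · intro l hl hlt
    change t l < t 0 at hlt
    change l₀ * t 0 ≤ l₀ * t l + (t 0 - t l₀) * l
    have h3 := hmin l (by
      rw [hs, Finset.mem_filter, mem_support_iff]
      exact ⟨hl, hlt⟩)
    have h4 : (0 : ℚ) < (t 0 : ℚ) - t l₀ := by
      have : (t l₀ : ℚ) < t 0 := by exact_mod_cast h2
      linarith
    have h5 : (0 : ℚ) < (t 0 : ℚ) - t l := by
      have : (t l : ℚ) < t 0 := by exact_mod_cast hlt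
      linarith
    rw [div_le_div_iff₀ h4 h5] at h3
    have h6 : (((t 0 - t l₀ : ℕ)) : ℚ) = (t 0 : ℚ) - t l₀ := by
      rw [Nat.cast_sub h2.le]
    have h7 : ((l₀ * t 0 : ℕ) : ℚ) ≤ ((l₀ * t l + (t 0 - t l₀) * l : ℕ) : ℚ) := by
      push_cast
      rw [h6]
      linarith
    exact_mod_cast h7

variable [IsAlgClosed k] [CharZero k]

/-- local Newton polygon lemma -/
theorem NEWT {b e M : ℕ} (he : 1 ≤ e) (heM : e < M) {ε φ : k[X]} (hε : ε.coeff 0 ≠ 0)
    (hφ : φ.coeff 0 ≠ 0) {G H : k[X][X]} (hb : G.natDegree ≤ b) (h0 : G.coeff 0 ≠ 0)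
    (h00 : (G.coeff 0).coeff 0 = 0) (hz : ∃ l, (G.coeff l).coeff 0 ≠ 0)
    (heq : ∑ l ∈ Finset.range (b + 1),
      C ((G.coeff l).comp (X ^ e * ε)) * X ^ (M * l) * (φ.map C) ^ (b - l) = G * H) : False := by
  obtain ⟨q, p, l₀, hq, hp, hl₀, hG, hw0, hw⟩ := newt_weights h0 h00 hz
  set i₀ := (G.coeff 0).natTrailingDegree with hi₀
  set ψ := newt_psi k q p with hψ
  -- the left side
  have hterm : ∀ l ∈ Finset.range b, (X : k[X][X]) ^ (q * (e * i₀) + 1) ∣
      ψ (C ((G.coeff (l + 1)).comp (X ^ e * ε)) * X ^ (M * (l + 1)) *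
        (φ.map C) ^ (b - (l + 1))) := by
    intro l _
    rcases eq_or_ne (G.coeff (l + 1)) 0 with h | h
    · rw [h, zero_comp, map_zero, zero_mul, zero_mul, map_zero]
      exact dvd_zero _
    · obtain ⟨r, hr, -⟩ := newt_term q p e (ε := ε) h
      rw [map_mul, map_mul, map_pow ψ X, hψ, newt_psi_X, hr]
      have h1 : (X : k[X][X]) ^ (q * (e * i₀) + 1) ∣
          X ^ (q * (e * (G.coeff (l + 1)).natTrailingDegree)) *
            (C X * X ^ p) ^ (M * (l + 1)) := by
        have e0 : (X : k[X][X]) ^ (q * (e * (G.coeff (l + 1)).natTrailingDegree)) *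
            (C X * X ^ p) ^ (M * (l + 1)) = (C X) ^ (M * (l + 1)) *
            X ^ (q * (e * (G.coeff (l + 1)).natTrailingDegree) + p * (M * (l + 1))) := by
          rw [mul_pow, ← pow_mul, pow_add]
          ring
        rw [e0]
        refine Dvd.dvd.mul_left (pow_dvd_pow _ ?_) _
        rcases Nat.lt_or_ge (G.coeff (l + 1)).natTrailingDegree i₀ with h2 | h2
        · have h3 := hw (l + 1) h h2
          have h4 : p * (l + 1) * e < p * (l + 1) * M :=
            Nat.mul_lt_mul_of_pos_left heM (Nat.mul_pos hp (Nat.succ_pos l))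
          have h5 : q * i₀ * e ≤ (q * (G.coeff (l + 1)).natTrailingDegree + p * (l + 1)) * e :=
            Nat.mul_le_mul_right e h3
          nlinarith
        · have h3 : q * (e * i₀) ≤ q * (e * (G.coeff (l + 1)).natTrailingDegree) :=
            Nat.mul_le_mul_left _ (Nat.mul_le_mul_left _ h2)
          have h4 : 1 ≤ p * (M * (l + 1)) :=
            Nat.mul_pos hp (Nat.mul_pos (by omega) (Nat.succ_pos l))
          omega
      refine Dvd.dvd.mul_right (h1.trans ?_) _
      exact mul_dvd_mul_right (Dvd.intro _ rfl) _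
  have hL : ∃ E : k[X][X], ψ (G * H) = X ^ (q * (e * i₀)) * E ∧
      ∃ c : k, c ≠ 0 ∧ E.coeff 0 = C c := by
    obtain ⟨r, hr, hr0⟩ := newt_term q p e (ε := ε) h0
    obtain ⟨R, hR⟩ := Finset.dvd_sum hterm
    refine ⟨r.map C * ψ ((φ.map C) ^ b) + X * R, ?_, r.coeff 0 * (φ.coeff 0) ^ b, ?_, ?_⟩
    · rw [← heq, map_sum, Finset.sum_range_succ', hR]
      simp only [Nat.mul_zero, pow_zero, mul_one, Nat.sub_zero]
      rw [map_mul, hψ, hr, ← hi₀]
      ring
    · exact mul_ne_zero (hr0 hq he hε) (pow_ne_zero _ hφ)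
    · rw [coeff_add, mul_coeff_zero, mul_coeff_zero X, coeff_X_zero, zero_mul, add_zero,
        coeff_map, map_pow, hψ]
      have h1 : ((newt_psi k q p (φ.map C)) ^ b).coeff 0 = (C (φ.coeff 0)) ^ b := by
        rw [coeff_zero_eq_eval_zero, eval_pow, ← coeff_zero_eq_eval_zero, newt_psi_map q p hp]
      rw [h1, ← C_pow, ← C_mul]
  -- the polynomial `G`
  have hΓ : ∃ Γ : k[X][X], ψ G = X ^ (q * i₀) * Γ := by
    have h1 : X ^ (q * i₀) ∣ ψ G := by
      rw [X_pow_dvd_iff]
      intro n hn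
      ext l
      rw [hψ, newt_coeff, coeff_zero]
      split_ifs with h2
      · rw [coeff_expand (by omega)]
        split_ifs with h3
        · by_contra h4
          obtain ⟨i, hi⟩ := h3
          rw [hi, Nat.mul_div_cancel_left _ (by omega)] at h4
          have h5 : (G.coeff l).natTrailingDegree ≤ i := natTrailingDegree_le_of_ne_zero h4
          have h6 : G.coeff l ≠ 0 := by
            intro h
            rw [h, coeff_zero] at h4
            exact h4 rfl
          have h7 : q * (G.coeff l).natTrailingDegree ≤ q * i := Nat.mul_le_mul_left _ h5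
          rcases Nat.lt_or_ge (G.coeff l).natTrailingDegree i₀ with h8 | h8
          · have := hw l h6 h8
            omega
          · have : q * i₀ ≤ q * (G.coeff l).natTrailingDegree := Nat.mul_le_mul_left _ h8
            omega
        · rfl
      · rfl
    exact h1
  obtain ⟨Γ, hΓ⟩ := hΓ
  have hΓ0 : (Γ.coeff 0).coeff l₀ ≠ 0 := by
    have h1 : (ψ G).coeff (q * i₀) = Γ.coeff 0 := by
      rw [hΓ]
      have := coeff_X_pow_mul Γ (q * i₀) 0
      rwa [zero_add] at this
    rw [← h1, hψ, newt_coeff, if_pos (by omega)]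
    have h2 : q * i₀ - p * l₀ = q * (G.coeff l₀).natTrailingDegree := by omega
    rw [h2, mul_comm q, coeff_expand_mul (by omega)]
    exact trailingCoeff_nonzero_iff_nonzero.2 hG
  have hΓne : Γ.coeff 0 ≠ 0 := by
    intro h
    rw [h, coeff_zero] at hΓ0
    exact hΓ0 rfl
  -- the conclusion
  obtain ⟨E, hE, c, hc, hE0⟩ := hL
  have hE0' : E.coeff 0 ≠ 0 := by
    rw [hE0]
    exact C_ne_zero.2 hc
  have h1 := congrArg trailingCoeff hE
  rw [newt_tr _ hE0', map_mul, trailingCoeff_mul, hΓ, newt_tr _ hΓne, hE0] at h1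
  have h2 := congrArg natDegree h1
  have h3 : trailingCoeff (ψ H) ≠ 0 := by
    intro h
    rw [h, mul_zero] at h1
    exact hc (C_eq_zero.1 h1.symm)
  rw [natDegree_mul hΓne h3, natDegree_C] at h2
  have h4 := le_natDegree_of_ne_zero hΓ0
  omega

end

end Pool.Agent.Lib_helper45.BDP.NEWT
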