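import Pool.Agent.Lib_helper45.BDP.Defs

namespace Pool.Agent.Lib_helper45.BDP.NPC

open Polynomial

noncomputable section

variable {k : Type*} [Field k]

/-- lowest terms of a product -/
theorem npc_low {u v : L k} {m n : ℤ} (hu : ∀ i < m, u.coeff i = 0) (hv : ∀ i < n, v.coeff i = 0) :
    (∀ j < m + n, (u * v).coeff j = 0) ∧ (u * v).coeff (m + n) = u.coeff m * v.coeff n := by
  have hsu : ∀ i, i ∈ u.support → m ≤ i := by
    intro i hi
    by_contra h
    push Not at h
    exact hi (hu i h)
  have hsv : ∀ i, i ∈ v.support → n ≤ i := by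
    intro i hi
    by_contra h
    push Not at h
    exact hi (hv i h)
  constructor
  · intro j hj
    rw [HahnSeries.coeff_mul]
    apply Finset.sum_eq_zero
    intro p hp
    obtain ⟨h1, h2, h3⟩ := Finset.mem_antidiagonal.1 hp
    have h4 := hsu _ h1
    have h5 := hsv _ h2
    omega
  · rw [HahnSeries.coeff_mul]
    by_cases h0 : u.coeff m = 0 ∨ v.coeff n = 0
    · have h1 : u.coeff m * v.coeff n = 0 := by
        rcases h0 with h | h <;> simp [h]
      rw [h1]
      apply Finset.sum_eq_zero
      intro p hp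
      obtain ⟨h1, h2, h3⟩ := Finset.mem_antidiagonal.1 hp
      have h4 := hsu _ h1
      have h5 := hsv _ h2
      have h6 : p.1 = m := by omega
      have h7 : p.2 = n := by omega
      rw [h6, h7]
      rcases h0 with h | h <;> simp [h]
    · push Not at h0
      rw [Finset.sum_eq_single (m, n)]
      · intro p hp hne
        obtain ⟨h1, h2, h3⟩ := Finset.mem_antidiagonal.1 hp
        have h4 := hsu _ h1
        have h5 := hsv _ h2
        have h6 : p.1 = m := by omega
        have h7 : p.2 = n := by omega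
        exact absurd (Prod.ext h6 h7) hne
      · intro h
        exfalso
        apply h
        exact Finset.mem_antidiagonal.2 ⟨h0.1, h0.2, rfl⟩

theorem npc_single (n : ℕ) (a : k) : (HahnSeries.single (-1 : ℤ) a : L k) ^ n =
    HahnSeries.single (-(n : ℤ)) (a ^ n) := by
  rw [HahnSeries.single_pow, nsmul_eq_mul, mul_neg, mul_one]

/-- second term of the power of a series with a simple pole -/
theorem npc_pow {R : L k} {a : k} {h : ℤ} (h0 : 0 ≤ h) (hR : ∀ i < h, R.coeff i = 0) (n : ℕ) :
    ∃ E : L k, (∀ i < h - n + 1, E.coeff i = 0) ∧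
      (HahnSeries.single (-1 : ℤ) a + R) ^ (n + 1) = HahnSeries.single (-1 : ℤ) a ^ (n + 1) +
        ((n + 1 : ℕ) : L k) * (HahnSeries.single (-1 : ℤ) a ^ n * R) + E := by
  have hP : ∀ m : ℕ, ∀ i < -(m : ℤ), ((HahnSeries.single (-1 : ℤ) a : L k) ^ m).coeff i = 0 := by
    intro m i hi
    rw [npc_single, HahnSeries.coeff_single_of_ne (by omega)]
  induction n with
  | zero =>
    refine ⟨0, fun i _ => rfl, ?_⟩
    simp
  | succ n ih =>
    obtain ⟨E, hE, h1⟩ := ih
    obtain ⟨P, hPd⟩ : ∃ P : L k, P = HahnSeries.single (-1 : ℤ) a := ⟨_, rfl⟩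
    rw [← hPd] at h1 hP ⊢
    refine ⟨((n + 1 : ℕ) : L k) * (P ^ n * R * R) + E * (P + R), ?_, ?_⟩
    · intro i hi
      rw [HahnSeries.coeff_add]
      have e1 : (((n + 1 : ℕ) : L k) * (P ^ n * R * R)).coeff i = 0 := by
        rw [← nsmul_eq_mul, HahnSeries.coeff_nsmul]
        have e2 := (npc_low (hP n) hR).1
        have e3 := (npc_low (n := h) e2 hR).1
        have e4 : (P ^ n * R * R).coeff i = 0 := by
          apply e3
          push_cast at hi
          omega
        simp [e4]
      have e2 : (E * (P + R)).coeff i = 0 := by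
        have e3 : ∀ i < (-1 : ℤ), (P + R).coeff i = 0 := by
          intro i hi
          have e4 := hP 1 i (by push_cast; exact hi)
          rw [pow_one] at e4
          rw [HahnSeries.coeff_add, e4, hR i (by omega), add_zero]
        apply (npc_low hE e3).1
        push_cast at hi
        omega
      rw [e1, e2, add_zero]
    · rw [pow_succ, h1]
      push_cast
      ring

end

noncomputable section

variable {k : Type*} [Field k] [IsAlgClosed k] [CharZero k]

theorem NPC {F : k[X]} {T : L k} (hF : Frob F T) (hT : NP T) : ¬ IsConj F (X ^ F.natDegree) := by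
  classical
  rintro ⟨a, b, ha, hab⟩
  have hM : 0 < F.natDegree := by have := hF.deg; omega
  obtain ⟨n, hn⟩ : ∃ n : ℕ, F.natDegree = n + 1 := ⟨F.natDegree - 1, by omega⟩
  have hn1 : 1 ≤ n := by have := hF.deg; omega
  obtain ⟨W, hW⟩ : ∃ W : L k, W = a⁻¹ • (T - algebraMap k (L k) b) := ⟨_, rfl⟩
  have hTW : T = a • W + algebraMap k (L k) b := by
    rw [hW, smul_smul, mul_inv_cancel₀ ha, one_smul, sub_add_cancel]
  have hWeq : W ^ (n + 1) = th 1 (n + 1) W := by
    have h1 : aeval T F = a • W ^ (n + 1) + algebraMap k (L k) b := by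
      have h2 := congrArg (fun p => aeval W p) hab
      simp only [aeval_comp, map_add, map_mul, aeval_C, aeval_X, map_pow] at h2
      rw [← Algebra.smul_def, ← hTW, ← Algebra.smul_def, hn] at h2
      exact h2
    have h2 : th 1 (n + 1) T = a • th 1 (n + 1) W + algebraMap k (L k) b := by
      conv_lhs => rw [hTW]
      rw [map_add, map_smul, AlgHom.commutes]
    have h3 := hF.eq
    rw [hn, h1, h2] at h3
    have h4 := add_right_cancel h3
    have h5 := congrArg (fun u => a⁻¹ • u) h4
    simpa [smul_smul, inv_mul_cancel₀ ha] using h5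
  -- coefficients of W
  have hWc : ∀ j : ℤ, j ≠ 0 → W.coeff j = a⁻¹ * T.coeff j := by
    intro j hj
    rw [hW, HahnSeries.coeff_smul, HahnSeries.coeff_sub, algebraMap_L, HahnSeries.C_apply,
      HahnSeries.coeff_single_of_ne hj, sub_zero, smul_eq_mul]
  have hW1 : W.coeff (-1) ≠ 0 := by
    rw [hWc _ (by norm_num)]
    exact mul_ne_zero (inv_ne_zero ha) hF.pole.1
  have hW2 : ∀ j < -1, W.coeff j = 0 := by
    intro j hj
    rw [hWc _ (by omega), hF.pole.2 j hj, mul_zero]
  have hex : ∃ h : ℕ, W.coeff (h : ℤ) ≠ 0 := by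
    obtain ⟨j, hj, hj2⟩ := hT
    refine ⟨j.toNat, ?_⟩
    rw [Int.toNat_of_nonneg hj.le, hWc _ hj.ne']
    exact mul_ne_zero (inv_ne_zero ha) hj2
  obtain ⟨h, hh, hmin⟩ : ∃ h : ℕ, W.coeff (h : ℤ) ≠ 0 ∧ ∀ i < h, W.coeff (i : ℤ) = 0 := by
    refine ⟨Nat.find hex, Nat.find_spec hex, ?_⟩
    intro i hi
    have := Nat.find_min hex hi
    push Not at this
    exact this
  obtain ⟨R, hR⟩ : ∃ R : L k, R = W - HahnSeries.single (-1 : ℤ) (W.coeff (-1)) := ⟨_, rfl⟩
  have hWR : W = HahnSeries.single (-1 : ℤ) (W.coeff (-1)) + R := by rw [hR]; ring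
  have hR1 : ∀ i < (h : ℤ), R.coeff i = 0 := by
    intro i hi
    rw [hR, HahnSeries.coeff_sub]
    by_cases h1 : i = -1
    · rw [h1, HahnSeries.coeff_single_same, sub_self]
    · rw [HahnSeries.coeff_single_of_ne h1, sub_zero]
      by_cases h2 : i < -1
      · exact hW2 i h2
      · have h3 : i = ((i.toNat : ℕ) : ℤ) := by omega
        rw [h3]
        apply hmin
        omega
  have hR2 : R.coeff (h : ℤ) = W.coeff (h : ℤ) := by
    rw [hR, HahnSeries.coeff_sub, HahnSeries.coeff_single_of_ne (by omega), sub_zero]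
  obtain ⟨E, hE, hpow⟩ := npc_pow (a := W.coeff (-1)) (Int.natCast_nonneg h) hR1 n
  rw [← hWR, hWeq] at hpow
  have hc := congrArg (fun u : L k => u.coeff ((h : ℤ) - n)) hpow
  rw [HahnSeries.coeff_add, HahnSeries.coeff_add] at hc
  have e1 : (th 1 (n + 1) W).coeff ((h : ℤ) - n) = 0 := by
    by_cases hd : ((n + 1 : ℕ) : ℤ) ∣ (h : ℤ) - n
    · obtain ⟨i, hi⟩ := hd
      rw [hi, th_coeff_mul _ (Nat.succ_pos n)]
      have h1 : W.coeff i = 0 := by
        by_cases h2 : i < -1
        · exact hW2 i h2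
        · by_cases h3 : i = -1
          · rw [h3] at hi
            push_cast at hi
            omega
          · have h4 : 0 ≤ i := by omega
            have h5 : i < h := by
              by_contra h6
              push Not at h6
              have h7 : ((n + 1 : ℕ) : ℤ) * (h : ℤ) ≤ ((n + 1 : ℕ) : ℤ) * i :=
                mul_le_mul_of_nonneg_left h6 (by positivity)
              rw [← hi] at h7
              push_cast at h7
              nlinarith
            have h6 : i = ((i.toNat : ℕ) : ℤ) := by omega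
            rw [h6]
            apply hmin
            omega
      rw [h1, mul_zero]
    · exact th_coeff_of_not_dvd _ (Nat.succ_pos n) _ _ hd
  have e2 : (HahnSeries.single (-1 : ℤ) (W.coeff (-1)) ^ (n + 1) : L k).coeff ((h : ℤ) - n) = 0 := by
    rw [npc_single, HahnSeries.coeff_single_of_ne]
    push_cast
    omega
  have e3 : (((n + 1 : ℕ) : L k) * (HahnSeries.single (-1 : ℤ) (W.coeff (-1)) ^ n * R)).coeff
      ((h : ℤ) - n) = ((n + 1 : ℕ) : k) * (W.coeff (-1) ^ n * W.coeff (h : ℤ)) := by
    rw [← nsmul_eq_mul, HahnSeries.coeff_nsmul]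
    have h1 : ∀ i < -(n : ℤ),
        ((HahnSeries.single (-1 : ℤ) (W.coeff (-1)) : L k) ^ n).coeff i = 0 := by
      intro i hi
      rw [npc_single, HahnSeries.coeff_single_of_ne (by omega)]
    have h2 := (npc_low h1 hR1).2
    have h3 : (h : ℤ) - n = -(n : ℤ) + h := by ring
    rw [h3, Pi.smul_apply, h2, npc_single, HahnSeries.coeff_single_same, hR2, nsmul_eq_mul]
  have e4 : E.coeff ((h : ℤ) - n) = 0 := hE _ (by omega)
  rw [e1, e2, e3, e4, zero_add, add_zero] at hc
  have h1 : ((n + 1 : ℕ) : k) ≠ 0 := Nat.cast_ne_zero.2 (by omega)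
  exact (mul_ne_zero h1 (mul_ne_zero (pow_ne_zero _ hW1) hh)) hc.symm

end

end Pool.Agent.Lib_helper45.BDP.NPC
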