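import Pool.Agent.Lib_helper45.BDP.Defs

namespace Pool.Agent.Lib_helper45.BDP.NPG

open Polynomial

noncomputable section

variable {k : Type*} [Field k] [IsAlgClosed k] [CharZero k]

omit [IsAlgClosed k] [CharZero k] in
theorem npg_aeval_single (g : k[X]) (j : ℤ) :
    (aeval (HahnSeries.single (-1 : ℤ) (1 : k) : L k) g).coeff j =
      ∑ i ∈ Finset.range (g.natDegree + 1), if j = -(i : ℤ) then g.coeff i else 0 := by
  rw [aeval_eq_sum_range, HahnSeries.coeff_sum]
  apply Finset.sum_congr rfl
  intro i _
  rw [HahnSeries.coeff_smul, smul_eq_mul, HahnSeries.single_pow, one_pow, nsmul_eq_mul,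
    mul_neg, mul_one]
  by_cases h : j = -(i : ℤ)
  · rw [if_pos h, h, HahnSeries.coeff_single_same, mul_one]
  · rw [if_neg h, HahnSeries.coeff_single_of_ne h, mul_zero]

theorem NPG {f : k[X]} {T : L k} (hf : Good f) (hT : Bott f T) : NP T := by
  by_contra hn
  unfold NP at hn
  push Not at hn
  have hM : 0 < f.natDegree := by have := hf.deg; omega
  have hT1 : T = HahnSeries.single (-1 : ℤ) (1 : k) := by
    ext j
    by_cases h1 : j = -1
    · rw [h1, HahnSeries.coeff_single_same, hT.lead]
    · rw [HahnSeries.coeff_single_of_ne h1]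
      rcases lt_trichotomy j 0 with h | h | h
      · exact hT.pole.2 j (by omega)
      · rw [h, hT.cent]
      · exact hn j h
  have h1 : f = X ^ f.natDegree := by
    ext i
    have h3 : (aeval T f).coeff (-(i : ℤ)) = (th 1 f.natDegree T).coeff (-(i : ℤ)) := by
      rw [hT.eq]
    rw [hT1, npg_aeval_single] at h3
    have h4 : (∑ l ∈ Finset.range (f.natDegree + 1),
        if -(i : ℤ) = -(l : ℤ) then f.coeff l else 0) = f.coeff i := by
      by_cases hi : i < f.natDegree + 1
      · rw [Finset.sum_eq_single i]
        · simp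
        · intro b _ hb
          rw [if_neg]
          omega
        · intro h
          exact absurd (Finset.mem_range.2 hi) h
      · rw [Finset.sum_eq_zero, coeff_eq_zero_of_natDegree_lt (by omega)]
        intro l hl
        rw [Finset.mem_range] at hl
        rw [if_neg]
        omega
    rw [h4] at h3
    rw [h3, coeff_X_pow]
    by_cases hi : i = f.natDegree
    · rw [if_pos hi, hi]
      have e : -(f.natDegree : ℤ) = (f.natDegree : ℤ) * (-1) := by ring
      rw [e, th_coeff_mul _ hM]
      simp
    · rw [if_neg hi]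
      by_cases hd : (f.natDegree : ℤ) ∣ -(i : ℤ)
      · obtain ⟨c, hc⟩ := hd
        rw [hc, th_coeff_mul _ hM, HahnSeries.coeff_single_of_ne, mul_zero]
        intro h5
        rw [h5] at hc
        omega
      · exact th_coeff_of_not_dvd _ hM _ _ hd
  apply hf.dis
  left
  refine ⟨1, 0, one_ne_zero, ?_⟩
  have h2 : (C (1 : k) * X + C 0 : k[X]) = X := by simp
  rw [h2, comp_X, X_comp]
  exact h1

end

end Pool.Agent.Lib_helper45.BDP.NPG
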