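import Pool.Agent.Lib_helper45.BDP.Defs

set_option autoImplicit false

namespace Pool.Agent.Lib_helper45.BDP.NTH

theorem NTH {d p q : ℕ} (hd : 2 ≤ d) (hp : 2 ≤ p) (hq : 2 ≤ q) (hpq : Nat.Coprime p q)
    (h : ∀ l : ℕ, l.Prime → l ∣ q → l ∣ d) :
    ∃ l a b m : ℕ, l.Prime ∧ l ∣ d ∧ 1 ≤ b ∧ 2 ≤ m ∧ ¬ l ∣ m ∧ d ^ a * p ^ b = q ^ b * m := by
  have hd0 : d ≠ 0 := by omega
  have hq0 : q ≠ 0 := by omega
  have hne : q.primeFactors.Nonempty := Nat.nonempty_primeFactors.2 (by omega)
  obtain ⟨l, hl, hmax⟩ := Finset.exists_max_image q.primeFactors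
    (fun l => ((q.factorization l : ℚ) / (d.factorization l : ℚ))) hne
  have hlp : l.Prime := Nat.prime_of_mem_primeFactors hl
  have hlq : l ∣ q := Nat.dvd_of_mem_primeFactors hl
  have hld : l ∣ d := h l hlp hlq
  set a := q.factorization l with ha
  set b := d.factorization l with hb
  have hb1 : 1 ≤ b := (hlp.dvd_iff_one_le_factorization hd0).1 hld
  have hdvd : q ^ b ∣ d ^ a := by
    rw [← Nat.factorization_le_iff_dvd (pow_ne_zero _ hq0) (pow_ne_zero _ hd0)]
    intro r
    rw [Nat.factorization_pow, Nat.factorization_pow]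
    simp only [Finsupp.smul_apply, smul_eq_mul]
    by_cases hr : r ∈ q.primeFactors
    · have hrp : r.Prime := Nat.prime_of_mem_primeFactors hr
      have hrd : 1 ≤ d.factorization r :=
        (hrp.dvd_iff_one_le_factorization hd0).1 (h r hrp (Nat.dvd_of_mem_primeFactors hr))
      have h1 := hmax r hr
      rw [div_le_div_iff₀ (by exact_mod_cast hrd) (by exact_mod_cast hb1)] at h1
      have h2 : q.factorization r * b ≤ a * d.factorization r := by exact_mod_cast h1
      calc b * q.factorization r = q.factorization r * b := mul_comm _ _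
        _ ≤ _ := h2
    · have : q.factorization r = 0 := by
        rwa [← Nat.support_factorization, Finsupp.notMem_support_iff] at hr
      rw [this, mul_zero]
      exact Nat.zero_le _
  obtain ⟨m0, hm0⟩ := hdvd
  have hm0pos : m0 ≠ 0 := by
    rintro rfl
    rw [mul_zero] at hm0
    exact pow_ne_zero _ hd0 hm0
  refine ⟨l, a, b, m0 * p ^ b, hlp, hld, hb1, ?_, ?_, ?_⟩
  · have h1 : 2 ≤ p ^ b := hp.trans (Nat.le_self_pow (by omega) p)
    calc 2 ≤ p ^ b := h1
      _ ≤ m0 * p ^ b := Nat.le_mul_of_pos_left _ (Nat.pos_of_ne_zero hm0pos)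
  · intro hlm
    rcases (Nat.Prime.dvd_mul hlp).1 hlm with h1 | h1
    · have h2 : (d ^ a).factorization l = (q ^ b * m0).factorization l := by rw [hm0]
      rw [Nat.factorization_mul (pow_ne_zero _ hq0) hm0pos, Nat.factorization_pow,
        Nat.factorization_pow] at h2
      simp only [Finsupp.smul_apply, Finsupp.add_apply, smul_eq_mul] at h2
      have h3 : 1 ≤ m0.factorization l := (hlp.dvd_iff_one_le_factorization hm0pos).1 h1
      have h4 : a * b = b * a := mul_comm _ _
      change a * b = b * a + m0.factorization l at h2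
      omega
    · have h2 : l ∣ p := hlp.dvd_of_dvd_pow h1
      have h3 : l ∣ Nat.gcd p q := Nat.dvd_gcd h2 hlq
      rw [Nat.Coprime.gcd_eq_one hpq] at h3
      exact hlp.one_lt.ne' (Nat.dvd_one.1 h3)
  · rw [hm0]
    ring

end Pool.Agent.Lib_helper45.BDP.NTH
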