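import Pool.Agent.Lib_helper45.BDP.Defs

/-!
# Block ONEV
-/

namespace Pool.Agent.Lib_helper45.BDP.ONEV

open Polynomial Pool.Agent.Lib_helper45.BDP

noncomputable section

variable {k : Type*} [Field k] [IsAlgClosed k] [CharZero k]

theorem ONEV {σ : Type*} [Finite σ] {G : MvPolynomial σ k} (hG : Irreducible G)
    (hv : ∀ i ∈ G.vars, ∀ j ∈ G.vars, i = j) :
    ∃ (i : σ) (a : k), Associated G (MvPolynomial.X i - MvPolynomial.C a) := by
  classical
  have hne : G.vars.Nonempty := by
    rw [Finset.nonempty_iff_ne_empty]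
    intro h0
    rw [MvPolynomial.vars_eq_empty_iff_eq_C] at h0
    have hG0 := hG.ne_zero
    have hu := hG.not_isUnit
    rw [h0] at hu hG0
    apply hu
    have hc : MvPolynomial.coeff 0 G ≠ 0 := by
      intro h
      apply hG0
      rw [h, map_zero]
    exact (isUnit_iff_ne_zero.2 hc).map MvPolynomial.C
  obtain ⟨i, hi⟩ := hne
  have hsub : G ∈ MvPolynomial.supported k ({i} : Set σ) := by
    rw [MvPolynomial.mem_supported]
    intro j hj
    exact hv j (by simpa using hj) i hi
  rw [MvPolynomial.supported, Set.image_singleton, Algebra.adjoin_singleton_eq_range_aeval] at hsub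
  obtain ⟨P, hP⟩ := hsub
  have hP' : Polynomial.aeval (MvPolynomial.X i : MvPolynomial σ k) P = G := hP
  have hdeg : P.degree ≠ 0 := by
    intro h0
    have h1 := Polynomial.eq_C_of_degree_le_zero h0.le
    rw [h1, Polynomial.aeval_C] at hP'
    apply hG.not_isUnit
    rw [← hP']
    have hc : P.coeff 0 ≠ 0 := by
      intro h
      rw [h, Polynomial.C_0] at h1
      rw [h1, Polynomial.degree_zero] at h0
      exact absurd h0 (by simp)
    exact (isUnit_iff_ne_zero.2 hc).map (algebraMap k (MvPolynomial σ k))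
  obtain ⟨a, ha⟩ := IsAlgClosed.exists_root P hdeg
  obtain ⟨Q, hQ⟩ := Polynomial.dvd_iff_isRoot.2 ha
  refine ⟨i, a, ?_⟩
  have hfac : G = (MvPolynomial.X i - MvPolynomial.C a) *
      Polynomial.aeval (MvPolynomial.X i : MvPolynomial σ k) Q := by
    rw [← hP', hQ, map_mul, map_sub, Polynomial.aeval_X, Polynomial.aeval_C,
      MvPolynomial.algebraMap_eq]
  rcases hG.isUnit_or_isUnit hfac with h | h
  · exfalso
    -- `X i - a` vanishes at a point
    have h2 := h.map (MvPolynomial.eval (fun _ : σ => a))
    rw [map_sub, MvPolynomial.eval_X, MvPolynomial.eval_C, sub_self] at h2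
    exact not_isUnit_zero h2
  · rw [hfac]
    exact associated_mul_unit_left _ _ h

end

end Pool.Agent.Lib_helper45.BDP.ONEV
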