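import Pool.Agent.Lib_helper45.BDP.Defs

/-!
# BDP, block PER: a polynomial of degree at least two has infinitely many periodic points
-/

namespace Pool.Agent.Lib_helper45.BDP.PER

open Polynomial

noncomputable section

section aux

variable {k : Type*} [Field k]

theorem itr_sub (F : k[X]) (s : ℕ) :
    itr F s - X = ∑ i ∈ Finset.range s, (F - X).comp (itr F i) := by
  induction s with
  | zero => simp [itr_zero]
  | succ s ih =>
    rw [Finset.sum_range_succ, ← ih, itr_succ, sub_comp, X_comp]
    ring

theorem eval_itr_fix {F : k[X]} {a : k} (h : F.eval a = a) (i : ℕ) : (itr F i).eval a = a := by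
  induction i with
  | zero => rw [itr_zero, eval_X]
  | succ i ih => rw [itr_succ, eval_comp, ih, h]

theorem deriv_itr_fix {F : k[X]} {a : k} (h : F.eval a = a) (i : ℕ) :
    (derivative (itr F i)).eval a = (derivative F).eval a ^ i := by
  induction i with
  | zero => rw [itr_zero, derivative_X, eval_one, pow_zero]
  | succ i ih =>
    rw [itr_succ, derivative_comp, eval_mul, eval_comp, eval_itr_fix h, ih, pow_succ]

theorem mult_le [CharZero k] {F : k[X]} {a : k} (h : F.eval a = a) (hF : F - X ≠ 0) {s : ℕ}
    (hs : 1 ≤ s) (hs0 : itr F s - X ≠ 0)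
    (hl : (derivative F).eval a = 1 ∨ (derivative F).eval a ^ s ≠ 1) :
    (itr F s - X).rootMultiplicity a ≤ (F - X).rootMultiplicity a := by
  rcases hl with hl | hl
  · obtain ⟨q, hq, hnd⟩ := exists_eq_pow_rootMultiplicity_mul_and_not_dvd (F - X) hF a
    set m := (F - X).rootMultiplicity a with hm
    have hqa : q.eval a ≠ 0 := by
      intro h0
      exact hnd (dvd_iff_isRoot.mpr h0)
    have hu : ∀ i : ℕ, ∃ u : k[X], itr F i - C a = (X - C a) * u ∧ u.eval a = 1 := by
      intro i
      have h1 : (X - C a) ∣ (itr F i - C a) := by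
        rw [dvd_iff_isRoot, IsRoot.def, eval_sub, eval_C, eval_itr_fix h, sub_self]
      obtain ⟨u, hu⟩ := h1
      refine ⟨u, hu, ?_⟩
      have h2 := congrArg derivative hu
      rw [derivative_sub, derivative_C, sub_zero, derivative_mul, derivative_sub, derivative_X,
        derivative_C, sub_zero, one_mul] at h2
      have h3 := congrArg (eval a) h2
      rw [deriv_itr_fix h, hl, one_pow, eval_add, eval_mul, eval_sub, eval_X, eval_C, sub_self,
        zero_mul, add_zero] at h3
      exact h3.symm
    choose u hu1 hu2 using hu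
    have hsum : itr F s - X = (X - C a) ^ m *
        ∑ i ∈ Finset.range s, (u i) ^ m * q.comp (itr F i) := by
      rw [itr_sub, Finset.mul_sum]
      apply Finset.sum_congr rfl
      intro i _
      conv_lhs => rw [hq]
      rw [mul_comp, pow_comp, sub_comp, X_comp, C_comp, hu1, mul_pow]
      ring
    by_contra hcon
    push Not at hcon
    have h1 : (X - C a) ^ (m + 1) ∣ itr F s - X :=
      (le_rootMultiplicity_iff hs0).mp hcon
    rw [hsum, pow_succ] at h1
    have h2 : (X - C a) ∣ ∑ i ∈ Finset.range s, (u i) ^ m * q.comp (itr F i) := by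
      have h3 : (X - C a : k[X]) ^ m ≠ 0 := pow_ne_zero _ (X_sub_C_ne_zero a)
      exact (mul_dvd_mul_iff_left h3).mp h1
    rw [dvd_iff_isRoot, IsRoot.def, eval_finsetSum] at h2
    have h4 : ∀ i ∈ Finset.range s, eval a ((u i) ^ m * q.comp (itr F i)) = q.eval a := by
      intro i _
      rw [eval_mul, eval_pow, hu2, one_pow, one_mul, eval_comp, eval_itr_fix h]
    rw [Finset.sum_congr rfl h4, Finset.sum_const, Finset.card_range, nsmul_eq_mul] at h2
    rcases mul_eq_zero.mp h2 with h5 | h5
    · have : s = 0 := by exact_mod_cast h5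
      omega
    · exact hqa h5
  · have h1 : (itr F s - X).rootMultiplicity a ≤ 1 := by
      by_contra hcon
      push Not at hcon
      have h2 := ((one_lt_rootMultiplicity_iff_isRoot hs0).mp hcon).2
      rw [IsRoot.def, derivative_sub, derivative_X, eval_sub, eval_one, deriv_itr_fix h] at h2
      exact hl (sub_eq_zero.mp h2)
    have h3 : 0 < (F - X).rootMultiplicity a := by
      rw [rootMultiplicity_pos hF, IsRoot.def, eval_sub, eval_X, h, sub_self]
    omega

theorem sub_X_ne {F : k[X]} (hd : 2 ≤ F.natDegree) :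
    F - X ≠ 0 ∧ (F - X).natDegree = F.natDegree := by
  have h1 : (F - X).natDegree = F.natDegree := by
    apply natDegree_sub_eq_left_of_natDegree_lt
    rw [natDegree_X]
    omega
  refine ⟨?_, h1⟩
  intro h0
  rw [h0, natDegree_zero] at h1
  omega

end aux

variable {k : Type*} [Field k] [IsAlgClosed k] [CharZero k]

theorem PER {f : k[X]} (hd : 2 ≤ f.natDegree) :
    {a : k | ∃ m, 1 ≤ m ∧ (itr f m).eval a = a}.Infinite := by
  classical
  by_contra hinf
  rw [Set.not_infinite] at hinf
  set A : Finset k := hinf.toFinset with hA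
  have hAm : ∀ a, a ∈ A ↔ ∃ m, 1 ≤ m ∧ (itr f m).eval a = a := by
    intro a
    rw [hA, Set.Finite.mem_toFinset]
    rfl
  -- a common period
  have hcp : ∀ B : Finset k, B ⊆ A → ∃ m, 1 ≤ m ∧ ∀ a ∈ B, (itr f m).eval a = a := by
    intro B
    induction B using Finset.induction_on with
    | empty => exact fun _ => ⟨1, le_refl 1, fun a ha => by simp at ha⟩
    | insert b B hb ih =>
      intro hB
      obtain ⟨m, hm, hmB⟩ := ih (fun x hx => hB (Finset.mem_insert_of_mem hx))
      obtain ⟨n, hn, hnb⟩ := (hAm b).mp (hB (Finset.mem_insert_self b B))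
      refine ⟨m * n, Nat.one_le_iff_ne_zero.mpr (by positivity), ?_⟩
      intro a ha
      rcases Finset.mem_insert.mp ha with rfl | ha
      · rw [mul_comm, itr_mul]
        exact eval_itr_fix hnb m
      · rw [itr_mul]
        exact eval_itr_fix (hmB a ha) n
  obtain ⟨m, hm, hmA⟩ := hcp A (Finset.Subset.refl A)
  set F := itr f m with hFdef
  have hFd : 2 ≤ F.natDegree := by
    rw [hFdef, natDegree_itr]
    calc 2 ≤ f.natDegree := hd
      _ = f.natDegree ^ 1 := (pow_one _).symm
      _ ≤ f.natDegree ^ m := Nat.pow_le_pow_right (by omega) hm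
  obtain ⟨hF0, hFn⟩ := sub_X_ne hFd
  -- the exponent s
  have hs : ∀ B : Finset k, ∃ T, 1 ≤ T ∧ ∀ a ∈ B, ∀ t : ℕ, 1 ≤ t →
      (derivative F).eval a ^ t = 1 → (derivative F).eval a ^ T = 1 := by
    intro B
    induction B using Finset.induction_on with
    | empty => exact ⟨1, le_refl 1, fun a ha => by simp at ha⟩
    | insert b B hb ih =>
      obtain ⟨T, hT, hTB⟩ := ih
      by_cases hbt : ∃ t : ℕ, 1 ≤ t ∧ (derivative F).eval b ^ t = 1
      · obtain ⟨t, ht, htb⟩ := hbt
        refine ⟨T * t, Nat.one_le_iff_ne_zero.mpr (by positivity), ?_⟩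
        intro a ha t' ht' hat'
        rcases Finset.mem_insert.mp ha with rfl | ha
        · rw [mul_comm, pow_mul, htb, one_pow]
        · rw [pow_mul, hTB a ha t' ht' hat', one_pow]
      · refine ⟨T, hT, ?_⟩
        intro a ha t' ht' hat'
        rcases Finset.mem_insert.mp ha with rfl | ha
        · exact absurd ⟨t', ht', hat'⟩ hbt
        · exact hTB a ha t' ht' hat'
  obtain ⟨T, hT, hTA⟩ := hs A
  set s := T + 1 with hsdef
  have hGd : 2 ≤ (itr F s).natDegree := by
    rw [natDegree_itr]
    calc 2 ≤ F.natDegree := hFd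
      _ = F.natDegree ^ 1 := (pow_one _).symm
      _ ≤ F.natDegree ^ s := Nat.pow_le_pow_right (by omega) (by omega)
  obtain ⟨hG0, hGn⟩ := sub_X_ne hGd
  have hle : (itr F s - X).roots ≤ (F - X).roots := by
    rw [Multiset.le_iff_count]
    intro a
    rw [count_roots, count_roots]
    by_cases ha : (itr F s - X).IsRoot a
    · have h1 : (itr F s).eval a = a := by
        rw [IsRoot.def, eval_sub, eval_X, sub_eq_zero] at ha
        exact ha
      have h2 : a ∈ A := by
        rw [hAm]
        refine ⟨m * s, Nat.one_le_iff_ne_zero.mpr (by positivity), ?_⟩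
        rw [itr_mul]
        exact h1
      have h3 : F.eval a = a := hmA a h2
      apply mult_le h3 hF0 (by omega) hG0
      by_cases h4 : (derivative F).eval a = 1
      · exact Or.inl h4
      · right
        intro h5
        have h6 := hTA a h2 s (by omega) h5
        rw [hsdef, pow_succ, h6, one_mul] at h5
        exact h4 h5
    · rw [rootMultiplicity_eq_zero ha]
      exact Nat.zero_le _
  have hcard := Multiset.card_le_card hle
  have hc1 : (itr F s - X).roots.card = (itr F s - X).natDegree :=
    (IsAlgClosed.splits (itr F s - X)).natDegree_eq_card_roots.symm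
  have hc2 : (F - X).roots.card ≤ (F - X).natDegree := card_roots' _
  rw [hc1, hGn, natDegree_itr] at hcard
  rw [hFn] at hc2
  have h7 : F.natDegree ^ s ≤ F.natDegree := hcard.trans hc2
  have h8 : F.natDegree ^ 2 ≤ F.natDegree ^ s := Nat.pow_le_pow_right (by omega) (by omega)
  have h9 : F.natDegree ^ 2 ≤ F.natDegree := h8.trans h7
  nlinarith

end

end Pool.Agent.Lib_helper45.BDP.PER
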