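import Pool.Agent.Lib_helper45.BDP.Defs

/-!
# Block POWC
-/

namespace Pool.Agent.Lib_helper45.BDP.POWC

open Polynomial

variable {k : Type*} [Field k] [IsAlgClosed k] [CharZero k]

theorem POWC {F : k[X]} {x c : k} (hd : 2 ≤ F.natDegree)
    (h : F = C c * (X - C x) ^ F.natDegree + C x) : IsConj F (X ^ F.natDegree) := by
  set M := F.natDegree with hM
  have hc : c ≠ 0 := by
    intro h0
    rw [h0, C_0, zero_mul, zero_add] at h
    rw [h, natDegree_C] at hM
    omega
  obtain ⟨a, ha⟩ := IsAlgClosed.exists_pow_nat_eq (k := k) c⁻¹ (n := M - 1) (by omega)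
  have ha0 : a ≠ 0 := by
    intro h0
    rw [h0, zero_pow (by omega)] at ha
    exact inv_ne_zero hc ha.symm
  refine ⟨a, x, ha0, ?_⟩
  have h1 : c * a ^ M = a := by
    obtain ⟨m, hm⟩ : ∃ m, M = m + 1 := ⟨M - 1, by omega⟩
    rw [hm] at ha ⊢
    rw [Nat.add_sub_cancel] at ha
    rw [pow_succ, ← mul_assoc, ha, mul_inv_cancel₀ hc, one_mul]
  rw [h]
  simp only [add_comp, mul_comp, C_comp, X_comp, pow_comp, sub_comp]
  rw [add_sub_cancel_right, mul_pow, ← C_pow, ← mul_assoc, ← C_mul, h1]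

end Pool.Agent.Lib_helper45.BDP.POWC
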