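import Pool.Agent.Lib_helper45.BDP.DefsB

namespace Pool.Agent.Lib_helper45.BDP.PREL

open Polynomial

/-- preperiodic points are small -/
theorem PREL {Ω : Type*} [NormedField Ω] {f : Polynomial Ω} (hd : 2 ≤ f.natDegree) {R κ : ℝ}
    (h : Grow f R κ) {x : Ω} {N r : ℕ} (hr : 1 ≤ r)
    (hx : (itr f (N + r)).eval x = (itr f N).eval x) : ‖x‖ ≤ R := by
  by_contra hlt
  rw [not_le] at hlt
  have key : ∀ n, R < ‖(itr f n).eval x‖ := by
    intro n
    induction n with
    | zero => simpa [itr_zero] using hlt
    | succ n ih =>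
      rw [itr_succ, eval_comp]
      exact ih.trans (h.lo _ ih).2
  have hmono : StrictMono fun n => ‖(itr f n).eval x‖ := by
    refine strictMono_nat_of_lt_succ fun n => ?_
    rw [itr_succ, eval_comp]
    exact (h.lo _ (key n)).2
  have h1 : N < N + r := by omega
  have h2 := hmono h1
  simp only [hx] at h2
  exact lt_irrefl _ h2

end Pool.Agent.Lib_helper45.BDP.PREL
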