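import Pool.Agent.Lib_helper45.BDP.Defs

/-!
# Blocks DISC, RESQ (MP_30534a_nt)
-/

namespace Pool.Agent.Lib_helper45.BDP

open Polynomial

noncomputable section

namespace DISC

variable {p : ℕ} [Fact p.Prime]

theorem deg_le {E : IntermediateField ℚ_[p] (PadicAlgCl p)} {n : ℕ} [FiniteDimensional ℚ_[p] E]
    (hn : Module.finrank ℚ_[p] E ≤ n) {x : PadicAlgCl p} (hx : x ∈ E) :
    (minpoly ℚ_[p] x).natDegree ≤ n := by
  have h1 : minpoly ℚ_[p] (⟨x, hx⟩ : E) = minpoly ℚ_[p] x := by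
    have := minpoly.algebraMap_eq (A := ℚ_[p]) (B := E) (B' := PadicAlgCl p)
      (algebraMap E (PadicAlgCl p)).injective (⟨x, hx⟩ : E)
    rw [← this]
    rfl
  rw [← h1]
  exact (minpoly.natDegree_le (⟨x, hx⟩ : E)).trans hn

theorem norm_eq (x : PadicAlgCl p) : ‖x‖ = spectralValue (minpoly ℚ_[p] x) := rfl

theorem integral (x : PadicAlgCl p) : IsIntegral ℚ_[p] x :=
  (PadicAlgCl.isAlgebraic p).isAlgebraic x |>.isIntegral

theorem norm_root {x y : PadicAlgCl p}
    (hy : y ∈ ((minpoly ℚ_[p] x).map (algebraMap ℚ_[p] (PadicAlgCl p))).roots) : ‖y‖ = ‖x‖ := by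
  have h1 : aeval y (minpoly ℚ_[p] x) = 0 := by
    have := isRoot_of_mem_roots hy
    rwa [IsRoot, eval_map_algebraMap] at this
  have h2 : minpoly ℚ_[p] x = minpoly ℚ_[p] y :=
    minpoly.eq_of_irreducible_of_monic (minpoly.irreducible (integral x)) h1
      (minpoly.monic (integral x))
  rw [norm_eq, norm_eq, h2]

theorem norm_coeff_zero (x : PadicAlgCl p) :
    ‖(minpoly ℚ_[p] x).coeff 0‖ = ‖x‖ ^ (minpoly ℚ_[p] x).natDegree := by
  set P := minpoly ℚ_[p] x with hP
  set G := P.map (algebraMap ℚ_[p] (PadicAlgCl p)) with hG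
  have hPm : P.Monic := minpoly.monic (integral x)
  have hGm : G.Monic := hPm.map _
  have hsp : G.Splits := IsAlgClosed.splits G
  have hcard : G.roots.card = P.natDegree := by
    rw [← hsp.natDegree_eq_card_roots, hG, natDegree_map]
  have h0 : G.eval 0 = (G.roots.map fun r => 0 - r).prod := by
    conv_lhs => rw [hsp.eq_prod_roots_of_monic hGm]
    rw [eval_multiset_prod, Multiset.map_map]
    simp
  have h1 : G.eval 0 = algebraMap ℚ_[p] (PadicAlgCl p) (P.coeff 0) := by
    rw [hG, ← coeff_zero_eq_eval_zero, coeff_map]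
  have h2 : ∀ s : Multiset (PadicAlgCl p), (∀ r ∈ s, ‖r‖ = ‖x‖) →
      ‖(s.map fun r => 0 - r).prod‖ = ‖x‖ ^ s.card := by
    intro s
    induction s using Multiset.induction_on with
    | empty => intro _; simp
    | cons b s ih =>
      intro hs
      rw [Multiset.map_cons, Multiset.prod_cons, norm_mul, zero_sub, norm_neg,
        hs b (Multiset.mem_cons_self b s), ih fun r hr => hs r (Multiset.mem_cons_of_mem hr),
        Multiset.card_cons, pow_succ, mul_comm]
  rw [← PadicAlgCl.norm_extends p (P.coeff 0), ← h1, h0, h2 _ (fun r hr => norm_root hr), hcard]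

theorem DISC {E : IntermediateField ℚ_[p] (PadicAlgCl p)} {n : ℕ} [FiniteDimensional ℚ_[p] E]
    (hn : Module.finrank ℚ_[p] E ≤ n) {x : PadicAlgCl p} (hx : x ∈ E) (h : ‖x‖ < 1) :
    ‖x‖ ^ n ≤ (p : ℝ)⁻¹ := by
  have hdeg := deg_le hn hx
  have hm : 0 < (minpoly ℚ_[p] x).natDegree := minpoly.natDegree_pos (integral x)
  have h1 : ‖x‖ ^ n ≤ ‖x‖ ^ (minpoly ℚ_[p] x).natDegree :=
    pow_le_pow_of_le_one (norm_nonneg _) h.le hdeg
  refine h1.trans ?_
  rw [← norm_coeff_zero]
  have h2 : ‖(minpoly ℚ_[p] x).coeff 0‖ < (p : ℝ) ^ ((-1 : ℤ) + 1) := by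
    rw [neg_add_cancel, zpow_zero, norm_coeff_zero]
    exact pow_lt_one₀ (norm_nonneg _) h hm.ne'
  have h3 := (Padic.norm_le_pow_iff_norm_lt_pow_add_one _ (-1)).mpr h2
  rwa [zpow_neg_one] at h3

end DISC

namespace RESQ

open DISC

theorem dvd_W (p : ℕ) [Fact p.Prime] (n : ℕ) (g : (ZMod p)[X]) (hg : g ≠ 0)
    (hn : g.natDegree ≤ n) : g ∣ (X ^ p ^ n.factorial - X) ^ n := by
  obtain ⟨f, hf, hfg⟩ := UniqueFactorizationMonoid.exists_prime_factors g hg
  have hdeg : f.prod.natDegree = g.natDegree := natDegree_eq_of_degree_eq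
    (degree_eq_degree_of_associated hfg)
  have key : ∀ s : Multiset (ZMod p)[X], (∀ b ∈ s, Prime b) → s.prod.natDegree ≤ n →
      Multiset.card s ≤ s.prod.natDegree ∧ s.prod ∣ (X ^ p ^ n.factorial - X) ^ Multiset.card s := by
    intro s
    induction s using Multiset.induction_on with
    | empty => intro _ _; simp
    | cons b s ih =>
      intro hs hns
      have hb : Prime b := hs b (Multiset.mem_cons_self b s)
      have hs' : ∀ c ∈ s, Prime c := fun c hc => hs c (Multiset.mem_cons_of_mem hc)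
      have hprod0 : s.prod ≠ 0 := by
        intro h0
        rw [Multiset.prod_eq_zero_iff] at h0
        exact (hs' 0 h0).ne_zero rfl
      rw [Multiset.prod_cons, natDegree_mul hb.ne_zero hprod0] at hns
      obtain ⟨h1, h2⟩ := ih hs' (by omega)
      have hbpos : 0 < b.natDegree := hb.irreducible.natDegree_pos
      rw [Multiset.prod_cons, natDegree_mul hb.ne_zero hprod0, Multiset.card_cons]
      refine ⟨by omega, ?_⟩
      have hbd : b ∣ X ^ p ^ n.factorial - X := by
        have h3 := (hb.irreducible.natDegree_dvd_iff_dvd_X_pow_card_pow_sub_X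
          (n := n.factorial)).mp (Nat.dvd_factorial hbpos (by omega))
        rwa [Nat.card_zmod] at h3
      rw [pow_succ, mul_comm b]
      exact mul_dvd_mul h2 hbd
  obtain ⟨h1, h2⟩ := key f hf (by omega)
  exact hfg.symm.dvd.trans (h2.trans (pow_dvd_pow _ (by omega)))

variable {p : ℕ} [Fact p.Prime]

/-- `ℤ_p → PadicAlgCl p` -/
def emb (p : ℕ) [Fact p.Prime] : ℤ_[p] →+* PadicAlgCl p :=
  (algebraMap ℚ_[p] (PadicAlgCl p)).comp (PadicInt.Coe.ringHom (p := p))

theorem emb_norm (a : ℤ_[p]) : ‖emb p a‖ = ‖a‖ := by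
  rw [PadicInt.norm_def]
  exact PadicAlgCl.norm_extends p _

theorem RESQ {E : IntermediateField ℚ_[p] (PadicAlgCl p)} {n : ℕ} [FiniteDimensional ℚ_[p] E]
    (hn : Module.finrank ℚ_[p] E ≤ n) {x : PadicAlgCl p} (hx : x ∈ E) (h : ‖x‖ ≤ 1) :
    ‖x ^ (p ^ n.factorial) - x‖ < 1 := by
  set P := minpoly ℚ_[p] x with hP
  have hPm : P.Monic := minpoly.monic (integral x)
  have hdeg : P.natDegree ≤ n := deg_le hn hx
  have hcoef : ∀ i, ‖P.coeff i‖ ≤ 1 := by
    rw [← spectralValue_le_one_iff hPm]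
    rwa [norm_eq] at h
  have hlift : P ∈ lifts (PadicInt.Coe.ringHom (p := p)) := by
    rw [lifts_iff_coeff_lifts]
    intro i
    exact ⟨⟨P.coeff i, hcoef i⟩, rfl⟩
  obtain ⟨g, hgP, hgd, hgm⟩ := lifts_and_natDegree_eq_and_monic hlift hPm
  -- the reduction
  set gb := g.map (PadicInt.toZMod (p := p)) with hgb
  have hgbm : gb.Monic := hgm.map _
  have hgbd : gb.natDegree ≤ n := (natDegree_map_le).trans (by omega)
  obtain ⟨hb, hhb⟩ := dvd_W p n gb hgbm.ne_zero hgbd
  obtain ⟨h', hh'⟩ := map_surjective (PadicInt.toZMod (p := p)) (ZMod.ringHom_surjective _) hb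
  set w : ℤ_[p][X] := (X ^ p ^ n.factorial - X) ^ n - g * h' with hw
  have hw0 : w.map (PadicInt.toZMod (p := p)) = 0 := by
    rw [hw, Polynomial.map_sub, Polynomial.map_mul, Polynomial.map_pow, Polynomial.map_sub,
      Polynomial.map_pow, map_X, hh', hhb]
    simp [hgb]
  have hwc : ∀ i, ‖w.coeff i‖ < 1 := by
    intro i
    have h1 : PadicInt.toZMod (w.coeff i) = 0 := by
      rw [← coeff_map, hw0, coeff_zero]
    have h2 : w.coeff i ∈ RingHom.ker (PadicInt.toZMod (p := p)) := h1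
    rw [PadicInt.ker_toZMod, IsLocalRing.mem_maximalIdeal, PadicInt.mem_nonunits] at h2
    exact h2
  have hgx : g.eval₂ (emb p) x = 0 := by
    have h1 : aeval x P = 0 := minpoly.aeval _ _
    rw [← hgP, aeval_def, eval₂_map] at h1
    exact h1
  have hwx : w.eval₂ (emb p) x = (x ^ p ^ n.factorial - x) ^ n := by
    rw [hw, eval₂_sub, eval₂_mul, hgx, zero_mul, sub_zero, eval₂_pow, eval₂_sub, eval₂_pow, eval₂_X]
  have hlt : ‖w.eval₂ (emb p) x‖ < 1 := by
    rw [eval₂_eq_sum_range]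
    have hne : (Finset.range (w.natDegree + 1)).Nonempty := ⟨0, by simp⟩
    obtain ⟨i, _, hi⟩ := IsUltrametricDist.exists_norm_finsetSum_le_of_nonempty hne
      (fun i => emb p (w.coeff i) * x ^ i)
    refine hi.trans_lt ?_
    rw [norm_mul, norm_pow, emb_norm]
    calc ‖w.coeff i‖ * ‖x‖ ^ i ≤ ‖w.coeff i‖ * 1 :=
          mul_le_mul_of_nonneg_left (pow_le_one₀ (norm_nonneg _) h) (norm_nonneg _)
      _ < 1 := by rw [mul_one]; exact hwc i
  rw [hwx, norm_pow] at hlt
  by_contra hc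
  push Not at hc
  have := one_le_pow₀ (n := n) hc
  linarith

end RESQ

end

end Pool.Agent.Lib_helper45.BDP
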