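import Pool.Agent.Lib_helper45.BDP.DefsB

namespace Pool.Agent.Lib_helper45.BDP.ROOB

open Polynomial

theorem bound {Ω : Type*} [NormedField Ω] {p : Polynomial Ω} {B m : ℝ} {A : ℕ}
    (hA : p.natDegree ≤ A) (hp : ∀ i, ‖p.coeff i‖ ≤ B) {z : Ω} (hz : ‖z‖ ≤ m) (hm : 1 ≤ m) :
    ‖p.eval z‖ ≤ B * (A + 1) * m ^ A := by
  have hB : 0 ≤ B := (norm_nonneg _).trans (hp 0)
  rw [eval_eq_sum_range' (Nat.lt_succ_of_le hA)]
  refine (norm_sum_le _ _).trans ?_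
  have : ∀ i ∈ Finset.range (A + 1), ‖p.coeff i * z ^ i‖ ≤ B * m ^ A := by
    intro i hi
    rw [norm_mul, norm_pow]
    have h1 : ‖z‖ ^ i ≤ m ^ A :=
      (pow_le_pow_left₀ (norm_nonneg _) hz i).trans
        (pow_le_pow_right₀ hm (Nat.lt_succ_iff.1 (Finset.mem_range.1 hi)))
    exact mul_le_mul (hp i) h1 (by positivity) hB
  refine (Finset.sum_le_sum this).trans (le_of_eq ?_)
  rw [Finset.sum_const, Finset.card_range, nsmul_eq_mul]
  push_cast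
  ring

/-- lower bound -/
theorem lower {Ω : Type*} [NormedField Ω] {p : Polynomial Ω} {B c : ℝ}
    (hp : ∀ i, ‖p.coeff i‖ ≤ B) (hc : 0 < c) (hc' : c ≤ ‖p.leadingCoeff‖) {z : Ω} (hz1 : 1 ≤ ‖z‖)
    (hz : 2 * B * p.natDegree ≤ c * ‖z‖) :
    c * ‖z‖ ^ p.natDegree ≤ 2 * ‖p.eval z‖ := by
  have hB : 0 ≤ B := (norm_nonneg _).trans (hp 0)
  rcases Nat.eq_zero_or_pos p.natDegree with h0 | h0
  · have h1 : p = C p.leadingCoeff := by
      conv_lhs => rw [eq_C_of_natDegree_eq_zero h0]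
      rw [leadingCoeff, h0]
    rw [h0, pow_zero, mul_one]
    rw [h1, eval_C]
    have := norm_nonneg p.leadingCoeff
    linarith
  · obtain ⟨d, hd⟩ : ∃ d, p.natDegree = d + 1 := ⟨p.natDegree - 1, by omega⟩
    have e : p.eval z = (∑ i ∈ Finset.range (d + 1), p.coeff i * z ^ i) +
        p.leadingCoeff * z ^ (d + 1) := by
      rw [eval_eq_sum_range, hd, Finset.sum_range_succ, leadingCoeff, hd]
    have h1 : ‖∑ i ∈ Finset.range (d + 1), p.coeff i * z ^ i‖ ≤ B * (d + 1) * ‖z‖ ^ d := by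
      refine (norm_sum_le _ _).trans ?_
      have : ∀ i ∈ Finset.range (d + 1), ‖p.coeff i * z ^ i‖ ≤ B * ‖z‖ ^ d := by
        intro i hi
        rw [norm_mul, norm_pow]
        exact mul_le_mul (hp i) (pow_le_pow_right₀ hz1 (Nat.lt_succ_iff.1 (Finset.mem_range.1 hi)))
          (by positivity) hB
      refine (Finset.sum_le_sum this).trans (le_of_eq ?_)
      rw [Finset.sum_const, Finset.card_range, nsmul_eq_mul]
      push_cast
      ring
    have h2 : c * ‖z‖ ^ (d + 1) ≤ ‖p.leadingCoeff * z ^ (d + 1)‖ := by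
      rw [norm_mul, norm_pow]
      exact mul_le_mul_of_nonneg_right hc' (by positivity)
    have h3 : ‖p.leadingCoeff * z ^ (d + 1)‖ ≤ ‖p.eval z‖ +
        ‖∑ i ∈ Finset.range (d + 1), p.coeff i * z ^ i‖ := by
      have : p.leadingCoeff * z ^ (d + 1) = p.eval z -
          ∑ i ∈ Finset.range (d + 1), p.coeff i * z ^ i := by rw [e]; ring
      rw [this]
      exact norm_sub_le _ _
    have h4 : 2 * (B * (d + 1) * ‖z‖ ^ d) ≤ c * ‖z‖ ^ (d + 1) := by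
      rw [hd] at hz
      push_cast at hz
      have := mul_le_mul_of_nonneg_right hz (by positivity : 0 ≤ ‖z‖ ^ d)
      rw [pow_succ]
      nlinarith [this]
    rw [hd]
    linarith

/-- roots of a polynomial relation (inner variable `y`, outer variable `x`) -/
theorem ROOB {Ω : Type*} [NormedField Ω] {Q : Polynomial (Polynomial Ω)} (hQ : 1 ≤ Q.natDegree)
    {A : ℕ} (hA : ∀ i, (Q.coeff i).natDegree ≤ A) {B : ℝ} (hB : 1 ≤ B)
    (h1 : ∀ i j, ‖(Q.coeff i).coeff j‖ ≤ B) (h2 : 1 ≤ B * ‖Q.leadingCoeff.leadingCoeff‖)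
    {x y : Ω} (hy : 4 * B ^ 2 * (A + 1) < ‖y‖) (h : (Q.map (evalRingHom y)).eval x = 0) :
    ‖x‖ ≤ 4 * B ^ 2 * (A + 1) * (Q.natDegree + 1) * ‖y‖ ^ A := by
  have hA0 : (0 : ℝ) ≤ A := Nat.cast_nonneg _
  have hB2 : 1 ≤ B ^ 2 := one_le_pow₀ hB
  have hBA : 1 ≤ B ^ 2 * ((A : ℝ) + 1) := one_le_mul_of_one_le_of_one_le hB2 (by linarith)
  have hy1 : 1 ≤ ‖y‖ := by linarith
  have hyA : 1 ≤ ‖y‖ ^ A := one_le_pow₀ hy1
  have hn0 : (0 : ℝ) ≤ Q.natDegree := Nat.cast_nonneg _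
  have hE : 1 ≤ 4 * B ^ 2 * ((A : ℝ) + 1) * (Q.natDegree + 1) := by nlinarith
  rcases le_or_gt ‖x‖ 1 with hx | hx
  · calc ‖x‖ ≤ 1 * 1 := by linarith
      _ ≤ _ := mul_le_mul hE hyA zero_le_one (by linarith)
  obtain ⟨n, hn⟩ : ∃ n, Q.natDegree = n + 1 := ⟨Q.natDegree - 1, by omega⟩
  have hB0 : 0 < B := by linarith
  have hc : 0 < B⁻¹ := inv_pos.2 hB0
  have hc' : B⁻¹ ≤ ‖Q.leadingCoeff.leadingCoeff‖ := by
    rw [inv_le_iff_one_le_mul₀ hB0, mul_comm]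
    exact h2
  have hdA : (Q.leadingCoeff.natDegree : ℝ) ≤ A := by exact_mod_cast hA Q.natDegree
  -- lower bound for the leading coefficient
  have hl := lower (p := Q.leadingCoeff) (h1 Q.natDegree) hc hc' hy1 (by
    rw [inv_mul_eq_div, le_div_iff₀ hB0]
    nlinarith [mul_le_mul_of_nonneg_left hdA (by positivity : 0 ≤ B ^ 2)])
  have hl2 : 1 ≤ 2 * B * ‖Q.leadingCoeff.eval y‖ := by
    have h3 : 1 ≤ ‖y‖ ^ Q.leadingCoeff.natDegree := one_le_pow₀ hy1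
    have h4 : B⁻¹ * 1 ≤ 2 * ‖Q.leadingCoeff.eval y‖ :=
      (mul_le_mul_of_nonneg_left h3 hc.le).trans hl
    have h5 := mul_le_mul_of_nonneg_left h4 hB0.le
    rw [mul_one, mul_inv_cancel₀ hB0.ne'] at h5
    linarith
  -- the relation
  have e : (∑ i ∈ Finset.range (n + 1), (Q.coeff i).eval y * x ^ i) +
      Q.leadingCoeff.eval y * x ^ (n + 1) = 0 := by
    rw [eval_map, eval₂_eq_sum_range, hn, Finset.sum_range_succ] at h
    rw [leadingCoeff, hn]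
    simpa using h
  have h6 : ‖∑ i ∈ Finset.range (n + 1), (Q.coeff i).eval y * x ^ i‖ ≤
      B * (A + 1) * ‖y‖ ^ A * (n + 1) * ‖x‖ ^ n := by
    refine (norm_sum_le _ _).trans ?_
    have : ∀ i ∈ Finset.range (n + 1), ‖(Q.coeff i).eval y * x ^ i‖ ≤
        B * (A + 1) * ‖y‖ ^ A * ‖x‖ ^ n := by
      intro i hi
      rw [norm_mul, norm_pow]
      exact mul_le_mul (bound (hA i) (h1 i) le_rfl hy1)
        (pow_le_pow_right₀ hx.le (Nat.lt_succ_iff.1 (Finset.mem_range.1 hi)))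
        (by positivity) (by positivity)
    refine (Finset.sum_le_sum this).trans (le_of_eq ?_)
    rw [Finset.sum_const, Finset.card_range, nsmul_eq_mul]
    push_cast
    ring
  have h7 : ‖Q.leadingCoeff.eval y‖ * ‖x‖ ^ (n + 1) ≤
      B * (A + 1) * ‖y‖ ^ A * (n + 1) * ‖x‖ ^ n := by
    rw [← norm_pow, ← norm_mul]
    have : Q.leadingCoeff.eval y * x ^ (n + 1) =
        -∑ i ∈ Finset.range (n + 1), (Q.coeff i).eval y * x ^ i := by
      linear_combination e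
    rw [this, norm_neg]
    exact h6
  have h8 : ‖Q.leadingCoeff.eval y‖ * ‖x‖ ≤ B * (A + 1) * ‖y‖ ^ A * (n + 1) := by
    have hxn : 0 < ‖x‖ ^ n := by positivity
    refine le_of_mul_le_mul_right ?_ hxn
    calc ‖Q.leadingCoeff.eval y‖ * ‖x‖ * ‖x‖ ^ n
        = ‖Q.leadingCoeff.eval y‖ * ‖x‖ ^ (n + 1) := by rw [pow_succ]; ring
      _ ≤ _ := h7
  have h9 : ‖x‖ ≤ 2 * B * (B * (A + 1) * ‖y‖ ^ A * (n + 1)) := by
    calc ‖x‖ = 1 * ‖x‖ := (one_mul _).symm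
      _ ≤ 2 * B * ‖Q.leadingCoeff.eval y‖ * ‖x‖ :=
          mul_le_mul_of_nonneg_right hl2 (norm_nonneg _)
      _ = 2 * B * (‖Q.leadingCoeff.eval y‖ * ‖x‖) := by ring
      _ ≤ _ := mul_le_mul_of_nonneg_left h8 (by positivity)
  refine h9.trans ?_
  rw [hn]
  push_cast
  have hn1 : (0 : ℝ) ≤ n := Nat.cast_nonneg _
  have hP : 0 ≤ B ^ 2 * ((A : ℝ) + 1) * ‖y‖ ^ A * (n + 1) := by positivity
  have hP2 : 0 ≤ B ^ 2 * ((A : ℝ) + 1) * ‖y‖ ^ A := by positivity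
  nlinarith

end Pool.Agent.Lib_helper45.BDP.ROOB
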