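import Pool.Agent.Lib_helper45.BDP.DefsB

namespace Pool.Agent.Lib_helper45.BDP.ROOU

open Polynomial

theorem bound {Ω : Type*} [NormedField Ω] [IsUltrametricDist Ω] {p : Polynomial Ω} {m : ℝ} {A : ℕ}
    (hA : p.natDegree ≤ A) (hp : ∀ i, ‖p.coeff i‖ ≤ 1) {z : Ω} (hz : ‖z‖ ≤ m) (hm : 1 ≤ m) :
    ‖p.eval z‖ ≤ m ^ A := by
  rw [eval_eq_sum_range' (Nat.lt_succ_of_le hA)]
  refine IsUltrametricDist.norm_sum_le_of_forall_le_of_nonneg (by positivity) ?_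
  intro i hi
  rw [norm_mul, norm_pow]
  have h1 : ‖z‖ ^ i ≤ m ^ A :=
    (pow_le_pow_left₀ (norm_nonneg _) hz i).trans
      (pow_le_pow_right₀ hm (Nat.lt_succ_iff.1 (Finset.mem_range.1 hi)))
  calc ‖p.coeff i‖ * ‖z‖ ^ i ≤ 1 * m ^ A := mul_le_mul (hp i) h1 (by positivity) zero_le_one
    _ = m ^ A := one_mul _

/-- exact size for large arguments -/
theorem exact_size {Ω : Type*} [NormedField Ω] [IsUltrametricDist Ω] {p : Polynomial Ω}
    (hp : ∀ i, ‖p.coeff i‖ ≤ 1) (hc : ‖p.leadingCoeff‖ = 1) {z : Ω} (hz : 1 < ‖z‖) :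
    ‖p.eval z‖ = ‖z‖ ^ p.natDegree := by
  rcases Nat.eq_zero_or_pos p.natDegree with h0 | h0
  · have h1 : p = C p.leadingCoeff := by
      conv_lhs => rw [eq_C_of_natDegree_eq_zero h0]
      rw [leadingCoeff, h0]
    rw [h0, pow_zero]
    rw [h1, eval_C, hc]
  · obtain ⟨d, hd⟩ : ∃ d, p.natDegree = d + 1 := ⟨p.natDegree - 1, by omega⟩
    have e : p.eval z = (∑ i ∈ Finset.range (d + 1), p.coeff i * z ^ i) +
        p.leadingCoeff * z ^ (d + 1) := by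
      rw [eval_eq_sum_range, hd, Finset.sum_range_succ, leadingCoeff, hd]
    have h1 : ‖∑ i ∈ Finset.range (d + 1), p.coeff i * z ^ i‖ ≤ ‖z‖ ^ d := by
      refine IsUltrametricDist.norm_sum_le_of_forall_le_of_nonneg (by positivity) ?_
      intro i hi
      rw [norm_mul, norm_pow]
      calc ‖p.coeff i‖ * ‖z‖ ^ i ≤ 1 * ‖z‖ ^ d :=
            mul_le_mul (hp i) (pow_le_pow_right₀ hz.le (Nat.lt_succ_iff.1 (Finset.mem_range.1 hi)))
              (by positivity) zero_le_one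
        _ = ‖z‖ ^ d := one_mul _
    have h2 : ‖p.leadingCoeff * z ^ (d + 1)‖ = ‖z‖ ^ (d + 1) := by
      rw [norm_mul, norm_pow, hc, one_mul]
    have h3 : ‖z‖ ^ d < ‖z‖ ^ (d + 1) := pow_lt_pow_right₀ hz (Nat.lt_succ_self d)
    have h4 : ‖∑ i ∈ Finset.range (d + 1), p.coeff i * z ^ i‖ <
        ‖p.leadingCoeff * z ^ (d + 1)‖ := by rw [h2]; exact h1.trans_lt h3
    rw [e, IsUltrametricDist.norm_add_eq_max_of_norm_ne_norm h4.ne, max_eq_right h4.le, h2, hd]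

theorem ROOU {Ω : Type*} [NormedField Ω] [IsUltrametricDist Ω] {Q : Polynomial (Polynomial Ω)} (hQ : 1 ≤ Q.natDegree)
    {A : ℕ} (hA : ∀ i, (Q.coeff i).natDegree ≤ A) (h1 : ∀ i j, ‖(Q.coeff i).coeff j‖ ≤ 1)
    (h2 : ‖Q.leadingCoeff.leadingCoeff‖ = 1) {x y : Ω} (hy : 1 < ‖y‖)
    (h : (Q.map (evalRingHom y)).eval x = 0) : ‖x‖ ≤ ‖y‖ ^ A := by
  by_contra hlt
  rw [not_le] at hlt
  have hyA : 1 ≤ ‖y‖ ^ A := one_le_pow₀ hy.le
  have hx : 1 < ‖x‖ := hyA.trans_lt hlt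
  obtain ⟨n, hn⟩ : ∃ n, Q.natDegree = n + 1 := ⟨Q.natDegree - 1, by omega⟩
  have hl := exact_size (p := Q.leadingCoeff) (h1 Q.natDegree) h2 hy
  have hl2 : 1 ≤ ‖Q.leadingCoeff.eval y‖ := by
    rw [hl]
    exact one_le_pow₀ hy.le
  have e : (∑ i ∈ Finset.range (n + 1), (Q.coeff i).eval y * x ^ i) +
      Q.leadingCoeff.eval y * x ^ (n + 1) = 0 := by
    rw [eval_map, eval₂_eq_sum_range, hn, Finset.sum_range_succ] at h
    rw [leadingCoeff, hn]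
    simpa using h
  have h6 : ‖∑ i ∈ Finset.range (n + 1), (Q.coeff i).eval y * x ^ i‖ ≤ ‖y‖ ^ A * ‖x‖ ^ n := by
    refine IsUltrametricDist.norm_sum_le_of_forall_le_of_nonneg (by positivity) ?_
    intro i hi
    rw [norm_mul, norm_pow]
    exact mul_le_mul (bound (hA i) (h1 i) le_rfl hy.le)
      (pow_le_pow_right₀ hx.le (Nat.lt_succ_iff.1 (Finset.mem_range.1 hi)))
      (by positivity) (by positivity)
  have h7 : ‖Q.leadingCoeff.eval y‖ * ‖x‖ ^ (n + 1) ≤ ‖y‖ ^ A * ‖x‖ ^ n := by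
    rw [← norm_pow, ← norm_mul]
    have : Q.leadingCoeff.eval y * x ^ (n + 1) =
        -∑ i ∈ Finset.range (n + 1), (Q.coeff i).eval y * x ^ i := by
      linear_combination e
    rw [this, norm_neg]
    exact h6
  have hxn : 0 < ‖x‖ ^ n := by positivity
  have h8 : ‖y‖ ^ A * ‖x‖ ^ n < ‖x‖ ^ (n + 1) := by
    rw [pow_succ, mul_comm (‖x‖ ^ n)]
    exact mul_lt_mul_of_pos_right hlt hxn
  have h9 : ‖x‖ ^ (n + 1) ≤ ‖Q.leadingCoeff.eval y‖ * ‖x‖ ^ (n + 1) :=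
    le_mul_of_one_le_left (by positivity) hl2
  linarith

end Pool.Agent.Lib_helper45.BDP.ROOU
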