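import Pool.Agent.Lib_helper45.BDP.Defs

set_option autoImplicit false

namespace Pool.Agent.Lib_helper45.BDP.SLCM

open Polynomial

variable {k : Type*} [Field k] [IsAlgClosed k] [CharZero k]

theorem SLCM {σ : Type*} {F : k[X]} {G : MvPolynomial σ k} {i j : σ} {a : σ → k}
    (ha : ∀ s, F.eval (a s) = a s) : sl i j a (cmp F G) = cmp2 F (sl i j a G) := by
  classical
  have hC : ∀ r : k, cmp2 F (C (C r)) = C (C r) := fun r => by rw [cmp2_CC, C_comp]
  have hadd : ∀ p q : k[X][X], cmp2 F (p + q) = cmp2 F p + cmp2 F q := fun p q => by simp [cmp2]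
  induction G using MvPolynomial.induction_on with
  | C r =>
    have h1 : cmp F (MvPolynomial.C r : MvPolynomial σ k) = MvPolynomial.C r := by
      rw [cmp, MvPolynomial.aeval_C]; rfl
    have h2 : sl i j a (MvPolynomial.C r) = C (C r) := by
      rw [sl, MvPolynomial.aeval_C]; rfl
    rw [h1, h2, hC]
  | add p q hp hq => rw [map_add, map_add, map_add, hadd, hp, hq]
  | mul_X p s hp =>
    rw [map_mul, map_mul, map_mul, cmp2_mul, hp, cmp_X, ← Polynomial.aeval_algHom_apply]
    congr 1
    have h3 : sl i j a (MvPolynomial.X s) =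
        (if s = i then C X else if s = j then X else C (C (a s)) : k[X][X]) := by
      rw [sl, MvPolynomial.aeval_X]
    rw [h3]
    split_ifs with h4 h5
    · rw [cmp2_CC, X_comp]
      have h6 : (Polynomial.aeval (C X : k[X][X])) F = C (Polynomial.aeval (X : k[X]) F) := by
        have h7 : (C X : k[X][X]) = (Polynomial.CAlgHom : k[X] →ₐ[k] k[X][X]) X := rfl
        rw [h7, Polynomial.aeval_algHom_apply]
        rfl
      rw [h6, aeval_X_left_apply]
    · rw [cmp2_X, Polynomial.aeval_def, Polynomial.map]
      rfl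
    · rw [hC]
      have h6 : (Polynomial.aeval (C (C (a s)) : k[X][X])) F = C (C (F.eval (a s))) := by
        have h7 : (C (C (a s)) : k[X][X]) = algebraMap k k[X][X] (a s) := rfl
        rw [h7, Polynomial.aeval_algebraMap_apply]
        simp only [Polynomial.coe_aeval_eq_eval]
        rfl
      rw [h6, ha]

end Pool.Agent.Lib_helper45.BDP.SLCM
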