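import Pool.Agent.Lib_helper45.BDP.Defs

/-!
# BDP, block SLIC: slicing
-/

namespace Pool.Agent.Lib_helper45.BDP.SLIC

open Polynomial

noncomputable section

section aux

variable {k : Type*} [Field k] {σ : Type*}

open Classical in
/-- the substitution `X_i ↦ u` -/
def sb (i : σ) (u : MvPolynomial σ k) : MvPolynomial σ k →ₐ[k] MvPolynomial σ k :=
  MvPolynomial.aeval fun s => if s = i then u else MvPolynomial.X s

open Classical in
theorem sb_X (i : σ) (u : MvPolynomial σ k) (s : σ) :
    sb i u (MvPolynomial.X s) = if s = i then u else MvPolynomial.X s := by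
  rw [sb, MvPolynomial.aeval_X]

theorem sb_X_self (i : σ) (u : MvPolynomial σ k) : sb i u (MvPolynomial.X i) = u := by
  rw [sb_X, if_pos rfl]

theorem sb_X_ne {i s : σ} (h : s ≠ i) (u : MvPolynomial σ k) :
    sb i u (MvPolynomial.X s) = MvPolynomial.X s := by
  rw [sb_X, if_neg h]

open Classical in
theorem eval_sb (i : σ) (u G : MvPolynomial σ k) (a : σ → k) :
    MvPolynomial.eval a (sb i u G) =
      MvPolynomial.eval (fun s => if s = i then MvPolynomial.eval a u else a s) G := by
  induction G using MvPolynomial.induction_on with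
  | C c => rw [← MvPolynomial.algebraMap_eq, AlgHom.commutes, MvPolynomial.algebraMap_eq,
      MvPolynomial.eval_C, MvPolynomial.eval_C]
  | add p q hp hq => rw [map_add, map_add, hp, hq, map_add]
  | mul_X p s hp =>
    rw [map_mul, map_mul, hp, map_mul, MvPolynomial.eval_X, sb_X]
    congr 1
    split_ifs with h
    · rfl
    · rw [MvPolynomial.eval_X]

open Classical in
theorem evalEval_sl {i j : σ} (a : σ → k) (x0 y0 : k) (G : MvPolynomial σ k) :
    (sl i j a G).evalEval x0 y0 =
      MvPolynomial.eval (fun s => if s = i then x0 else if s = j then y0 else a s) G := by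
  induction G using MvPolynomial.induction_on with
  | C c =>
    rw [← MvPolynomial.algebraMap_eq, AlgHom.commutes, MvPolynomial.algebraMap_eq,
      MvPolynomial.eval_C]
    change (C (C c) : k[X][X]).evalEval x0 y0 = c
    rw [evalEval_C, eval_C]
  | add p q hp hq => rw [map_add, evalEval_add, hp, hq, map_add]
  | mul_X p s hp =>
    rw [map_mul, evalEval_mul, hp, map_mul, MvPolynomial.eval_X]
    congr 1
    rw [sl, MvPolynomial.aeval_X]
    split_ifs with h h'
    · rw [evalEval_C, eval_X]
    · rw [evalEval_X]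
    · rw [evalEval_C, eval_C]

theorem eval_aeval_X (g : k[X]) (i : σ) (a : σ → k) :
    MvPolynomial.eval a (Polynomial.aeval (MvPolynomial.X i : MvPolynomial σ k) g) =
      g.eval (a i) := by
  have h : ((MvPolynomial.aeval a : MvPolynomial σ k →ₐ[k] k)
      (Polynomial.aeval (MvPolynomial.X i : MvPolynomial σ k) g)) = g.eval (a i) := by
    rw [← Polynomial.aeval_algHom_apply, MvPolynomial.aeval_X, Polynomial.coe_aeval_eq_eval]
  simpa [MvPolynomial.aeval_eq_eval] using h

theorem dvd_of_sb {i : σ} {u G : MvPolynomial σ k} (h : sb i u G = 0) :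
    (MvPolynomial.X i - u) ∣ G := by
  set I : Ideal (MvPolynomial σ k) := Ideal.span {MvPolynomial.X i - u} with hI
  have h1 : (Ideal.Quotient.mkₐ k I).comp (sb i u) = Ideal.Quotient.mkₐ k I := by
    apply MvPolynomial.algHom_ext
    intro s
    rw [AlgHom.comp_apply, sb_X]
    split_ifs with hs
    · subst hs
      rw [Ideal.Quotient.mkₐ_eq_mk, eq_comm, Ideal.Quotient.mk_eq_mk_iff_sub_mem]
      exact Ideal.subset_span rfl
    · rfl
  have h2 := DFunLike.congr_fun h1 G
  rw [AlgHom.comp_apply, h, map_zero] at h2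
  have h3 : G ∈ I := Ideal.Quotient.eq_zero_iff_mem.mp h2.symm
  exact Ideal.mem_span_singleton.mp h3

theorem sb_ne_zero {i j : σ} (hij : i ≠ j) {g : k[X]} {G : MvPolynomial σ k}
    (hG : Irreducible G)
    (h : ¬ Associated G (MvPolynomial.X j - Polynomial.aeval (MvPolynomial.X i) g)) :
    sb j (Polynomial.aeval (MvPolynomial.X i) g) G ≠ 0 := by
  intro h0
  have h1 := dvd_of_sb h0
  rcases (hG.dvd_iff).mp h1 with h2 | h2
  · have h3 := h2.map (sb j (Polynomial.aeval (MvPolynomial.X i) g))
    rw [map_sub, sb_X_self, ← Polynomial.aeval_algHom_apply, sb_X_ne hij, sub_self] at h3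
    exact not_isUnit_zero h3
  · exact h h2

theorem not_mem_vars_sb {j : σ} (c : k) (G : MvPolynomial σ k) :
    j ∉ (sb j (MvPolynomial.C c) G).vars := by
  classical
  intro h
  rw [sb, ← MvPolynomial.bind₁] at h
  obtain ⟨s, -, hs⟩ := MvPolynomial.mem_vars_bind₁ _ _ h
  split_ifs at hs with h1
  · simp at hs
  · rw [MvPolynomial.vars_X, Finset.mem_singleton] at hs
    exact h1 hs.symm

theorem not_dvd_sb {j : σ} (c : k) {G : MvPolynomial σ k} (hj : j ∈ G.vars)
    (h0 : sb j (MvPolynomial.C c) G ≠ 0) : ¬ G ∣ sb j (MvPolynomial.C c) G := by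
  rintro ⟨D, hD⟩
  have hD0 : D ≠ 0 := by
    rintro rfl
    rw [mul_zero] at hD
    exact h0 hD
  have hG0 : G ≠ 0 := by
    rintro rfl
    rw [zero_mul] at hD
    exact h0 hD
  have h1 : (sb j (MvPolynomial.C c) G).degreeOf j = 0 := by
    by_contra hne
    exact not_mem_vars_sb c G (MvPolynomial.mem_vars_iff_degreeOf_ne_zero.mpr hne)
  have h2 : G.degreeOf j ≠ 0 := MvPolynomial.mem_vars_iff_degreeOf_ne_zero.mp hj
  rw [hD, MvPolynomial.degreeOf_mul_eq hG0 hD0] at h1
  omega

end aux

variable {k : Type*} [Field k] [IsAlgClosed k] [CharZero k]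

/-- slicing -/
theorem SLIC {σ : Type*} [Finite σ] {G : MvPolynomial σ k} (hG : Irreducible G) {i j : σ}
    (hij : i ≠ j) (hi : i ∈ G.vars) (hj : j ∈ G.vars) {P : Set k} (hP : P.Infinite)
    {S : Set k[X]} (hS : S.Finite)
    (h1 : ∀ g ∈ S, ¬ Associated G (MvPolynomial.X j - Polynomial.aeval (MvPolynomial.X i) g))
    (h2 : ∀ g ∈ S, ¬ Associated G (MvPolynomial.X i - Polynomial.aeval (MvPolynomial.X j) g)) :
    ∃ a : σ → k, (∀ s, a s ∈ P) ∧ sl i j a G ≠ 0 ∧
      (∀ g ∈ S, ¬ (X - C g) ∣ sl i j a G ∧ ¬ (C X - g.map C) ∣ sl i j a G) ∧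
      ¬ ∃ A B : k[X], sl i j a G = C A * B.map C := by
  classical
  have hG0 : G ≠ 0 := hG.ne_zero
  have : Infinite k := IsAlgClosed.instInfinite
  obtain ⟨z, hz⟩ : ∃ z : σ → k, MvPolynomial.eval z G ≠ 0 := by
    by_contra hcon
    push Not at hcon
    apply hG0
    apply MvPolynomial.funext
    intro x
    rw [hcon x, map_zero]
  set α := z i with hα
  set β := z j with hβ
  -- evaluations at `z`
  have ez : ∀ s : σ, MvPolynomial.eval z (sb s (MvPolynomial.C (z s)) G) =
      MvPolynomial.eval z G := by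
    intro s
    rw [eval_sb, MvPolynomial.eval_C]
    congr 2
    funext t
    split_ifs with h
    · rw [h]
    · rfl
  have hHi : sb i (MvPolynomial.C α) G ≠ 0 := by
    intro h0
    have := ez i
    rw [← hα, h0, map_zero] at this
    exact hz this.symm
  have hHj : sb j (MvPolynomial.C β) G ≠ 0 := by
    intro h0
    have := ez j
    rw [← hβ, h0, map_zero] at this
    exact hz this.symm
  set Gab := sb j (MvPolynomial.C β) (sb i (MvPolynomial.C α) G) with hGab
  set Q := G * Gab - sb j (MvPolynomial.C β) G * sb i (MvPolynomial.C α) G with hQ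
  have hQ0 : Q ≠ 0 := by
    intro h0
    have h3 : G ∣ sb j (MvPolynomial.C β) G * sb i (MvPolynomial.C α) G :=
      ⟨Gab, (sub_eq_zero.mp (hQ ▸ h0)).symm⟩
    rcases hG.prime.dvd_or_dvd h3 with h4 | h4
    · exact not_dvd_sb β hj hHj h4
    · exact not_dvd_sb α hi hHi h4
  -- the product
  set T : MvPolynomial σ k :=
    (∏ g ∈ hS.toFinset, sb j (Polynomial.aeval (MvPolynomial.X i) g) G) *
      (∏ g ∈ hS.toFinset, sb i (Polynomial.aeval (MvPolynomial.X j) g) G) * Q with hT
  have hT0 : T ≠ 0 := by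
    rw [hT]
    refine mul_ne_zero (mul_ne_zero ?_ ?_) hQ0
    · rw [Finset.prod_ne_zero_iff]
      intro g hg
      exact sb_ne_zero hij hG (h1 g (hS.mem_toFinset.mp hg))
    · rw [Finset.prod_ne_zero_iff]
      intro g hg
      exact sb_ne_zero hij.symm hG (h2 g (hS.mem_toFinset.mp hg))
  obtain ⟨a, haP, haT⟩ : ∃ a : σ → k, (∀ s, a s ∈ P) ∧ MvPolynomial.eval a T ≠ 0 := by
    by_contra hcon
    push Not at hcon
    apply hT0
    apply MvPolynomial.funext_set (fun _ => P) (fun _ => hP)
    intro x hx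
    rw [hcon x (fun s => hx s (Set.mem_univ s)), map_zero]
  rw [hT, map_mul, map_mul, map_prod, map_prod] at haT
  have haQ : MvPolynomial.eval a Q ≠ 0 := right_ne_zero_of_mul haT
  have ha1 : ∀ g ∈ S, MvPolynomial.eval a (sb j (Polynomial.aeval (MvPolynomial.X i) g) G) ≠ 0 :=
    fun g hg => (Finset.prod_ne_zero_iff.mp (left_ne_zero_of_mul (left_ne_zero_of_mul haT))) g
      (hS.mem_toFinset.mpr hg)
  have ha2 : ∀ g ∈ S, MvPolynomial.eval a (sb i (Polynomial.aeval (MvPolynomial.X j) g) G) ≠ 0 :=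
    fun g hg => (Finset.prod_ne_zero_iff.mp (right_ne_zero_of_mul (left_ne_zero_of_mul haT))) g
      (hS.mem_toFinset.mpr hg)
  -- evaluations of the slice
  have E1 : ∀ y0 : k, (sl i j a G).evalEval (a i) y0 =
      MvPolynomial.eval (fun s => if s = j then y0 else a s) G := by
    intro y0
    rw [evalEval_sl]
    congr 2
    funext s
    by_cases hsi : s = i
    · subst hsi
      rw [if_pos rfl, if_neg hij]
    · rw [if_neg hsi]
  have E2 : ∀ x0 : k, (sl i j a G).evalEval x0 (a j) =
      MvPolynomial.eval (fun s => if s = i then x0 else a s) G := by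
    intro x0
    rw [evalEval_sl]
    congr 2
    funext s
    by_cases hsi : s = i
    · rw [if_pos hsi, if_pos hsi]
    · rw [if_neg hsi, if_neg hsi]
      by_cases hsj : s = j
      · subst hsj
        rw [if_pos rfl]
      · rw [if_neg hsj]
  have hD : ¬ ∃ A B : k[X], sl i j a G = C A * B.map C := by
    rintro ⟨A, B, hAB⟩
    have hev : ∀ x0 y0 : k, (sl i j a G).evalEval x0 y0 = A.eval x0 * B.eval y0 := by
      intro x0 y0
      rw [hAB, evalEval_mul, evalEval_C, evalEval_map_C]
    apply haQ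
    have q1 : MvPolynomial.eval a G = A.eval (a i) * B.eval (a j) := by
      rw [← hev, E1]
      congr 2
      funext s
      split_ifs with h
      · rw [h]
      · rfl
    have q2 : MvPolynomial.eval a Gab = A.eval α * B.eval β := by
      rw [← hev, evalEval_sl, hGab, eval_sb, MvPolynomial.eval_C, eval_sb, MvPolynomial.eval_C]
    have q3 : MvPolynomial.eval a (sb j (MvPolynomial.C β) G) = A.eval (a i) * B.eval β := by
      rw [← hev, E1, eval_sb, MvPolynomial.eval_C]
    have q4 : MvPolynomial.eval a (sb i (MvPolynomial.C α) G) = A.eval α * B.eval (a j) := by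
      rw [← hev, E2, eval_sb, MvPolynomial.eval_C]
    rw [hQ, map_sub, map_mul, map_mul, q1, q2, q3, q4]
    ring
  refine ⟨a, haP, ?_, ?_, hD⟩
  · intro h0
    exact hD ⟨0, 0, by rw [h0]; simp⟩
  · intro g hg
    constructor
    · rintro ⟨D, hDv⟩
      apply ha1 g hg
      rw [eval_sb, eval_aeval_X, ← E1, hDv, evalEval_mul, evalEval_sub, evalEval_X, evalEval_C,
        sub_self, zero_mul]
    · rintro ⟨D, hDv⟩
      apply ha2 g hg
      rw [eval_sb, eval_aeval_X, ← E2, hDv, evalEval_mul, evalEval_sub, evalEval_C, eval_X,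
        evalEval_map_C, sub_self, zero_mul]

end

end Pool.Agent.Lib_helper45.BDP.SLIC
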