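import Pool.Agent.Lib_helper45.BDP.Defs

set_option autoImplicit false

namespace Pool.Agent.Lib_helper45.BDP.SPLT

variable {k : Type*} [Field k] [IsAlgClosed k] [CharZero k]

theorem SPLT_dec (d : ℕ) (hd : 2 ≤ d) : ∀ N : ℕ, 1 ≤ N → ∃ N1 N2 e : ℕ, N = N1 * N2 ∧ N1 ∣ d ^ e ∧
    Nat.Coprime N2 d := by
  intro N
  induction N using Nat.strong_induction_on with
  | _ N ih =>
    intro hN
    by_cases hg : Nat.gcd N d = 1
    · exact ⟨1, N, 0, by ring, by simp, hg⟩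
    · have hg1 : 1 < Nat.gcd N d := by
        have : 0 < Nat.gcd N d := Nat.gcd_pos_of_pos_left _ hN
        omega
      obtain ⟨N', hN'⟩ := Nat.gcd_dvd_left N d
      have hN'pos : 1 ≤ N' := by
        rcases Nat.eq_zero_or_pos N' with h0 | h0
        · rw [h0, mul_zero] at hN'; omega
        · exact h0
      have hlt : N' < N := by
        calc N' = 1 * N' := (one_mul _).symm
          _ < Nat.gcd N d * N' := Nat.mul_lt_mul_of_pos_right hg1 hN'pos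
          _ = N := hN'.symm
      obtain ⟨N1, N2, e, h1, h2, h3⟩ := ih N' hlt hN'pos
      refine ⟨Nat.gcd N d * N1, N2, e + 1, ?_, ?_, h3⟩
      · calc N = Nat.gcd N d * N' := hN'
          _ = Nat.gcd N d * (N1 * N2) := by rw [← h1]
          _ = _ := by ring
      · rw [pow_succ, mul_comm (d ^ e)]
        exact Nat.mul_dvd_mul (Nat.gcd_dvd_right N d) h2

/-- splitting of a root of unity -/
theorem SPLT {d : ℕ} (hd : 2 ≤ d) {c : kˣ} {N : ℕ} (hN : 1 ≤ N) (hc : c ^ N = 1) :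
    ∃ (ξ c' : kˣ) (e r : ℕ), ξ ^ (d ^ e) = 1 ∧ 1 ≤ r ∧ c' ^ (d ^ r) = c' ∧ c = ξ * c' := by
  obtain ⟨N1, N2, e, h1, h2, h3⟩ := SPLT_dec d hd N hN
  have hN2 : 0 < N2 := by
    rcases Nat.eq_zero_or_pos N2 with h0 | h0
    · rw [h0, mul_zero] at h1; omega
    · exact h0
  have hcop : Nat.Coprime N1 N2 :=
    Nat.Coprime.coprime_dvd_left h2 (Nat.Coprime.pow_left e h3.symm)
  have hbez : (N1 : ℤ) * Nat.gcdA N1 N2 + N2 * Nat.gcdB N1 N2 = 1 := by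
    rw [← Nat.gcd_eq_gcd_ab, hcop.gcd_eq_one]; rfl
  refine ⟨c ^ ((N2 : ℤ) * Nat.gcdB N1 N2), c ^ ((N1 : ℤ) * Nat.gcdA N1 N2), e, Nat.totient N2,
    ?_, Nat.totient_pos.2 hN2, ?_, ?_⟩
  · obtain ⟨t, ht⟩ := h2
    have : c ^ ((N2 : ℤ) * Nat.gcdB N1 N2 * ((d ^ e : ℕ) : ℤ)) = 1 := by
      have h5 : (N2 : ℤ) * Nat.gcdB N1 N2 * ((d ^ e : ℕ) : ℤ) = (N : ℤ) * (Nat.gcdB N1 N2 * t) := by
        rw [ht, h1]; push_cast; ring
      rw [h5, zpow_mul, zpow_natCast, hc, one_zpow]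
    rw [zpow_mul, zpow_natCast] at this
    exact this
  · have h4 : (c ^ ((N1 : ℤ) * Nat.gcdA N1 N2)) ^ N2 = 1 := by
      rw [← zpow_natCast, ← zpow_mul]
      have h5 : (N1 : ℤ) * Nat.gcdA N1 N2 * (N2 : ℤ) = (N : ℤ) * Nat.gcdA N1 N2 := by
        rw [h1]; push_cast; ring
      rw [h5, zpow_mul, zpow_natCast, hc, one_zpow]
    have h6 : d ^ Nat.totient N2 ≡ 1 [MOD N2] := Nat.ModEq.pow_totient h3.symm
    have h7 : N2 ∣ d ^ Nat.totient N2 - 1 := by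
      exact (Nat.modEq_iff_dvd' (Nat.one_le_pow _ _ (by omega))).1 h6.symm
    obtain ⟨t, ht⟩ := h7
    have h8 : d ^ Nat.totient N2 = N2 * t + 1 := by
      have := Nat.one_le_pow (Nat.totient N2) d (by omega)
      omega
    rw [h8, pow_succ, pow_mul, h4, one_pow, one_mul]
  · rw [← zpow_add]
    have h5 : (N2 : ℤ) * Nat.gcdB N1 N2 + (N1 : ℤ) * Nat.gcdA N1 N2 = 1 := by
      rw [← hbez]; ring
    rw [h5, zpow_one]

end Pool.Agent.Lib_helper45.BDP.SPLT
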