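import Pool.Agent.Lib_helper45.BDP.Defs

set_option autoImplicit false

namespace Pool.Agent.Lib_helper45.BDP.SWAP

open Polynomial

variable {k : Type*} [Field k] [IsAlgClosed k] [CharZero k]

/-- `cmp2` as a ring homomorphism -/
noncomputable def SWAP_hom (F : k[X]) : k[X][X] →+* k[X][X] :=
  (compRingHom (F.map C)).comp (mapRingHom (compRingHom F))

theorem SWAP_hom_apply (F : k[X]) (G : k[X][X]) : SWAP_hom F G = cmp2 F G := rfl

theorem SWAP_coeff (G : k[X][X]) (i j : ℕ) :
    ((Bivariate.swap G).coeff i).coeff j = (G.coeff j).coeff i := by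
  induction G using Polynomial.induction_on' with
  | add p q hp hq => rw [map_add, coeff_add, coeff_add, coeff_add, coeff_add, hp, hq]
  | monomial n f =>
    induction f using Polynomial.induction_on' with
    | add p q hp hq =>
      rw [map_add, map_add, coeff_add, coeff_add, coeff_add, coeff_add, hp, hq]
    | monomial m a =>
      rw [Bivariate.swap_monomial_monomial]
      simp only [coeff_monomial]
      by_cases h1 : m = i <;> by_cases h2 : n = j <;> simp [h1, h2, coeff_monomial]

theorem SWAP_cmp2 (F : k[X]) (G : k[X][X]) :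
    Bivariate.swap (cmp2 F G) = cmp2 F (Bivariate.swap G) := by
  have h : ((Bivariate.swap (R := k)) : k[X][X] →+* k[X][X]).comp (SWAP_hom F) =
      (SWAP_hom F).comp ((Bivariate.swap (R := k)) : k[X][X] →+* k[X][X]) := by
    apply Polynomial.ringHom_ext
    · intro g
      have h1 : ((Bivariate.swap (R := k)) : k[X][X] →+* k[X][X]).comp (SWAP_hom F) (C g) =
          Bivariate.swap (cmp2 F (C g)) := rfl
      have h2 : (SWAP_hom F).comp ((Bivariate.swap (R := k)) : k[X][X] →+* k[X][X]) (C g) =
          cmp2 F (Bivariate.swap (C g)) := rfl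
      rw [h1, h2, cmp2_CC, Bivariate.swap_C, Bivariate.swap_C, cmp2_mapC]
    · have h1 : ((Bivariate.swap (R := k)) : k[X][X] →+* k[X][X]).comp (SWAP_hom F) X =
          Bivariate.swap (cmp2 F X) := rfl
      have h2 : (SWAP_hom F).comp ((Bivariate.swap (R := k)) : k[X][X] →+* k[X][X]) X =
          cmp2 F (Bivariate.swap X) := rfl
      rw [h1, h2, cmp2_X, Bivariate.swap_Y, cmp2_CC, X_comp, Bivariate.swap_map_C]
  exact RingHom.congr_fun h G

theorem SWAP_ev2 (u v : L k) (G : k[X][X]) : ev2 v u (Bivariate.swap G) = ev2 u v G := by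
  induction G using Polynomial.induction_on' with
  | add p q hp hq =>
    rw [map_add]
    unfold ev2 at hp hq ⊢
    rw [eval₂_add, eval₂_add, hp, hq]
  | monomial n f =>
    induction f using Polynomial.induction_on' with
    | add p q hp hq =>
      rw [map_add, map_add]
      unfold ev2 at hp hq ⊢
      rw [eval₂_add, eval₂_add, hp, hq]
    | monomial m a =>
      rw [Bivariate.swap_monomial_monomial]
      unfold ev2
      rw [eval₂_monomial, eval₂_monomial]
      have h1 : ∀ (w : L k) (i : ℕ), (Polynomial.aeval w : k[X] →ₐ[k] L k).toRingHom (monomial i a)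
          = algebraMap k (L k) a * w ^ i := fun w i => aeval_monomial w
      rw [h1, h1]
      ring

theorem SWAP (G : k[X][X]) : ∃ G' : k[X][X],
    (∀ i j, (G'.coeff i).coeff j = (G.coeff j).coeff i) ∧
    (Irreducible G → Irreducible G') ∧ (∀ F : k[X], G ∣ cmp2 F G → G' ∣ cmp2 F G') ∧
    (∀ u v : L k, ev2 v u G' = ev2 u v G) := by
  refine ⟨Bivariate.swap G, SWAP_coeff G, ?_, ?_, fun u v => SWAP_ev2 u v G⟩
  · intro h
    exact (MulEquiv.irreducible_iff (Bivariate.swap (R := k)).toMulEquiv).2 h
  · intro F hF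
    obtain ⟨c, hc⟩ := hF
    refine ⟨Bivariate.swap c, ?_⟩
    rw [← SWAP_cmp2, ← map_mul, ← hc]

end Pool.Agent.Lib_helper45.BDP.SWAP
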