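import Pool.Agent.Lib_helper45.BDP.Defs

set_option autoImplicit false

namespace Pool.Agent.Lib_helper45.BDP.TPOW

variable {k : Type*} [Field k] [IsAlgClosed k] [CharZero k]

theorem TPOW {T : L k} {l : ℕ} (hl : l.Prime)
    (h : ∀ (e : ℕ) (ζ : kˣ), ζ ^ (l ^ e) = 1 →
      ∃ b : k, th ζ 1 T = (ζ : k) • T + algebraMap k (L k) b) : ¬ NP T := by
  rintro ⟨j, hj, hTj⟩
  obtain ⟨n, rfl⟩ := Int.eq_ofNat_of_zero_le hj.le
  set e := n + 1 with he
  have hlt : n + 1 < l ^ e := Nat.lt_pow_self hl.one_lt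
  have hle : l ^ e ≠ 0 := pow_ne_zero _ hl.ne_zero
  haveI : NeZero ((l ^ e : ℕ) : k) := ⟨by exact_mod_cast hle⟩
  haveI : NeZero (l ^ e) := ⟨hle⟩
  obtain ⟨z, hz⟩ := HasEnoughRootsOfUnity.exists_primitiveRoot k (l ^ e)
  have hz0 : z ≠ 0 := hz.ne_zero hle
  have hzu : IsPrimitiveRoot (Units.mk0 z hz0) (l ^ e) := by
    rw [← IsPrimitiveRoot.coe_units_iff]
    exact hz
  obtain ⟨b, hb⟩ := h e (Units.mk0 z hz0) hzu.pow_eq_one
  have h1 := congrArg (fun u : L k => u.coeff (n : ℤ)) hb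
  simp only [th_one_coeff, HahnSeries.coeff_add, HahnSeries.coeff_smul, smul_eq_mul] at h1
  have hn0 : (n : ℤ) ≠ 0 := by omega
  rw [algebraMap_L, HahnSeries.C_apply, HahnSeries.coeff_single_of_ne hn0, add_zero] at h1
  have h2 : (((Units.mk0 z hz0) ^ (-(n : ℤ)) : kˣ) : k) = z := mul_right_cancel₀ hTj h1
  have h3 : (Units.mk0 z hz0) ^ (-(n : ℤ)) = Units.mk0 z hz0 := by
    ext
    rw [h2]
    rfl
  have h4 : (Units.mk0 z hz0) ^ (n + 1) = 1 := by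
    have h5 : (Units.mk0 z hz0) ^ ((n : ℤ)) * (Units.mk0 z hz0) ^ (-(n : ℤ)) = 1 := by
      rw [← zpow_add]; simp
    rw [h3, zpow_natCast, ← pow_succ] at h5
    exact h5
  have h6 := hzu.dvd_of_pow_eq_one (n + 1) h4
  have h7 := Nat.le_of_dvd (by omega) h6
  omega

end Pool.Agent.Lib_helper45.BDP.TPOW
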