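import Pool.Agent.Lib_helper45.BDP.Defs

/-!
# Block TRN
-/

namespace Pool.Agent.Lib_helper45.BDP.TRN

open Polynomial

noncomputable section

variable {k : Type*} [Field k] [IsAlgClosed k] [CharZero k]

theorem TRN {u : L k} (hu : ∀ a : k, u ≠ algebraMap k (L k) a) : Transcendental k u := by
  intro halg
  have hint : IsIntegral k u := halg.isIntegral
  have hirr := minpoly.irreducible hint
  have hdeg := IsAlgClosed.degree_eq_one_of_irreducible k hirr
  obtain ⟨a, ha⟩ := minpoly.mem_range_of_degree_eq_one k u hdeg
  exact hu a ha.symm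

end

end Pool.Agent.Lib_helper45.BDP.TRN
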