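import Pool.Agent.Lib_helper45.BDP.Defs

set_option autoImplicit false

namespace Pool.Agent.Lib_helper45.BDP.TRSP

open Polynomial

variable {k : Type*} [Field k] {n : ℕ}

variable [IsAlgClosed k] [CharZero k]

theorem TRSP_X {σ : Type*} (H : MvPolynomial σ k) : cmp (X : k[X]) H = H := by
  have h := cmp_itr_zero (X : k[X]) H
  rwa [itr_zero] at h

theorem TRSP_itr {f f' l : k[X]} (h : f.comp l = l.comp f') (r : ℕ) :
    (itr f r).comp l = l.comp (itr f' r) := by
  induction r with
  | zero => rw [itr_zero, itr_zero, X_comp, comp_X]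
  | succ r ih => rw [itr_succ, itr_succ, comp_assoc, ih, ← comp_assoc, h, comp_assoc]

/-- transport of a periodic hypersurface to the monic centered model -/
theorem TRSP {f f' : k[X]} {a b : k} (ha : a ≠ 0)
    (h : f.comp (C a * X + C b) = (C a * X + C b).comp f') {G : MvPolynomial (Fin n) k}
    (hG : Irreducible G) :
    Irreducible (cmp (C a * X + C b) G) ∧
    ∀ r, G ∣ cmp (itr f r) G → cmp (C a * X + C b) G ∣ cmp (itr f' r) (cmp (C a * X + C b) G) := by
  set l : k[X] := C a * X + C b with hl
  set l' : k[X] := C a⁻¹ * X - C (a⁻¹ * b) with hl'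
  have h1 : l'.comp l = X := by
    rw [hl, hl']
    simp only [sub_comp, mul_comp, C_comp, X_comp]
    rw [mul_add, ← mul_assoc, ← C_mul, inv_mul_cancel₀ ha, C_1, one_mul, ← C_mul, add_sub_cancel_right]
  have h2 : l.comp l' = X := by
    rw [hl, hl']
    simp only [add_comp, mul_comp, C_comp, X_comp]
    rw [mul_sub, ← mul_assoc, ← C_mul, mul_inv_cancel₀ ha, C_1, one_mul, ← C_mul, ← mul_assoc,
      mul_inv_cancel₀ ha, one_mul, sub_add_cancel]
  let E : MvPolynomial (Fin n) k ≃* MvPolynomial (Fin n) k :=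
    { toFun := cmp l
      invFun := cmp l'
      left_inv := fun H => by
        show cmp l' (cmp l H) = H
        rw [cmp_cmp, h2, TRSP_X]
      right_inv := fun H => by
        show cmp l (cmp l' H) = H
        rw [cmp_cmp, h1, TRSP_X]
      map_mul' := fun x y => map_mul _ x y }
  refine ⟨?_, ?_⟩
  · exact (MulEquiv.irreducible_iff E).2 hG
  · intro r hr
    rw [cmp_cmp, ← TRSP_itr h, ← cmp_cmp]
    exact map_dvd _ hr

end Pool.Agent.Lib_helper45.BDP.TRSP
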