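import Pool.Agent.Lib_helper45.BDP.Defs

/-!
# Block TWOV
-/

namespace Pool.Agent.Lib_helper45.BDP.TWOV

open Polynomial Pool.Agent.Lib_helper45.BDP

noncomputable section

variable {k : Type*} [Field k] [IsAlgClosed k] [CharZero k]

/-- the back map `x ↦ X i`, `y ↦ X j` -/
def twov_bk {σ : Type*} (i j : σ) : k[X][X] →+* MvPolynomial σ k :=
  Polynomial.eval₂RingHom
    (Polynomial.aeval (MvPolynomial.X i : MvPolynomial σ k) : k[X] →ₐ[k] MvPolynomial σ k).toRingHom
    (MvPolynomial.X j)

omit [IsAlgClosed k] [CharZero k] in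
theorem twov_bk_C {σ : Type*} (i j : σ) (p : k[X]) :
    twov_bk i j (C p) = Polynomial.aeval (MvPolynomial.X i : MvPolynomial σ k) p := by
  rw [twov_bk, Polynomial.coe_eval₂RingHom, Polynomial.eval₂_C]
  rfl

omit [IsAlgClosed k] [CharZero k] in
theorem twov_bk_X {σ : Type*} (i j : σ) :
    twov_bk i j (X : k[X][X]) = (MvPolynomial.X j : MvPolynomial σ k) := by
  rw [twov_bk, Polynomial.coe_eval₂RingHom, Polynomial.eval₂_X]

omit [IsAlgClosed k] [CharZero k] in
theorem twov_bk_map {σ : Type*} (i j : σ) (g : k[X]) :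
    twov_bk i j (g.map C) = Polynomial.aeval (MvPolynomial.X j : MvPolynomial σ k) g := by
  rw [twov_bk, Polynomial.coe_eval₂RingHom, Polynomial.eval₂_map, Polynomial.aeval_def]
  congr 1
  apply RingHom.ext
  intro a
  change Polynomial.aeval (MvPolynomial.X i : MvPolynomial σ k) (C a) = _
  rw [Polynomial.aeval_C]

omit [IsAlgClosed k] [CharZero k] in
theorem twov_sl_X_left {σ : Type*} (i j : σ) (a : σ → k) :
    sl i j a (MvPolynomial.X i) = (C X : k[X][X]) := by
  simp [sl]

omit [IsAlgClosed k] [CharZero k] in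
theorem twov_sl_X_right {σ : Type*} {i j : σ} (hij : i ≠ j) (a : σ → k) :
    sl i j a (MvPolynomial.X j) = (X : k[X][X]) := by
  simp [sl, hij.symm]

omit [IsAlgClosed k] [CharZero k] in
theorem twov_sl_bk {σ : Type*} {i j : σ} (hij : i ≠ j) (a : σ → k) (P : k[X][X]) :
    sl i j a (twov_bk i j P) = P := by
  have h : ((sl i j a : MvPolynomial σ k →ₐ[k] k[X][X]) : MvPolynomial σ k →+* k[X][X]).comp
      (twov_bk i j) = RingHom.id k[X][X] := by
    apply Polynomial.ringHom_ext'
    · apply Polynomial.ringHom_ext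
      · intro c
        change sl i j a (twov_bk i j (C (C c))) = C (C c)
        rw [twov_bk_C, Polynomial.aeval_C, AlgHom.commutes]
        rfl
      · change sl i j a (twov_bk i j (C X)) = C X
        rw [twov_bk_C, Polynomial.aeval_X, twov_sl_X_left]
    · change sl i j a (twov_bk i j X) = X
      rw [twov_bk_X, twov_sl_X_right hij]
  exact RingHom.congr_fun h P

omit [IsAlgClosed k] [CharZero k] in
theorem twov_bk_sl {σ : Type*} {i j : σ} (hij : i ≠ j) (a : σ → k) {G : MvPolynomial σ k}
    (hv : ∀ s ∈ G.vars, s = i ∨ s = j) : twov_bk i j (sl i j a G) = G := by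
  have hmem : G ∈ Algebra.adjoin k (MvPolynomial.X '' ({i, j} : Set σ) : Set (MvPolynomial σ k)) := by
    have h1 : G ∈ MvPolynomial.supported k ({i, j} : Set σ) := by
      rw [MvPolynomial.mem_supported]
      intro s hs
      rcases hv s hs with h | h
      · exact Or.inl h
      · exact Or.inr h
    exact h1
  clear hv
  induction hmem using Algebra.adjoin_induction with
  | mem x hx =>
    obtain ⟨s, hs, rfl⟩ := hx
    rcases hs with rfl | hs
    · rw [twov_sl_X_left, twov_bk_C, Polynomial.aeval_X]
    · rw [Set.mem_singleton_iff] at hs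
      subst hs
      rw [twov_sl_X_right hij, twov_bk_X]
  | algebraMap r =>
    rw [AlgHom.commutes]
    change twov_bk i j (C (C r)) = _
    rw [twov_bk_C, Polynomial.aeval_C]
  | add x y _ _ hx hy => rw [map_add, map_add, hx, hy]
  | mul x y _ _ hx hy => rw [map_mul, map_mul, hx, hy]

omit [IsAlgClosed k] [CharZero k] in
theorem twov_vars_aeval {σ : Type*} (i : σ) (p : k[X]) {s : σ}
    (hs : s ∈ (Polynomial.aeval (MvPolynomial.X i : MvPolynomial σ k) p).vars) : s = i := by
  have h1 : Polynomial.aeval (MvPolynomial.X i : MvPolynomial σ k) p ∈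
      MvPolynomial.supported k ({i} : Set σ) := by
    rw [MvPolynomial.supported, Set.image_singleton, Algebra.adjoin_singleton_eq_range_aeval]
    exact ⟨p, rfl⟩
  rw [MvPolynomial.mem_supported] at h1
  exact h1 hs

/-- two variables only -/
theorem TWOV {σ : Type*} [Finite σ] {G : MvPolynomial σ k} (hG : Irreducible G) {i j : σ}
    (hij : i ≠ j) (hi : i ∈ G.vars) (hj : j ∈ G.vars) (hv : ∀ s ∈ G.vars, s = i ∨ s = j)
    (a : σ → k) : Irreducible (sl i j a G) ∧ 1 ≤ (sl i j a G).natDegree ∧
      (∃ s, 1 ≤ ((sl i j a G).coeff s).natDegree) ∧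
      ∀ g : k[X], (Associated (sl i j a G) (X - C g) →
          Associated G (MvPolynomial.X j - Polynomial.aeval (MvPolynomial.X i) g)) ∧
        (Associated (sl i j a G) (C X - g.map C) →
          Associated G (MvPolynomial.X i - Polynomial.aeval (MvPolynomial.X j) g)) := by
  have hback := twov_bk_sl hij a hv
  refine ⟨⟨?_, ?_⟩, ?_, ?_, ?_⟩
  · intro hu
    have h1 := hu.map (twov_bk i j)
    rw [hback] at h1
    exact hG.not_isUnit h1
  · intro A B hAB
    have h1 : G = twov_bk i j A * twov_bk i j B := by rw [← map_mul, ← hAB, hback]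
    rcases hG.isUnit_or_isUnit h1 with h | h
    · left
      have h2 := h.map (sl i j a)
      rwa [twov_sl_bk hij] at h2
    · right
      have h2 := h.map (sl i j a)
      rwa [twov_sl_bk hij] at h2
  · by_contra hlt
    have h0 : (sl i j a G).natDegree = 0 := by omega
    have h1 := Polynomial.eq_C_of_natDegree_eq_zero h0
    have h2 : G = Polynomial.aeval (MvPolynomial.X i : MvPolynomial σ k) ((sl i j a G).coeff 0) := by
      rw [← twov_bk_C i j, ← h1, hback]
    rw [h2] at hj
    exact hij (twov_vars_aeval i _ hj).symm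
  · by_contra hlt
    push Not at hlt
    have h1 : sl i j a G = ((sl i j a G).map (Polynomial.evalRingHom 0)).map C := by
      ext1 s
      rw [Polynomial.coeff_map, Polynomial.coeff_map]
      have h2 : ((sl i j a G).coeff s).natDegree = 0 := by
        have := hlt s
        omega
      rw [Polynomial.coe_evalRingHom, ← Polynomial.coeff_zero_eq_eval_zero]
      exact Polynomial.eq_C_of_natDegree_eq_zero h2
    have h2 : G = Polynomial.aeval (MvPolynomial.X j : MvPolynomial σ k)
        ((sl i j a G).map (Polynomial.evalRingHom 0)) := by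
      rw [← twov_bk_map i j, ← h1, hback]
    rw [h2] at hi
    exact hij (twov_vars_aeval j _ hi)
  · intro g
    constructor
    · intro h
      have h1 := h.map (twov_bk i j)
      rwa [hback, map_sub, twov_bk_X, twov_bk_C] at h1
    · intro h
      have h1 := h.map (twov_bk i j)
      rwa [hback, map_sub, twov_bk_map, twov_bk_C, Polynomial.aeval_X] at h1

end

end Pool.Agent.Lib_helper45.BDP.TWOV
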