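import Pool.Agent.Lib_helper45.BDP.Defs

namespace Pool.Agent.Lib_helper45.BDP.VHYP

open Polynomial

noncomputable section

variable {k : Type*} [Field k] {n : ℕ}

theorem vhyp_support (e : Fin n → ℕ) (F : MvPolynomial (Fin n) k) (P : Fin n → OnePoint k)
    (s : Finset (Fin n →₀ ℕ)) (hs : F.support ⊆ s) :
    mval e F P = ∑ m ∈ s, F.coeff m * ∏ i, cval (e i) (m i) (P i) := by
  unfold mval
  apply Finset.sum_subset hs
  intro m _ hm
  rw [MvPolynomial.notMem_support_iff.1 hm, zero_mul]

theorem vhyp_add (e : Fin n → ℕ) (F G : MvPolynomial (Fin n) k) (P : Fin n → OnePoint k) :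
    mval e (F + G) P = mval e F P + mval e G P := by
  classical
  rw [vhyp_support e (F + G) P (F.support ∪ G.support) MvPolynomial.support_add,
    vhyp_support e F P (F.support ∪ G.support) Finset.subset_union_left,
    vhyp_support e G P (F.support ∪ G.support) Finset.subset_union_right,
    ← Finset.sum_add_distrib]
  apply Finset.sum_congr rfl
  intro m _
  rw [MvPolynomial.coeff_add, add_mul]

theorem vhyp_zero (e : Fin n → ℕ) (P : Fin n → OnePoint k) :
    mval e (0 : MvPolynomial (Fin n) k) P = 0 := by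
  unfold mval
  simp

theorem vhyp_neg (e : Fin n → ℕ) (F : MvPolynomial (Fin n) k) (P : Fin n → OnePoint k) :
    mval e (-F) P = - mval e F P := by
  have h := vhyp_add e F (-F) P
  rw [add_neg_cancel, vhyp_zero] at h
  exact eq_neg_of_add_eq_zero_right h.symm

theorem vhyp_sum {ι : Type*} (e : Fin n → ℕ) (s : Finset ι) (f : ι → MvPolynomial (Fin n) k)
    (P : Fin n → OnePoint k) : mval e (∑ x ∈ s, f x) P = ∑ x ∈ s, mval e (f x) P := by
  classical
  induction s using Finset.induction_on with
  | empty => simp [vhyp_zero]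
  | insert a s ha ih => rw [Finset.sum_insert ha, Finset.sum_insert ha, vhyp_add, ih]

theorem vhyp_monomial (e : Fin n → ℕ) (m : Fin n →₀ ℕ) (c : k) (P : Fin n → OnePoint k) :
    mval e (MvPolynomial.monomial m c) P = c * ∏ i, cval (e i) (m i) (P i) := by
  rw [vhyp_support e _ P {m} MvPolynomial.support_monomial_subset, Finset.sum_singleton,
    MvPolynomial.coeff_monomial, if_pos rfl]

theorem vhyp_cval_zero (z : OnePoint k) : cval 0 0 z = 1 := by
  induction z using OnePoint.rec with
  | infty => simp [cval]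
  | coe x => simp [cval]

/-- the multidegree -/
def vhypE (da db : ℕ) (i j : Fin n) : Fin n → ℕ :=
  fun l => if l = i then da else if l = j then db else 0

theorem vhyp_prod {da db : ℕ} {i j : Fin n} (hij : i ≠ j) (P : Fin n → OnePoint k) (s : ℕ) :
    ∏ l, cval (vhypE da db i j l) ((Finsupp.single i s) l) (P l) =
      cval da s (P i) * cval db 0 (P j) := by
  rw [Finset.prod_eq_mul i j hij]
  · simp [vhypE, hij, hij.symm, Finsupp.single_apply]
  · rintro l _ ⟨h1, h2⟩
    rw [vhypE, if_neg h1, if_neg h2, Finsupp.single_apply, if_neg (Ne.symm h1), vhyp_cval_zero]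
  · intro h
    exact absurd (Finset.mem_univ _) h
  · intro h
    exact absurd (Finset.mem_univ _) h

theorem vhyp_prod' {da db : ℕ} {i j : Fin n} (hij : i ≠ j) (P : Fin n → OnePoint k) (s : ℕ) :
    ∏ l, cval (vhypE da db i j l) ((Finsupp.single j s) l) (P l) =
      cval da 0 (P i) * cval db s (P j) := by
  rw [Finset.prod_eq_mul i j hij]
  · simp [vhypE, hij, hij.symm, Finsupp.single_apply]
  · rintro l _ ⟨h1, h2⟩
    rw [vhypE, if_neg h1, if_neg h2, Finsupp.single_apply, if_neg (Ne.symm h2), vhyp_cval_zero]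
  · intro h
    exact absurd (Finset.mem_univ _) h
  · intro h
    exact absurd (Finset.mem_univ _) h

/-- the polynomial `a(X_i) - b(X_j)` -/
def vhypF (a b : k[X]) (i j : Fin n) : MvPolynomial (Fin n) k :=
  (∑ s ∈ Finset.range (a.natDegree + 1), MvPolynomial.monomial (Finsupp.single i s) (a.coeff s)) +
    -(∑ s ∈ Finset.range (b.natDegree + 1), MvPolynomial.monomial (Finsupp.single j s) (b.coeff s))

/-- the value of the homogenization of `a` -/
def vhypV (a : k[X]) (z : OnePoint k) : k :=
  ∑ s ∈ Finset.range (a.natDegree + 1), a.coeff s * cval a.natDegree s z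

theorem vhypV_coe (a : k[X]) (x : k) : vhypV a (x : OnePoint k) = a.eval x := by
  rw [vhypV, eval_eq_sum_range]
  rfl

theorem vhypV_infty (a : k[X]) : vhypV a (OnePoint.infty : OnePoint k) = a.leadingCoeff := by
  rw [vhypV, Finset.sum_eq_single a.natDegree]
  · simp [cval]
  · intro b _ hb
    simp [cval, hb]
  · intro h
    exact absurd (Finset.mem_range.2 (Nat.lt_succ_self _)) h

theorem vhyp_mval (a b : k[X]) {i j : Fin n} (hij : i ≠ j) (P : Fin n → OnePoint k) :
    mval (vhypE a.natDegree b.natDegree i j) (vhypF a b i j) P =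
      vhypV a (P i) * cval b.natDegree 0 (P j) - cval a.natDegree 0 (P i) * vhypV b (P j) := by
  rw [vhypF, vhyp_add, vhyp_neg, vhyp_sum, vhyp_sum, vhypV, vhypV, Finset.sum_mul, Finset.mul_sum,
    sub_eq_add_neg]
  congr 1
  · apply Finset.sum_congr rfl
    intro s _
    rw [vhyp_monomial, vhyp_prod hij]
    ring
  · congr 1
    apply Finset.sum_congr rfl
    intro s _
    rw [vhyp_monomial, vhyp_prod' hij]
    ring

theorem vhyp_cval_coe (e : ℕ) (x : k) : cval e 0 (x : OnePoint k) = 1 := by
  show x ^ 0 = 1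
  exact pow_zero x

theorem vhyp_cval_infty {e : ℕ} (he : 1 ≤ e) : cval e 0 (OnePoint.infty : OnePoint k) = 0 := by
  show (if 0 = e then (1 : k) else 0) = 0
  rw [if_neg (by omega)]

theorem vhyp_supp (a : k[X]) (i : Fin n) {m : Fin n →₀ ℕ}
    (hm : m ∈ (∑ s ∈ Finset.range (a.natDegree + 1),
      MvPolynomial.monomial (Finsupp.single i s) (a.coeff s) : MvPolynomial (Fin n) k).support) :
    ∃ s ≤ a.natDegree, m = Finsupp.single i s := by
  classical
  have h1 := MvPolynomial.support_sum hm
  rw [Finset.mem_biUnion] at h1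
  obtain ⟨s, hs, h2⟩ := h1
  have h3 := MvPolynomial.support_monomial_subset h2
  rw [Finset.mem_singleton] at h3
  rw [Finset.mem_range] at hs
  exact ⟨s, by omega, h3⟩

variable [IsAlgClosed k] [CharZero k]

theorem VHYP {a b : k[X]} (ha : 1 ≤ a.natDegree) (hb : 1 ≤ b.natDegree) {i j : Fin n}
    (hij : i ≠ j) : IsHypersurface {P : Fin n → OnePoint k | pmap a (P i) = pmap b (P j)} := by
  classical
  have ha0 : a ≠ 0 := by rintro rfl; simp at ha
  have hb0 : b ≠ 0 := by rintro rfl; simp at hb
  refine ⟨vhypE a.natDegree b.natDegree i j, vhypF a b i j, ?_, ?_, ?_, ?_⟩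
  · intro h
    have h1 := congrFun h i
    rw [vhypE, if_pos rfl, Pi.zero_apply] at h1
    omega
  · intro h
    have h1 := vhyp_mval a b hij
      (fun l => if l = i then OnePoint.infty else ((0 : k) : OnePoint k))
    rw [h, vhyp_zero] at h1
    simp only [if_true, if_neg hij.symm] at h1
    rw [vhypV_infty, vhyp_cval_coe, vhyp_cval_infty ha, mul_one, zero_mul, sub_zero] at h1
    exact ha0 (leadingCoeff_eq_zero.1 h1.symm)
  · intro l
    rw [MvPolynomial.degreeOf_le_iff]
    intro m hm
    have h1 := MvPolynomial.support_add hm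
    rw [Finset.mem_union, MvPolynomial.support_neg] at h1
    rcases h1 with h1 | h1
    · obtain ⟨s, hs, rfl⟩ := vhyp_supp a i h1
      rw [Finsupp.single_apply, vhypE]
      by_cases hl : l = i
      · rw [if_pos hl.symm, if_pos hl]
        exact hs
      · rw [if_neg (Ne.symm hl)]
        exact Nat.zero_le _
    · obtain ⟨s, hs, rfl⟩ := vhyp_supp b j h1
      rw [Finsupp.single_apply, vhypE]
      by_cases hl : l = j
      · rw [if_pos hl.symm, if_neg (by rw [hl]; exact hij.symm), if_pos hl]
        exact hs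
      · rw [if_neg (Ne.symm hl)]
        exact Nat.zero_le _
  · ext P
    rw [Set.mem_setOf_eq, Set.mem_setOf_eq, vhyp_mval a b hij]
    obtain ⟨u, hu⟩ : ∃ u, u = P i := ⟨_, rfl⟩
    obtain ⟨v, hv⟩ : ∃ v, v = P j := ⟨_, rfl⟩
    rw [← hu, ← hv]
    induction u using OnePoint.rec with
    | infty =>
      induction v using OnePoint.rec with
      | infty =>
        rw [vhyp_cval_infty ha, vhyp_cval_infty hb, mul_zero, zero_mul, sub_zero]
        simp [pmap]
      | coe y =>
        rw [vhyp_cval_infty ha, vhyp_cval_coe, vhypV_infty, mul_one, zero_mul, sub_zero]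
        have h1 : a.leadingCoeff ≠ 0 := leadingCoeff_ne_zero.2 ha0
        simp only [h1, iff_false]
        intro h2
        exact OnePoint.infty_ne_coe (b.eval y) h2
    | coe x =>
      induction v using OnePoint.rec with
      | infty =>
        rw [vhyp_cval_infty hb, vhyp_cval_coe, vhypV_infty, mul_zero, one_mul, zero_sub]
        have h1 : b.leadingCoeff ≠ 0 := leadingCoeff_ne_zero.2 hb0
        simp only [neg_eq_zero, h1, iff_false]
        intro h2
        exact OnePoint.coe_ne_infty (a.eval x) h2
      | coe y =>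
        rw [vhyp_cval_coe, vhyp_cval_coe, vhypV_coe, vhypV_coe, mul_one, one_mul, sub_eq_zero]
        show ((a.eval x : k) : OnePoint k) = ((b.eval y : k) : OnePoint k) ↔ _
        exact OnePoint.coe_eq_coe

end

end Pool.Agent.Lib_helper45.BDP.VHYP
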