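import Pool.Agent.Lib_helper45.BDP.Defs

/-!
# Definitions for part C: affine points
-/

namespace Pool.Agent.Lib_helper45.BDP

open Polynomial

noncomputable section

variable {k : Type*} [Field k] {n : ℕ}

/-- affine points -/
def aff (x : Fin n → k) : Fin n → OnePoint k := fun i => (x i : OnePoint k)

end

end Pool.Agent.Lib_helper45.BDP
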