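import Pool.Agent.Lib_helper45.BDP.DefsB
import Pool.Agent.Lib_helper45.BDP.DefsC
import Pool.Agent.Lib_helper45.BDP.B_ANN
import Pool.Agent.Lib_helper45.BDP.B_AVG
import Pool.Agent.Lib_helper45.BDP.B_BOT
import Pool.Agent.Lib_helper45.BDP.B_BRAN
import Pool.Agent.Lib_helper45.BDP.B_CHEB
import Pool.Agent.Lib_helper45.BDP.B_CONJ
import Pool.Agent.Lib_helper45.BDP.B_DEGG
import Pool.Agent.Lib_helper45.BDP.B_DEGX
import Pool.Agent.Lib_helper45.BDP.B_DINV
import Pool.Agent.Lib_helper45.BDP.B_DIVC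
import Pool.Agent.Lib_helper45.BDP.B_DMAP
import Pool.Agent.Lib_helper45.BDP.B_DPOL
import Pool.Agent.Lib_helper45.BDP.B_DPOW
import Pool.Agent.Lib_helper45.BDP.B_DROT
import Pool.Agent.Lib_helper45.BDP.B_DSYM
import Pool.Agent.Lib_helper45.BDP.B_DTRA
import Pool.Agent.Lib_helper45.BDP.B_DXI
import Pool.Agent.Lib_helper45.BDP.B_EDGE
import Pool.Agent.Lib_helper45.BDP.B_EMBD
import Pool.Agent.Lib_helper45.BDP.B_FACP
import Pool.Agent.Lib_helper45.BDP.B_FACT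
import Pool.Agent.Lib_helper45.BDP.B_FIBX
import Pool.Agent.Lib_helper45.BDP.B_FINI
import Pool.Agent.Lib_helper45.BDP.B_FITR
import Pool.Agent.Lib_helper45.BDP.B_GR0
import Pool.Agent.Lib_helper45.BDP.B_GR2
import Pool.Agent.Lib_helper45.BDP.B_GROU
import Pool.Agent.Lib_helper45.BDP.B_GROW
import Pool.Agent.Lib_helper45.BDP.B_HYPX
import Pool.Agent.Lib_helper45.BDP.B_INFI
import Pool.Agent.Lib_helper45.BDP.B_INTX
import Pool.Agent.Lib_helper45.BDP.B_ISOM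
import Pool.Agent.Lib_helper45.BDP.B_LAM2
import Pool.Agent.Lib_helper45.BDP.B_LCU
import Pool.Agent.Lib_helper45.BDP.B_LOCE
import Pool.Agent.Lib_helper45.BDP.B_NEWT
import Pool.Agent.Lib_helper45.BDP.B_NPC
import Pool.Agent.Lib_helper45.BDP.B_NPG
import Pool.Agent.Lib_helper45.BDP.B_NTH
import Pool.Agent.Lib_helper45.BDP.B_ONEV
import Pool.Agent.Lib_helper45.BDP.B_PER
import Pool.Agent.Lib_helper45.BDP.B_POWC
import Pool.Agent.Lib_helper45.BDP.B_PREL
import Pool.Agent.Lib_helper45.BDP.B_RATI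
import Pool.Agent.Lib_helper45.BDP.B_RESQ
import Pool.Agent.Lib_helper45.BDP.B_ROOB
import Pool.Agent.Lib_helper45.BDP.B_ROOU
import Pool.Agent.Lib_helper45.BDP.B_SLCM
import Pool.Agent.Lib_helper45.BDP.B_SLIC
import Pool.Agent.Lib_helper45.BDP.B_SPLT
import Pool.Agent.Lib_helper45.BDP.B_SWAP
import Pool.Agent.Lib_helper45.BDP.B_TPOW
import Pool.Agent.Lib_helper45.BDP.B_TRN
import Pool.Agent.Lib_helper45.BDP.B_TRSP
import Pool.Agent.Lib_helper45.BDP.B_TTH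
import Pool.Agent.Lib_helper45.BDP.B_TWOV
import Pool.Agent.Lib_helper45.BDP.B_VHYP

/-! Short names for the main theorems of the blocks. -/

namespace Pool.Agent.Lib_helper45.BDP

alias ANN := ANN.ANN
alias AVG := AVG.AVG
alias BOT := BOT.BOT
alias BRAN := BRAN.BRAN
alias CHEB := CHEB.CHEB
alias CONJ := CONJ.CONJ
alias DEGG := DEGG.DEGG
alias DEGX := DEGX.DEGX
alias DINV := DINV.DINV
alias DIVC := DIVC.DIVC
alias DMAP := DMAP.DMAP
alias DPOL := DPOL.DPOL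
alias DPOW := DPOW.DPOW
alias DROT := DROT.DROT
alias DSYM := DSYM.DSYM
alias DTRA := DTRA.DTRA
alias DXI := DXI.DXI
alias EDGE := EDGE.EDGE
alias EMBD := EMBD.EMBD
alias FACP := FACP.FACP
alias FACT := FACT.FACT
alias FIBX := FIBX.FIBX
alias FINI := FINI.FINI
alias FITR := FITR.FITR
alias GR0 := GR0.GR0
alias GR2 := GR2.GR2
alias GROU := GROU.GROU
alias GROW := GROW.GROW
alias HYPX := HYPX.HYPX
alias INFI := INFI.INFI
alias ATTR := ATTR.ATTR
alias CONT := CONT.CONT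
alias FIXP := FIXP.FIXP
alias MULT := MULT.MULT
alias INTX := INTX.INTX
alias ISOM := ISOM.ISOM
alias LAM2 := LAM2.LAM2
alias LCU := LCU.LCU
alias LOCE := LOCE.LOCE
alias NEWT := NEWT.NEWT
alias NPC := NPC.NPC
alias NPG := NPG.NPG
alias NTH := NTH.NTH
alias ONEV := ONEV.ONEV
alias PER := PER.PER
alias POWC := POWC.POWC
alias PREL := PREL.PREL
alias RATI := RATI.RATI
alias DISC := DISC.DISC
alias RESQ := RESQ.RESQ
alias ROOB := ROOB.ROOB
alias ROOU := ROOU.ROOU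
alias SLCM := SLCM.SLCM
alias SLIC := SLIC.SLIC
alias SPLT := SPLT.SPLT
alias SWAP := SWAP.SWAP
alias TPOW := TPOW.TPOW
alias TRN := TRN.TRN
alias TRSP := TRSP.TRSP
alias TTH := TTH.TTH
alias TWOV := TWOV.TWOV
alias VHYP := VHYP.VHYP

end Pool.Agent.Lib_helper45.BDP
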