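import Pool.Agent.Lib_helper45.BDP.DefsB
import Pool.Agent.Lib_helper45.BDP.W0

/-!
# BIGG: points on graphs of large degree are bounded at all places
-/

namespace Pool.Agent.Lib_helper45.BDP.BIGG

open Polynomial

noncomputable section

theorem bigg_union {K : Type*} [Field K] {Y Z : Set K} (hY : AllBdd Y) (hZ : AllBdd Z) :
    AllBdd (Y ∪ Z) := by
  classical
  obtain ⟨⟨S, hS⟩, hp, B, hB⟩ := hY
  obtain ⟨⟨S', hS'⟩, hp', B', hB'⟩ := hZ
  refine ⟨⟨S ∪ S', fun p _ hpS σ y hy => ?_⟩, fun p _ => ?_, ⟨max B B', fun σ y hy => ?_⟩⟩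
  · rw [Finset.notMem_union] at hpS
    rcases hy with hy | hy
    · exact hS p hpS.1 σ y hy
    · exact hS' p hpS.2 σ y hy
  · obtain ⟨C, hC⟩ := hp p
    obtain ⟨C', hC'⟩ := hp' p
    refine ⟨max C C', fun σ y hy => ?_⟩
    rcases hy with hy | hy
    · exact (hC σ y hy).trans (le_max_left _ _)
    · exact (hC' σ y hy).trans (le_max_right _ _)
  · rcases hy with hy | hy
    · exact (hB σ y hy).trans (le_max_left _ _)
    · exact (hB' σ y hy).trans (le_max_right _ _)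

theorem bigg_empty {K : Type*} [Field K] : AllBdd (∅ : Set K) :=
  ⟨⟨∅, fun _ _ _ _ _ hy => hy.elim⟩, fun _ _ => ⟨0, fun _ _ hy => hy.elim⟩,
    ⟨0, fun _ _ hy => hy.elim⟩⟩

variable {K : Type*} [Field K] [CharZero K] [Algebra.IsAlgebraic ℚ K] [IsAlgClosed K]

theorem bigg_finset (F : Finset K) : AllBdd (F : Set K) := by
  classical
  induction F using Finset.induction_on with
  | empty => simpa using bigg_empty
  | insert a s _ ih =>
    rw [Finset.coe_insert, Set.insert_eq]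
    exact bigg_union (EMBD a) ih

omit [CharZero K] [Algebra.IsAlgebraic ℚ K] [IsAlgClosed K] in
theorem bigg_fin1 (f : K[X]) : (Set.range f.coeff).Finite := by
  classical
  refine ((insert 0 (f.support.image f.coeff)).finite_toSet).subset ?_
  rintro _ ⟨i, rfl⟩
  by_cases hi : i ∈ f.support
  · exact Finset.mem_coe.2 (Finset.mem_insert_of_mem (Finset.mem_image_of_mem _ hi))
  · rw [notMem_support_iff.1 hi]
    exact Finset.mem_coe.2 (Finset.mem_insert_self _ _)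

omit [CharZero K] [Algebra.IsAlgebraic ℚ K] [IsAlgClosed K] in
theorem bigg_fin2 (Q : K[X][X]) : {a | ∃ i j, (Q.coeff i).coeff j = a}.Finite := by
  classical
  refine (Set.Finite.insert 0 (Set.Finite.biUnion (Q.support.finite_toSet)
    (fun i _ => bigg_fin1 (Q.coeff i)))).subset ?_
  rintro _ ⟨i, j, rfl⟩
  by_cases hi : i ∈ Q.support
  · exact Set.mem_insert_of_mem _ (Set.mem_biUnion hi ⟨j, rfl⟩)
  · rw [notMem_support_iff.1 hi, coeff_zero]
    exact Set.mem_insert _ _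

/-- the set -/
def biggSet (f : K[X]) (Q : K[X][X]) (A : ℕ) : Set K :=
  {y : K | ∃ (x : K) (g : K[X]) (N r : ℕ), 1 ≤ r ∧ r ∣ N ∧ A + 1 ≤ g.natDegree ∧
      (∃ s, 1 ≤ s ∧ g.leadingCoeff ^ s = 1) ∧
      g.comp (itr f r) = (itr f r).comp g ∧ (itr f N).eval x = g.eval ((itr f N).eval y) ∧
      (Q.map (evalRingHom y)).eval x = 0}

omit [CharZero K] [Algebra.IsAlgebraic ℚ K] [IsAlgClosed K] in
theorem bigg_eval {Ω : Type*} [Field Ω] (σ : K →+* Ω) (p : K[X]) (y : K) :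
    (p.map σ).eval (σ y) = σ (p.eval y) := by
  rw [eval_map, eval₂_at_apply]

omit [CharZero K] [Algebra.IsAlgebraic ℚ K] [IsAlgClosed K] in
/-- the local statement -/
theorem bigg_loc {Ω : Type*} [NormedField Ω] (σ : K →+* Ω) {f : K[X]} (hm : f.Monic)
    (hd : 2 ≤ f.natDegree) {Q : K[X][X]} (hQ : 1 ≤ Q.natDegree) {A : ℕ} {R κ C₁ : ℝ}
    (hG : Grow (f.map σ) R κ) (hC : 1 ≤ C₁)
    (hroot : ∀ x y : Ω, R < ‖y‖ → ((Q.map (mapRingHom σ)).map (evalRingHom y)).eval x = 0 →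
      ‖x‖ ≤ C₁ * ‖y‖ ^ A) {y : K} (hy : y ∈ biggSet f Q A) : ‖σ y‖ ≤ κ ^ (A + 2) * C₁ * R := by
  obtain ⟨x, g, N, r, hr, hN, hA, ⟨s, hs, hgs⟩, hcomm, hxy, hQx⟩ := hy
  have hσ : Function.Injective σ := σ.injective
  have hnd : (f.map σ).natDegree = f.natDegree := hm.natDegree_map σ
  refine LOCE (f := f.map σ) (g := g.map σ) (by rw [hnd]; exact hd) hG hC (x := σ x) hr hN ?_ ?_ ?_
    ?_ ?_
  · rw [leadingCoeff_map_of_injective hσ]
    have e1 : ‖σ g.leadingCoeff‖ ^ s = 1 := by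
      rw [← norm_pow, ← map_pow, hgs, map_one, norm_one]
    exact (pow_eq_one_iff_of_nonneg (norm_nonneg _) (by omega)).1 e1
  · rw [natDegree_map_eq_of_injective hσ]
    exact hA
  · rw [← itr_map, ← Polynomial.map_comp, ← Polynomial.map_comp, hcomm]
  · rw [← itr_map, bigg_eval, bigg_eval, bigg_eval, hxy]
  · intro hR
    refine hroot _ _ hR ?_
    have h1 : (Q.map (mapRingHom σ)).map (evalRingHom (σ y)) = (Q.map (evalRingHom y)).map σ := by
      rw [Polynomial.map_map, Polynomial.map_map]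
      congr 1
      ext p
      · simp
      · simp
    rw [h1, bigg_eval, hQx, map_zero]

omit [CharZero K] [Algebra.IsAlgebraic ℚ K] [IsAlgClosed K] in
theorem bigg_coeff {Ω : Type*} [Field Ω] (σ : K →+* Ω) (Q : K[X][X]) (i j : ℕ) :
    ((Q.map (mapRingHom σ)).coeff i).coeff j = σ ((Q.coeff i).coeff j) := by
  rw [coeff_map, coe_mapRingHom, coeff_map]

omit [CharZero K] [Algebra.IsAlgebraic ℚ K] [IsAlgClosed K] in
theorem bigg_nd {Ω : Type*} [Field Ω] (σ : K →+* Ω) (Q : K[X][X]) :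
    (Q.map (mapRingHom σ)).natDegree = Q.natDegree :=
  natDegree_map_eq_of_injective (map_injective σ σ.injective) Q

omit [CharZero K] [Algebra.IsAlgebraic ℚ K] [IsAlgClosed K] in
theorem bigg_lc {Ω : Type*} [Field Ω] (σ : K →+* Ω) (Q : K[X][X]) :
    (Q.map (mapRingHom σ)).leadingCoeff.leadingCoeff = σ Q.leadingCoeff.leadingCoeff := by
  rw [leadingCoeff_map_of_injective (map_injective σ σ.injective), coe_mapRingHom,
    leadingCoeff_map_of_injective σ.injective]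

omit [CharZero K] [Algebra.IsAlgebraic ℚ K] [IsAlgClosed K] in
/-- arbitrary bounds -/
theorem bigg_gen {Ω : Type*} [NormedField Ω] (σ : K →+* Ω) {f : K[X]} (hm : f.Monic)
    (hd : 2 ≤ f.natDegree) {Q : K[X][X]} (hQ : 1 ≤ Q.natDegree) {A : ℕ}
    (hA : ∀ i, (Q.coeff i).natDegree ≤ A) {B : ℝ} (hB : 1 ≤ B) (h1 : ∀ i, ‖σ (f.coeff i)‖ ≤ B)
    (h2 : ∀ i j, ‖σ ((Q.coeff i).coeff j)‖ ≤ B) (h3 : ‖σ (Q.leadingCoeff.leadingCoeff)⁻¹‖ ≤ B)
    {y : K} (hy : y ∈ biggSet f Q A) :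
    ‖σ y‖ ≤ (2 * B * (f.natDegree + 1)) ^ (A + 2) * (4 * B ^ 2 * (A + 1) * (Q.natDegree + 1)) *
      (2 * B * (f.natDegree + 1) + 4 * B ^ 2 * (A + 1)) := by
  have hnd : (f.map σ).natDegree = f.natDegree := hm.natDegree_map σ
  have hQ0 : Q ≠ 0 := by
    rintro rfl
    simp at hQ
  have hlc : Q.leadingCoeff.leadingCoeff ≠ 0 :=
    leadingCoeff_ne_zero.2 (leadingCoeff_ne_zero.2 hQ0)
  have hG : Grow (f.map σ) (2 * B * (f.natDegree + 1) + 4 * B ^ 2 * (A + 1))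
      (2 * B * (f.natDegree + 1)) := by
    have h := GROW (f := f.map σ) (B := B) (R := 2 * B * (f.natDegree + 1) + 4 * B ^ 2 * (A + 1))
      (hm.map σ) (by rw [hnd]; exact hd) hB
      (fun i => by rw [coeff_map]; exact h1 i) (by
        rw [hnd]
        have : 0 ≤ 4 * B ^ 2 * ((A : ℝ) + 1) := by positivity
        linarith)
    rw [hnd] at h
    exact h
  refine bigg_loc σ hm hd hQ hG ?_ ?_ hy
  · have e1 : (1 : ℝ) ≤ B ^ 2 := one_le_pow₀ hB
    have e2 : (1 : ℝ) ≤ (A : ℝ) + 1 := by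
      have : (0 : ℝ) ≤ A := Nat.cast_nonneg A
      linarith
    have e3 : (1 : ℝ) ≤ (Q.natDegree : ℝ) + 1 := by
      have : (0 : ℝ) ≤ Q.natDegree := Nat.cast_nonneg _
      linarith
    calc (1 : ℝ) ≤ 4 * 1 * 1 * 1 := by norm_num
      _ ≤ 4 * B ^ 2 * (A + 1) * (Q.natDegree + 1) := by gcongr
  · intro x y hyR h0
    have h4 := ROOB (Q := Q.map (mapRingHom σ)) (A := A) (B := B) (x := x) (y := y)
      (by rw [bigg_nd]; exact hQ)
      (fun i => by
        rw [coeff_map, coe_mapRingHom, natDegree_map_eq_of_injective σ.injective]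
        exact hA i) hB (fun i j => by rw [bigg_coeff]; exact h2 i j) (by
        rw [bigg_lc]
        rw [map_inv₀, norm_inv] at h3
        have hpos : 0 < ‖σ Q.leadingCoeff.leadingCoeff‖ :=
          norm_pos_iff.2 ((map_ne_zero σ).2 hlc)
        rw [inv_le_iff_one_le_mul₀ hpos] at h3
        exact h3) (by
        have : 0 < 2 * B * ((f.natDegree : ℝ) + 1) := by positivity
        linarith) h0
    rw [bigg_nd] at h4
    exact h4

omit [CharZero K] [Algebra.IsAlgebraic ℚ K] [IsAlgClosed K] in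
/-- good places -/
theorem bigg_good {Ω : Type*} [NormedField Ω] [IsUltrametricDist Ω] (σ : K →+* Ω) {f : K[X]}
    (hm : f.Monic)
    (hd : 2 ≤ f.natDegree) {Q : K[X][X]} (hQ : 1 ≤ Q.natDegree) {A : ℕ}
    (hA : ∀ i, (Q.coeff i).natDegree ≤ A) (h1 : ∀ i, ‖σ (f.coeff i)‖ ≤ 1)
    (h2 : ∀ i j, ‖σ ((Q.coeff i).coeff j)‖ ≤ 1) (h3 : ‖σ (Q.leadingCoeff.leadingCoeff)⁻¹‖ ≤ 1)
    {y : K} (hy : y ∈ biggSet f Q A) : ‖σ y‖ ≤ 1 := by
  have hnd : (f.map σ).natDegree = f.natDegree := hm.natDegree_map σ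
  have hQ0 : Q ≠ 0 := by
    rintro rfl
    simp at hQ
  have hlc : Q.leadingCoeff.leadingCoeff ≠ 0 :=
    leadingCoeff_ne_zero.2 (leadingCoeff_ne_zero.2 hQ0)
  have hG : Grow (f.map σ) 1 1 :=
    GROU (f := f.map σ) (hm.map σ) (by rw [hnd]; exact hd) (fun i => by rw [coeff_map]; exact h1 i)
  have h := bigg_loc σ hm hd hQ (C₁ := 1) hG le_rfl ?_ hy
  · simpa using h
  · intro x y hyR h0
    have h4 := ROOU (Q := Q.map (mapRingHom σ)) (A := A) (x := x) (y := y)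
      (by rw [bigg_nd]; exact hQ)
      (fun i => by
        rw [coeff_map, coe_mapRingHom, natDegree_map_eq_of_injective σ.injective]
        exact hA i) (fun i j => by rw [bigg_coeff]; exact h2 i j) (by
        rw [bigg_lc]
        rw [map_inv₀, norm_inv] at h3
        have hpos : 0 < ‖σ Q.leadingCoeff.leadingCoeff‖ :=
          norm_pos_iff.2 ((map_ne_zero σ).2 hlc)
        rw [inv_le_iff_one_le_mul₀ hpos, one_mul] at h3
        exact le_antisymm (h2 _ _) h3) hyR h0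
    rw [one_mul]
    exact h4

theorem BIGG {f : K[X]} (hm : f.Monic) (hd : 2 ≤ f.natDegree) {Q : K[X][X]} (hQ : 1 ≤ Q.natDegree)
    {A : ℕ} (hA : ∀ i, (Q.coeff i).natDegree ≤ A) :
    AllBdd {y : K | ∃ (x : K) (g : K[X]) (N r : ℕ), 1 ≤ r ∧ r ∣ N ∧ A + 1 ≤ g.natDegree ∧
      (∃ s, 1 ≤ s ∧ g.leadingCoeff ^ s = 1) ∧
      g.comp (itr f r) = (itr f r).comp g ∧ (itr f N).eval x = g.eval ((itr f N).eval y) ∧
      (Q.map (evalRingHom y)).eval x = 0} := by
  classical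
  have hfin : ((Set.range f.coeff ∪ {a | ∃ i j, (Q.coeff i).coeff j = a}) ∪
      {(Q.leadingCoeff.leadingCoeff)⁻¹}).Finite :=
    ((bigg_fin1 f).union (bigg_fin2 Q)).union (Set.finite_singleton _)
  have hall := bigg_finset hfin.toFinset
  rw [Set.Finite.coe_toFinset] at hall
  have m1 : ∀ i, f.coeff i ∈ ((Set.range f.coeff ∪ {a | ∃ i j, (Q.coeff i).coeff j = a}) ∪
      {(Q.leadingCoeff.leadingCoeff)⁻¹} : Set K) := fun i => Or.inl (Or.inl ⟨i, rfl⟩)
  have m2 : ∀ i j, (Q.coeff i).coeff j ∈ ((Set.range f.coeff ∪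
      {a | ∃ i j, (Q.coeff i).coeff j = a}) ∪
      {(Q.leadingCoeff.leadingCoeff)⁻¹} : Set K) := fun i j => Or.inl (Or.inr ⟨i, j, rfl⟩)
  have m3 : (Q.leadingCoeff.leadingCoeff)⁻¹ ∈ ((Set.range f.coeff ∪
      {a | ∃ i j, (Q.coeff i).coeff j = a}) ∪
      {(Q.leadingCoeff.leadingCoeff)⁻¹} : Set K) := Or.inr rfl
  obtain ⟨⟨S, hS⟩, hp, B, hB⟩ := hall
  refine ⟨⟨S, fun p _ hpS σ y hy => ?_⟩, fun p _ => ?_, ?_⟩
  · exact bigg_good σ hm hd hQ hA (fun i => hS p hpS σ _ (m1 i)) (fun i j => hS p hpS σ _ (m2 i j))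
      (hS p hpS σ _ m3) hy
  · obtain ⟨B', hB'⟩ := hp p
    refine ⟨_, fun σ y hy => bigg_gen σ hm hd hQ hA (B := max B' 1) (le_max_right _ _)
      (fun i => (hB' σ _ (m1 i)).trans (le_max_left _ _))
      (fun i j => (hB' σ _ (m2 i j)).trans (le_max_left _ _))
      ((hB' σ _ m3).trans (le_max_left _ _)) hy⟩
  · refine ⟨_, fun σ y hy => bigg_gen σ hm hd hQ hA (B := max B 1) (le_max_right _ _)
      (fun i => (hB σ _ (m1 i)).trans (le_max_left _ _))
      (fun i j => (hB σ _ (m2 i j)).trans (le_max_left _ _))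
      ((hB σ _ m3).trans (le_max_left _ _)) hy⟩

end

end Pool.Agent.Lib_helper45.BDP.BIGG
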