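import Pool.Agent.Lib_helper45.BDP.Defs
import Pool.Agent.Lib_helper45.BDP.W0

set_option autoImplicit false

namespace Pool.Agent.Lib_helper45.BDP.CORN

open Polynomial Pool.Agent.Lib_helper45.BDP

noncomputable section

section
variable {k : Type*} [Field k]

theorem cmp2_eq (F : k[X]) (G : k[X][X]) :
    cmp2 F G = G.eval₂ (C.comp (compRingHom F)) (F.map C) := by
  rw [cmp2, comp, eval₂_map]

theorem cmp2_add (F : k[X]) (G H : k[X][X]) : cmp2 F (G + H) = cmp2 F G + cmp2 F H := by
  simp [cmp2]

theorem cmp2_mon (F a : k[X]) (n : ℕ) : cmp2 F (C a * X ^ n) = C (a.comp F) * (F.map C) ^ n := by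
  simp [cmp2]

theorem cmp2_pow (F : k[X]) (G : k[X][X]) (n : ℕ) : cmp2 F (G ^ n) = (cmp2 F G) ^ n := by
  simp [cmp2]

theorem cmp2_cmp2 (F P : k[X]) (G : k[X][X]) : cmp2 F (cmp2 P G) = cmp2 (P.comp F) G := by
  induction G using Polynomial.induction_on' with
  | add p q hp hq => rw [cmp2_add, cmp2_add, cmp2_add, hp, hq]
  | monomial n a =>
      rw [← C_mul_X_pow_eq_monomial, cmp2_mon, cmp2_mon, cmp2_mul, cmp2_CC, cmp2_pow,
        cmp2_mapC, comp_assoc]

theorem dvd_itr {F : k[X]} {G : k[X][X]} (h : G ∣ cmp2 F G) (r : ℕ) : G ∣ cmp2 (itr F r) G := by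
  induction r with
  | zero =>
      have : cmp2 (itr F 0) G = G := by
        rw [itr_zero, cmp2]
        have h1 : compRingHom (X : k[X]) = RingHom.id _ :=
          RingHom.ext fun p => (comp_X : p.comp X = p)
        rw [h1, Polynomial.map_id, map_X, comp_X]
      rw [this]
  | succ r ih =>
      have h2 : cmp2 (itr F (r + 1)) G = cmp2 F (cmp2 (itr F r) G) := by
        rw [cmp2_cmp2, itr_succ']
      rw [h2]
      exact h.trans (cmp2_dvd F ih)

theorem refl_pow {R : Type*} [CommSemiring R] {p : R[X]} {M : ℕ} (hp : p.natDegree ≤ M) (j : ℕ) :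
    reflect (M * j) (p ^ j) = (reflect M p) ^ j := by
  induction j with
  | zero =>
      simp
  | succ j ih =>
      rw [pow_succ, Nat.mul_succ, reflect_mul _ _ _ hp, ih, pow_succ]
      calc (p ^ j).natDegree ≤ j * p.natDegree := natDegree_pow_le
        _ ≤ M * j := by rw [mul_comm]; exact Nat.mul_le_mul_right j hp

theorem refl_one {R : Type*} [CommSemiring R] (N : ℕ) : reflect N (1 : R[X]) = X ^ N := by
  have := reflect_monomial (R := R) N 0
  rw [pow_zero, revAt_le (Nat.zero_le N), Nat.sub_zero] at this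
  exact this

theorem refl_pow' {R : Type*} [CommSemiring R] {p : R[X]} {M : ℕ} (hp : p.natDegree ≤ M) {j b : ℕ}
    (hj : j ≤ b) : reflect (M * b) (p ^ j) = X ^ (M * (b - j)) * (reflect M p) ^ j := by
  have h1 : M * b = M * (b - j) + M * j := by
    rw [← Nat.mul_add]; congr 1; omega
  have h2 : (p ^ j).natDegree ≤ M * j :=
    calc (p ^ j).natDegree ≤ j * p.natDegree := natDegree_pow_le
      _ ≤ M * j := by rw [mul_comm]; exact Nat.mul_le_mul_right j hp
  have h3 : reflect (M * (b - j) + M * j) (1 * p ^ j) =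
      reflect (M * (b - j)) 1 * reflect (M * j) (p ^ j) :=
    reflect_mul _ _ (by simp) h2
  rw [one_mul] at h3
  rw [h1, h3, refl_one, refl_pow hp]

theorem refl_sum {R : Type*} [CommSemiring R] {ι : Type*} (s : Finset ι) (f : ι → R[X]) (N : ℕ) :
    reflect N (∑ i ∈ s, f i) = ∑ i ∈ s, reflect N (f i) := by
  classical
  induction s using Finset.induction_on with
  | empty => simp
  | insert a s ha ih => rw [Finset.sum_insert ha, Finset.sum_insert ha, reflect_add, ih]

end

variable {k : Type*} [Field k] [IsAlgClosed k] [CharZero k]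

/-- the leading coefficient in `y` of a periodic irreducible polynomial is constant -/
theorem CORN {F : k[X]} (hm : F.Monic) (hd : 2 ≤ F.natDegree)
    (hF : ∀ (R : ℕ) (x : k), 1 ≤ R → itr F R ≠ (X - C x) ^ (F.natDegree ^ R) + C x)
    {G : k[X][X]} (hG : Irreducible G) (hdvd : G ∣ cmp2 F G) (hy : 1 ≤ G.natDegree) :
    G.leadingCoeff.natDegree = 0 := by
  classical
  by_contra hA
  set A := G.leadingCoeff with hAdef
  have hG0 : G ≠ 0 := hG.ne_zero
  have hA0 : A ≠ 0 := leadingCoeff_ne_zero.2 hG0
  -- leading coefficients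
  have inj : Function.Injective (compRingHom F : k[X] →+* k[X]) := by
    rw [injective_iff_map_eq_zero]
    intro p hp
    have h1 : p.comp F = 0 := hp
    rw [comp_eq_zero_iff] at h1
    rcases h1 with h1 | ⟨-, h1⟩
    · exact h1
    · exfalso
      rw [h1, natDegree_C] at hd
      omega
  have hlc : (cmp2 F G).leadingCoeff = A.comp F := by
    have h2 : (F.map (C : k →+* k[X])).Monic := hm.map C
    have h3 : (F.map (C : k →+* k[X])).natDegree ≠ 0 := by
      rw [natDegree_map_eq_of_injective C_injective]; omega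
    rw [cmp2, leadingCoeff_comp h3, h2.leadingCoeff, one_pow, mul_one,
      leadingCoeff_map_of_injective inj]
    rfl
  obtain ⟨H₀, hH₀⟩ := hdvd
  have hAA : A.comp F = A * H₀.leadingCoeff := by
    rw [← hlc, hH₀, leadingCoeff_mul]
  have hmap : ∀ x, A.eval x = 0 → A.eval (F.eval x) = 0 := by
    intro x hx
    rw [← eval_comp, hAA, eval_mul, hx, zero_mul]
  obtain ⟨x₁, hx₁⟩ := IsAlgClosed.exists_root A (by
    intro h; exact hA (natDegree_eq_of_degree_eq_some h))
  -- a periodic root
  obtain ⟨x₀, R, hR, hper, hAx⟩ : ∃ (x₀ : k) (R : ℕ), 1 ≤ R ∧ (itr F R).eval x₀ = x₀ ∧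
      A.eval x₀ = 0 := by
    set g : k → k := fun y => F.eval y with hg
    have hroot : ∀ n, A.eval (g^[n] x₁) = 0 := by
      intro n
      induction n with
      | zero => exact hx₁
      | succ n ih => rw [Function.iterate_succ_apply']; exact hmap _ ih
    have hfin : (Set.range fun n : ℕ => g^[n] x₁).Finite := by
      refine (A.roots.toFinset.finite_toSet).subset ?_
      rintro _ ⟨n, rfl⟩
      simp only [Finset.mem_coe, Multiset.mem_toFinset]
      rw [mem_roots hA0]
      exact hroot n
    have hninj : ¬ Function.Injective fun n : ℕ => g^[n] x₁ := fun hinj =>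
      Set.infinite_range_of_injective hinj hfin
    rw [Function.Injective] at hninj
    push Not at hninj
    obtain ⟨a, b, hab, hne⟩ := hninj
    wlog hlt : a < b generalizing a b
    · exact this b a hab.symm hne.symm (by omega)
    refine ⟨g^[a] x₁, b - a, by omega, ?_, hroot a⟩
    rw [eval_itr]
    show g^[b - a] (g^[a] x₁) = g^[a] x₁
    rw [← Function.iterate_add_apply, Nat.sub_add_cancel hlt.le]
    exact hab.symm
  set P := itr F R with hP
  set M := F.natDegree ^ R with hM
  have hPd : P.natDegree = M := natDegree_itr F R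
  have hPm : P.Monic := itr_monic hm (by omega) R
  have hM2 : 1 ≤ M := Nat.one_le_pow _ _ (by omega)
  obtain ⟨H, hH⟩ := dvd_itr ⟨H₀, hH₀⟩ R
  rw [← hP] at hH
  -- the local expansion of P at x₀
  have hPx : P - C x₀ ≠ 0 := by
    intro h
    rw [sub_eq_zero] at h
    have : P.natDegree = 0 := by rw [h, natDegree_C]
    rw [hPd] at this
    omega
  obtain ⟨q, hq, hqn⟩ := exists_eq_pow_rootMultiplicity_mul_and_not_dvd (P - C x₀) hPx x₀
  set e := (P - C x₀).rootMultiplicity x₀ with he
  have hroot0 : (P - C x₀).IsRoot x₀ := by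
    rw [IsRoot, eval_sub, eval_C, hper, sub_self]
  have he1 : 1 ≤ e := (rootMultiplicity_pos hPx).2 hroot0
  have hq0 : q ≠ 0 := by
    rintro rfl; rw [mul_zero] at hq; exact hPx hq
  have hPCd : (P - C x₀).natDegree = M := by rw [natDegree_sub_C, hPd]
  have hdeg : e + q.natDegree = M := by
    rw [← hPCd, hq, natDegree_mul (pow_ne_zero _ (X_sub_C_ne_zero x₀)) hq0, natDegree_pow,
      natDegree_X_sub_C, mul_one]
  have heM : e < M := by
    rcases Nat.lt_or_ge e M with h | h
    · exact h
    · exfalso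
      have h4 : q.natDegree = 0 := by omega
      have h5 : e = M := by omega
      obtain ⟨c, hc⟩ := natDegree_eq_zero.1 h4
      have h6 : (P - C x₀).Monic := by
        apply Monic.sub_of_left hPm
        rw [degree_eq_natDegree hPm.ne_zero, hPd]
        refine lt_of_le_of_lt degree_C_le ?_
        exact_mod_cast (by omega : 0 < M)
      have h7 : c = 1 := by
        have h8 := h6.leadingCoeff
        rw [hq, ← hc, leadingCoeff_mul, leadingCoeff_C, leadingCoeff_pow, leadingCoeff_X_sub_C,
          one_pow, one_mul] at h8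
        exact h8
      apply hF R x₀ hR
      rw [← hP, ← sub_eq_iff_eq_add, hq, ← hc, h7, C_1, mul_one, h5]
  set ε := q.comp (X + C x₀) with hε
  have hε0 : ε.coeff 0 ≠ 0 := by
    rw [coeff_zero_eq_eval_zero, hε, eval_comp, eval_add, eval_X, eval_C, zero_add]
    intro h
    exact hqn (dvd_iff_isRoot.2 h)
  have hPe : P.comp (X + C x₀) = X ^ e * ε + C x₀ := by
    have h9 : P = (X - C x₀) ^ e * q + C x₀ := by rw [← hq]; ring
    rw [h9, add_comp, mul_comp, pow_comp, sub_comp, X_comp, C_comp, add_sub_cancel_right]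
  -- the polynomials in y
  set b := G.natDegree with hb
  set τ : k[X] →+* k[X] := compRingHom (X + C x₀) with hτ
  have hτa : ∀ p : k[X], τ p = p.comp (X + C x₀) := fun p => rfl
  have hτC : τ.comp C = (C : k →+* k[X]) := by
    ext c
    simp [hτa]
  have hτinj : Function.Injective τ := by
    rw [injective_iff_map_eq_zero]
    intro p hp
    rw [hτa] at hp
    have h10 : (p.comp (X + C x₀)).comp (X - C x₀) = 0 := by rw [hp, zero_comp]
    rw [comp_assoc, add_comp, X_comp, C_comp, sub_add_cancel, comp_X] at h10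
    exact h10
  set Gt := reflect b (G.map τ) with hGt
  have hGtc : ∀ l, l ≤ b → Gt.coeff l = (G.coeff (b - l)).comp (X + C x₀) := by
    intro l hl
    rw [hGt, coeff_reflect, revAt_le hl, coeff_map, hτa]
  set φ := reflect M P with hφ
  have hφ0 : φ.coeff 0 ≠ 0 := by
    rw [hφ, coeff_reflect, revAt_le (Nat.zero_le _), Nat.sub_zero, ← hPd, ← leadingCoeff,
      hPm.leadingCoeff]
    exact one_ne_zero
  have hPM : (P.map (C : k →+* k[X])).natDegree ≤ M := by
    rw [natDegree_map_eq_of_injective C_injective, hPd]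
  have hL : (cmp2 P G).map τ = ∑ j ∈ Finset.range (b + 1),
      C ((G.coeff j).comp (X ^ e * ε + C x₀)) * (P.map C) ^ j := by
    rw [cmp2_eq, eval₂_eq_sum_range, ← coe_mapRingHom, map_sum]
    refine Finset.sum_congr rfl fun j _ => ?_
    rw [map_mul, map_pow, coe_mapRingHom, Polynomial.map_map, hτC, RingHom.comp_apply, map_C]
    congr 2
    rw [hτa]
    show ((G.coeff j).comp P).comp (X + C x₀) = _
    rw [comp_assoc, hPe]
  have hMb : M * b = b + (M * b - b) := by
    have : b ≤ M * b := Nat.le_mul_of_pos_left b (by omega)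
    omega
  have hHd : (H.map τ).natDegree ≤ M * b - b := by
    have h11 : (cmp2 P G).natDegree ≤ M * b := by
      rw [cmp2]
      refine natDegree_comp_le.trans ?_
      rw [mul_comm M b]
      exact Nat.mul_le_mul natDegree_map_le hPM
    by_cases hH0 : H = 0
    · rw [hH0]; simp
    · rw [hH, natDegree_mul hG0 hH0] at h11
      have h12 : (H.map τ).natDegree ≤ H.natDegree := natDegree_map_le
      omega
  have hR2 : reflect (M * b) ((cmp2 P G).map τ) = Gt * reflect (M * b - b) (H.map τ) := by
    rw [hH, Polynomial.map_mul, hGt]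
    conv_lhs => rw [hMb]
    exact reflect_mul _ _ natDegree_map_le hHd
  have hL2 : reflect (M * b) ((cmp2 P G).map τ) = ∑ l ∈ Finset.range (b + 1),
      C ((Gt.coeff l).comp (X ^ e * ε)) * X ^ (M * l) * (φ.map C) ^ (b - l) := by
    rw [hL, refl_sum, ← Finset.sum_flip]
    refine Finset.sum_congr rfl fun l hl => ?_
    have hlb : l ≤ b := Nat.lt_succ_iff.1 (Finset.mem_range.1 hl)
    rw [reflect_C_mul, refl_pow' hPM (Nat.sub_le b l), hGtc l hlb, ← mul_assoc, hφ, reflect_map,
      Nat.sub_sub_self hlb]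
    congr 3
    rw [comp_assoc, add_comp, X_comp, C_comp]
  refine NEWT (b := b) (e := e) (M := M) he1 heM (ε := ε) (φ := φ) hε0 hφ0 (G := Gt)
    (H := reflect (M * b - b) (H.map τ)) ?_ ?_ ?_ ?_ ?_
  · rw [natDegree_le_iff_coeff_eq_zero]
    intro N hN
    rw [hGt, coeff_reflect]
    have h13 : revAt b N = N := by
      simp [revAt, not_le.2 hN]
    rw [h13]
    apply coeff_eq_zero_of_natDegree_lt
    exact lt_of_le_of_lt natDegree_map_le hN
  · rw [hGtc 0 (Nat.zero_le _), Nat.sub_zero]
    intro h
    exact hA0 (hτinj (by rw [map_zero]; exact h))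
  · rw [hGtc 0 (Nat.zero_le _), Nat.sub_zero, coeff_zero_eq_eval_zero, eval_comp, eval_add, eval_X,
      eval_C, zero_add]
    exact hAx
  · by_contra hcon
    push Not at hcon
    have h14 : C (X - C x₀) ∣ G := by
      rw [C_dvd_iff_dvd_coeff]
      intro j
      rw [dvd_iff_isRoot]
      by_cases hj : j ≤ b
      · have h15 := hcon (b - j)
        rw [hGtc (b - j) (Nat.sub_le _ _), Nat.sub_sub_self hj, coeff_zero_eq_eval_zero, eval_comp,
          eval_add, eval_X, eval_C, zero_add] at h15
        exact h15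
      · rw [coeff_eq_zero_of_natDegree_lt (by omega)]
        exact eval_zero
    obtain ⟨K, hK⟩ := h14
    rcases hG.isUnit_or_isUnit hK with hu | hu
    · rw [isUnit_C] at hu
      exact not_isUnit_X_sub_C x₀ hu
    · obtain ⟨r, hr, hrK⟩ := Polynomial.isUnit_iff.1 hu
      rw [hK, ← hrK, ← C_mul, natDegree_C] at hb
      omega
  · rw [← hL2, hR2]

end

end Pool.Agent.Lib_helper45.BDP.CORN
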