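import Pool.Agent.Lib_helper45.BDP.Defs

set_option autoImplicit false

namespace Pool.Agent.Lib_helper45.BDP.DIVC

open Polynomial

variable {k : Type*} [Field k] [IsAlgClosed k] [CharZero k]

theorem DIVC_C {H : k[X][X]} {A : k[X]} (hA : A ≠ 0) (h : H ∣ C A) : ∃ B : k[X], H = C B := by
  have h1 : (C A : k[X][X]) ≠ 0 := by rwa [Ne, C_eq_zero]
  have h2 := natDegree_le_of_dvd h h1
  rw [natDegree_C] at h2
  exact ⟨H.coeff 0, eq_C_of_natDegree_le_zero h2⟩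

theorem DIVC {H : k[X][X]} (hH : Irreducible H) {A : k[X]} (hA : A ≠ 0) :
    (H ∣ C A → ∃ B : k[X], H = C B) ∧ (H ∣ A.map C → ∃ B : k[X], H = B.map C) := by
  refine ⟨fun h => DIVC_C hA h, fun h => ?_⟩
  have h1 : Bivariate.swap H ∣ C A := by
    obtain ⟨c, hc⟩ := h
    refine ⟨Bivariate.swap c, ?_⟩
    rw [← map_mul, ← hc, Bivariate.swap_map_C]
  obtain ⟨B, hB⟩ := DIVC_C hA h1
  refine ⟨B, ?_⟩
  rw [← Bivariate.swap_swap_apply H, hB, Bivariate.swap_C]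

end Pool.Agent.Lib_helper45.BDP.DIVC
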