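import Pool.Agent.Lib_helper45.BDP.Defs

/-!
# Block FACT
-/

namespace Pool.Agent.Lib_helper45.BDP.FACT

open Polynomial Pool.Agent.Lib_helper45.BDP

noncomputable section

variable {k : Type*} [Field k] [IsAlgClosed k] [CharZero k]

/-- a product of polynomials in one variable -/
theorem FACT {G : k[X][X]} (hG : G ≠ 0)
    (h : ∀ H : k[X][X], Irreducible H → H ∣ G → (∃ A : k[X], H = C A) ∨ ∃ B : k[X], H = B.map C) :
    ∃ A B : k[X], G = C A * B.map C := by
  induction G using WfDvdMonoid.induction_on_irreducible with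
  | zero => exact absurd rfl hG
  | unit u hu =>
    obtain ⟨p, hp, rfl⟩ := Polynomial.isUnit_iff.1 hu
    exact ⟨p, 1, by simp⟩
  | mul a i ha hi ih =>
    obtain ⟨A, B, hAB⟩ := ih ha fun H hH hd => h H hH (hd.mul_left i)
    rcases h i hi (dvd_mul_right i a) with ⟨A', hA'⟩ | ⟨B', hB'⟩
    · refine ⟨A' * A, B, ?_⟩
      rw [hA', hAB, Polynomial.C_mul, mul_assoc]
    · refine ⟨A, B' * B, ?_⟩
      rw [hB', hAB, Polynomial.map_mul]
      ring

end

end Pool.Agent.Lib_helper45.BDP.FACT
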