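import Pool.Agent.Lib_helper45.BDP.Defs
import Pool.Agent.Lib_helper45.BDP.W0

/-!
# Block FING: finitely many polynomials of bounded degree commute with an iterate
-/

namespace Pool.Agent.Lib_helper45.BDP.FING

open Polynomial

noncomputable section

section General

variable {k : Type*} [Field k]

/-- `V(z) ↦ V(z^d)` -/
def ex (d : ℕ) (V : PowerSeries k) : PowerSeries k :=
  PowerSeries.mk fun j => if d ∣ j then PowerSeries.coeff (j / d) V else 0

theorem coeff_ex (d : ℕ) (V : PowerSeries k) (j : ℕ) :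
    PowerSeries.coeff j (ex d V) = if d ∣ j then PowerSeries.coeff (j / d) V else 0 := by
  rw [ex, PowerSeries.coeff_mk]

/-- `z^(de) F(Y/z^e)` -/
def Ph (e : ℕ) (F : k[X]) : (PowerSeries k)[X] :=
  ∑ i ∈ Finset.range (F.natDegree + 1),
    Polynomial.C (PowerSeries.C (F.coeff i) * PowerSeries.X ^ (e * (F.natDegree - i))) *
      Polynomial.X ^ i

theorem Ph_eval (e : ℕ) (f : k[X]) (V : PowerSeries k) : (Ph e f).eval V =
    ∑ i ∈ Finset.range (f.natDegree + 1),
      PowerSeries.C (f.coeff i) * PowerSeries.X ^ (e * (f.natDegree - i)) * V ^ i := by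
  rw [Ph, eval_finsetSum]
  refine Finset.sum_congr rfl fun i _ => ?_
  rw [eval_mul, eval_C, eval_pow, eval_X]

theorem Ph_map {e : ℕ} (he : 1 ≤ e) {f : k[X]} (hm : f.Monic) :
    (Ph e f).map (PowerSeries.constantCoeff (R := k)) = X ^ f.natDegree := by
  rw [Ph, Polynomial.map_sum, Finset.sum_eq_single f.natDegree]
  · rw [Polynomial.map_mul, Polynomial.map_C, Polynomial.map_pow, Polynomial.map_X, Nat.sub_self,
      mul_zero, pow_zero, mul_one, PowerSeries.constantCoeff_C, hm.coeff_natDegree, map_one,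
      one_mul]
  · intro i hi hi2
    rw [Finset.mem_range] at hi
    have h0 : e * (f.natDegree - i) ≠ 0 := Nat.mul_ne_zero (by omega) (by omega)
    rw [Polynomial.map_mul, Polynomial.map_C, map_mul, map_pow, PowerSeries.constantCoeff_X,
      zero_pow h0, mul_zero, map_zero, zero_mul]
  · intro h
    exact absurd (Finset.mem_range.2 (Nat.lt_succ_self _)) h

theorem coeff0_eval (P : (PowerSeries k)[X]) (V : PowerSeries k) :
    PowerSeries.coeff 0 (P.eval V) =
      (P.map (PowerSeries.constantCoeff (R := k))).eval (PowerSeries.constantCoeff V) := by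
  rw [PowerSeries.coeff_zero_eq_constantCoeff_apply, eval_map, eval₂_at_apply]

/-- uniqueness -/
theorem uniq [CharZero k] {e : ℕ} (he : 1 ≤ e) {F : k[X]} (hm : F.Monic) (hd : 2 ≤ F.natDegree)
    {w w' : PowerSeries k} (h0 : PowerSeries.constantCoeff w = PowerSeries.constantCoeff w')
    (hne : PowerSeries.constantCoeff w ≠ 0)
    (h : (Ph e F).eval w = ex F.natDegree w) (h' : (Ph e F).eval w' = ex F.natDegree w') :
    w = w' := by
  ext n
  induction n using Nat.strong_induction_on with
  | _ n ih =>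
    rcases Nat.eq_zero_or_pos n with h1 | h1
    · subst h1
      rw [PowerSeries.coeff_zero_eq_constantCoeff_apply,
        PowerSeries.coeff_zero_eq_constantCoeff_apply, h0]
    · have h2 : (PowerSeries.X : PowerSeries k) ^ n ∣ w - w' := by
        rw [PowerSeries.X_pow_dvd_iff]
        intro m hmn
        rw [map_sub, ih m hmn, sub_self]
      obtain ⟨v, hv⟩ := h2
      have hw : w = w' + v * PowerSeries.X ^ n := by
        rw [mul_comm v, ← hv]; ring
      have h3 : PowerSeries.coeff n (ex F.natDegree w) =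
          PowerSeries.coeff n (ex F.natDegree w') := by
        rw [coeff_ex, coeff_ex]
        by_cases hdj : F.natDegree ∣ n
        · rw [if_pos hdj, if_pos hdj]
          exact ih _ (Nat.div_lt_self h1 hd)
        · rw [if_neg hdj, if_neg hdj]
      obtain ⟨K, hK⟩ := Polynomial.binomExpansion (Ph e F) w' (v * PowerSeries.X ^ n)
      have e1 : K * (v * PowerSeries.X ^ n) ^ 2 =
          (K * v ^ 2 * PowerSeries.X ^ n) * PowerSeries.X ^ n := by ring
      have e2 : (derivative (Ph e F)).eval w' * (v * PowerSeries.X ^ n) =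
          ((derivative (Ph e F)).eval w' * v) * PowerSeries.X ^ n := by ring
      have h4 := congrArg (PowerSeries.coeff n) hK
      rw [← hw, h, h3, e1, e2, map_add, map_add, PowerSeries.coeff_mul_X_pow',
        PowerSeries.coeff_mul_X_pow', if_pos le_rfl, if_pos le_rfl, Nat.sub_self,
        PowerSeries.coeff_mul_X_pow', if_neg (by omega), add_zero, h', left_eq_add,
        PowerSeries.coeff_zero_eq_constantCoeff_apply, map_mul,
        ← PowerSeries.coeff_zero_eq_constantCoeff_apply, coeff0_eval, ← derivative_map,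
        Ph_map he hm, ← h0, derivative_X_pow] at h4
      simp only [eval_mul, eval_C, eval_pow, eval_X] at h4
      have hd0 : (F.natDegree : k) ≠ 0 := by
        have : F.natDegree ≠ 0 := by omega
        exact_mod_cast this
      have h5 : PowerSeries.constantCoeff v = 0 := by
        rcases mul_eq_zero.1 h4 with h6 | h6
        · exact absurd h6 (mul_ne_zero hd0 (pow_ne_zero _ hne))
        · exact h6
      rw [hw, map_add, PowerSeries.coeff_mul_X_pow', if_pos le_rfl, Nat.sub_self,
        PowerSeries.coeff_zero_eq_constantCoeff_apply, h5, add_zero]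

theorem th_ofPS {d : ℕ} (hd : 0 < d) (V : PowerSeries k) :
    th 1 d (HahnSeries.ofPowerSeries ℤ k V) = HahnSeries.ofPowerSeries ℤ k (ex d V) := by
  ext j
  have hd0 : (0 : ℤ) < d := by exact_mod_cast hd
  by_cases hj : (d : ℤ) ∣ j
  · obtain ⟨i, rfl⟩ := hj
    rw [th_coeff_mul _ hd, PowerSeries.coeff_coe, PowerSeries.coeff_coe]
    rcases lt_or_ge i 0 with h | h
    · rw [if_pos h, if_pos (mul_neg_of_pos_of_neg hd0 h), mul_zero]
    · rw [if_neg (not_lt.2 h), if_neg (not_lt.2 (mul_nonneg hd0.le h))]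
      obtain ⟨i, rfl⟩ := Int.eq_ofNat_of_zero_le h
      have e : ((d : ℤ) * (i : ℤ)).natAbs = d * i := by
        rw [← Nat.cast_mul, Int.natAbs_natCast]
      rw [e, coeff_ex, if_pos (Dvd.intro i rfl), Nat.mul_div_cancel_left _ hd]
      simp
  · rw [th_coeff_of_not_dvd _ hd _ _ hj, PowerSeries.coeff_coe]
    rcases lt_or_ge j 0 with h | h
    · rw [if_pos h]
    · rw [if_neg (not_lt.2 h), coeff_ex, if_neg]
      intro h1
      apply hj
      rw [← Int.natCast_dvd_natCast, Int.natCast_natAbs, abs_of_nonneg h] at h1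
      exact h1

theorem th_single {d : ℕ} (hd : 0 < d) (e : ℤ) :
    th 1 d (HahnSeries.single (-e) 1 : L k) = HahnSeries.single (-((d : ℤ) * e)) 1 := by
  ext j
  have hd0 : (d : ℤ) ≠ 0 := by exact_mod_cast hd.ne'
  by_cases hj : (d : ℤ) ∣ j
  · obtain ⟨i, rfl⟩ := hj
    rw [th_coeff_mul _ hd]
    by_cases h : i = -e
    · subst h
      rw [HahnSeries.coeff_single_same, mul_neg, HahnSeries.coeff_single_same]
      simp
    · rw [HahnSeries.coeff_single_of_ne h, mul_zero, HahnSeries.coeff_single_of_ne]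
      intro h1
      apply h
      apply mul_left_cancel₀ hd0
      rw [h1]
      ring
  · rw [th_coeff_of_not_dvd _ hd _ _ hj, HahnSeries.coeff_single_of_ne]
    rintro rfl
    exact hj ⟨-e, by ring⟩

/-- a Laurent series as a monomial times a power series -/
theorem toPS {y : L k} {e : ℕ} (hy : ∀ j < -(e : ℤ), y.coeff j = 0) :
    ∃ w : PowerSeries k, y = HahnSeries.single (-(e : ℤ)) 1 * HahnSeries.ofPowerSeries ℤ k w ∧
      PowerSeries.constantCoeff w = y.coeff (-(e : ℤ)) := by
  refine ⟨PowerSeries.mk fun n => y.coeff ((n : ℤ) - e), ?_, ?_⟩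
  · ext j
    have h1 := HahnSeries.coeff_single_mul_add (r := (1 : k))
      (x := HahnSeries.ofPowerSeries ℤ k (PowerSeries.mk fun n => y.coeff ((n : ℤ) - e)))
      (a := j + e) (b := -(e : ℤ))
    rw [one_mul, add_neg_cancel_right] at h1
    rw [h1, PowerSeries.coeff_coe]
    rcases lt_or_ge (j + e) 0 with h | h
    · rw [if_pos h, hy j (by omega)]
    · rw [if_neg (not_lt.2 h), PowerSeries.coeff_mk]
      congr 1
      omega
  · rw [← PowerSeries.coeff_zero_eq_constantCoeff_apply, PowerSeries.coeff_mk]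
    congr 1
    simp

theorem aeval_toPS (F : k[X]) (e : ℕ) (w : PowerSeries k) :
    aeval (HahnSeries.single (-(e : ℤ)) 1 * HahnSeries.ofPowerSeries ℤ k w : L k) F =
      HahnSeries.single (-((F.natDegree : ℤ) * e)) 1 *
        HahnSeries.ofPowerSeries ℤ k ((Ph e F).eval w) := by
  rw [Ph_eval, aeval_eq_sum_range, map_sum, Finset.mul_sum]
  refine Finset.sum_congr rfl fun i hi => ?_
  have hi2 : i ≤ F.natDegree := by
    have := Finset.mem_range.1 hi
    omega
  rw [map_mul, map_mul, map_pow, map_pow, HahnSeries.ofPowerSeries_C,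
    HahnSeries.ofPowerSeries_X, Algebra.smul_def, algebraMap_L, mul_pow]
  have e1 : (HahnSeries.single (-(e : ℤ)) (1 : k)) ^ i =
      HahnSeries.single (-((F.natDegree : ℤ) * e)) (1 : k) *
        (HahnSeries.single (1 : ℤ) (1 : k)) ^ (e * (F.natDegree - i)) := by
    rw [HahnSeries.single_pow, HahnSeries.single_pow, HahnSeries.single_mul_single, one_pow,
      one_pow, one_mul]
    congr 1
    rw [nsmul_eq_mul, nsmul_eq_mul, Nat.cast_mul, Nat.cast_sub hi2]
    ring_nf
  rw [e1]
  ring

/-- uniqueness of the solution of `F(y) = S y` with a given pole -/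
theorem uniqL [CharZero k] {F : k[X]} (hm : F.Monic) (hd : 2 ≤ F.natDegree) {e : ℕ} (he : 1 ≤ e)
    {y y' : L k} (hy : ∀ j < -(e : ℤ), y.coeff j = 0) (hy' : ∀ j < -(e : ℤ), y'.coeff j = 0)
    (hne : y.coeff (-(e : ℤ)) ≠ 0) (heq : y.coeff (-(e : ℤ)) = y'.coeff (-(e : ℤ)))
    (h : aeval y F = th 1 F.natDegree y) (h' : aeval y' F = th 1 F.natDegree y') : y = y' := by
  obtain ⟨w, hw, hw0⟩ := toPS hy
  obtain ⟨w', hw', hw0'⟩ := toPS hy'
  have hs : (HahnSeries.single (-((F.natDegree : ℤ) * e)) 1 : L k) ≠ 0 :=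
    HahnSeries.single_ne_zero one_ne_zero
  have key : ∀ {y : L k} {w : PowerSeries k},
      y = HahnSeries.single (-(e : ℤ)) 1 * HahnSeries.ofPowerSeries ℤ k w →
      aeval y F = th 1 F.natDegree y → (Ph e F).eval w = ex F.natDegree w := by
    intro y w hyw h
    rw [hyw, aeval_toPS, map_mul, th_single (by omega), th_ofPS (by omega)] at h
    exact HahnSeries.ofPowerSeries_injective (mul_left_cancel₀ hs h)
  have h1 := uniq he hm hd (by rw [hw0, hw0', heq]) (by rw [hw0]; exact hne) (key hw h)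
    (key hw' h')
  rw [hw, hw', h1]

end General

variable {k : Type*} [Field k] [IsAlgClosed k] [CharZero k]

theorem simple_order {T : L k} (hT : SimplePole T) : T ≠ 0 ∧ T.order = -1 ∧
    T.leadingCoeff = T.coeff (-1) := by
  have h0 : T ≠ 0 := by
    rintro rfl
    exact hT.1 rfl
  have h3 : T.order = -1 := by
    apply le_antisymm
    · exact HahnSeries.order_le_of_coeff_ne_zero hT.1
    · by_contra hlt
      rw [not_le] at hlt
      exact (HahnSeries.coeff_order_eq_zero.not.2 h0) (hT.2 _ hlt)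
  refine ⟨h0, h3, ?_⟩
  rw [HahnSeries.leadingCoeff_eq, h3]

theorem pow_order {T : L k} (hT : SimplePole T) (n : ℕ) : (T ^ n).order = -n ∧
    (T ^ n).coeff (-(n : ℤ)) = T.coeff (-1) ^ n := by
  obtain ⟨h1, h2, h3⟩ := simple_order hT
  have h4 : (T ^ n).order = -n := by
    rw [HahnSeries.order_pow, h2]
    simp
  refine ⟨h4, ?_⟩
  rw [← h4, ← HahnSeries.leadingCoeff_eq, ← h3]
  clear h4
  induction n with
  | zero => simp
  | succ n ih => rw [pow_succ, HahnSeries.leadingCoeff_mul, ih, pow_succ]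

/-- the pole of `P(T)` -/
theorem aeval_pole {T : L k} (hT : SimplePole T) (P : k[X]) :
    (aeval T P).coeff (-(P.natDegree : ℤ)) = P.leadingCoeff * T.coeff (-1) ^ P.natDegree ∧
      ∀ j < -(P.natDegree : ℤ), (aeval T P).coeff j = 0 := by
  rw [aeval_eq_sum_range]
  constructor
  · rw [HahnSeries.coeff_sum, Finset.sum_range_succ, Finset.sum_eq_zero, zero_add,
      HahnSeries.coeff_smul, (pow_order hT _).2, smul_eq_mul, leadingCoeff]
    intro i hi
    rw [HahnSeries.coeff_smul, HahnSeries.coeff_eq_zero_of_lt_order, smul_zero]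
    rw [(pow_order hT i).1]
    have := Finset.mem_range.1 hi
    omega
  · intro j hj
    rw [HahnSeries.coeff_sum]
    refine Finset.sum_eq_zero fun i hi => ?_
    rw [HahnSeries.coeff_smul, HahnSeries.coeff_eq_zero_of_lt_order, smul_zero]
    rw [(pow_order hT i).1]
    have := Finset.mem_range.1 hi
    omega

/-- a commuting polynomial in the Boettcher coordinate -/
theorem comm_th {f : k[X]} (hf : Good f) {T : L k} (hT : Bott f T) {g : k[X]}
    (hg : 1 ≤ g.natDegree) {r : ℕ} (hr : 1 ≤ r) (hc : g.comp (itr f r) = (itr f r).comp g) :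
    ∃ c : kˣ, (c : k) = g.leadingCoeff ∧ aeval T g = th c g.natDegree T := by
  have hF : Frob (itr f r) T := FITR hT.toFrob hr
  have hmon : (itr f r).Monic := itr_monic hf.monic (by have := hf.deg; omega) r
  have hg0 : g.leadingCoeff ≠ 0 := by
    rw [Ne, leadingCoeff_eq_zero]
    rintro rfl
    simp at hg
  set F := itr f r with hFdef
  set D := F.natDegree with hD
  have hD2 : 2 ≤ D := hF.deg
  have hlc : g.leadingCoeff ^ D = g.leadingCoeff := by
    have h1 := congrArg leadingCoeff hc
    rw [leadingCoeff_comp (by omega), leadingCoeff_comp (by omega), hmon.leadingCoeff, one_pow,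
      mul_one, one_mul] at h1
    exact h1.symm
  refine ⟨Units.mk0 _ hg0, rfl, ?_⟩
  set c : kˣ := Units.mk0 _ hg0 with hcdef
  have hcD : c ^ D = c := by
    apply Units.ext
    rw [Units.val_pow_eq_pow_val]
    exact hlc
  have hpg := aeval_pole hT.pole g
  have e0 : (0 : ℕ) < g.natDegree := hg
  have hV1 : (th c g.natDegree T).coeff (-(g.natDegree : ℤ)) = g.leadingCoeff := by
    have h1 := th_coeff_mul c e0 T (-1)
    rw [mul_neg_one] at h1
    rw [h1, hT.lead, mul_one, neg_neg, zpow_one]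
    rfl
  have hV2 : ∀ j < -(g.natDegree : ℤ), (th c g.natDegree T).coeff j = 0 := by
    intro j hj
    by_cases hdj : (g.natDegree : ℤ) ∣ j
    · obtain ⟨i, rfl⟩ := hdj
      rw [th_coeff_mul c e0, hT.pole.2 i, mul_zero]
      have e1 : (0 : ℤ) < g.natDegree := by exact_mod_cast e0
      nlinarith
    · rw [th_coeff_of_not_dvd _ e0 _ _ hdj]
  apply uniqL hmon hD2 hg hpg.2 hV2
  · rw [hpg.1, hT.lead, one_pow, mul_one]
    exact hg0
  · rw [hpg.1, hT.lead, one_pow, mul_one, hV1]
  · rw [← aeval_comp, ← hc, aeval_comp, hF.eq, aeval_algHom_apply]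
  · rw [aeval_algHom_apply, hF.eq, th_th _ _ e0 (by omega), th_th _ _ (by omega) e0, one_pow,
      mul_one, one_mul, hcD, mul_comm]

/-- the leading coefficients differ by a root of unity of bounded order -/
theorem comm_lc {f : k[X]} (hf : Good f) {T : L k} (hT : Bott f T) {j0 : ℤ} (hj0 : 0 < j0)
    (hT0 : T.coeff j0 ≠ 0) {g g' : k[X]} (hdeg : g.natDegree = g'.natDegree)
    (hg : 1 ≤ g.natDegree) {r r' : ℕ} (hr : 1 ≤ r) (hr' : 1 ≤ r')
    (hc : g.comp (itr f r) = (itr f r).comp g)
    (hc' : g'.comp (itr f r') = (itr f r').comp g') :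
    g'.leadingCoeff ^ (j0.toNat + 1) = g.leadingCoeff ^ (j0.toNat + 1) ∧
      (g'.leadingCoeff = g.leadingCoeff → g' = g) := by
  obtain ⟨c, hcg, hV⟩ := comm_th hf hT hg hr hc
  obtain ⟨c', hcg', hV'⟩ := comm_th hf hT (by rw [← hdeg]; exact hg) hr' hc'
  have e0 : (0 : ℕ) < g.natDegree := hg
  rw [← hdeg] at hV'
  set e := g.natDegree with he
  have e0' : (0 : ℤ) < e := by exact_mod_cast e0
  set om : k := (c' : k) / c with hom
  have hP : g' - C om * g = 0 := by
    by_contra hne
    have h1 := (aeval_pole hT.pole (g' - C om * g)).1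
    rw [hT.lead, one_pow, mul_one, map_sub, map_mul, aeval_C, hV, hV', ← Algebra.smul_def,
      HahnSeries.coeff_sub, HahnSeries.coeff_smul] at h1
    have h2 : (g' - C om * g).leadingCoeff ≠ 0 := by
      rwa [Ne, leadingCoeff_eq_zero]
    apply h2
    rw [← h1]
    set n := (g' - C om * g).natDegree with hn
    by_cases hdj : (e : ℤ) ∣ -(n : ℤ)
    · obtain ⟨i, hi⟩ := hdj
      rw [hi, th_coeff_mul _ e0, th_coeff_mul _ e0]
      have hi0 : i ≤ 0 := by
        by_contra hlt
        rw [not_le] at hlt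
        have := mul_pos e0' hlt
        omega
      rcases lt_trichotomy i (-1) with h3 | h3 | h3
      · rw [hT.pole.2 i h3, mul_zero, mul_zero, smul_zero, sub_zero]
      · rw [h3, hT.lead, neg_neg, zpow_one, zpow_one, mul_one, mul_one, smul_eq_mul, hom,
          div_mul_cancel₀ _ c.ne_zero, sub_self]
      · obtain rfl : i = 0 := by omega
        rw [hT.cent, mul_zero, mul_zero, smul_zero, sub_zero]
    · rw [th_coeff_of_not_dvd _ e0 _ _ hdj, th_coeff_of_not_dvd _ e0 _ _ hdj, smul_zero,
        sub_zero]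
  have hP2 : g' = C om * g := sub_eq_zero.1 hP
  constructor
  · have h1 : th c' e T = om • th c e T := by
      rw [← hV', ← hV, hP2, map_mul, aeval_C, ← Algebra.smul_def]
    have h2 := congrArg (fun u : L k => u.coeff ((e : ℤ) * j0)) h1
    rw [HahnSeries.coeff_smul, th_coeff_mul _ e0, th_coeff_mul _ e0, smul_eq_mul, ← mul_assoc] at h2
    have h3 := mul_right_cancel₀ hT0 h2
    obtain ⟨n, rfl⟩ := Int.eq_ofNat_of_zero_le hj0.le
    rw [← hcg, ← hcg']
    have hn : ((n : ℤ)).toNat = n := Int.toNat_natCast n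
    rw [hn]
    rw [zpow_neg, zpow_neg, zpow_natCast, zpow_natCast, hom, Units.val_inv_eq_inv_val,
      Units.val_inv_eq_inv_val, Units.val_pow_eq_pow_val, Units.val_pow_eq_pow_val] at h3
    have hc0 : (c : k) ≠ 0 := c.ne_zero
    have hc0' : (c' : k) ≠ 0 := c'.ne_zero
    field_simp at h3
    rw [pow_succ, pow_succ]
    linear_combination -h3
  · intro h
    have h4 : om = 1 := by
      rw [hom, hcg, hcg', h, div_self]
      rw [← hcg]
      exact c.ne_zero
    rw [hP2, h4, map_one, one_mul]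

theorem FING {f : k[X]} (hf : Good f) (e : ℕ) :
    {g : k[X] | 1 ≤ g.natDegree ∧ g.natDegree ≤ e ∧
      ∃ r, 1 ≤ r ∧ g.comp (itr f r) = (itr f r).comp g}.Finite := by
  obtain ⟨T, hT⟩ := BOT hf.monic hf.deg hf.cent
  obtain ⟨j0, hj0, hT0⟩ := NPG hf hT
  have hsub : {g : k[X] | 1 ≤ g.natDegree ∧ g.natDegree ≤ e ∧
      ∃ r, 1 ≤ r ∧ g.comp (itr f r) = (itr f r).comp g} ⊆
      ⋃ n ∈ Finset.range (e + 1), {g : k[X] | 1 ≤ n ∧ g.natDegree = n ∧
        ∃ r, 1 ≤ r ∧ g.comp (itr f r) = (itr f r).comp g} := by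
    rintro g ⟨h1, h2, h3⟩
    simp only [Set.mem_iUnion]
    exact ⟨g.natDegree, Finset.mem_range.2 (by omega), h1, rfl, h3⟩
  refine Set.Finite.subset (Set.Finite.biUnion (Finset.finite_toSet _) fun n _ => ?_) hsub
  rcases Set.eq_empty_or_nonempty {g : k[X] | 1 ≤ n ∧ g.natDegree = n ∧
        ∃ r, 1 ≤ r ∧ g.comp (itr f r) = (itr f r).comp g} with h | h
  · rw [h]
    exact Set.finite_empty
  · obtain ⟨g, hn, hg, r, hr, hc⟩ := h
    apply Set.Finite.of_finite_image (f := fun g : k[X] => g.leadingCoeff)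
    · refine Set.Finite.subset (Multiset.finite_toSet
        (X ^ (j0.toNat + 1) - C (g.leadingCoeff ^ (j0.toNat + 1)) : k[X]).roots) ?_
      rintro _ ⟨g', ⟨_, hg', r', hr', hc'⟩, rfl⟩
      have h1 := (comm_lc hf hT hj0 hT0 (hg.trans hg'.symm) (by omega) hr hr' hc hc').1
      rw [Set.mem_ofPred_eq, mem_roots (X_pow_sub_C_ne_zero (Nat.succ_pos _) _), IsRoot.def,
        eval_sub, eval_pow, eval_X, eval_C, sub_eq_zero]
      exact h1
    · rintro g1 ⟨_, hg1, r1, hr1, hc1⟩ g2 ⟨_, hg2, r2, hr2, hc2⟩ h12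
      exact (comm_lc hf hT hj0 hT0 (hg2.trans hg1.symm) (by omega) hr2 hr1 hc2 hc1).2 h12

end

end Pool.Agent.Lib_helper45.BDP.FING
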