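import Pool.Agent.Lib_helper45.BDP.Defs
import Pool.Agent.Lib_helper45.BDP.W0

namespace Pool.Agent.Lib_helper45.BDP.FR2

open Polynomial IntermediateField

noncomputable section

section Gen

theorem trace_trace_fields {A B C : Type*} [Field A] [Field B] [Field C] [Algebra A B]
    [Algebra B C] [Algebra A C] [IsScalarTower A B C] [FiniteDimensional A B]
    [FiniteDimensional B C] (x : C) :
    Algebra.trace A B (Algebra.trace B C x) = Algebra.trace A C x := Algebra.trace_trace x

theorem tr_int_aux {R A B : Type*} [CommRing R] [Field A] [Field B] [Algebra R A] [Algebra R B]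
    [Algebra A B] [IsScalarTower R A B] [FiniteDimensional A B] {x : B} (hx : IsIntegral R x) :
    IsIntegral R (Algebra.trace A B x) := Algebra.isIntegral_trace hx

theorem natDegree_minpoly_le {A B : Type*} [Field A] [Field B] [Algebra A B]
    [FiniteDimensional A B] (x : B) : (minpoly A x).natDegree ≤ Module.finrank A B :=
  minpoly.natDegree_le x

theorem trace_emb {A B E : Type*} [Field A] [Field B] [Field E] [Algebra A B] [Algebra A E]
    [CharZero A] [FiniteDimensional A B] [IsAlgClosed E] {ι : Type*} [Fintype ι]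
    (σ : ι → (B →ₐ[A] E)) (hσ : Function.Injective σ)
    (hcard : Module.finrank A B ≤ Fintype.card ι) (u : B) :
    algebraMap A E (Algebra.trace A B u) = ∑ i, σ i u := by
  rw [trace_eq_sum_embeddings E]
  have h1 : Fintype.card (B →ₐ[A] E) = Module.finrank A B := AlgHom.card A B E
  have h2 : Function.Bijective σ := by
    rw [Fintype.bijective_iff_injective_and_card]
    exact ⟨hσ, le_antisymm (Fintype.card_le_of_injective σ hσ) (by rw [h1]; exact hcard)⟩
  exact (h2.sum_comp fun τ : B →ₐ[A] E => τ u).symm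

variable {k W : Type*} [Field k] [Field W] [Algebra k W]

/-- the algebra structure of a larger intermediate field over a smaller one -/
@[reducible] def iA {A B : IntermediateField k W} (h : A ≤ B) : Algebra A B :=
  inferInstanceAs (Algebra A (extendScalars h))

theorem iA_coe {A B : IntermediateField k W} (h : A ≤ B) (a : A) :
    ((@algebraMap A B _ _ (iA h) a : B) : W) = a := rfl

/-- the relative trace -/
def tr {A B : IntermediateField k W} (h : A ≤ B) (x : B) : A :=
  @Algebra.trace A B _ _ (iA h) x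

theorem fd {A B : IntermediateField k W} (h : A ≤ B) (hf : 0 < relfinrank A B) :
    @FiniteDimensional A B _ _ (iA h).toModule := by
  rw [relfinrank_eq_finrank_of_le h] at hf
  have h1 : FiniteDimensional A (extendScalars h) := Module.finite_of_finrank_pos hf
  exact h1

theorem tr_tr {A B C : IntermediateField k W} (h : A ≤ B) (h' : B ≤ C)
    (hf : 0 < relfinrank A B) (hf' : 0 < relfinrank B C) (x : C) :
    tr h (tr h' x) = tr (h.trans h') x := by
  refine @trace_trace_fields A B C _ _ _ (iA h) (iA h') (iA (h.trans h')) ?_ (fd h hf)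
    (fd h' hf') x
  exact @IsScalarTower.of_algebraMap_eq A B C _ _ _ (iA h) (iA h') (iA (h.trans h')) fun _ => rfl

theorem tr_mul {A B : IntermediateField k W} (h : A ≤ B) (p : A) (x y : B)
    (hy : (y : W) = (p : W) * x) : tr h y = p * tr h x := by
  let _ := iA h
  have h1 : y = p • x := by
    apply Subtype.ext
    rw [hy]
    rfl
  change Algebra.trace A B y = p * Algebra.trace A B x
  rw [h1, map_smul, smul_eq_mul]

theorem tr_of_mem {A B : IntermediateField k W} (h : A ≤ B) (p : A) (y : B)
    (hy : (y : W) = (p : W)) : tr h y = relfinrank A B • p := by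
  let _ := iA h
  have h1 : y = algebraMap A B p := Subtype.ext hy
  change Algebra.trace A B y = _
  rw [h1, Algebra.trace_algebraMap, relfinrank_eq_finrank_of_le h]
  rfl

theorem tr_map (S : W →ₐ[k] W) {A B : IntermediateField k W} (h : A ≤ B) (x : B)
    (h' : A.map S ≤ B.map S) (y : B.map S) (hy : (y : W) = S x) :
    ((tr h' y : A.map S) : W) = S (tr h x) := by
  let _ := iA h
  let _ := iA h'
  let e₁ : A ≃+* A.map S := (A.equivMap S).toRingEquiv
  let e₂ : B ≃+* B.map S := (B.equivMap S).toRingEquiv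
  have he : RingHom.comp (algebraMap (A.map S) (B.map S)) (e₁ : A →+* A.map S) =
      RingHom.comp (e₂ : B →+* B.map S) (algebraMap A B) := by
    ext a
    rfl
  have h1 := Algebra.trace_eq_of_equiv_equiv e₁ e₂ he x
  have h2 : e₂ x = y := Subtype.ext hy.symm
  rw [h2] at h1
  have h3 : e₁ (Algebra.trace A B x) = Algebra.trace (A.map S) (B.map S) y := by
    rw [h1, RingEquiv.apply_symm_apply]
  have h4 := congrArg Subtype.val h3
  exact h4.symm

/-- the embedding of `B` given by an automorphism fixing `A` -/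
def emb {A B : IntermediateField k W} (h : A ≤ B) (E : Type*) [Field E] [Algebra W E]
    (ρ : W →ₐ[k] W) (hρ : ∀ a ∈ A, ρ a = a) :
    @AlgHom A B E _ _ _ (iA h) _ :=
  @AlgHom.mk A B E _ _ _ (iA h) _ ((algebraMap W E).comp (ρ.toRingHom.comp B.val.toRingHom))
    (fun a => congrArg (algebraMap W E) (hρ a a.2))

theorem emb_apply {A B : IntermediateField k W} (h : A ≤ B) (E : Type*) [Field E] [Algebra W E]
    (ρ : W →ₐ[k] W) (hρ : ∀ a ∈ A, ρ a = a) (u : B) :
    (@DFunLike.coe (@AlgHom A B E _ _ _ (iA h) _) B (fun _ => E) (@AlgHom.funLike A B E _ _ _ (iA h) _)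
      (emb h E ρ hρ) u) = algebraMap W E (ρ u) := rfl

theorem tr_emb_aux [CharZero k] {A B : IntermediateField k W} (h : A ≤ B)
    (hf : 0 < relfinrank A B) {ι : Type*} [Fintype ι] (hc : relfinrank A B ≤ Fintype.card ι)
    (ρ : ι → W →ₐ[k] W) (hρ : ∀ i, ∀ a ∈ A, ρ i a = a) {T : W} (hT : T ∈ B)
    (hinj : Function.Injective fun i => ρ i T) (u : B) (E : Type*) [Field E] [Algebra W E]
    [IsAlgClosed E] : ((tr h u : A) : W) = ∑ i, ρ i u := by
  have : CharZero A := charZero_of_injective_algebraMap (algebraMap k A).injective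
  have h1 := @trace_emb A B E _ _ _ (iA h) _ _ (fd h hf) _ ι _ (fun i => emb h E (ρ i) (hρ i)) ?_ ?_ u
  · have h2 : algebraMap W E ((tr h u : A) : W) = algebraMap W E (∑ i, ρ i u) := by
      rw [map_sum]
      exact h1
    exact (algebraMap W E).injective h2
  · intro i j hij
    apply hinj
    have h3 := congrArg (fun φ : (@AlgHom A B E _ _ _ (iA h) _) =>
      (@DFunLike.coe (@AlgHom A B E _ _ _ (iA h) _) B (fun _ => E)
        (@AlgHom.funLike A B E _ _ _ (iA h) _) φ ⟨T, hT⟩)) hij
    simp only [emb_apply] at h3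
    exact (algebraMap W E).injective h3
  · rw [relfinrank_eq_finrank_of_le h] at hc
    exact hc

theorem tr_emb [CharZero k] {A B : IntermediateField k W} (h : A ≤ B)
    (hf : 0 < relfinrank A B) {ι : Type*} [Fintype ι] (hc : relfinrank A B ≤ Fintype.card ι)
    (ρ : ι → W →ₐ[k] W) (hρ : ∀ i, ∀ a ∈ A, ρ i a = a) {T : W} (hT : T ∈ B)
    (hinj : Function.Injective fun i => ρ i T) (u : B) :
    ((tr h u : A) : W) = ∑ i, ρ i u :=
  tr_emb_aux h hf hc ρ hρ hT hinj u (AlgebraicClosure W)

end Gen

variable {k : Type*} [Field k] [IsAlgClosed k] [CharZero k]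

theorem tr_frob {F : k[X]} {T : L k} (hF : Frob F T) {B : IntermediateField k (L k)}
    (hT : T ∈ B) (hle : B.map (th 1 F.natDegree) ≤ B)
    (h0 : 0 < relfinrank (B.map (th 1 F.natDegree)) B)
    (h1 : relfinrank (B.map (th 1 F.natDegree)) B ≤ F.natDegree) (u : B) :
    ((tr hle u : B.map (th 1 F.natDegree)) : L k) =
      (F.natDegree : k) • th 1 F.natDegree (U F.natDegree (u : L k)) := by
  have hd := hF.deg
  have hM : 0 < F.natDegree := by omega
  obtain ⟨s, hs1, hs2, hs3⟩ := AVG (k := k) hM
  have h2 := tr_emb hle h0 (ι := s) (by rw [Fintype.card_coe, hs1]; exact h1)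
    (fun ζ => th (ζ : kˣ) 1) ?_ hT ?_ u
  · rw [h2, ← hs3 u]
    exact Finset.sum_coe_sort s (fun ζ => th ζ 1 (u : L k))
  · rintro ζ _ ⟨b, hb, rfl⟩
    change th (ζ : kˣ) 1 (th 1 F.natDegree b) = th 1 F.natDegree b
    rw [th_th _ _ Nat.one_pos hM, (hs2 _).1 ζ.2, one_mul, one_mul]
  · intro ζ ζ' h
    have h4 := congrArg (fun v => HahnSeries.coeff v (-1)) h
    simp only [th_one_coeff] at h4
    have h5 := mul_right_cancel₀ hF.pole.1 h4
    have h6 : (ζ : kˣ) ^ (-(-1 : ℤ)) = (ζ' : kˣ) ^ (-(-1 : ℤ)) := Units.val_injective h5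
    rw [neg_neg, zpow_one, zpow_one] at h6
    exact Subtype.ext h6

theorem map_K0 {F : k[X]} {T : L k} (hF : Frob F T) :
    (IntermediateField.adjoin k {T}).map (th 1 F.natDegree) ≤ IntermediateField.adjoin k {T} := by
  rw [adjoin_map, Set.image_singleton, adjoin_le_iff, Set.singleton_subset_iff, ← hF.eq]
  exact algebra_adjoin_le_adjoin k _ (aeval_mem_adjoin_singleton k T)

theorem le_KK (T y : L k) : IntermediateField.adjoin k {T} ≤ IntermediateField.adjoin k {T, y} :=
  adjoin.mono k _ _ (by simp)

theorem map_KK {F : k[X]} {T y : L k} (hF : Frob F T)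
    (hS : th 1 F.natDegree y ∈ IntermediateField.adjoin k {T, y}) :
    (IntermediateField.adjoin k {T, y}).map (th 1 F.natDegree) ≤
      IntermediateField.adjoin k {T, y} := by
  rw [adjoin_map, Set.image_pair, adjoin_le_iff]
  rintro x (rfl | rfl)
  · apply le_KK T y
    rw [← hF.eq]
    exact algebra_adjoin_le_adjoin k _ (aeval_mem_adjoin_singleton k T)
  · exact hS

theorem rel_K0 {F : k[X]} {T : L k} (hF : Frob F T) :
    0 < relfinrank ((IntermediateField.adjoin k {T}).map (th 1 F.natDegree))
      (IntermediateField.adjoin k {T}) ∧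
    relfinrank ((IntermediateField.adjoin k {T}).map (th 1 F.natDegree))
      (IntermediateField.adjoin k {T}) ≤ F.natDegree := by
  have hd := hF.deg
  have hF0 : F ≠ 0 := by
    rintro rfl
    simp at hd
  rw [relfinrank_eq_finrank_of_le (map_K0 hF), extendScalars_adjoin]
  set A := (IntermediateField.adjoin k {T}).map (th 1 F.natDegree) with hA
  have hST : th 1 F.natDegree T ∈ A := ⟨T, mem_adjoin_simple_self k T, rfl⟩
  let P : A[X] := F.map (algebraMap k A) - C ⟨th 1 F.natDegree T, hST⟩
  have hPd : P.natDegree = F.natDegree := by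
    rw [natDegree_sub_C, natDegree_map]
  have hP0 : P ≠ 0 := by
    intro h
    rw [h] at hPd
    simp at hPd
    omega
  have hPT : aeval T P = 0 := by
    rw [map_sub, aeval_map_algebraMap, aeval_C, hF.eq]
    exact sub_self _
  have hint : IsIntegral A T := IsAlgebraic.isIntegral ⟨P, hP0, hPT⟩
  rw [adjoin.finrank hint]
  refine ⟨minpoly.natDegree_pos hint, ?_⟩
  rw [← hPd]
  exact natDegree_le_of_dvd (minpoly.dvd A T hPT) hP0

theorem rel_n {T y : L k} (hy : Dep T y) :
    0 < relfinrank (IntermediateField.adjoin k {T}) (IntermediateField.adjoin k {T, y}) := by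
  rw [relfinrank_eq_finrank_of_le (le_KK T y), extendScalars_adjoin]
  have : FiniteDimensional (IntermediateField.adjoin k {T})
      (IntermediateField.adjoin (IntermediateField.adjoin k {T}) {T, y}) := by
    refine finiteDimensional_adjoin ?_
    rintro x (rfl | rfl)
    · exact isIntegral_algebraMap (R := IntermediateField.adjoin k {x})
        (x := ⟨x, mem_adjoin_simple_self k x⟩)
    · exact hy.isIntegral
  exact Module.finrank_pos

theorem rel_KK {F : k[X]} {T y : L k} (hF : Frob F T) (hy : Dep T y)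
    (hS : th 1 F.natDegree y ∈ IntermediateField.adjoin k {T, y}) :
    0 < relfinrank ((IntermediateField.adjoin k {T, y}).map (th 1 F.natDegree))
      (IntermediateField.adjoin k {T, y}) ∧
    relfinrank ((IntermediateField.adjoin k {T, y}).map (th 1 F.natDegree))
      (IntermediateField.adjoin k {T, y}) ≤ F.natDegree := by
  have h1 := relfinrank_mul_relfinrank (map_K0 hF) (le_KK T y)
  have h2 := relfinrank_mul_relfinrank (map_mono (th 1 F.natDegree) (le_KK T y)) (map_KK hF hS)
  rw [relfinrank_map_map, ← h1, mul_comm] at h2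
  have h3 := Nat.eq_of_mul_eq_mul_right (rel_n hy) h2
  rw [h3]
  exact rel_K0 hF

theorem FR1 {F : k[X]} {T y : L k} (hF : Frob F T) (hy : Dep T y)
    (hS : th 1 F.natDegree y ∈ IntermediateField.adjoin k {T, y})
    {u : L k} (hu : u ∈ IntermediateField.adjoin k {T, y}) :
    U F.natDegree u ∈ IntermediateField.adjoin k {T, y} := by
  have hd := hF.deg
  have hT : T ∈ IntermediateField.adjoin k {T, y} := subset_adjoin k _ (by simp)
  have h1 := tr_frob hF hT (map_KK hF hS) (rel_KK hF hy hS).1 (rel_KK hF hy hS).2 ⟨u, hu⟩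
  obtain ⟨v, hv, hv2⟩ := (tr (map_KK hF hS) ⟨u, hu⟩).2
  have h2 : th 1 F.natDegree v = th 1 F.natDegree ((F.natDegree : k) • U F.natDegree u) := by
    rw [map_smul]
    exact hv2.trans h1
  have h3 := th_injective 1 F.natDegree h2
  have h4 : U F.natDegree u = (F.natDegree : k)⁻¹ • v := by
    rw [h3, smul_smul, inv_mul_cancel₀ (by
      have : F.natDegree ≠ 0 := by omega
      exact_mod_cast this), one_smul]
  rw [h4]
  exact (IntermediateField.adjoin k {T, y}).smul_mem hv

theorem tau_comm {F : k[X]} {T y : L k} (hF : Frob F T) (hy : Dep T y)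
    (hS : th 1 F.natDegree y ∈ IntermediateField.adjoin k {T, y})
    {u v : IntermediateField.adjoin k {T, y}} (hv : (v : L k) = U F.natDegree (u : L k)) :
    U F.natDegree ((tr (le_KK T y) u : IntermediateField.adjoin k {T}) : L k) =
      (tr (le_KK T y) v : IntermediateField.adjoin k {T}) := by
  have hd := hF.deg
  have hT0 : T ∈ IntermediateField.adjoin k {T} := mem_adjoin_simple_self k T
  have hT : T ∈ IntermediateField.adjoin k {T, y} := subset_adjoin k _ (by simp)
  have hmono := map_mono (th (1 : kˣ) F.natDegree) (le_KK T y)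
  -- first way
  have h1 := tr_tr (map_K0 hF) (le_KK T y) (rel_K0 hF).1 (rel_n hy) u
  have h2 := tr_frob hF hT0 (map_K0 hF) (rel_K0 hF).1 (rel_K0 hF).2 (tr (le_KK T y) u)
  -- second way
  have hr : 0 < relfinrank ((IntermediateField.adjoin k {T}).map (th 1 F.natDegree))
      ((IntermediateField.adjoin k {T, y}).map (th 1 F.natDegree)) := by
    rw [relfinrank_map_map]
    exact rel_n hy
  have h3 := tr_tr hmono (map_KK hF hS) hr (rel_KK hF hy hS).1 u
  have h4 := tr_frob hF hT (map_KK hF hS) (rel_KK hF hy hS).1 (rel_KK hF hy hS).2 u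
  have h5 := tr_map (th (1 : kˣ) F.natDegree) (le_KK T y) ((F.natDegree : k) • v) hmono
    (tr (map_KK hF hS) u) (by
      rw [h4, ← map_smul, ← hv]
      rfl)
  have h6 : ((F.natDegree : k) • th 1 F.natDegree (U F.natDegree
      ((tr (le_KK T y) u : IntermediateField.adjoin k {T}) : L k))) =
      th 1 F.natDegree (tr (le_KK T y) ((F.natDegree : k) • v) : IntermediateField.adjoin k {T}) := by
    rw [← h2, ← h5, h1, h3]
  have h7 := tr_mul (le_KK T y) (algebraMap k _ (F.natDegree : k)) v ((F.natDegree : k) • v)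
    (Algebra.smul_def _ _)
  rw [h7, ← map_smul] at h6
  have h8 := th_injective 1 F.natDegree h6
  have h9 : (F.natDegree : k) ≠ 0 := by
    have : F.natDegree ≠ 0 := by omega
    exact_mod_cast this
  have h10 : (F.natDegree : k) • U F.natDegree
      ((tr (le_KK T y) u : IntermediateField.adjoin k {T}) : L k) =
      (F.natDegree : k) • ((tr (le_KK T y) v : IntermediateField.adjoin k {T}) : L k) := by
    rw [h8, Algebra.smul_def]
    rfl
  exact smul_right_injective (L k) h9 h10

theorem trans_T {F : k[X]} {T : L k} (hF : Frob F T) : Transcendental k T := by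
  intro hT
  have hint : IsIntegral k T := hT.isIntegral
  obtain ⟨c, hc⟩ := minpoly.mem_range_of_degree_eq_one k T
    (IsAlgClosed.degree_eq_one_of_irreducible k (minpoly.irreducible hint))
  apply hF.pole.1
  rw [← hc, algebraMap_L, HahnSeries.C_apply, HahnSeries.coeff_single_of_ne (by norm_num)]

open scoped IntermediateField.algebraAdjoinAdjoin in
theorem mem_of_int {T : L k} (hT : Transcendental k T) {g : IntermediateField.adjoin k {T}}
    (hi : IsIntegral (Algebra.adjoin k {T}) g) : (g : L k) ∈ Algebra.adjoin k {T} := by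
  have hR : IsIntegrallyClosed (Algebra.adjoin k {T}) :=
    IsIntegrallyClosed.of_equiv (Polynomial.algEquivOfTranscendental k T hT).toRingEquiv
  obtain ⟨y, hy⟩ := IsIntegrallyClosed.algebraMap_eq_of_integral hi
  rw [← hy]
  exact y.2

open scoped IntermediateField.algebraAdjoinAdjoin in
theorem tr_int {T y : L k} (hT : Transcendental k T) (hy : Dep T y)
    (u : IntermediateField.adjoin k {T, y}) (hi : IsIntegral (Algebra.adjoin k {T}) (u : L k)) :
    ((tr (le_KK T y) u : IntermediateField.adjoin k {T}) : L k) ∈ Algebra.adjoin k {T} := by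
  apply mem_of_int hT
  let _ := iA (le_KK T y)
  let _ : Algebra (Algebra.adjoin k {T}) (IntermediateField.adjoin k {T, y}) :=
    ((algebraMap (IntermediateField.adjoin k {T}) (IntermediateField.adjoin k {T, y})).comp
      (algebraMap (Algebra.adjoin k {T}) (IntermediateField.adjoin k {T}))).toAlgebra
  have h1 : IsScalarTower (Algebra.adjoin k {T}) (IntermediateField.adjoin k {T})
      (IntermediateField.adjoin k {T, y}) := IsScalarTower.of_algebraMap_eq fun _ => rfl
  have h2 := fd (le_KK T y) (rel_n hy)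
  refine tr_int_aux ?_
  obtain ⟨p, hp, h0⟩ := hi
  refine ⟨p, hp, ?_⟩
  apply Subtype.ext
  change algebraMap (IntermediateField.adjoin k {T, y}) (L k) _ = 0
  rw [hom_eval₂]
  exact h0

theorem FR2 {F : k[X]} {T y : L k} (hF : Frob F T) (hy : Dep T y)
    (hS : th 1 F.natDegree y ∈ IntermediateField.adjoin k {T, y}) :
    ∃ (n : ℕ) (τ : L k → L k), 0 < n ∧
      (∀ u ∈ IntermediateField.adjoin k {T, y}, τ u ∈ IntermediateField.adjoin k {T}) ∧
      (∀ u ∈ IntermediateField.adjoin k {T}, τ u = n • u) ∧
      (∀ p ∈ IntermediateField.adjoin k {T}, ∀ u ∈ IntermediateField.adjoin k {T, y},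
        τ (p * u) = p * τ u) ∧
      (∀ u ∈ IntermediateField.adjoin k {T, y}, IsIntegral (Algebra.adjoin k {T}) u →
        τ u ∈ Algebra.adjoin k {T}) ∧
      (∀ u ∈ IntermediateField.adjoin k {T, y}, U F.natDegree (τ u) = τ (U F.natDegree u)) ∧
      (∀ u ∈ IntermediateField.adjoin k {T, y},
        (minpoly (IntermediateField.adjoin k {T}) u).natDegree ≤ n) := by
  classical
  let τ : L k → L k := fun u => if h : u ∈ IntermediateField.adjoin k {T, y} then
    (tr (le_KK T y) ⟨u, h⟩ : IntermediateField.adjoin k {T}) else 0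
  have hτ : ∀ (u : L k) (h : u ∈ IntermediateField.adjoin k {T, y}),
      τ u = (tr (le_KK T y) ⟨u, h⟩ : IntermediateField.adjoin k {T}) := fun u h => dif_pos h
  refine ⟨relfinrank (IntermediateField.adjoin k {T}) (IntermediateField.adjoin k {T, y}), τ,
    rel_n hy, ?_, ?_, ?_, ?_, ?_, ?_⟩
  · intro u hu
    rw [hτ u hu]
    exact (tr (le_KK T y) ⟨u, hu⟩).2
  · intro u hu
    rw [hτ u (le_KK T y hu), tr_of_mem (le_KK T y) ⟨u, hu⟩ ⟨u, le_KK T y hu⟩ rfl]
    rfl
  · intro p hp u hu
    have hpu : p * u ∈ IntermediateField.adjoin k {T, y} := mul_mem (le_KK T y hp) hu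
    rw [hτ _ hpu, hτ u hu, tr_mul (le_KK T y) ⟨p, hp⟩ ⟨u, hu⟩ ⟨p * u, hpu⟩ rfl]
    rfl
  · intro u hu hi
    rw [hτ u hu]
    exact tr_int (trans_T hF) hy ⟨u, hu⟩ hi
  · intro u hu
    rw [hτ u hu, hτ _ (FR1 hF hy hS hu)]
    exact tau_comm hF hy hS rfl
  · intro u hu
    rw [relfinrank_eq_finrank_of_le (le_KK T y)]
    have hf : 0 < relfinrank (IntermediateField.adjoin k {T}) (IntermediateField.adjoin k {T, y}) :=
      rel_n hy
    rw [relfinrank_eq_finrank_of_le (le_KK T y)] at hf
    have : FiniteDimensional (IntermediateField.adjoin k {T}) (extendScalars (le_KK T y)) :=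
      Module.finite_of_finrank_pos hf
    have h1 := natDegree_minpoly_le (A := IntermediateField.adjoin k {T})
      (⟨u, hu⟩ : extendScalars (le_KK T y))
    have h2 : minpoly (IntermediateField.adjoin k {T}) (⟨u, hu⟩ : extendScalars (le_KK T y)) =
        minpoly (IntermediateField.adjoin k {T}) u :=
      (minpoly.algebraMap_eq (algebraMap (extendScalars (le_KK T y)) (L k)).injective _).symm
    rw [← h2]
    exact h1

end

end Pool.Agent.Lib_helper45.BDP.FR2

namespace Pool.Agent.Lib_helper45.BDP.FR1

noncomputable section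

variable {k : Type*} [Field k] [IsAlgClosed k] [CharZero k]

theorem FR1 {F : Polynomial k} {T y : L k} (hF : Frob F T) (hy : Dep T y)
    (hS : th 1 F.natDegree y ∈ IntermediateField.adjoin k {T, y})
    {u : L k} (hu : u ∈ IntermediateField.adjoin k {T, y}) :
    U F.natDegree u ∈ IntermediateField.adjoin k {T, y} := FR2.FR1 hF hy hS hu

end

end Pool.Agent.Lib_helper45.BDP.FR1
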