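import Pool.Agent.Lib_helper45.BDP.Defs
import Pool.Agent.Lib_helper45.BDP.W0

namespace Pool.Agent.Lib_helper45.BDP.GR1

open Polynomial

noncomputable section

/-- a root of a monic polynomial with coefficients in the subalgebra `B` is integral over `B` -/
theorem int_of_coeff {k A : Type*} [CommRing k] [CommRing A] [Algebra k A] (B : Subalgebra k A)
    {q : A[X]} (hq : q.Monic) (hc : ∀ i, q.coeff i ∈ B) {x : A} (hx : q.eval x = 0) :
    IsIntegral B x := by
  have hl : q ∈ Polynomial.lifts (algebraMap B A) := by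
    rw [Polynomial.lifts_iff_coeff_lifts]
    intro i
    exact ⟨⟨q.coeff i, hc i⟩, rfl⟩
  obtain ⟨p, hp1, -, hp3⟩ := Polynomial.lifts_and_natDegree_eq_and_monic hl hq
  refine ⟨p, hp3, ?_⟩
  rw [← Polynomial.eval_map, hp1, hx]

/-- an integral element is a root of a monic polynomial with coefficients in `B` -/
theorem coeff_of_int {k A : Type*} [CommRing k] [CommRing A] [Algebra k A] {B : Subalgebra k A}
    {x : A} (hx : IsIntegral B x) : ∃ q : A[X], q.Monic ∧ (∀ i, q.coeff i ∈ B) ∧ q.eval x = 0 := by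
  obtain ⟨p, hp, hx⟩ := hx
  refine ⟨p.map (algebraMap B A), hp.map _, fun i => ?_, ?_⟩
  · rw [coeff_map]
    exact (p.coeff i).2
  · rw [Polynomial.eval_map, hx]

theorem int_map {k A A' : Type*} [CommRing k] [CommRing A] [Algebra k A] [CommRing A']
    [Algebra k A'] (φ : A →ₐ[k] A') {B : Subalgebra k A} {x : A} (hx : IsIntegral B x) :
    IsIntegral (B.map φ) (φ x) := by
  obtain ⟨q, hq, hc, h0⟩ := coeff_of_int hx
  refine int_of_coeff _ (hq.map (φ : A →+* A')) (fun i => ?_) ?_
  · rw [coeff_map]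
    exact ⟨_, hc i, rfl⟩
  · rw [← AlgHom.coe_toRingHom, eval_map, eval₂_at_apply, h0, map_zero]

theorem int_comap {k A A' : Type*} [CommRing k] [CommRing A] [Algebra k A] [CommRing A']
    [Algebra k A'] (φ : A →ₐ[k] A') (hφ : Function.Injective φ) {B : Subalgebra k A} {x : A}
    (hx : IsIntegral (B.map φ) (φ x)) : IsIntegral B x := by
  obtain ⟨q, hq, hc, h0⟩ := coeff_of_int hx
  have hl : q ∈ Polynomial.lifts (φ : A →+* A') := by
    rw [Polynomial.lifts_iff_coeff_lifts]
    intro i
    obtain ⟨y, -, hy⟩ := hc i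
    exact ⟨y, hy⟩
  obtain ⟨p, hp1, -, hp3⟩ := Polynomial.lifts_and_natDegree_eq_and_monic hl hq
  refine int_of_coeff _ hp3 (fun i => ?_) (x := x) ?_
  · obtain ⟨y, hy, hy2⟩ := hc i
    rw [← hp1, coeff_map] at hy2
    have : y = p.coeff i := hφ hy2
    rw [← this]
    exact hy
  · apply hφ
    rw [← hp1, ← AlgHom.coe_toRingHom, eval_map, eval₂_at_apply] at h0
    rw [map_zero]
    exact h0

/-- transitivity of integrality -/
theorem int_trans {k A : Type*} [CommRing k] [CommRing A] [Algebra k A] {B : Subalgebra k A}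
    {q : A[X]} (hq : q.Monic) (hc : ∀ i, IsIntegral B (q.coeff i)) {x : A} (hx : q.eval x = 0) :
    IsIntegral B x := by
  have h := int_of_coeff (k := B) (integralClosure B A) hq hc hx
  exact isIntegral_trans x h

theorem int_adjoin {k A : Type*} [CommRing k] [CommRing A] [Algebra k A] {B : Subalgebra k A}
    {s : Set A} (hs : ∀ x ∈ s, IsIntegral B x) {x : A} (hx : x ∈ Algebra.adjoin k s) :
    IsIntegral B x := by
  have h : Algebra.adjoin k s ≤ (integralClosure B A).restrictScalars k := by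
    rw [Algebra.adjoin_le_iff]
    intro y hy
    exact hs y hy
  exact h hx

variable {k : Type*} [Field k]

/-- the subalgebra `k[w^b, T w^b]` -/
abbrev AB (T : L k) (b : ℕ) : Subalgebra k (L k)[X] :=
  Algebra.adjoin k {(X ^ b : (L k)[X]), C T * X ^ b}

theorem mem_AB1 (T : L k) (b : ℕ) : (X ^ b : (L k)[X]) ∈ AB T b :=
  Algebra.subset_adjoin (Set.mem_insert _ _)

theorem mem_AB2 (T : L k) (b : ℕ) : (C T * X ^ b : (L k)[X]) ∈ AB T b :=
  Algebra.subset_adjoin (Set.mem_insert_of_mem _ rfl)

theorem int_of_mem {k A : Type*} [CommRing k] [CommRing A] [Algebra k A] {B : Subalgebra k A}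
    {x : A} (hx : x ∈ B) : IsIntegral B x :=
  isIntegral_algebraMap (R := B) (A := A) (x := ⟨x, hx⟩)

theorem AB_map (φ : L k →ₐ[k] L k) (T : L k) (b : ℕ) :
    (AB T b).map (mapAlgHom φ) = AB (φ T) b := by
  rw [AlgHom.map_adjoin, Set.image_pair]
  congr 2
  · simp
  · simp

theorem root_int {F : k[X]} {y V : L k} (hF : 1 ≤ F.natDegree) (hy : aeval y F = V) {b : ℕ} :
    IsIntegral (AB V (b * F.natDegree)) (C y * X ^ b : (L k)[X]) := by
  have hF0 : F ≠ 0 := by
    rintro rfl
    simp at hF
  have hl : F.leadingCoeff ≠ 0 := leadingCoeff_ne_zero.2 hF0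
  have hXb : IsIntegral (AB V (b * F.natDegree)) (X ^ b : (L k)[X]) := by
    refine IsIntegral.of_pow (n := F.natDegree) (by omega) ?_
    rw [← pow_mul]
    exact int_of_mem (mem_AB1 _ _)
  have hVb : IsIntegral (AB V (b * F.natDegree)) (C V * X ^ (b * F.natDegree) : (L k)[X]) :=
    int_of_mem (mem_AB2 _ _)
  have hk : ∀ c : k, IsIntegral (AB V (b * F.natDegree)) (C (algebraMap k (L k) c) : (L k)[X]) :=
    fun c => int_of_mem ((AB V (b * F.natDegree)).algebraMap_mem c)
  -- the monic polynomial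
  set P : (L k)[X] := (C F.leadingCoeff⁻¹ * F).map (algebraMap k (L k)) -
    C (algebraMap k (L k) F.leadingCoeff⁻¹ * V) with hP
  have hmon0 : (C F.leadingCoeff⁻¹ * F).Monic := by
    rw [Monic, leadingCoeff_mul, leadingCoeff_C, inv_mul_cancel₀ hl]
  have hdeg0 : (C F.leadingCoeff⁻¹ * F).natDegree = F.natDegree :=
    natDegree_C_mul (inv_ne_zero hl)
  have hPm : P.Monic := by
    rw [hP]
    refine (hmon0.map _).sub_of_left ?_
    rw [(hmon0.degree_map _), degree_eq_natDegree hmon0.ne_zero, hdeg0]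
    refine lt_of_le_of_lt degree_C_le ?_
    exact_mod_cast hF
  have hPd : P.natDegree = F.natDegree := by
    rw [hP, natDegree_sub_C, hmon0.natDegree_map, hdeg0]
  have hPy : P.eval y = 0 := by
    rw [hP, eval_sub, eval_C, eval_map, ← aeval_def, aeval_mul, aeval_C, hy, sub_self]
  refine int_trans (q := scaleRoots (P.map C) (X ^ b)) ?_ ?_ ?_
  · exact (monic_scaleRoots_iff _).2 (hPm.map _)
  · intro i
    rw [coeff_scaleRoots, hPm.natDegree_map, hPd, coeff_map]
    rcases lt_trichotomy i F.natDegree with hi | hi | hi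
    · rcases Nat.eq_zero_or_pos i with h0 | h0
      · subst h0
        have e : P.coeff 0 = algebraMap k (L k) ((C F.leadingCoeff⁻¹ * F).coeff 0) -
            algebraMap k (L k) F.leadingCoeff⁻¹ * V := by
          rw [hP, coeff_sub, coeff_map, coeff_C_zero]
        rw [e, C_sub, sub_mul, C_mul, mul_assoc]
        refine IsIntegral.sub ?_ ?_
        · exact (hk _).mul (hXb.pow _)
        · refine (hk _).mul ?_
          rw [Nat.sub_zero, ← pow_mul]
          exact hVb
      · have e : P.coeff i = algebraMap k (L k) ((C F.leadingCoeff⁻¹ * F).coeff i) := by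
          rw [hP, coeff_sub, coeff_map, coeff_C_of_ne_zero (by omega), sub_zero]
        rw [e]
        exact (hk _).mul (hXb.pow _)
    · rw [hi, ← hPd, hPm.coeff_natDegree, Nat.sub_self, pow_zero, C_1, mul_one]
      exact isIntegral_one
    · rw [coeff_eq_zero_of_natDegree_lt (by omega), C_0, zero_mul]
      exact isIntegral_zero
  · have h1 : aeval (C y : (L k)[X]) (P.map C : (L k)[X][X]) = 0 := by
      rw [coe_aeval_eq_eval, eval_map, eval₂_at_apply, hPy, C_0]
    have h2 := scaleRoots_aeval_eq_zero (r := (X ^ b : (L k)[X])) h1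
    rw [coe_aeval_eq_eval, mul_comm] at h2
    exact h2

theorem GR1 [IsAlgClosed k] [CharZero k] {F : k[X]} {T z : L k} (hF : Frob F T) {a b : ℕ}
    (hb : 1 ≤ b) (hz : Gr T z a b) : Gr T (U F.natDegree z) a (b * F.natDegree) := by
  have hd := hF.deg
  have hM : 0 < F.natDegree := by omega
  obtain ⟨s, hs1, hs2, hs3⟩ := AVG (k := k) hM
  set V : L k := th 1 F.natDegree T with hV
  -- each conjugate
  have key : ∀ ζ ∈ s, IsIntegral (AB V (b * F.natDegree)) (C (th ζ 1 z) * X ^ a : (L k)[X]) := by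
    intro ζ hζ
    have hζ' : ζ ^ F.natDegree = 1 := (hs2 ζ).1 hζ
    have hy : aeval (th ζ 1 T) F = V := by
      rw [aeval_algHom_apply, hF.eq, th_th _ _ Nat.one_pos hM, hζ', one_mul, one_mul]
    have h1 : IsIntegral (AB (th ζ 1 T) b) (C (th ζ 1 z) * X ^ a : (L k)[X]) := by
      have h := int_map (mapAlgHom (th ζ 1)) hz
      rw [show (Algebra.adjoin k {(X ^ b : (L k)[X]), C T * X ^ b}) = AB T b from rfl,
        AB_map] at h
      simpa using h
    obtain ⟨q, hq, hc, h0⟩ := coeff_of_int h1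
    refine int_trans hq (fun i => int_adjoin ?_ (hc i)) h0
    intro x hx
    rcases hx with rfl | rfl
    · refine IsIntegral.of_pow (n := F.natDegree) hM ?_
      rw [← pow_mul]
      exact int_of_mem (mem_AB1 _ _)
    · exact root_int (by omega) hy
  have hsum : IsIntegral (AB V (b * F.natDegree))
      (C (th 1 F.natDegree (U F.natDegree z)) * X ^ a : (L k)[X]) := by
    have h1 := IsIntegral.sum (fun ζ => (C (th ζ 1 z) * X ^ a : (L k)[X])) key
    have e : ∑ ζ ∈ s, (C (th ζ 1 z) * X ^ a : (L k)[X]) =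
        algebraMap k (L k)[X] (F.natDegree : k) *
          (C (th 1 F.natDegree (U F.natDegree z)) * X ^ a) := by
      rw [← Finset.sum_mul, ← map_sum, hs3 z, Algebra.smul_def, C_mul, mul_assoc]
      rfl
    rw [e] at h1
    have h2 : IsIntegral (AB V (b * F.natDegree)) (algebraMap k (L k)[X] (F.natDegree : k)⁻¹) :=
      int_of_mem ((AB V (b * F.natDegree)).algebraMap_mem _)
    have h3 := h2.mul h1
    rw [← mul_assoc, ← map_mul, inv_mul_cancel₀ (by exact_mod_cast hM.ne'), map_one,
      one_mul] at h3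
    exact h3
  have hinj : Function.Injective (mapAlgHom (th (1 : kˣ) F.natDegree)) := by
    intro p q hpq
    exact Polynomial.map_injective _ (th_injective 1 F.natDegree) hpq
  refine int_comap (mapAlgHom (th (1 : kˣ) F.natDegree)) hinj ?_
  rw [show (Algebra.adjoin k {(X ^ (b * F.natDegree) : (L k)[X]), C T * X ^ (b * F.natDegree)}) =
    AB T (b * F.natDegree) from rfl, AB_map]
  simpa using hsum

end

end Pool.Agent.Lib_helper45.BDP.GR1
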