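import Pool.Agent.Lib_helper45.BDP.Defs
import Pool.Agent.Lib_helper45.BDP.W0

namespace Pool.Agent.Lib_helper45.BDP.GRAT

open Polynomial

noncomputable section

variable {k : Type*} [Field k]

/-- lowest terms of a product -/
theorem grat_low {u v : L k} {m n : ℤ} (hu : ∀ i < m, u.coeff i = 0) (hv : ∀ i < n, v.coeff i = 0) :
    (∀ j < m + n, (u * v).coeff j = 0) ∧ (u * v).coeff (m + n) = u.coeff m * v.coeff n := by
  have hsu : ∀ i, i ∈ u.support → m ≤ i := by
    intro i hi
    by_contra h
    push Not at h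
    exact hi (hu i h)
  have hsv : ∀ i, i ∈ v.support → n ≤ i := by
    intro i hi
    by_contra h
    push Not at h
    exact hi (hv i h)
  constructor
  · intro j hj
    rw [HahnSeries.coeff_mul]
    apply Finset.sum_eq_zero
    intro p hp
    obtain ⟨h1, h2, h3⟩ := Finset.mem_antidiagonal.1 hp
    have h4 := hsu _ h1
    have h5 := hsv _ h2
    omega
  · rw [HahnSeries.coeff_mul]
    by_cases h0 : u.coeff m = 0 ∨ v.coeff n = 0
    · have h1 : u.coeff m * v.coeff n = 0 := by
        rcases h0 with h | h <;> simp [h]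
      rw [h1]
      apply Finset.sum_eq_zero
      intro p hp
      obtain ⟨h1, h2, h3⟩ := Finset.mem_antidiagonal.1 hp
      have h4 := hsu _ h1
      have h5 := hsv _ h2
      have h6 : p.1 = m := by omega
      have h7 : p.2 = n := by omega
      rw [h6, h7]
      rcases h0 with h | h <;> simp [h]
    · push Not at h0
      rw [Finset.sum_eq_single (m, n)]
      · intro p hp hne
        obtain ⟨h1, h2, h3⟩ := Finset.mem_antidiagonal.1 hp
        have h4 := hsu _ h1
        have h5 := hsv _ h2
        have h6 : p.1 = m := by omega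
        have h7 : p.2 = n := by omega
        exact absurd (Prod.ext h6 h7) hne
      · intro h
        exfalso
        apply h
        exact Finset.mem_antidiagonal.2 ⟨h0.1, h0.2, rfl⟩

theorem grat_pow {T : L k} (hT : SimplePole T) (n : ℕ) :
    (∀ j < -(n : ℤ), (T ^ n).coeff j = 0) ∧ (T ^ n).coeff (-(n : ℤ)) = T.coeff (-1) ^ n := by
  induction n with
  | zero =>
    constructor
    · intro j hj
      have : j ≠ 0 := by push_cast at hj; omega
      simp [HahnSeries.coeff_one, this]
    · simp
  | succ n ih =>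
    have h := grat_low ih.1 hT.2
    have e : -((n + 1 : ℕ) : ℤ) = -(n : ℤ) + -1 := by push_cast; ring
    rw [pow_succ, e]
    refine ⟨h.1, ?_⟩
    rw [h.2, ih.2, pow_succ]

theorem grat_aeval {T : L k} (hT : SimplePole T) (g : k[X]) :
    (aeval T g).coeff (-(g.natDegree : ℤ)) = g.leadingCoeff * T.coeff (-1) ^ g.natDegree := by
  have h1 : ∀ j, (aeval T g).coeff j =
      ∑ i ∈ Finset.range (g.natDegree + 1), g.coeff i * (T ^ i).coeff j := by
    intro j
    rw [aeval_eq_sum_range, HahnSeries.coeff_sum]
    apply Finset.sum_congr rfl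
    intro i _
    rw [HahnSeries.coeff_smul, smul_eq_mul]
  rw [h1, Finset.sum_range_succ, (grat_pow hT g.natDegree).2, leadingCoeff]
  have : ∑ i ∈ Finset.range g.natDegree, g.coeff i * (T ^ i).coeff (-(g.natDegree : ℤ)) = 0 := by
    apply Finset.sum_eq_zero
    intro i hi
    rw [Finset.mem_range] at hi
    rw [(grat_pow hT i).1 _ (by omega), mul_zero]
  rw [this, zero_add]

theorem grat_ne {T : L k} (hT : SimplePole T) {g : k[X]} (hg : g ≠ 0) : aeval T g ≠ 0 := by
  intro h
  have h1 := grat_aeval hT g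
  rw [h, HahnSeries.coeff_zero] at h1
  exact (mul_ne_zero (leadingCoeff_ne_zero.2 hg) (pow_ne_zero _ hT.1)) h1.symm

theorem grat_inj {T : L k} (hT : SimplePole T) {p q : k[X]} (h : aeval T p = aeval T q) :
    p = q := by
  by_contra hne
  have h1 : p - q ≠ 0 := sub_ne_zero.2 hne
  apply grat_ne hT h1
  rw [map_sub, h, sub_self]

/-- homogenization -/
def gratN (F A B : k[X]) : k[X] :=
  ∑ i ∈ Finset.range (F.natDegree + 1), C (F.coeff i) * A ^ i * B ^ (F.natDegree - i)

theorem gratN_aeval {T y : L k} {F A B : k[X]} (hB : aeval T B ≠ 0)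
    (hy : y = aeval T A / aeval T B) :
    aeval y F * aeval T B ^ F.natDegree = aeval T (gratN F A B) := by
  have hy1 : y * aeval T B = aeval T A := by rw [hy, div_mul_cancel₀ _ hB]
  rw [aeval_eq_sum_range, gratN, map_sum, Finset.sum_mul]
  apply Finset.sum_congr rfl
  intro i hi
  rw [Finset.mem_range] at hi
  rw [map_mul, map_mul, map_pow, map_pow, aeval_C, ← hy1, Algebra.smul_def]
  have e : aeval T B ^ F.natDegree = aeval T B ^ i * aeval T B ^ (F.natDegree - i) := by
    rw [← pow_add]
    congr 1
    omega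
  rw [e, mul_pow]
  ring

theorem gratN_coprime {F A B : k[X]} (hF : F ≠ 0) (hAB : IsCoprime A B) :
    IsCoprime (gratN F A B) B := by
  rw [gratN, Finset.sum_range_succ, Nat.sub_self, pow_zero, mul_one]
  have h1 : ∃ Q, ∑ i ∈ Finset.range F.natDegree, C (F.coeff i) * A ^ i * B ^ (F.natDegree - i) =
      B * Q := by
    apply Finset.dvd_sum
    intro i hi
    rw [Finset.mem_range] at hi
    apply Dvd.dvd.mul_left
    exact dvd_pow_self B (by omega)
  obtain ⟨Q, hQ⟩ := h1
  rw [hQ, add_comm, IsCoprime.add_mul_left_left_iff]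
  have h2 : IsUnit (C (F.coeff F.natDegree)) := by
    rw [isUnit_C]
    exact (leadingCoeff_ne_zero.2 hF).isUnit
  rw [isCoprime_mul_unit_left_left h2]
  exact hAB.pow_left

end

noncomputable section

variable {k : Type*} [Field k] [IsAlgClosed k] [CharZero k]

theorem grat_deriv {F : k[X]} (hd : 2 ≤ F.natDegree) {z z' : k}
    (h : F - C z = C F.leadingCoeff * (X - C z') ^ F.natDegree) :
    derivative F = C (F.leadingCoeff * F.natDegree) * (X - C z') ^ (F.natDegree - 1) := by
  have h1 : derivative (F - C z) = derivative F := by simp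
  rw [← h1, h, derivative_C_mul, derivative_pow, derivative_sub, derivative_X, derivative_C,
    sub_zero, mul_one, C_mul, mul_assoc]

theorem grat_fibre {F : k[X]} (hd : 2 ≤ F.natDegree) {z z' : k}
    (h : ∀ x, F.eval x = z → x = z') : F - C z = C F.leadingCoeff * (X - C z') ^ F.natDegree := by
  have h0 : 0 < F.natDegree := by omega
  have h1 : (F - C z).natDegree = F.natDegree := natDegree_sub_C
  have h2 : (F - C z).leadingCoeff = F.leadingCoeff := by
    rw [leadingCoeff, h1, coeff_sub, coeff_C_of_ne_zero h0.ne', sub_zero, leadingCoeff]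
  have hs := (IsAlgClosed.splits (F - C z))
  have h3 := hs.eq_prod_roots
  have h4 : Multiset.card (F - C z).roots = F.natDegree := by
    rw [← h1]
    exact hs.natDegree_eq_card_roots.symm
  have h5 : (F - C z).roots = Multiset.replicate F.natDegree z' := by
    rw [Multiset.eq_replicate]
    refine ⟨h4, fun b hb => h b ?_⟩
    have h6 := (mem_roots'.1 hb).2
    rw [IsRoot.def, eval_sub, eval_C, sub_eq_zero] at h6
    exact h6
  rw [h3, h5, h2]
  simp

theorem GRAT {F : k[X]} {T y : L k} (hF : Frob F T) (hT : NP T)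
    (hy : y ∈ IntermediateField.adjoin k {T}) (h : aeval y F = th 1 F.natDegree y) :
    ∃ g : k[X], y = aeval T g := by
  classical
  have hM : 0 < F.natDegree := by have := hF.deg; omega
  have hF0 : F ≠ 0 := by rintro rfl; simp at hM
  rw [IntermediateField.mem_adjoin_simple_iff] at hy
  obtain ⟨A0, B0, hy0⟩ := hy
  by_cases hB0 : B0 = 0
  · refine ⟨0, ?_⟩
    rw [hy0, hB0, map_zero, div_zero]
  -- coprime representation
  obtain ⟨A, B, hAB, hB, hyAB⟩ : ∃ A B : k[X], IsCoprime A B ∧ B ≠ 0 ∧
      y = aeval T A / aeval T B := by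
    have hg : EuclideanDomain.gcd A0 B0 ≠ 0 := by
      intro h0
      exact hB0 (EuclideanDomain.gcd_eq_zero_iff.1 h0).2
    obtain ⟨A, hA⟩ := EuclideanDomain.gcd_dvd_left A0 B0
    obtain ⟨B, hB⟩ := EuclideanDomain.gcd_dvd_right A0 B0
    obtain ⟨d, hd⟩ : ∃ d, d = EuclideanDomain.gcd A0 B0 := ⟨_, rfl⟩
    rw [← hd] at hA hB hg
    refine ⟨A, B, ?_, ?_, ?_⟩
    · have h1 := EuclideanDomain.gcd_eq_gcd_ab A0 B0
      rw [← hd] at h1
      obtain ⟨u, hu⟩ : ∃ u, u = EuclideanDomain.gcdA A0 B0 := ⟨_, rfl⟩
      obtain ⟨v, hv⟩ : ∃ v, v = EuclideanDomain.gcdB A0 B0 := ⟨_, rfl⟩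
      rw [← hu, ← hv] at h1
      refine ⟨u, v, ?_⟩
      apply mul_left_cancel₀ hg
      calc d * (u * A + v * B) = (d * A) * u + (d * B) * v := by ring
        _ = A0 * u + B0 * v := by rw [← hA, ← hB]
        _ = d * 1 := by rw [← h1, mul_one]
    · rintro rfl
      apply hB0
      rw [hB, mul_zero]
    · rw [hy0, hA, hB, map_mul, map_mul, mul_div_mul_left _ _ (grat_ne hF.pole hg)]
  have hBT : aeval T B ≠ 0 := grat_ne hF.pole hB
  -- composition with F
  have hS : ∀ p : k[X], th 1 F.natDegree (aeval T p) = aeval T (p.comp F) := by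
    intro p
    rw [← aeval_algHom_apply, ← hF.eq, aeval_comp]
  have hBF : aeval T (B.comp F) ≠ 0 := by
    rw [← hS]
    intro h0
    apply hBT
    exact th_injective 1 F.natDegree (by rw [h0, map_zero])
  have hkey : A.comp F * B ^ F.natDegree = gratN F A B * B.comp F := by
    apply grat_inj hF.pole
    rw [map_mul, map_mul, map_pow, ← gratN_aeval hBT hyAB, h, ← hS, ← hS]
    have h1 : th 1 F.natDegree y = th 1 F.natDegree (aeval T A) / th 1 F.natDegree (aeval T B) := by
      rw [hyAB, map_div₀]
    have h2 : th 1 F.natDegree (aeval T B) ≠ 0 := by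
      rw [hS]
      exact hBF
    rw [h1]
    field_simp
  have hco1 : IsCoprime (A.comp F) (B.comp F) := by
    have := hAB.map (compRingHom F)
    exact this
  have hco2 : IsCoprime (gratN F A B) (B ^ F.natDegree) := (gratN_coprime hF0 hAB).pow_right
  have hdvd1 : B ^ F.natDegree ∣ B.comp F := by
    apply hco2.symm.dvd_of_dvd_mul_left
    rw [← hkey]
    exact dvd_mul_left _ _
  have hdvd2 : B.comp F ∣ B ^ F.natDegree := by
    apply hco1.symm.dvd_of_dvd_mul_left
    rw [hkey]
    exact dvd_mul_left _ _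
  by_cases hB1 : B.natDegree = 0
  · obtain ⟨b, hb⟩ := natDegree_eq_zero.1 hB1
    refine ⟨C b⁻¹ * A, ?_⟩
    rw [hyAB, ← hb, map_mul, aeval_C, aeval_C, div_eq_inv_mul, map_inv₀]
  · exfalso
    have hroot : ∀ x, B.IsRoot (F.eval x) ↔ B.IsRoot x := by
      intro x
      constructor
      · intro h1
        have h2 : (B.comp F).IsRoot x := by
          rw [IsRoot.def, eval_comp]
          exact h1
        have h3 := h2.dvd hdvd2
        rw [IsRoot.def, eval_pow] at h3
        exact pow_eq_zero_iff hM.ne' |>.1 h3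
      · intro h1
        have h2 : (B ^ F.natDegree).IsRoot x := by
          rw [IsRoot.def, eval_pow, h1, zero_pow hM.ne']
        have h3 := h2.dvd hdvd1
        rw [IsRoot.def, eval_comp] at h3
        exact h3
    obtain ⟨z, hz⟩ := IsAlgClosed.exists_root B (by
      intro h0
      exact hB1 (natDegree_eq_of_degree_eq_some h0))
    have hsurj : ∀ w : k, ∃ x, F.eval x = w := by
      intro w
      obtain ⟨x, hx⟩ := IsAlgClosed.exists_root (F - C w) (by
        intro h0
        have h1 : (F - C w).natDegree = 0 := natDegree_eq_of_degree_eq_some h0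
        rw [natDegree_sub_C] at h1
        omega)
      refine ⟨x, ?_⟩
      rw [IsRoot.def, eval_sub, eval_C, sub_eq_zero] at hx
      exact hx
    have hmem : ∀ x, x ∈ B.roots.toFinset ↔ B.IsRoot x := by
      intro x
      rw [Multiset.mem_toFinset, mem_roots hB]
    have hinj : Set.InjOn (fun x => F.eval x) (B.roots.toFinset : Set k) := by
      apply Finset.injOn_of_surjOn_of_card_le (t := B.roots.toFinset)
      · intro x hx
        rw [Finset.mem_coe, hmem] at hx
        rw [Finset.mem_coe, hmem]
        exact (hroot x).2 hx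
      · intro w hw
        rw [Finset.mem_coe, hmem] at hw
        obtain ⟨x, hx⟩ := hsurj w
        refine ⟨x, ?_, hx⟩
        rw [Finset.mem_coe, hmem]
        apply (hroot x).1
        rw [hx]
        exact hw
      · exact le_rfl
    have hfib : ∀ z, B.IsRoot z → ∃ z', B.IsRoot z' ∧ F.eval z' = z ∧
        F - C z = C F.leadingCoeff * (X - C z') ^ F.natDegree := by
      intro z hz
      obtain ⟨z', hz'⟩ := hsurj z
      have h1 : ∀ x, F.eval x = z → B.IsRoot x := by
        intro x hx
        apply (hroot x).1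
        rw [hx]
        exact hz
      refine ⟨z', h1 z' hz', hz', grat_fibre hF.deg ?_⟩
      intro x hx
      apply hinj
      · rw [Finset.mem_coe, hmem]
        exact h1 x hx
      · rw [Finset.mem_coe, hmem]
        exact h1 z' hz'
      · show F.eval x = F.eval z'
        rw [hx, hz']
    obtain ⟨z1, hz1, hz2, hz3⟩ := hfib z hz
    obtain ⟨z2, hz4, hz5, hz6⟩ := hfib z1 hz1
    have hd1 := grat_deriv hF.deg hz3
    have hd2 := grat_deriv hF.deg hz6
    have h12 : z1 = z2 := by
      rw [hd1] at hd2
      have h1 := congrArg (fun p => p.eval z1) hd2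
      simp only [eval_mul, eval_C, eval_pow, eval_sub, eval_X, sub_self] at h1
      rw [zero_pow (by have := hF.deg; omega), mul_zero] at h1
      have h2 : F.leadingCoeff * (F.natDegree : k) ≠ 0 :=
        mul_ne_zero (leadingCoeff_ne_zero.2 hF0) (Nat.cast_ne_zero.2 hM.ne')
      have h3 := (mul_eq_zero.1 h1.symm).resolve_left h2
      have h4 := pow_eq_zero_iff (by have := hF.deg; omega) |>.1 h3
      exact sub_eq_zero.1 h4
    have h3 : z1 = z := by
      rw [← hz2]
      rw [← h12] at hz5
      exact hz5.symm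
    rw [h3] at hz3
    have h4 : F = C F.leadingCoeff * (X - C z) ^ F.natDegree + C z := by
      rw [← hz3, sub_add_cancel]
    exact BDP.NPC hF hT (BDP.POWC hF.deg h4)

end

end Pool.Agent.Lib_helper45.BDP.GRAT
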