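import Pool.Agent.Lib_helper45.BDP.Defs

/-!
# Block ISOM: unit derivative, isometry
-/

namespace Pool.Agent.Lib_helper45.BDP.ISOM

open Polynomial

noncomputable section

section Ultra

variable {Ω : Type*} [NormedField Ω] [IsUltrametricDist Ω]

theorem isom_max {a b : Ω} {c : ℝ} (ha : ‖a‖ ≤ c) (hb : ‖b‖ ≤ c) : ‖a + b‖ ≤ c :=
  (IsUltrametricDist.norm_add_le_max a b).trans (max_le ha hb)

theorem isom_max' {a b : Ω} {c : ℝ} (ha : ‖a‖ < c) (hb : ‖b‖ < c) : ‖a + b‖ < c :=
  (IsUltrametricDist.norm_add_le_max a b).trans_lt (max_lt ha hb)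

theorem isom_nat (n : ℕ) : ‖(n : Ω)‖ ≤ 1 := by
  induction n with
  | zero => simp
  | succ n ih =>
    rw [Nat.cast_succ]
    exact isom_max ih norm_one.le

theorem isom_eval_le {F : Polynomial Ω} (hf : ∀ i, ‖F.coeff i‖ ≤ 1) {a : Ω} (ha : ‖a‖ ≤ 1) :
    ‖F.eval a‖ ≤ 1 := by
  rw [eval_eq_sum_range]
  refine IsUltrametricDist.norm_sum_le_of_forall_le_of_nonneg zero_le_one fun i _ => ?_
  rw [norm_mul, norm_pow]
  exact mul_le_one₀ (hf i) (by positivity) (pow_le_one₀ (norm_nonneg _) ha)

theorem isom_pow_sub {a b : Ω} (ha : ‖a‖ ≤ 1) (hb : ‖b‖ ≤ 1) (n : ℕ) :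
    ‖a ^ n - b ^ n‖ ≤ ‖a - b‖ := by
  induction n with
  | zero => simp
  | succ n ih =>
    have e : a ^ (n + 1) - b ^ (n + 1) = a ^ n * (a - b) + (a ^ n - b ^ n) * b := by ring
    rw [e]
    refine isom_max ?_ ?_
    · rw [norm_mul, norm_pow]
      exact mul_le_of_le_one_left (norm_nonneg _) (pow_le_one₀ (norm_nonneg _) ha)
    · rw [norm_mul]
      exact (mul_le_of_le_one_right (norm_nonneg _) hb).trans ih

/-- polynomials with coefficients of norm at most one do not increase distances -/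
theorem isom_lip {F : Polynomial Ω} (hf : ∀ i, ‖F.coeff i‖ ≤ 1) {a b : Ω} (ha : ‖a‖ ≤ 1)
    (hb : ‖b‖ ≤ 1) : ‖F.eval a - F.eval b‖ ≤ ‖a - b‖ := by
  rw [eval_eq_sum_range, eval_eq_sum_range, ← Finset.sum_sub_distrib]
  refine IsUltrametricDist.norm_sum_le_of_forall_le_of_nonneg (norm_nonneg _) fun i _ => ?_
  rw [← mul_sub, norm_mul]
  exact (mul_le_of_le_one_left (norm_nonneg _) (hf i)).trans (isom_pow_sub ha hb i)

theorem isom_taylor_pow {y h : Ω} (hy : ‖y‖ ≤ 1) (hh : ‖h‖ ≤ 1) (n : ℕ) :
    ‖(y + h) ^ n - y ^ n - n * y ^ (n - 1) * h‖ ≤ ‖h‖ ^ 2 := by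
  induction n with
  | zero => simp
  | succ n ih =>
    have e : (y + h) ^ (n + 1) - y ^ (n + 1) - ((n + 1 : ℕ) : Ω) * y ^ (n + 1 - 1) * h =
        ((y + h) ^ n - y ^ n - n * y ^ (n - 1) * h) * (y + h) + n * y ^ (n - 1) * h ^ 2 := by
      rcases Nat.eq_zero_or_pos n with rfl | hn
      · simp
      · obtain ⟨k, rfl⟩ := Nat.exists_eq_add_of_le' hn
        simp only [Nat.add_sub_cancel]
        push_cast
        ring
    rw [e]
    refine isom_max ?_ ?_
    · rw [norm_mul]
      exact (mul_le_of_le_one_right (norm_nonneg _) (isom_max hy hh)).trans ih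
    · rw [norm_mul, norm_mul, norm_pow, norm_pow]
      exact mul_le_of_le_one_left (by positivity)
        (mul_le_one₀ (isom_nat n) (by positivity) (pow_le_one₀ (norm_nonneg _) hy))

/-- Taylor formula -/
theorem isom_taylor {F : Polynomial Ω} (hf : ∀ i, ‖F.coeff i‖ ≤ 1) {y h : Ω} (hy : ‖y‖ ≤ 1)
    (hh : ‖h‖ ≤ 1) :
    ‖F.eval (y + h) - F.eval y - (derivative F).eval y * h‖ ≤ ‖h‖ ^ 2 := by
  have e : F.eval (y + h) - F.eval y - (derivative F).eval y * h =
      ∑ i ∈ Finset.range (F.natDegree + 1),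
        F.coeff i * ((y + h) ^ i - y ^ i - i * y ^ (i - 1) * h) := by
    have h1 : (derivative F).eval y = ∑ i ∈ Finset.range (F.natDegree + 1),
        F.coeff i * (i * y ^ (i - 1)) := by
      rw [derivative_eval, Polynomial.sum_over_range]
      · exact Finset.sum_congr rfl fun i _ => by ring
      · intro i
        simp
    rw [eval_eq_sum_range, eval_eq_sum_range, h1, Finset.sum_mul, ← Finset.sum_sub_distrib,
      ← Finset.sum_sub_distrib]
    exact Finset.sum_congr rfl fun i _ => by ring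
  rw [e]
  refine IsUltrametricDist.norm_sum_le_of_forall_le_of_nonneg (by positivity) fun i _ => ?_
  rw [norm_mul]
  exact (mul_le_of_le_one_left (norm_nonneg _) (hf i)).trans (isom_taylor_pow hy hh i)

theorem isom_deriv_coeff {F : Polynomial Ω} (hf : ∀ i, ‖F.coeff i‖ ≤ 1) (i : ℕ) :
    ‖(derivative F).coeff i‖ ≤ 1 := by
  rw [coeff_derivative, norm_mul]
  refine mul_le_one₀ (hf _) (norm_nonneg _) ?_
  exact_mod_cast isom_nat (Ω := Ω) (i + 1)

/-- unit derivative: isometry -/
theorem ISOM {F : Polynomial Ω} (hf : ∀ i, ‖F.coeff i‖ ≤ 1) {a b : Ω} (ha : ‖a‖ ≤ 1) (hab : ‖a - b‖ < 1)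
    (hF : ‖F.eval a - a‖ < 1) (hd : ‖(derivative F).eval a‖ = 1) (m : ℕ) :
    ‖(itr F m).eval a - (itr F m).eval b‖ = ‖a - b‖ := by
  have hball : ∀ x : Ω, ‖x - a‖ < 1 → ‖x‖ ≤ 1 := by
    intro x hx
    have e : x = (x - a) + a := by ring
    rw [e]
    exact isom_max hx.le ha
  -- the derivative is a unit on the residue disc
  have hder : ∀ x : Ω, ‖x - a‖ < 1 → ‖(derivative F).eval x‖ = 1 := by
    intro x hx
    have h1 := isom_lip (isom_deriv_coeff hf) (hball x hx) ha
    have h2 : ‖(derivative F).eval x - (derivative F).eval a‖ < 1 := h1.trans_lt hx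
    apply le_antisymm (isom_eval_le (isom_deriv_coeff hf) (hball x hx))
    by_contra h3
    rw [not_le] at h3
    have e : (derivative F).eval a = (derivative F).eval x +
        -((derivative F).eval x - (derivative F).eval a) := by ring
    have h4 : ‖(derivative F).eval a‖ < 1 := by
      rw [e]
      exact isom_max' h3 (by rwa [norm_neg])
    exact (hd ▸ h4).ne rfl
  -- one step
  have hstep : ∀ x y : Ω, ‖x - a‖ < 1 → ‖y - a‖ < 1 → ‖F.eval x - F.eval y‖ = ‖x - y‖ := by
    intro x y hx hy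
    apply le_antisymm (isom_lip hf (hball x hx) (hball y hy))
    have hxy : ‖x - y‖ < 1 := by
      have e : x - y = (x - a) + -(y - a) := by ring
      rw [e]
      exact isom_max' hx (by rwa [norm_neg])
    rcases eq_or_ne x y with rfl | hne
    · simp
    · have hpos : 0 < ‖x - y‖ := norm_pos_iff.2 (sub_ne_zero.2 hne)
      have ht := isom_taylor hf (hball y hy) hxy.le
      rw [add_sub_cancel] at ht
      by_contra h3
      rw [not_le] at h3
      have e : (derivative F).eval y * (x - y) = (F.eval x - F.eval y) +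
          -(F.eval x - F.eval y - (derivative F).eval y * (x - y)) := by ring
      have h4 : ‖(derivative F).eval y * (x - y)‖ < ‖x - y‖ := by
        rw [e]
        refine isom_max' h3 ?_
        rw [norm_neg]
        refine ht.trans_lt ?_
        rw [sq]
        exact mul_lt_of_lt_one_left hpos hxy
      rw [norm_mul, hder y hy, one_mul] at h4
      exact h4.ne rfl
  -- iteration
  have key : ∀ m : ℕ, ‖(itr F m).eval a - a‖ < 1 ∧
      ‖(itr F m).eval a - (itr F m).eval b‖ = ‖a - b‖ := by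
    intro m
    induction m with
    | zero => simp [itr_zero]
    | succ m ih =>
      obtain ⟨i1, i2⟩ := ih
      have i3 : ‖(itr F m).eval b - a‖ < 1 := by
        have e : (itr F m).eval b - a = ((itr F m).eval a - a) +
            -((itr F m).eval a - (itr F m).eval b) := by ring
        rw [e]
        refine isom_max' i1 ?_
        rw [norm_neg, i2]
        exact hab
      rw [itr_succ, eval_comp, eval_comp]
      constructor
      · have e : F.eval ((itr F m).eval a) - a = (F.eval ((itr F m).eval a) - F.eval a) +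
            (F.eval a - a) := by ring
        rw [e]
        refine isom_max' ?_ hF
        exact (isom_lip hf (hball _ i1) ha).trans_lt i1
      · rw [hstep _ _ i1 i3, i2]
  exact (key m).2

end Ultra

end

end Pool.Agent.Lib_helper45.BDP.ISOM
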