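import Pool.Agent.Lib_helper45.BDP.Defs
import Pool.Agent.Lib_helper45.BDP.W0

/-!
# Block LAM1 (cites TTH)
-/

namespace Pool.Agent.Lib_helper45.BDP.LAM1

open Polynomial Pool.Agent.Lib_helper45.BDP

noncomputable section

variable {k : Type*} [Field k] [IsAlgClosed k] [CharZero k]

theorem lam1_del_ne {T : L k} (hT : SimplePole T) : del T ≠ 0 := by
  intro h
  have h1 := congrArg (fun u : L k => u.coeff (-1)) h
  simp only [del_coeff, HahnSeries.coeff_zero] at h1
  apply hT.1
  simpa using h1

theorem lam1_trans {T : L k} (hT : SimplePole T) : Transcendental k T := by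
  have h := TTH hT 1 (le_refl 1)
  rwa [th_one_one] at h

theorem LAM1 {F : k[X]} {T : L k} (hF : Frob F T) (h : Dep T (del T)) :
    ∃ (j : ℕ) (A : k[X]), 1 ≤ j ∧ A ≠ 0 ∧
      C ((F.natDegree : k) ^ j) * A.comp F = derivative F ^ j * A := by
  classical
  set M := F.natDegree with hM
  have hM2 : 2 ≤ M := hF.deg
  have hM0 : (M : k) ≠ 0 := by
    rw [Nat.cast_ne_zero]; omega
  set S : L k →ₐ[k] L k := th 1 M with hS
  have hST : S T = aeval T F := hF.eq.symm
  have htr := lam1_trans hF.pole
  have hinj : Function.Injective (aeval T : k[X] →ₐ[k] L k) :=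
    transcendental_iff_injective.1 htr
  have hinj0 : ∀ P : k[X], aeval T P = 0 → P = 0 := fun P hP => hinj (by rw [hP, map_zero])
  have hcomp : ∀ P : k[X], S (aeval T P) = aeval T (P.comp F) := by
    intro P
    rw [← Polynomial.aeval_algHom_apply, hST, aeval_comp]
  have hdF : derivative F ≠ 0 := by
    intro h0
    have h1 := Polynomial.eq_C_of_derivative_eq_zero h0
    rw [h1, natDegree_C] at hM
    omega
  -- the field `K0`
  set K0 := IntermediateField.adjoin k {T} with hK0
  have hmemA : ∀ P : k[X], aeval T P ∈ K0 := fun P => by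
    rw [hK0, IntermediateField.mem_adjoin_simple_iff]
    exact ⟨P, 1, by rw [map_one, div_one]⟩
  have hSK : ∀ x : K0, S (x : L k) ∈ K0 := by
    intro x
    obtain ⟨r, s, hrs⟩ := (IntermediateField.mem_adjoin_simple_iff k (x : L k)).1 x.2
    rw [hrs, map_div₀, hcomp, hcomp]
    exact K0.div_mem (hmemA _) (hmemA _)
  let S0 : K0 →+* K0 :=
    RingHom.codRestrict (((S : L k →ₐ[k] L k) : L k →+* L k).comp (algebraMap K0 (L k))) K0 hSK
  have hS0 : (algebraMap K0 (L k)).comp S0 =
      ((S : L k →ₐ[k] L k) : L k →+* L k).comp (algebraMap K0 (L k)) := by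
    ext x : 1
    rfl
  -- the derivative
  have hlam0 : del T ≠ 0 := lam1_del_ne hF.pole
  set lam := del T with hlam
  have hder : aeval T (derivative F) * lam = (M : k) • S lam := by
    have h1 : del (aeval T F) = aeval T (derivative F) • del T := Derivation.map_aeval _ _ _
    rw [← hST] at h1
    have h2 : del (S T) = (M : k) • S (del T) := del_th 1 (by omega) T
    rw [h2, smul_eq_mul] at h1
    exact h1.symm
  set c : L k := (M : k)⁻¹ • aeval T (derivative F) with hc
  have hcK : c ∈ K0 := by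
    rw [hc, Algebra.smul_def]
    exact K0.mul_mem (K0.algebraMap_mem _) (hmemA _)
  have hc0 : c ≠ 0 := by
    intro h0
    rw [hc, smul_eq_zero] at h0
    rcases h0 with h0 | h0
    · exact hM0 (inv_eq_zero.1 h0)
    · exact hdF (hinj0 _ h0)
  have hSlam : S lam = c * lam := by
    rw [hc, smul_mul_assoc, hder, smul_smul, inv_mul_cancel₀ hM0, one_smul]
  -- the minimal polynomial
  have hint : IsIntegral K0 lam := IsAlgebraic.isIntegral h
  set p := minpoly K0 lam with hp
  have hpm : p.Monic := minpoly.monic hint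
  have hp0 : p.coeff 0 ≠ 0 := minpoly.coeff_zero_ne_zero hint hlam0
  have hpd : 0 < p.natDegree := minpoly.natDegree_pos hint
  set c0 : K0 := ⟨c, hcK⟩ with hc0def
  have hc00 : c0 ≠ 0 := by
    intro h0
    apply hc0
    have := congrArg (algebraMap K0 (L k)) h0
    rw [map_zero] at this
    exact this
  have hqroot : aeval (S lam) (p.map S0) = 0 := by
    rw [aeval_def, eval₂_map, hS0]
    have h1 : eval₂ (algebraMap K0 (L k)) lam p = 0 := minpoly.aeval K0 lam
    have h2 := Polynomial.hom_eval₂ p (algebraMap K0 (L k))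
      ((S : L k →ₐ[k] L k) : L k →+* L k) lam
    rw [h1, map_zero] at h2
    exact h2.symm
  have hscale : aeval lam ((p.map S0).scaleRoots c0⁻¹) = 0 := by
    have h1 := scaleRoots_aeval_eq_zero (r := c0⁻¹) hqroot
    have h2 : algebraMap K0 (L k) c0⁻¹ * S lam = lam := by
      rw [map_inv₀, hSlam, ← mul_assoc]
      have h3 : algebraMap K0 (L k) c0 = c := rfl
      rw [h3, inv_mul_cancel₀ hc0, one_mul]
    rwa [h2] at h1
  have hqm : ((p.map S0).scaleRoots c0⁻¹).Monic := by
    rw [monic_scaleRoots_iff]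
    exact hpm.map S0
  have hqd : ((p.map S0).scaleRoots c0⁻¹).natDegree = p.natDegree := by
    rw [natDegree_scaleRoots, natDegree_map]
  have hdvd : p ∣ (p.map S0).scaleRoots c0⁻¹ := minpoly.dvd K0 lam hscale
  have heq := eq_of_monic_of_dvd_of_natDegree_le hpm hqm hdvd hqd.le
  have hcoef : p.coeff 0 = S0 (p.coeff 0) * c0⁻¹ ^ p.natDegree := by
    conv_lhs => rw [← heq]
    rw [coeff_scaleRoots, coeff_map, natDegree_map, Nat.sub_zero]
  have hcoef2 : S (p.coeff 0 : L k) = (p.coeff 0 : L k) * c ^ p.natDegree := by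
    have h1 : S0 (p.coeff 0) = p.coeff 0 * c0 ^ p.natDegree := by
      conv_rhs => rw [hcoef]
      rw [mul_assoc, ← mul_pow, inv_mul_cancel₀ hc00, one_pow, mul_one]
    have h2 := congrArg (algebraMap K0 (L k)) h1
    rw [map_mul, map_pow] at h2
    exact h2
  have hb0 : (p.coeff 0 : L k) ≠ 0 := by
    intro h0
    apply hp0
    exact Subtype.ext h0
  -- a reduced fraction
  obtain ⟨r, s, hrs⟩ := (IntermediateField.mem_adjoin_simple_iff k (p.coeff 0 : L k)).1
    (p.coeff 0).2
  have hs0 : s ≠ 0 := by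
    rintro rfl
    rw [map_zero, div_zero] at hrs
    exact hb0 hrs
  have hr0 : r ≠ 0 := by
    rintro rfl
    rw [map_zero, zero_div] at hrs
    exact hb0 hrs
  set g := EuclideanDomain.gcd r s with hg
  have hg0 : g ≠ 0 := fun h0 => hs0 (EuclideanDomain.gcd_eq_zero_iff.1 h0).2
  obtain ⟨A, hA⟩ := EuclideanDomain.gcd_dvd_left r s
  obtain ⟨B, hB⟩ := EuclideanDomain.gcd_dvd_right r s
  rw [← hg] at hA hB
  have hA0 : A ≠ 0 := by
    rintro rfl
    rw [mul_zero] at hA
    exact hr0 hA
  have hB0 : B ≠ 0 := by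
    rintro rfl
    rw [mul_zero] at hB
    exact hs0 hB
  have hcop : IsCoprime A B := by
    have h1 := EuclideanDomain.gcd_eq_gcd_ab r s
    rw [← hg] at h1
    refine ⟨EuclideanDomain.gcdA r s, EuclideanDomain.gcdB r s, ?_⟩
    apply mul_left_cancel₀ hg0
    rw [mul_one]
    conv_rhs => rw [h1]
    conv_rhs => rw [show r * EuclideanDomain.gcdA r s = (g * A) * EuclideanDomain.gcdA r s from by
      rw [← hA], show s * EuclideanDomain.gcdB r s = (g * B) * EuclideanDomain.gcdB r s from by
      rw [← hB]]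
    ring
  have hTB : aeval T B ≠ 0 := fun h0 => hB0 (hinj0 _ h0)
  have hBF : B.comp F ≠ 0 := by
    intro h0
    have h1 := Polynomial.natDegree_comp (p := B) (q := F)
    rcases Polynomial.comp_eq_zero_iff.1 h0 with h2 | h2
    · exact hB0 h2
    · have h3 := h2.2
      have : F.natDegree = 0 := by rw [h3, natDegree_C]
      omega
  have hTBF : aeval T (B.comp F) ≠ 0 := fun h0 => hBF (hinj0 _ h0)
  have hbAB : (p.coeff 0 : L k) = aeval T A / aeval T B := by
    have hTg : aeval T g ≠ 0 := fun h0 => hg0 (hinj0 _ h0)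
    rw [hrs, hA, hB, map_mul, map_mul, mul_div_mul_left _ _ hTg]
  have hpoly : C ((M : k) ^ p.natDegree) * A.comp F * B =
      derivative F ^ p.natDegree * A * B.comp F := by
    apply hinj
    have h1 := hcoef2
    rw [hbAB, map_div₀, hcomp, hcomp, hc, _root_.smul_pow, div_eq_iff hTBF] at h1
    have h2 : aeval T (A.comp F) * aeval T B = aeval T A *
        (((M : k)⁻¹ ^ p.natDegree) • aeval T (derivative F) ^ p.natDegree) *
          aeval T (B.comp F) := by
      rw [h1]
      field_simp
    simp only [map_mul, map_pow, aeval_C]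
    rw [mul_assoc, h2, Algebra.smul_def, map_pow, map_inv₀]
    have h3 : algebraMap k (L k) (M : k) ≠ 0 := by
      rw [Ne, map_eq_zero]
      exact hM0
    have h4 : algebraMap k (L k) (M : k) ^ p.natDegree *
        (algebraMap k (L k) (M : k))⁻¹ ^ p.natDegree = 1 := by
      rw [← mul_pow, mul_inv_cancel₀ h3, one_pow]
    linear_combination (aeval T A * aeval T (derivative F) ^ p.natDegree *
      aeval T (B.comp F)) * h4
  have hcopF : IsCoprime (B.comp F) (A.comp F) := by
    have h1 := hcop.symm.map (compRingHom F)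
    exact h1
  have hdiv1 : B.comp F ∣ C ((M : k) ^ p.natDegree) * B := by
    have h1 : B.comp F ∣ A.comp F * (C ((M : k) ^ p.natDegree) * B) := by
      have : A.comp F * (C ((M : k) ^ p.natDegree) * B) =
          (derivative F ^ p.natDegree * A) * B.comp F := by
        rw [← hpoly]; ring
      rw [this]
      exact dvd_mul_left _ _
    exact hcopF.dvd_of_dvd_mul_left h1
  have hMj : (M : k) ^ p.natDegree ≠ 0 := pow_ne_zero _ hM0
  have hdegB : B.natDegree = 0 := by
    have h1 := natDegree_le_of_dvd hdiv1 (mul_ne_zero (C_ne_zero.2 hMj) hB0)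
    rw [natDegree_comp, natDegree_C_mul hMj, ← hM] at h1
    by_contra hne
    have h2 : 1 ≤ B.natDegree := Nat.one_le_iff_ne_zero.2 hne
    nlinarith
  have hBC := Polynomial.eq_C_of_natDegree_eq_zero hdegB
  refine ⟨p.natDegree, A, hpd, hA0, ?_⟩
  have hBF2 : B.comp F = B := by
    rw [hBC, C_comp]
  rw [hBF2] at hpoly
  exact mul_right_cancel₀ hB0 hpoly

end

end Pool.Agent.Lib_helper45.BDP.LAM1
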