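import Pool.Agent.Lib_helper45.BDP.DefsB
import Pool.Agent.Lib_helper45.BDP.W0

/-!
# Block MERG: merging of residues in boundedly many steps (cites RESQ)
-/

namespace Pool.Agent.Lib_helper45.BDP.MERG

open Polynomial

noncomputable section

section Abstract

/-- a point whose orbit stays in a set with at most `Q` elements becomes periodic -/
theorem merg_per {α : Type*} (h : α → α) (T : Finset α) {Q : ℕ} (hT : T.card ≤ Q) {x : α}
    (hx : ∀ i, h^[i] x ∈ T) : Function.IsPeriodicPt h Q.factorial (h^[Q] x) := by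
  classical
  obtain ⟨i, hi, j, hj, hij, he⟩ := Finset.exists_ne_map_eq_of_card_lt_of_maps_to
    (s := Finset.range (Q + 1)) (t := T) (by rw [Finset.card_range]; omega)
    (f := fun i => h^[i] x) (fun i _ => hx i)
  have key : ∀ i j : ℕ, i < j → j ≤ Q → h^[i] x = h^[j] x →
      Function.IsPeriodicPt h Q.factorial (h^[Q] x) := by
    intro i j hlt hjQ he
    have h1 : Function.IsPeriodicPt h (j - i) (h^[Q] x) := by
      show h^[j - i] (h^[Q] x) = h^[Q] x
      have e1 : h^[j - i] (h^[Q] x) = h^[Q - i] (h^[j] x) := by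
        rw [← Function.iterate_add_apply, ← Function.iterate_add_apply]
        congr 1
        omega
      have e2 : h^[Q] x = h^[Q - i] (h^[i] x) := by
        rw [← Function.iterate_add_apply]
        congr 1
        omega
      rw [e1, ← he, ← e2]
    exact h1.trans_dvd (Nat.dvd_factorial (by omega) (by omega))
  rw [Finset.mem_range] at hi hj
  rcases lt_or_gt_of_ne hij with h1 | h1
  · exact key i j h1 (by omega) he
  · exact key j i h1 (by omega) he.symm

theorem merg_inj {α : Type*} (h : α → α) {N : ℕ} (hN : 0 < N) {X Y : α}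
    (hX : Function.IsPeriodicPt h N X) (hY : Function.IsPeriodicPt h N Y) {s : ℕ}
    (hs : h^[s] X = h^[s] Y) : X = Y := by
  have h1 : h^[N * s] X = X := hX.mul_const s
  have h2 : h^[N * s] Y = Y := hY.mul_const s
  have h3 : N * s = (N * s - s) + s := by
    have : s ≤ N * s := Nat.le_mul_of_pos_left s hN
    omega
  rw [← h1, ← h2, h3, Function.iterate_add_apply, Function.iterate_add_apply, hs]

theorem merg_abs {α : Type*} (h : α → α) (T : Finset α) {Q : ℕ} (hT : T.card ≤ Q) {x y : α}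
    (hx : ∀ i, h^[i] x ∈ T) (hy : ∀ i, h^[i] y ∈ T) {m : ℕ} (hm : h^[m] x = h^[m] y) :
    h^[Q] x = h^[Q] y ∧ h^[Q + Q.factorial] x = h^[Q] x := by
  have px := merg_per h T hT hx
  have py := merg_per h T hT hy
  constructor
  · rcases le_or_gt m Q with h1 | h1
    · obtain ⟨d, rfl⟩ := Nat.exists_eq_add_of_le h1
      rw [Nat.add_comm, Function.iterate_add_apply, Function.iterate_add_apply, hm]
    · refine merg_inj h (Nat.factorial_pos Q) px py (s := m - Q) ?_
      rw [← Function.iterate_add_apply, ← Function.iterate_add_apply,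
        Nat.sub_add_cancel h1.le, hm]
  · rw [Nat.add_comm, Function.iterate_add_apply]
    exact px

end Abstract

section Ultra

variable {Ω : Type*} [NormedField Ω] [IsUltrametricDist Ω]

theorem merg_max {a b : Ω} {c : ℝ} (ha : ‖a‖ ≤ c) (hb : ‖b‖ ≤ c) : ‖a + b‖ ≤ c :=
  (IsUltrametricDist.norm_add_le_max a b).trans (max_le ha hb)

theorem merg_max' {a b : Ω} {c : ℝ} (ha : ‖a‖ < c) (hb : ‖b‖ < c) : ‖a + b‖ < c :=
  (IsUltrametricDist.norm_add_le_max a b).trans_lt (max_lt ha hb)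

theorem merg_eval_le {F : Polynomial Ω} (hf : ∀ i, ‖F.coeff i‖ ≤ 1) {a : Ω} (ha : ‖a‖ ≤ 1) :
    ‖F.eval a‖ ≤ 1 := by
  rw [eval_eq_sum_range]
  refine IsUltrametricDist.norm_sum_le_of_forall_le_of_nonneg zero_le_one fun i _ => ?_
  rw [norm_mul, norm_pow]
  exact mul_le_one₀ (hf i) (by positivity) (pow_le_one₀ (norm_nonneg _) ha)

theorem merg_pow_sub {a b : Ω} (ha : ‖a‖ ≤ 1) (hb : ‖b‖ ≤ 1) (n : ℕ) :
    ‖a ^ n - b ^ n‖ ≤ ‖a - b‖ := by
  induction n with
  | zero => simp
  | succ n ih =>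
    have e : a ^ (n + 1) - b ^ (n + 1) = a ^ n * (a - b) + (a ^ n - b ^ n) * b := by ring
    rw [e]
    refine merg_max ?_ ?_
    · rw [norm_mul, norm_pow]
      exact mul_le_of_le_one_left (norm_nonneg _) (pow_le_one₀ (norm_nonneg _) ha)
    · rw [norm_mul]
      exact (mul_le_of_le_one_right (norm_nonneg _) hb).trans ih

/-- polynomials with coefficients of norm at most one do not increase distances -/
theorem merg_lip {F : Polynomial Ω} (hf : ∀ i, ‖F.coeff i‖ ≤ 1) {a b : Ω} (ha : ‖a‖ ≤ 1)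
    (hb : ‖b‖ ≤ 1) : ‖F.eval a - F.eval b‖ ≤ ‖a - b‖ := by
  rw [eval_eq_sum_range, eval_eq_sum_range, ← Finset.sum_sub_distrib]
  refine IsUltrametricDist.norm_sum_le_of_forall_le_of_nonneg (norm_nonneg _) fun i _ => ?_
  rw [← mul_sub, norm_mul]
  exact (mul_le_of_le_one_left (norm_nonneg _) (hf i)).trans (merg_pow_sub ha hb i)

variable (Ω) in
/-- the ring of integers -/
def mergO : Subring Ω where
  carrier := {x | ‖x‖ ≤ 1}
  mul_mem' {a b} ha hb := by
    show ‖a * b‖ ≤ 1
    rw [norm_mul]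
    exact mul_le_one₀ ha (norm_nonneg _) hb
  one_mem' := norm_one.le
  add_mem' {a b} ha hb := merg_max ha hb
  zero_mem' := by
    show ‖(0 : Ω)‖ ≤ 1
    rw [norm_zero]
    exact zero_le_one
  neg_mem' {a} ha := by
    show ‖-a‖ ≤ 1
    rw [norm_neg]
    exact ha

variable (Ω) in
/-- its maximal ideal -/
def mergI : Ideal (mergO Ω) where
  carrier := {x | ‖(x : Ω)‖ < 1}
  add_mem' {a b} ha hb := merg_max' ha hb
  zero_mem' := by
    show ‖((0 : mergO Ω) : Ω)‖ < 1
    simp
  smul_mem' c {x} hx := by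
    show ‖((c • x : mergO Ω) : Ω)‖ < 1
    rw [smul_eq_mul, Subring.coe_mul, norm_mul]
    exact (mul_le_of_le_one_left (norm_nonneg _) c.2).trans_lt hx

theorem mem_mergI (x : mergO Ω) : x ∈ mergI Ω ↔ ‖(x : Ω)‖ < 1 := Iff.rfl

theorem mergI_prime : (mergI Ω).IsPrime := by
  refine Ideal.isPrime_iff.2 ⟨?_, ?_⟩
  · rw [Ideal.ne_top_iff_one, mem_mergI]
    simp
  · intro x y hxy
    rw [mem_mergI] at hxy
    rw [mem_mergI, mem_mergI]
    by_contra hc
    rw [not_or, not_lt, not_lt] at hc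
    rw [Subring.coe_mul, norm_mul] at hxy
    have h1 : 1 ≤ ‖(x : Ω)‖ * ‖(y : Ω)‖ := one_le_mul_of_one_le_of_one_le hc.1 hc.2
    exact absurd h1 (not_le.2 hxy)

/-- merging, in a normed field -/
theorem merg_main {f : Polynomial Ω} (hf : ∀ i, ‖f.coeff i‖ ≤ 1) {E : Set Ω}
    (hE : ∀ x ∈ E, f.eval x ∈ E) {Q : ℕ} (hQ : 2 ≤ Q)
    (hres : ∀ x ∈ E, ‖x‖ ≤ 1 → ‖x ^ Q - x‖ < 1) {a b : Ω} (ha : a ∈ E) (hb : b ∈ E)
    (ha1 : ‖a‖ ≤ 1) (hb1 : ‖b‖ ≤ 1) {m : ℕ} (hab : (itr f m).eval a = (itr f m).eval b) :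
    ‖(itr f Q).eval a - (itr f Q).eval b‖ < 1 ∧
    ‖(itr f (Q + Q.factorial)).eval a - (itr f Q).eval a‖ < 1 := by
  classical
  have := mergI_prime (Ω := Ω)
  set k := mergO Ω ⧸ mergI Ω with hk
  set res : mergO Ω →+* k := Ideal.Quotient.mk (mergI Ω) with hresdef
  have hreseq : ∀ x y : mergO Ω, res x = res y ↔ ‖(x : Ω) - y‖ < 1 := by
    intro x y
    rw [hresdef, Ideal.Quotient.eq, mem_mergI, AddSubgroupClass.coe_sub]
  let g : mergO Ω → mergO Ω := fun x => ⟨f.eval (x : Ω), merg_eval_le hf x.2⟩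
  have hg : ∀ x y, res x = res y → res (g x) = res (g y) := by
    intro x y h
    rw [hreseq] at h ⊢
    exact (merg_lip hf x.2 y.2).trans_lt h
  have hsurj : Function.Surjective res := Ideal.Quotient.mk_surjective
  choose out hout using hsurj
  let gb : k → k := fun z => res (g (out z))
  have hgb : ∀ x, gb (res x) = res (g x) := fun x => hg _ _ (hout _)
  have hgbi : ∀ (i : ℕ) x, gb^[i] (res x) = res (g^[i] x) := by
    intro i
    induction i with
    | zero => exact fun x => rfl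
    | succ i ih =>
      intro x
      rw [Function.iterate_succ_apply', Function.iterate_succ_apply', ih, hgb]
  have hgi : ∀ (i : ℕ) x, ((g^[i] x : mergO Ω) : Ω) = (itr f i).eval (x : Ω) := by
    intro i
    induction i with
    | zero => intro x; simp [itr_zero]
    | succ i ih =>
      intro x
      rw [Function.iterate_succ_apply', itr_succ, eval_comp, ← ih]
  -- the finite set
  set P : k[X] := X ^ Q - X with hP
  have hP0 : P ≠ 0 := by
    intro h0
    have h1 : P.coeff Q = 1 := by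
      rw [hP, coeff_sub, coeff_X_pow, if_pos rfl, coeff_X, if_neg (by omega), sub_zero]
    rw [h0, coeff_zero] at h1
    exact zero_ne_one h1
  have hPd : P.natDegree ≤ Q := by
    refine (natDegree_sub_le _ _).trans (max_le ?_ ?_)
    · exact natDegree_X_pow_le Q
    · exact natDegree_X_le.trans (by omega)
  set T : Finset k := P.roots.toFinset with hTdef
  have hT : T.card ≤ Q := (Multiset.toFinset_card_le _).trans ((card_roots' P).trans hPd)
  have hmemT : ∀ x : mergO Ω, (x : Ω) ∈ E → res x ∈ T := by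
    intro x hx
    rw [hTdef, Multiset.mem_toFinset, mem_roots hP0, IsRoot.def, hP, eval_sub, eval_pow, eval_X,
      sub_eq_zero, ← map_pow, hreseq]
    exact hres _ hx x.2
  have hmem : ∀ x : mergO Ω, (x : Ω) ∈ E → ∀ i, gb^[i] (res x) ∈ T := by
    intro x hx i
    rw [hgbi]
    refine hmemT _ ?_
    induction i with
    | zero => exact hx
    | succ i ih =>
      rw [Function.iterate_succ_apply']
      exact hE _ ih
  set a' : mergO Ω := ⟨a, ha1⟩ with ha'
  set b' : mergO Ω := ⟨b, hb1⟩ with hb'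
  have hm : gb^[m] (res a') = gb^[m] (res b') := by
    rw [hgbi, hgbi]
    congr 1
    apply Subtype.ext
    rw [hgi, hgi]
    exact hab
  obtain ⟨h1, h2⟩ := merg_abs gb T hT (hmem a' ha) (hmem b' hb) hm
  rw [hgbi, hgbi, hreseq, hgi, hgi] at h1 h2
  exact ⟨h1, h2⟩

end Ultra

section Local

variable {p : ℕ} [Fact p.Prime]

/-- merging of residues in boundedly many steps -/
theorem MERG {E : IntermediateField ℚ_[p] (PadicAlgCl p)} {n : ℕ} [FiniteDimensional ℚ_[p] E]
    (hn : Module.finrank ℚ_[p] E ≤ n) {f : (PadicAlgCl p)[X]} (hfE : ∀ i, f.coeff i ∈ E)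
    (hf : ∀ i, ‖f.coeff i‖ ≤ 1) {a b : PadicAlgCl p} (ha : a ∈ E) (hb : b ∈ E) (ha1 : ‖a‖ ≤ 1)
    (hb1 : ‖b‖ ≤ 1) {m : ℕ} (hab : (itr f m).eval a = (itr f m).eval b) :
    ‖(itr f (p ^ n.factorial)).eval a - (itr f (p ^ n.factorial)).eval b‖ < 1 ∧
    ‖(itr f (p ^ n.factorial + (p ^ n.factorial).factorial)).eval a -
      (itr f (p ^ n.factorial)).eval a‖ < 1 := by
  have hp : p.Prime := Fact.out
  refine merg_main hf (E := (E : Set (PadicAlgCl p))) ?_ ?_ (fun x hx h => RESQ hn hx h) ha hb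
    ha1 hb1 hab
  · intro x hx
    show f.eval x ∈ E
    rw [eval_eq_sum_range]
    exact sum_mem fun i _ => mul_mem (hfE i) (pow_mem hx i)
  · calc 2 ≤ p := hp.two_le
      _ = p ^ 1 := (pow_one p).symm
      _ ≤ p ^ n.factorial := Nat.pow_le_pow_right hp.pos (Nat.factorial_pos n)

end Local

end

end Pool.Agent.Lib_helper45.BDP.MERG
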