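import Pool.Agent.Lib_helper45.BDP.DefsB
import Pool.Agent.Lib_helper45.BDP.W0

namespace Pool.Agent.Lib_helper45.BDP.PREG

open Polynomial

variable {K : Type*} [Field K] [CharZero K] [Algebra.IsAlgebraic ℚ K] [IsAlgClosed K]

theorem transfer {K Ω : Type*} [Field K] [Field Ω] (σ : K →+* Ω) (f : K[X]) (x : K) (n : ℕ) :
    (itr (f.map σ) n).eval (σ x) = σ ((itr f n).eval x) := by
  rw [← itr_map, eval_map, eval₂_at_apply]

/-- one bound for all the coefficients -/
theorem coeffs {K : Type*} [Field K] (f : K[X]) {P : ℝ → K → Prop}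
    (hmono : ∀ B B' a, B ≤ B' → P B a → P B' a) (h : ∀ a, ∃ B, P B a) :
    ∃ B : ℝ, 1 ≤ B ∧ ∀ i, P B (f.coeff i) := by
  choose B hB using h
  refine ⟨1 + |B 0| + ∑ i ∈ f.support, |B (f.coeff i)|, ?_, ?_⟩
  · have : 0 ≤ ∑ i ∈ f.support, |B (f.coeff i)| := Finset.sum_nonneg fun i _ => abs_nonneg _
    have := abs_nonneg (B 0)
    linarith
  · intro i
    by_cases hi : i ∈ f.support
    · refine hmono _ _ _ ?_ (hB (f.coeff i))
      have h1 : |B (f.coeff i)| ≤ ∑ i ∈ f.support, |B (f.coeff i)| :=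
        Finset.single_le_sum (f := fun i => |B (f.coeff i)|) (fun i _ => abs_nonneg _) hi
      have h2 := le_abs_self (B (f.coeff i))
      have := abs_nonneg (B 0)
      linarith
    · rw [notMem_support_iff.1 hi]
      refine hmono _ _ _ ?_ (hB 0)
      have h1 : 0 ≤ ∑ i ∈ f.support, |B (f.coeff i)| := Finset.sum_nonneg fun i _ => abs_nonneg _
      have h2 := le_abs_self (B 0)
      linarith

theorem PREG {f : K[X]} (hm : f.Monic) (hd : 2 ≤ f.natDegree) :
    AllBdd {x : K | ∃ N r, 1 ≤ r ∧ (itr f (N + r)).eval x = (itr f N).eval x} := by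
  have hdm : ∀ {Ω : Type} [Field Ω] (σ : K →+* Ω), 2 ≤ (f.map σ).natDegree := by
    intro Ω _ σ
    rwa [natDegree_map]
  refine ⟨?_, ?_, ?_⟩
  · -- almost all p
    choose S hS using fun a : K => (EMBD a).1
    refine ⟨f.support.biUnion fun i => S (f.coeff i), ?_⟩
    intro p _ hp σ x hx
    obtain ⟨N, r, hr, hx⟩ := hx
    have hf : ∀ i, ‖(f.map σ).coeff i‖ ≤ 1 := by
      intro i
      rw [coeff_map]
      by_cases hi : i ∈ f.support
      · refine hS (f.coeff i) p (fun h => hp ?_) σ _ rfl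
        exact Finset.mem_biUnion.2 ⟨i, hi, h⟩
      · rw [notMem_support_iff.1 hi, map_zero, norm_zero]
        exact zero_le_one
    refine PREL (hdm σ) (GROU (hm.map σ) (hdm σ) hf) (N := N) hr ?_
    rw [transfer, transfer, hx]
  · -- all p
    intro p _
    obtain ⟨B, hB1, hB⟩ := coeffs f (P := fun B a => ∀ σ : K →+* PadicAlgCl p, ‖σ a‖ ≤ B)
      (fun B B' a h h' σ => (h' σ).trans h)
      (fun a => by
        obtain ⟨B, hB⟩ := (EMBD a).2.1 p
        exact ⟨B, fun σ => hB σ a rfl⟩)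
    refine ⟨2 * B * (f.natDegree + 1), ?_⟩
    rintro σ x ⟨N, r, hr, hx⟩
    have hg := GROW (hm.map σ) (hdm σ) (R := 2 * B * (f.natDegree + 1)) hB1
      (fun i => by rw [coeff_map]; exact hB i σ) (by rw [natDegree_map])
    refine PREL (hdm σ) hg (N := N) hr ?_
    rw [transfer, transfer, hx]
  · obtain ⟨B, hB1, hB⟩ := coeffs f (P := fun B a => ∀ σ : K →+* ℂ, ‖σ a‖ ≤ B)
      (fun B B' a h h' σ => (h' σ).trans h)
      (fun a => by
        obtain ⟨B, hB⟩ := (EMBD a).2.2
        exact ⟨B, fun σ => hB σ a rfl⟩)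
    refine ⟨2 * B * (f.natDegree + 1), ?_⟩
    rintro σ x ⟨N, r, hr, hx⟩
    have hg := GROW (hm.map σ) (hdm σ) (R := 2 * B * (f.natDegree + 1)) hB1
      (fun i => by rw [coeff_map]; exact hB i σ) (by rw [natDegree_map])
    refine PREL (hdm σ) hg (N := N) hr ?_
    rw [transfer, transfer, hx]

end Pool.Agent.Lib_helper45.BDP.PREG
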