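import Pool.Agent.Lib_helper45.BDP.Defs

/-!
# Block RATI: the ratio lemma
-/

namespace Pool.Agent.Lib_helper45.BDP.RATI

open Polynomial

noncomputable section

section Ultra

variable {Ω : Type*} [NormedField Ω] [IsUltrametricDist Ω]

theorem rati_max {a b : Ω} {c : ℝ} (ha : ‖a‖ < c) (hb : ‖b‖ < c) : ‖a + b‖ < c :=
  (IsUltrametricDist.norm_add_le_max a b).trans_lt (max_lt ha hb)

/-- powers of close elements of norm at most one -/
theorem rati_pow {a b : Ω} (ha : ‖a‖ ≤ 1) (hb : ‖b‖ ≤ 1) (h : ‖a - b‖ < 1) (n : ℕ) :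
    ‖a ^ n - b ^ n‖ < 1 := by
  induction n with
  | zero => simp
  | succ n ih =>
    have e : a ^ (n + 1) - b ^ (n + 1) = a ^ n * (a - b) + (a ^ n - b ^ n) * b := by ring
    rw [e]
    refine rati_max ?_ ?_
    · rw [norm_mul, norm_pow]
      exact (mul_le_of_le_one_left (norm_nonneg _) (pow_le_one₀ (norm_nonneg _) ha)).trans_lt h
    · rw [norm_mul]
      exact (mul_le_of_le_one_right (norm_nonneg _) hb).trans_lt ih

/-- the exponents `n` with `‖x ^ n - 1‖ < 1` are closed under the greatest common divisor -/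
theorem rati_gcd {x : Ω} (hx : ‖x‖ = 1) (a b : ℕ) (ha : ‖x ^ a - 1‖ < 1) (hb : ‖x ^ b - 1‖ < 1) :
    ‖x ^ (Nat.gcd a b) - 1‖ < 1 := by
  induction a, b using Nat.gcd.induction with
  | H0 n => simpa using hb
  | H1 m n hm ih =>
    rw [Nat.gcd_rec]
    refine ih ?_ ha
    have h1 : ‖(x ^ m) ^ (n / m) - 1‖ < 1 := by
      have := rati_pow (a := x ^ m) (b := 1) (by rw [norm_pow, hx, one_pow]) (by rw [norm_one])
        ha (n / m)
      rwa [one_pow] at this
    have e : x ^ n = x ^ (n % m) * (x ^ m) ^ (n / m) := by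
      rw [← pow_mul, ← pow_add, Nat.mod_add_div]
    have e2 : x ^ (n % m) - 1 = (x ^ n - 1) + -(x ^ (n % m) * ((x ^ m) ^ (n / m) - 1)) := by
      rw [e]
      ring
    rw [e2]
    refine rati_max hb ?_
    rw [norm_neg, norm_mul, norm_pow, hx, one_pow, one_mul]
    exact h1

/-- divisibility -/
theorem rati_dvd {g e m Q : ℕ} (h1 : g ∣ e ^ m) (h2 : g < Q) (hg : g ≠ 0) : g ∣ e ^ Q := by
  rw [Nat.dvd_iff_prime_pow_dvd_dvd]
  intro p k hp hk
  rcases Nat.eq_zero_or_pos k with rfl | hk0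
  · simp
  · have h3 : p ∣ e := by
      have h4 : p ∣ e ^ m := ((dvd_pow_self p hk0.ne').trans hk).trans h1
      exact hp.dvd_of_dvd_pow h4
    have h5 : k < p ^ k := Nat.lt_pow_self hp.one_lt
    have h6 : p ^ k ≤ g := Nat.le_of_dvd (Nat.pos_of_ne_zero hg) hk
    exact (pow_dvd_pow_of_dvd h3 k).trans (pow_dvd_pow e (by omega))

/-- the ratio lemma -/
theorem RATI {Z : Set Ω} {Φ : Ω → Ω} {e Q : ℕ} (h0 : (0 : Ω) ∉ Z) (hΦ : ∀ u ∈ Z, Φ u ∈ Z)
    (he : 1 ≤ e) (hQ : 2 ≤ Q)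
    (r1 : ∀ u ∈ Z, ∀ v ∈ Z, ‖Φ u‖ = ‖Φ v‖ → ‖u‖ = ‖v‖)
    (r2 : ∀ u ∈ Z, ∀ v ∈ Z, ‖u‖ = ‖v‖ → ‖Φ u / Φ v - (u / v) ^ e‖ < 1)
    (r3 : ∀ u ∈ Z, ∀ v ∈ Z, ‖u / v - 1‖ < 1 → ‖Φ u / Φ v - 1‖ = ‖u / v - 1‖)
    {u v : Ω} (hu : u ∈ Z) (hv : v ∈ Z) (huv : ‖u‖ = ‖v‖ → ‖(u / v) ^ Q - u / v‖ < 1)
    {m : ℕ} (h : Φ^[m] u = Φ^[m] v) : Φ^[Q] u = Φ^[Q] v := by
  rcases le_or_gt m Q with hm | hm
  · obtain ⟨d, rfl⟩ := Nat.exists_eq_add_of_le hm
    rw [Nat.add_comm, Function.iterate_add_apply, Function.iterate_add_apply, h]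
  · have hZ : ∀ (i : ℕ) (w : Ω), w ∈ Z → Φ^[i] w ∈ Z := by
      intro i
      induction i with
      | zero => exact fun w hw => hw
      | succ i ih =>
        intro w hw
        rw [Function.iterate_succ_apply']
        exact hΦ _ (ih w hw)
    have hne : ∀ (i : ℕ) (w : Ω), w ∈ Z → Φ^[i] w ≠ 0 := fun i w hw h1 =>
      h0 (h1 ▸ hZ i w hw)
    -- equal norms
    have hnorm : ∀ d i : ℕ, i + d = m → ‖Φ^[i] u‖ = ‖Φ^[i] v‖ := by
      intro d
      induction d with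
      | zero =>
        intro i hi
        rw [Nat.add_zero] at hi
        rw [hi, h]
      | succ d ih =>
        intro i hi
        have h1 := ih (i + 1) (by omega)
        rw [Function.iterate_succ_apply', Function.iterate_succ_apply'] at h1
        exact r1 _ (hZ i u hu) _ (hZ i v hv) h1
    have hn : ∀ i, i ≤ m → ‖Φ^[i] u‖ = ‖Φ^[i] v‖ := fun i hi => hnorm (m - i) i (by omega)
    set ρ : ℕ → Ω := fun i => Φ^[i] u / Φ^[i] v with hρ
    have hρ1 : ∀ i, i ≤ m → ‖ρ i‖ = 1 := by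
      intro i hi
      simp only [hρ]
      rw [norm_div, hn i hi]
      exact div_self (norm_ne_zero_iff.2 (hne i v hv))
    have hρp : ∀ i, i ≤ m → ‖ρ i - ρ 0 ^ (e ^ i)‖ < 1 := by
      intro i
      induction i with
      | zero =>
        intro _
        simp
      | succ i ih =>
        intro hi
        have h1 := r2 _ (hZ i u hu) _ (hZ i v hv) (hn i (by omega))
        rw [← Function.iterate_succ_apply' Φ i u, ← Function.iterate_succ_apply' Φ i v] at h1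
        have h2 := rati_pow (a := ρ i) (b := ρ 0 ^ (e ^ i)) (hρ1 i (by omega)).le
          (by rw [norm_pow, hρ1 0 (by omega), one_pow]) (ih (by omega)) e
        have e1 : ρ (i + 1) - ρ 0 ^ (e ^ (i + 1)) = (ρ (i + 1) - ρ i ^ e) +
            (ρ i ^ e - (ρ 0 ^ (e ^ i)) ^ e) := by
          rw [← pow_mul, ← pow_succ]
          ring
        rw [e1]
        exact rati_max h1 h2
    have hρm : ρ m = 1 := by
      simp only [hρ]
      rw [h, div_self (hne m v hv)]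
    have k1 : ‖ρ 0 ^ (e ^ m) - 1‖ < 1 := by
      have h1 := hρp m le_rfl
      rw [hρm, ← norm_neg, neg_sub] at h1
      exact h1
    have k2 : ‖ρ 0 ^ (Q - 1) - 1‖ < 1 := by
      have h1 : ‖ρ 0 ^ Q - ρ 0‖ < 1 := huv (hn 0 (by omega))
      have e1 : ρ 0 ^ Q - ρ 0 = ρ 0 * (ρ 0 ^ (Q - 1) - 1) := by
        have : ρ 0 ^ Q = ρ 0 * ρ 0 ^ (Q - 1) := by
          rw [← pow_succ', Nat.sub_add_cancel (by omega)]
        rw [this]
        ring
      rw [e1, norm_mul, hρ1 0 (by omega), one_mul] at h1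
      exact h1
    have k3 := rati_gcd (hρ1 0 (by omega)) _ _ k1 k2
    set g := Nat.gcd (e ^ m) (Q - 1) with hg
    have hg0 : g ≠ 0 := (Nat.gcd_pos_of_pos_right _ (by omega)).ne'
    have hgQ : g < Q := by
      have : g ≤ Q - 1 := Nat.le_of_dvd (by omega) (Nat.gcd_dvd_right _ _)
      omega
    obtain ⟨d, hd⟩ := rati_dvd (Nat.gcd_dvd_left (e ^ m) (Q - 1)) hgQ hg0
    have k4 : ‖ρ 0 ^ (e ^ Q) - 1‖ < 1 := by
      rw [hd, ← hg, pow_mul]
      have := rati_pow (a := ρ 0 ^ g) (b := 1) (by rw [norm_pow, hρ1 0 (by omega), one_pow])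
        (by rw [norm_one]) k3 d
      rwa [one_pow] at this
    have k5 : ‖ρ Q - 1‖ < 1 := by
      have e1 : ρ Q - 1 = (ρ Q - ρ 0 ^ (e ^ Q)) + (ρ 0 ^ (e ^ Q) - 1) := by ring
      rw [e1]
      exact rati_max (hρp Q hm.le) k4
    have k6 : ∀ i, ‖ρ (Q + i) - 1‖ = ‖ρ Q - 1‖ := by
      intro i
      induction i with
      | zero => rfl
      | succ i ih =>
        rw [← ih]
        have h1 := r3 _ (hZ (Q + i) u hu) _ (hZ (Q + i) v hv) (by
          show ‖ρ (Q + i) - 1‖ < 1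
          rw [ih]
          exact k5)
        rw [← Function.iterate_succ_apply' Φ (Q + i) u,
          ← Function.iterate_succ_apply' Φ (Q + i) v] at h1
        exact h1
    have k7 : ‖ρ Q - 1‖ = 0 := by
      have h1 := k6 (m - Q)
      rw [Nat.add_sub_cancel' hm.le, hρm, sub_self, norm_zero] at h1
      exact h1.symm
    have k8 : ρ Q = 1 := by
      rw [norm_eq_zero, sub_eq_zero] at k7
      exact k7
    exact (div_eq_one_iff_eq (hne Q v hv)).1 k8

end Ultra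

end

end Pool.Agent.Lib_helper45.BDP.RATI
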