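import Pool.Agent.Lib_helper45.BDP.DefsC
import Pool.Agent.Lib_helper45.BDP.W0

/-!
# Block RELX: two coordinates are algebraically dependent on a curve (uses FIBX)
-/

namespace Pool.Agent.Lib_helper45.BDP.RELX

open Polynomial

noncomputable section

variable {k : Type*} [Field k] {n : ℕ}

theorem mval_aff (e : Fin n → ℕ) (F : MvPolynomial (Fin n) k) (y : Fin n → k) :
    mval e F (aff y) = MvPolynomial.eval y F := by
  rw [mval, MvPolynomial.eval_eq']
  refine Finset.sum_congr rfl fun m _ => ?_
  congr 1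

theorem aff_injective : Function.Injective (aff : (Fin n → k) → Fin n → OnePoint k) := by
  intro x y h
  funext i
  exact OnePoint.coe_injective (congrFun h i)

/-- the polynomials vanishing at the affine points of `C` -/
def vI (C : Set (Fin n → OnePoint k)) : Ideal (MvPolynomial (Fin n) k) :=
  MvPolynomial.vanishingIdeal k {x : Fin n → k | aff x ∈ C}

theorem mem_vI {C : Set (Fin n → OnePoint k)} {F : MvPolynomial (Fin n) k} :
    F ∈ vI C ↔ ∀ x, aff x ∈ C → MvPolynomial.eval x F = 0 := by
  rw [vI, MvPolynomial.mem_vanishingIdeal_iff]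
  simp only [Set.mem_ofPred_eq, MvPolynomial.aeval_eq_eval]

theorem fin_zero {C : Set (Fin n → OnePoint k)} (hC : IsIrrCurve C) {F : MvPolynomial (Fin n) k}
    (hF : F ∉ vI C) : {x : Fin n → k | aff x ∈ C ∧ MvPolynomial.eval x F = 0}.Finite := by
  obtain ⟨⟨S, hS, hCS⟩, -, hirr⟩ := hC
  have h1 : ({P | P ∈ C ∧ mval (fun i => F.degreeOf i) F P = 0}).Finite := by
    refine hirr _ ⟨insert (fun i => F.degreeOf i, F) S, ?_, ?_⟩ (fun P hP => hP.1) ?_
    · rintro t (rfl | ht)
      · exact fun i => le_rfl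
      · exact hS t ht
    · ext P
      simp only [Set.mem_ofPred_eq, Set.mem_insert_iff, forall_eq_or_imp, hCS]
      exact and_comm
    · intro heq
      apply hF
      rw [mem_vI]
      intro x hx
      rw [← heq] at hx
      rw [← mval_aff (fun i => F.degreeOf i)]
      exact hx.2
  refine (h1.preimage (f := aff) aff_injective.injOn).subset ?_
  rintro x ⟨hx1, hx2⟩
  exact ⟨hx1, by rw [mval_aff]; exact hx2⟩

theorem closed_mem {C : Set (Fin n → OnePoint k)} (hC : IsZClosed C) {x : Fin n → k}
    (hx : ∀ F ∈ vI C, MvPolynomial.eval x F = 0) : aff x ∈ C := by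
  obtain ⟨S, hS, hCS⟩ := hC
  rw [hCS]
  intro t ht
  rw [mval_aff]
  apply hx
  rw [mem_vI]
  intro y hy
  rw [hCS] at hy
  rw [← mval_aff t.1]
  exact hy t ht

variable [IsAlgClosed k] [CharZero k]

theorem nonaff_fin {C : Set (Fin n → OnePoint k)} (hC : IsIrrCurve C) (hN : NonVertical C) :
    {P | P ∈ C ∧ ∀ x, aff x ≠ P}.Finite := by
  have h1 : (⋃ i : Fin n, {P | P ∈ C ∧ P i = (OnePoint.infty : OnePoint k)}).Finite :=
    Set.finite_iUnion fun i => FIBX hC hN i _
  refine h1.subset ?_
  rintro P ⟨hP, hx⟩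
  by_contra hcon
  simp only [Set.mem_iUnion, Set.mem_ofPred_eq, not_exists, not_and] at hcon
  have h2 : ∀ i, ∃ y : k, (y : OnePoint k) = P i := fun i =>
    OnePoint.ne_infty_iff_exists.1 (hcon i hP)
  choose y hy using h2
  exact hx y (funext hy)

theorem aff_inf {C : Set (Fin n → OnePoint k)} (hC : IsIrrCurve C) (hN : NonVertical C) :
    {x : Fin n → k | aff x ∈ C}.Infinite := by
  intro hfin
  apply hC.2.1
  refine ((nonaff_fin hC hN).union (hfin.image aff)).subset ?_
  intro P hP
  by_cases h : ∃ x, aff x = P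
  · obtain ⟨x, rfl⟩ := h
    exact Or.inr ⟨x, hP, rfl⟩
  · exact Or.inl ⟨hP, fun x hx => h ⟨x, hx⟩⟩

theorem vI_prime {C : Set (Fin n → OnePoint k)} (hC : IsIrrCurve C) (hN : NonVertical C) :
    (vI C).IsPrime := by
  have hinf := aff_inf hC hN
  refine ⟨?_, ?_⟩
  · rw [Ideal.ne_top_iff_one, mem_vI]
    intro h
    obtain ⟨x, hx⟩ := hinf.nonempty
    have := h x hx
    rw [map_one] at this
    exact one_ne_zero this
  · intro F G hFG
    by_contra hcon
    push Not at hcon
    apply hinf
    refine ((fin_zero hC hcon.1).union (fin_zero hC hcon.2)).subset ?_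
    intro x hx
    have h := mem_vI.1 hFG x hx
    rw [map_mul, mul_eq_zero] at h
    rcases h with h | h
    · exact Or.inl ⟨hx, h⟩
    · exact Or.inr ⟨hx, h⟩

/-- the Noether normalization of the affine curve has at most one variable -/
theorem noether {C : Set (Fin n → OnePoint k)} (hC : IsIrrCurve C) (hN : NonVertical C) {s : ℕ}
    (g : MvPolynomial (Fin s) k →ₐ[k] (MvPolynomial (Fin n) k ⧸ vI C))
    (hg : Function.Injective g) (hi : g.IsIntegral) : s ≤ 1 := by
  by_contra hs
  have hs2 : 2 ≤ s := by omega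
  let i0 : Fin s := ⟨0, by omega⟩
  let i1 : Fin s := ⟨1, by omega⟩
  have h01 : i1 ≠ i0 := by
    intro h
    have := congrArg Fin.val h
    simp [i0, i1] at this
  obtain ⟨F0, hF0⟩ := Ideal.Quotient.mk_surjective (g (MvPolynomial.X i0))
  obtain ⟨F1, hF1⟩ := Ideal.Quotient.mk_surjective (g (MvPolynomial.X i1))
  have hF0n : F0 ∉ vI C := by
    rw [← Ideal.Quotient.eq_zero_iff_mem, hF0]
    intro h
    have := hg (h.trans (map_zero g).symm)
    exact MvPolynomial.X_ne_zero _ this
  have hfin := fin_zero hC hF0n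
  have key : ∀ c : k, ∃ x : Fin n → k, (aff x ∈ C ∧ MvPolynomial.eval x F0 = 0) ∧
      MvPolynomial.eval x F1 = c := by
    intro c
    let : Algebra (MvPolynomial (Fin s) k) (MvPolynomial (Fin n) k ⧸ vI C) :=
      g.toRingHom.toAlgebra
    have halg : algebraMap (MvPolynomial (Fin s) k) (MvPolynomial (Fin n) k ⧸ vI C) =
        g.toRingHom := rfl
    have : Algebra.IsIntegral (MvPolynomial (Fin s) k) (MvPolynomial (Fin n) k ⧸ vI C) :=
      ⟨fun a => hi a⟩
    let pt : Fin s → k := fun l => if l = i1 then c else 0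
    let m : Ideal (MvPolynomial (Fin s) k) := MvPolynomial.vanishingIdeal k {pt}
    have hm : m.IsMaximal := MvPolynomial.isMaximal_iff_eq_vanishingIdeal_singleton.2 ⟨pt, rfl⟩
    have hker : RingHom.ker (algebraMap (MvPolynomial (Fin s) k)
        (MvPolynomial (Fin n) k ⧸ vI C)) ≤ m := by
      intro a ha
      have h1 : g a = 0 := ha
      rw [hg (h1.trans (map_zero g).symm)]
      exact m.zero_mem
    obtain ⟨N, hNmax, hNcomap⟩ := Ideal.exists_ideal_over_maximal_of_isIntegral m hker
    have hM : (N.comap (Ideal.Quotient.mk (vI C))).IsMaximal :=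
      Ideal.comap_isMaximal_of_surjective _ Ideal.Quotient.mk_surjective
    obtain ⟨x, hx⟩ := MvPolynomial.isMaximal_iff_eq_vanishingIdeal_singleton.1 hM
    have hmem : ∀ F, MvPolynomial.eval x F = 0 ↔ Ideal.Quotient.mk (vI C) F ∈ N := by
      intro F
      rw [← Ideal.mem_comap, hx, MvPolynomial.mem_vanishingIdeal_singleton_iff,
        MvPolynomial.aeval_eq_eval]
    have hNg : ∀ H : MvPolynomial (Fin s) k, MvPolynomial.eval pt H = 0 → g H ∈ N := by
      intro H hH
      have h1 : H ∈ N.comap (algebraMap (MvPolynomial (Fin s) k)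
          (MvPolynomial (Fin n) k ⧸ vI C)) := by
        rw [hNcomap]
        change H ∈ MvPolynomial.vanishingIdeal k {pt}
        rw [MvPolynomial.mem_vanishingIdeal_singleton_iff, MvPolynomial.aeval_eq_eval]
        exact hH
      exact h1
    refine ⟨x, ⟨closed_mem hC.1 fun F hF => ?_, ?_⟩, ?_⟩
    · rw [hmem, Ideal.Quotient.eq_zero_iff_mem.2 hF]
      exact N.zero_mem
    · rw [hmem, hF0]
      apply hNg
      rw [MvPolynomial.eval_X]
      simp [pt, Ne.symm h01]
    · have h2 : MvPolynomial.eval x (F1 - MvPolynomial.C c) = 0 := by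
        rw [hmem, map_sub, hF1]
        have h3 : Ideal.Quotient.mk (vI C) (MvPolynomial.C c) = g (MvPolynomial.C c) := by
          rw [← MvPolynomial.algebraMap_eq, ← MvPolynomial.algebraMap_eq, AlgHom.commutes]
          rfl
        rw [h3, ← map_sub]
        apply hNg
        simp [pt]
      rw [map_sub, MvPolynomial.eval_C, sub_eq_zero] at h2
      exact h2
  choose x hx1 hx2 using key
  have hinj : Function.Injective x := by
    intro c d hcd
    rw [← hx2 c, ← hx2 d, hcd]
  exact Set.infinite_of_injective_forall_mem hinj hx1 hfin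

theorem RELX {C : Set (Fin n → OnePoint k)} (hC : IsIrrCurve C) (hN : NonVertical C) (i j : Fin n)
    (hij : i ≠ j) : ∃ Q : k[X][X], 1 ≤ Q.natDegree ∧
      ∀ x : Fin n → k, aff x ∈ C → (Q.map (evalRingHom (x j))).eval (x i) = 0 := by
  have hp := vI_prime hC hN
  obtain ⟨s, -, g, hg, hi⟩ := exists_integral_inj_algHom_of_quotient (vI C) hp.ne_top
  have hs := noether hC hN g hg hi
  have htr : Algebra.trdeg k (MvPolynomial (Fin n) k ⧸ vI C) ≤ 1 := by
    let : Algebra (MvPolynomial (Fin s) k) (MvPolynomial (Fin n) k ⧸ vI C) :=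
      g.toRingHom.toAlgebra
    have : IsScalarTower k (MvPolynomial (Fin s) k) (MvPolynomial (Fin n) k ⧸ vI C) :=
      IsScalarTower.of_algebraMap_eq fun r => (g.commutes r).symm
    have : Algebra.IsIntegral (MvPolynomial (Fin s) k) (MvPolynomial (Fin n) k ⧸ vI C) :=
      ⟨fun a => hi a⟩
    have : FaithfulSMul (MvPolynomial (Fin s) k) (MvPolynomial (Fin n) k ⧸ vI C) :=
      (faithfulSMul_iff_algebraMap_injective _ _).2 hg
    rw [← _root_.trdeg_add_eq k (MvPolynomial (Fin s) k), MvPolynomial.trdeg_of_isDomain,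
      trdeg_eq_zero, add_zero]
    simpa using hs
  have hdep : ¬ AlgebraicIndependent k ![Ideal.Quotient.mk (vI C) (MvPolynomial.X i),
      Ideal.Quotient.mk (vI C) (MvPolynomial.X j)] := by
    intro h
    have h1 := h.lift_cardinalMk_le_trdeg
    have h2 := h1.trans (Cardinal.lift_le.2 htr)
    simp at h2
  rw [algebraicIndependent_iff] at hdep
  push Not at hdep
  obtain ⟨P, hP, hP0⟩ := hdep
  have hev : ∀ a b : k, (((MvPolynomial.aeval (![X, Polynomial.C X] : Fin 2 → k[X][X]) P).map
      (evalRingHom b)).eval a) = MvPolynomial.eval ![a, b] P := by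
    intro a b
    have h1 : ((evalRingHom a).comp (mapRingHom (evalRingHom b))).comp
        (MvPolynomial.aeval (![X, Polynomial.C X] : Fin 2 → k[X][X])).toRingHom =
        MvPolynomial.eval (![a, b] : Fin 2 → k) := by
      refine MvPolynomial.ringHom_ext (fun r => ?_) fun l => ?_
      · simp
      · fin_cases l <;> simp
    exact DFunLike.congr_fun h1 P
  have hzero : ∀ x : Fin n → k, aff x ∈ C → MvPolynomial.eval ![x i, x j] P = 0 := by
    intro x hx
    let ψ : (MvPolynomial (Fin n) k ⧸ vI C) →ₐ[k] k :=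
      Ideal.Quotient.liftₐ (vI C) (MvPolynomial.aeval x) fun F hF => by
        rw [MvPolynomial.aeval_eq_eval]
        exact mem_vI.1 hF x hx
    have h1 := congrArg ψ hP
    rw [map_zero] at h1
    rw [← h1]
    have h2 : (ψ.comp (MvPolynomial.aeval ![Ideal.Quotient.mk (vI C) (MvPolynomial.X i),
        Ideal.Quotient.mk (vI C) (MvPolynomial.X j)])) =
        MvPolynomial.aeval (![x i, x j] : Fin 2 → k) := by
      refine MvPolynomial.algHom_ext fun l => ?_
      fin_cases l
      · simp [ψ]
      · simp [ψ]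
    have h3 := DFunLike.congr_fun h2 P
    rw [MvPolynomial.aeval_eq_eval] at h3
    exact h3.symm
  refine ⟨MvPolynomial.aeval (![X, Polynomial.C X] : Fin 2 → k[X][X]) P, ?_, fun x hx => ?_⟩
  · by_contra hdeg
    have hdeg0 : (MvPolynomial.aeval (![X, Polynomial.C X] : Fin 2 → k[X][X]) P).natDegree = 0 := by omega
    obtain ⟨q, hq⟩ := natDegree_eq_zero.1 hdeg0
    have hroot : ∀ x : Fin n → k, aff x ∈ C → q.eval (x j) = 0 := by
      intro x hx
      have h1 := hev (x i) (x j)
      rw [hzero x hx, ← hq] at h1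
      simpa using h1
    have hq0 : q = 0 := by
      refine Polynomial.eq_zero_of_infinite_isRoot q ?_
      have h1 : ((fun P : Fin n → OnePoint k => P j) '' {P | P ∈ C ∧ ∀ x, aff x ≠ P}).Finite :=
        (nonaff_fin hC hN).image _
      have h2 : ((fun z : k => (z : OnePoint k)) ⁻¹'
          ((fun P : Fin n → OnePoint k => P j) '' {P | P ∈ C ∧ ∀ x, aff x ≠ P})).Finite :=
        h1.preimage OnePoint.coe_injective.injOn
      refine h2.infinite_compl.mono ?_
      intro z hz
      obtain ⟨P, hP, hPj⟩ := hN j (z : OnePoint k)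
      have h3 : ∃ x, aff x = P := by
        by_contra h4
        push Not at h4
        exact hz ⟨P, ⟨hP, h4⟩, hPj⟩
      obtain ⟨x, rfl⟩ := h3
      have h5 : x j = z := OnePoint.coe_injective hPj
      rw [← h5]
      exact hroot x hP
    apply hP0
    refine MvPolynomial.funext fun y => ?_
    have h1 := hev (y 0) (y 1)
    rw [← hq, hq0] at h1
    have h2 : (![y 0, y 1] : Fin 2 → k) = y := by
      funext l
      fin_cases l <;> rfl
    rw [h2] at h1
    simpa using h1.symm
  · rw [hev]
    exact hzero x hx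

end

end Pool.Agent.Lib_helper45.BDP.RELX

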