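import Pool.Agent.Lib_helper45.BDP.Defs
import Pool.Agent.Lib_helper45.BDP.W2

namespace Pool.Agent.Lib_helper45.BDP.ROT

open Polynomial

noncomputable section

variable {k : Type*} [Field k] [IsAlgClosed k] [CharZero k]

theorem rot_exp {M n : ℕ} (hn : 1 ≤ n) (hcop : Nat.Coprime n M) {ζ : kˣ} (hζ : ζ ^ n = 1) :
    ∃ r : ℕ, 1 ≤ r ∧ ζ ^ (M ^ r) = ζ := by
  refine ⟨n.totient, ?_, ?_⟩
  · exact Nat.totient_pos.2 (by omega)
  · have h1 : M ^ n.totient ≡ 1 [MOD n] := Nat.ModEq.pow_totient hcop.symm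
    have h2 : orderOf ζ ∣ n := orderOf_dvd_of_pow_eq_one hζ
    have h3 : ζ ^ (M ^ n.totient) = ζ ^ 1 := by
      rw [pow_eq_pow_iff_modEq]
      exact h1.of_dvd h2
    rw [h3, pow_one]

theorem ROT {F : k[X]} {T : L k} (hF : Frob F T) (hT : NP T) (hdel : ¬ Dep T (del T)) {ζ : kˣ}
    {n : ℕ} (hn : 1 ≤ n) (hcop : Nat.Coprime n F.natDegree) (hζ : ζ ^ n = 1)
    (h : Dep T (th ζ 1 T)) : ∃ b : k, th ζ 1 T = (ζ : k) • T + algebraMap k (L k) b := by
  obtain ⟨r, hr, hr2⟩ := rot_exp hn hcop hζ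
  have hM : 0 < F.natDegree := by have := hF.deg; omega
  have hFr : Frob (itr F r) T := BDP.FITR hF hr
  have hMr : 0 < F.natDegree ^ r := pow_pos hM r
  have hdeg : (itr F r).natDegree = F.natDegree ^ r := natDegree_itr F r
  have h1 : aeval (th ζ 1 T) (itr F r) = th 1 (itr F r).natDegree (th ζ 1 T) := by
    rw [aeval_algHom_apply, hFr.eq, hdeg, th_th _ _ Nat.one_pos hMr, th_th _ _ hMr Nat.one_pos,
      hr2, one_mul, one_mul, mul_one, one_pow, mul_one]
  have h2 : th 1 (itr F r).natDegree (th ζ 1 T) ∈ IntermediateField.adjoin k {T, th ζ 1 T} := by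
    rw [← h1]
    have h3 : th ζ 1 T ∈ IntermediateField.adjoin k {T, th ζ 1 T} :=
      IntermediateField.subset_adjoin _ _ (by simp)
    have h4 : aeval (th ζ 1 T) (itr F r) =
        ((aeval (⟨th ζ 1 T, h3⟩ : IntermediateField.adjoin k {T, th ζ 1 T}) (itr F r) :
          IntermediateField.adjoin k {T, th ζ 1 T}) : L k) := by
      have := aeval_algHom_apply (IntermediateField.val (IntermediateField.adjoin k {T, th ζ 1 T}))
        (⟨th ζ 1 T, h3⟩ : IntermediateField.adjoin k {T, th ζ 1 T}) (itr F r)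
      simpa using this
    rw [h4]
    exact Subtype.property _
  rcases BDP.FROB hFr h h2 with h3 | h3
  · obtain ⟨g, hg⟩ := BDP.GRAT hFr hT h3 h1
    have hg1 : g.natDegree = 1 := BDP.DEGG hF.pole le_rfl hg
    obtain ⟨a, -, b, hab⟩ := natDegree_eq_one.1 hg1
    refine ⟨b, ?_⟩
    have h5 : th ζ 1 T = a • T + algebraMap k (L k) b := by
      rw [hg, ← hab, map_add, map_mul, aeval_C, aeval_C, aeval_X, Algebra.smul_def]
    have h6 : (th ζ 1 T).coeff (-1) = a * T.coeff (-1) := by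
      rw [h5, HahnSeries.coeff_add, HahnSeries.coeff_smul, algebraMap_L, HahnSeries.C_apply,
        HahnSeries.coeff_single_of_ne (by norm_num), add_zero, smul_eq_mul]
    rw [th_one_coeff] at h6
    have h7 : ((ζ ^ (-(-1 : ℤ)) : kˣ) : k) = ζ := by simp
    rw [h7] at h6
    have h8 : (ζ : k) = a := mul_right_cancel₀ hF.pole.1 h6
    rw [h8]
    exact h5
  · exact absurd h3 hdel

end

end Pool.Agent.Lib_helper45.BDP.ROT
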