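import Pool.Agent.Lib_helper45.BDP.Defs

set_option linter.unusedSectionVars false
set_option linter.unusedVariables false
set_option linter.style.haveILetI false

namespace Pool.Agent.Lib_helper45.BDP.TTH

open Polynomial

noncomputable section

variable {k : Type*} [Field k] [IsAlgClosed k] [CharZero k]

theorem TTH {T : L k} (hT : SimplePole T) (c : kˣ) {m : ℕ} (hm : 1 ≤ m) :
    Transcendental k (th c m T) := by
  intro halg
  have hint : IsIntegral k (th c m T) := halg.isIntegral
  have hdeg : (minpoly k (th c m T)).degree = 1 :=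
    IsAlgClosed.degree_eq_one_of_irreducible k (minpoly.irreducible hint)
  obtain ⟨a, ha⟩ := minpoly.mem_range_of_degree_eq_one k _ hdeg
  have h1 : (algebraMap k (L k) a).coeff ((m : ℤ) * (-1)) =
      (th c m T).coeff ((m : ℤ) * (-1)) := by rw [ha]
  rw [th_coeff_mul c hm] at h1
  have h2 : (algebraMap k (L k) a).coeff ((m : ℤ) * (-1)) = 0 := by
    rw [algebraMap_L, HahnSeries.C_apply]
    apply HahnSeries.coeff_single_of_ne
    have : (1 : ℤ) ≤ m := by exact_mod_cast hm
    omega
  rw [h2] at h1
  exact mul_ne_zero (Units.ne_zero _) hT.1 h1.symm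

end

end Pool.Agent.Lib_helper45.BDP.TTH
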