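import Pool.Agent.Lib_helper45.BDP.DefsC
import Pool.Agent.Lib_helper45.BDP.W0

namespace Pool.Agent.Lib_helper45.BDP.VPRE

open Polynomial Pool.Agent.Lib_helper45.BDP

noncomputable section

variable {k : Type*} [Field k] {n : ℕ}

theorem pmap_comp (f g : k[X]) (z : OnePoint k) : pmap (f.comp g) z = pmap f (pmap g z) := by
  induction z using OnePoint.rec with
  | infty => simp [pmap]
  | coe x => simp [pmap, eval_comp]

theorem pmap_X (z : OnePoint k) : pmap (X : k[X]) z = z := by
  induction z using OnePoint.rec with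
  | infty => simp [pmap]
  | coe x => simp [pmap]

theorem phi_iter (f : k[X]) (m : ℕ) (P : Fin n → OnePoint k) (i : Fin n) :
    (phi f)^[m] P i = pmap (itr f m) (P i) := by
  induction m generalizing P with
  | zero => rw [itr_zero, pmap_X]; rfl
  | succ m ih =>
    rw [Function.iterate_succ_apply, ih, itr_succ', pmap_comp]; rfl

theorem pmap_surj [IsAlgClosed k] {f : k[X]} (hf : 1 ≤ f.natDegree) (z : OnePoint k) :
    ∃ w, pmap f w = z := by
  induction z using OnePoint.rec with
  | infty => exact ⟨OnePoint.infty, by simp [pmap]⟩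
  | coe x =>
    obtain ⟨y, hy⟩ := IsAlgClosed.exists_root (f - C x) (by
      intro h
      have h2 : (f - C x).natDegree = 0 := natDegree_eq_of_degree_eq_some h
      rw [natDegree_sub_C] at h2
      omega)
    rw [IsRoot.def, eval_sub, eval_C, sub_eq_zero] at hy
    exact ⟨(y : OnePoint k), by simp [pmap, hy]⟩

variable [IsAlgClosed k] [CharZero k]

theorem VPRE {f g : k[X]} (hd : 1 ≤ f.natDegree) (hg : 1 ≤ g.natDegree) {r J : ℕ} (hr : 1 ≤ r)
    (hJ : r ∣ J) (hcomm : g.comp (itr f r) = (itr f r).comp g) {i j : Fin n} (hij : i ≠ j) :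
    IsPreperiodicHyp f
      {P : Fin n → OnePoint k | pmap (itr f J) (P i) = pmap ((itr f J).comp g) (P j)} := by
  have hdeg : ∀ m, 1 ≤ (itr f m).natDegree := fun m => by
    rw [natDegree_itr]; exact Nat.one_le_pow _ _ hd
  have hcJ : g.comp (itr f J) = (itr f J).comp g := by
    obtain ⟨s, rfl⟩ := hJ
    exact comp_itr_mul hcomm s
  refine ⟨VHYP (hdeg J) (by
    rw [natDegree_comp]; exact Nat.one_le_iff_ne_zero.2 (Nat.mul_ne_zero
      (Nat.one_le_iff_ne_zero.1 (hdeg J)) (Nat.one_le_iff_ne_zero.1 hg))) hij, J, ?_⟩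
  have hW : (phi f)^[J] '' {P : Fin n → OnePoint k |
      pmap (itr f J) (P i) = pmap ((itr f J).comp g) (P j)} =
      {P : Fin n → OnePoint k | pmap X (P i) = pmap g (P j)} := by
    ext Q
    constructor
    · rintro ⟨P, hP, rfl⟩
      have hP' : pmap (itr f J) (P i) = pmap ((itr f J).comp g) (P j) := hP
      show pmap X ((phi f)^[J] P i) = pmap g ((phi f)^[J] P j)
      rw [phi_iter, phi_iter, pmap_X, hP', ← hcJ, pmap_comp]
    · intro hQ
      have hQ' : pmap X (Q i) = pmap g (Q j) := hQ
      rw [pmap_X] at hQ'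
      choose P hP using fun l => pmap_surj (hdeg J) (Q l)
      refine ⟨P, ?_, ?_⟩
      · show pmap (itr f J) (P i) = pmap ((itr f J).comp g) (P j)
        rw [hP, hQ', ← hcJ, pmap_comp, hP]
      · funext l
        rw [phi_iter, hP]
  rw [hW]
  refine ⟨VHYP (by rw [natDegree_X]) hg hij, r, hr, ?_⟩
  ext Q
  constructor
  · rintro ⟨P, hP, rfl⟩
    have hP' : pmap X (P i) = pmap g (P j) := hP
    rw [pmap_X] at hP'
    show pmap X ((phi f)^[r] P i) = pmap g ((phi f)^[r] P j)
    rw [phi_iter, phi_iter, pmap_X, hP', ← pmap_comp, ← pmap_comp, hcomm]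
  · intro hQ
    have hQ' : pmap X (Q i) = pmap g (Q j) := hQ
    rw [pmap_X] at hQ'
    choose P hP using fun l => pmap_surj (hdeg r) (Q l)
    refine ⟨Function.update P i (pmap g (P j)), ?_, ?_⟩
    · show pmap X (Function.update P i (pmap g (P j)) i) =
        pmap g (Function.update P i (pmap g (P j)) j)
      rw [pmap_X, Function.update_self, Function.update_of_ne hij.symm]
    · funext l
      rw [phi_iter]
      by_cases hl : l = i
      · subst hl
        rw [Function.update_self, ← pmap_comp, ← hcomm, pmap_comp, hP, hQ']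
      · rw [Function.update_of_ne hl, hP]

end

end Pool.Agent.Lib_helper45.BDP.VPRE
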