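import Mathlib

/-!
# Bounded degree points on preperiodic hypersurfaces (MP_30534a_nt): definitions and basic API

Part 1: polynomials, conjugacy, iterates.
Part 2: Laurent series in `1/θ` (`L k = LaurentSeries k`, the variable of the Laurent series is
`1/θ`), substitutions `θ ↦ c θ^m` (`th c m`), the operators `U` and `del = θ d/dθ`.
Part 3: points of `(P^1)^n`, hypersurfaces, curves.
-/

namespace Pool.Agent.Lib_helper45.BDP

open Polynomial

noncomputable section

/-! ### Part 1 : polynomials -/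

section Poly

variable {k : Type*} [Field k]

/-- The `r`-th iterate of the polynomial `f`. -/
def itr (f : k[X]) (r : ℕ) : k[X] := f.comp^[r] X

/-- `f` is conjugate to `g` by the linear polynomial `a X + b`, `a ≠ 0`. -/
def IsConj (f g : k[X]) : Prop :=
  ∃ a b : k, a ≠ 0 ∧ f.comp (C a * X + C b) = (C a * X + C b).comp g

/-- `f` is conjugate to a power or to plus or minus a Chebyshev polynomial of the same degree. -/
def Special (f : k[X]) : Prop :=
  IsConj f (X ^ f.natDegree) ∨ IsConj f (Chebyshev.C k f.natDegree) ∨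
    IsConj f (-Chebyshev.C k f.natDegree)

/-- monic, centered, of degree at least two, not special. -/
structure Good (f : k[X]) : Prop where
  monic : f.Monic
  deg : 2 ≤ f.natDegree
  cent : f.coeff (f.natDegree - 1) = 0
  dis : ¬ Special f

theorem itr_zero (f : k[X]) : itr f 0 = X := rfl

theorem itr_succ (f : k[X]) (r : ℕ) : itr f (r + 1) = f.comp (itr f r) := by
  rw [itr, Function.iterate_succ_apply']; rfl

theorem itr_one (f : k[X]) : itr f 1 = f := by
  rw [itr_succ, itr_zero, comp_X]

theorem itr_add (f : k[X]) (r s : ℕ) : itr f (r + s) = (itr f r).comp (itr f s) := by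
  induction r with
  | zero => rw [Nat.zero_add, itr_zero, X_comp]
  | succ r ih => rw [Nat.succ_add, itr_succ, itr_succ, ih, comp_assoc]

theorem itr_succ' (f : k[X]) (r : ℕ) : itr f (r + 1) = (itr f r).comp f := by
  rw [itr_add, itr_one]

theorem natDegree_itr (f : k[X]) (r : ℕ) : (itr f r).natDegree = f.natDegree ^ r := by
  induction r with
  | zero => simp [itr_zero]
  | succ r ih => rw [itr_succ, natDegree_comp, ih, pow_succ, mul_comm]

theorem eval_itr (f : k[X]) (r : ℕ) (x : k) : (itr f r).eval x = (fun y => f.eval y)^[r] x := by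
  induction r with
  | zero => simp [itr_zero]
  | succ r ih => rw [itr_succ, eval_comp, ih, Function.iterate_succ_apply']

theorem itr_mul (f : k[X]) (r s : ℕ) : itr f (r * s) = itr (itr f r) s := by
  induction s with
  | zero => rw [Nat.mul_zero]; rfl
  | succ s ih => rw [Nat.mul_succ, Nat.add_comm, itr_add, ih, ← itr_succ]

theorem itr_comm (f : k[X]) (r s : ℕ) : (itr f r).comp (itr f s) = (itr f s).comp (itr f r) := by
  rw [← itr_add, ← itr_add, Nat.add_comm]

theorem itr_monic {f : k[X]} (hf : f.Monic) (hd : f.natDegree ≠ 0) (r : ℕ) : (itr f r).Monic := by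
  induction r with
  | zero => exact monic_X
  | succ r ih =>
    rw [itr_succ]
    exact hf.comp ih (by rw [natDegree_itr]; exact pow_ne_zero _ hd)

theorem itr_map {K : Type*} [Field K] (σ : k →+* K) (f : k[X]) (r : ℕ) :
    (itr f r).map σ = itr (f.map σ) r := by
  induction r with
  | zero => simp [itr_zero]
  | succ r ih => rw [itr_succ, itr_succ, Polynomial.map_comp, ih]

/-- `g` commutes with the `r`-th iterate of `f`. -/
theorem comp_itr_mul {f g : k[X]} {r : ℕ} (h : g.comp (itr f r) = (itr f r).comp g) (s : ℕ) :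
    g.comp (itr f (r * s)) = (itr f (r * s)).comp g := by
  induction s with
  | zero => simp [itr_zero]
  | succ s ih =>
    rw [Nat.mul_succ, itr_add, ← comp_assoc, ih, comp_assoc, h, comp_assoc]

/-- `F` acting coordinatewise: `G ↦ G ∘ (F, ..., F)`. -/
def cmp {σ : Type*} (F : k[X]) : MvPolynomial σ k →ₐ[k] MvPolynomial σ k :=
  MvPolynomial.aeval fun i => Polynomial.aeval (MvPolynomial.X i) F

theorem cmp_X {σ : Type*} (F : k[X]) (i : σ) :
    cmp F (MvPolynomial.X i : MvPolynomial σ k) = Polynomial.aeval (MvPolynomial.X i) F := by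
  simp [cmp]

theorem cmp_cmp {σ : Type*} (F G : k[X]) (H : MvPolynomial σ k) :
    cmp F (cmp G H) = cmp (G.comp F) H := by
  have h : (cmp (σ := σ) F).comp (cmp G) = cmp (G.comp F) := by
    apply MvPolynomial.algHom_ext
    intro i
    rw [AlgHom.comp_apply, cmp_X, cmp_X, aeval_comp, ← Polynomial.aeval_algHom_apply, cmp_X]
  rw [← h]; rfl

theorem cmp_itr_zero {σ : Type*} (f : k[X]) (H : MvPolynomial σ k) : cmp (itr f 0) H = H := by
  have h : cmp (σ := σ) (itr f 0) = AlgHom.id k _ := by
    apply MvPolynomial.algHom_ext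
    intro i
    rw [cmp_X, itr_zero, aeval_X, AlgHom.id_apply]
  rw [h]; rfl

theorem cmp_itr_add {σ : Type*} (f : k[X]) (r s : ℕ) (H : MvPolynomial σ k) :
    cmp (itr f (r + s)) H = cmp (itr f r) (cmp (itr f s) H) := by
  rw [cmp_cmp, Nat.add_comm, itr_add]

/-- divisibility is transported along iterates -/
theorem dvd_cmp_mul {σ : Type*} {f : k[X]} {G : MvPolynomial σ k} {r : ℕ}
    (h : G ∣ cmp (itr f r) G) (s : ℕ) : G ∣ cmp (itr f (r * s)) G := by
  induction s with
  | zero => rw [Nat.mul_zero, cmp_itr_zero]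
  | succ s ih =>
    rw [Nat.mul_succ, Nat.add_comm, cmp_itr_add]
    exact h.trans (map_dvd _ ih)

theorem eval_cmp {σ : Type*} (F : k[X]) (H : MvPolynomial σ k) (x : σ → k) :
    MvPolynomial.eval x (cmp F H) = MvPolynomial.eval (fun i => F.eval (x i)) H := by
  have h : ((MvPolynomial.aeval x : MvPolynomial σ k →ₐ[k] k).comp (cmp F)) =
      MvPolynomial.aeval (fun i => F.eval (x i)) := by
    apply MvPolynomial.algHom_ext
    intro i
    rw [AlgHom.comp_apply, cmp_X, ← Polynomial.aeval_algHom_apply, MvPolynomial.aeval_X,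
      MvPolynomial.aeval_X, Polynomial.coe_aeval_eq_eval]
  have h2 := DFunLike.congr_fun h H
  simpa [MvPolynomial.aeval_eq_eval] using h2

end Poly

/-! ### Part 2 : Laurent series in `1/θ` -/

section Series

variable (k : Type*) [Field k]

/-- Laurent series in `z = 1/θ`. -/
abbrev L := HahnSeries ℤ k

instance (priority := 5000) instAlgL : Algebra k (L k) := HahnSeries.instAlgebra

variable {k}

theorem algebraMap_L (r : k) : algebraMap k (L k) r = HahnSeries.C r := rfl

/-- `u(θ) ↦ u(cθ)`: the coefficient of `θ^(-j)` is multiplied by `c^(-j)`. -/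
def scal (c : kˣ) : L k →ₐ[k] L k where
  toFun u :=
    { coeff := fun j => ((c ^ (-j) : kˣ) : k) * u.coeff j
      isPWO_support' := by
        refine u.isPWO_support.mono fun j hj => ?_
        simp only [Function.mem_support, ne_eq, Units.mul_right_eq_zero] at hj ⊢
        exact hj }
  map_one' := by
    ext j
    by_cases h : j = 0
    · subst h; simp
    · simp [HahnSeries.coeff_one, h]
  map_mul' x y := by
    ext j
    simp only
    rw [HahnSeries.coeff_mul, HahnSeries.coeff_mul]
    have hs : ∀ u : L k, (HahnSeries.support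
        ({ coeff := fun j => ((c ^ (-j) : kˣ) : k) * u.coeff j
           isPWO_support' := by
            refine u.isPWO_support.mono fun j hj => ?_
            simp only [Function.mem_support, ne_eq, Units.mul_right_eq_zero] at hj ⊢
            exact hj } : L k)) = u.support := by
      intro u
      ext j
      simp only [HahnSeries.mem_support, ne_eq, Units.mul_right_eq_zero]
    rw [Finset.mul_sum]
    refine Finset.sum_congr ?_ ?_
    · ext p
      simp only [Finset.mem_antidiagonal, hs]
    · intro p hp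
      have h1 := (Finset.mem_antidiagonal.1 hp).2.2
      have h2 : ((c ^ (-j) : kˣ) : k) = ((c ^ (-p.1) : kˣ) : k) * ((c ^ (-p.2) : kˣ) : k) := by
        rw [← Units.val_mul, ← zpow_add, ← h1]
        congr 2
        ring
      rw [h2]
      ring
  map_zero' := by ext j; simp
  map_add' x y := by ext j; simp [mul_add]
  commutes' r := by
    ext j
    by_cases h : j = 0
    · subst h; simp
    · simp [algebraMap_L, HahnSeries.C_apply, HahnSeries.coeff_single_of_ne h]

theorem scal_coeff (c : kˣ) (u : L k) (j : ℤ) :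
    (scal c u).coeff j = ((c ^ (-j) : kˣ) : k) * u.coeff j := rfl

/-- multiplication by `m > 0` on exponents: `u(θ) ↦ u(θ^m)`. -/
def dil (m : ℕ) (hm : 0 < m) : L k →ₐ[k] L k :=
  HahnSeries.embDomainAlgHom (AddMonoidHom.mulLeft (m : ℤ))
    (fun a b h => by
      have h2 : (m : ℤ) * a = m * b := h
      have h3 : (m : ℤ) ≠ 0 := by exact_mod_cast hm.ne'
      exact mul_left_cancel₀ h3 h2)
    (fun a b => by
      change (m : ℤ) * a ≤ m * b ↔ a ≤ b
      exact mul_le_mul_iff_right₀ (by exact_mod_cast hm))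

theorem dil_coeff_mul (m : ℕ) (hm : 0 < m) (u : L k) (j : ℤ) :
    (dil m hm u).coeff (m * j) = u.coeff j := by
  have h := HahnSeries.embDomain_coeff (f := (⟨⟨fun j : ℤ => (m : ℤ) * j, fun a b h => by
      have h3 : (m : ℤ) ≠ 0 := by exact_mod_cast hm.ne'
      exact mul_left_cancel₀ h3 h⟩, fun {a b} => by
        exact mul_le_mul_iff_right₀ (by exact_mod_cast hm)⟩ : ℤ ↪o ℤ)) (x := u) (a := j)
  exact h

theorem dil_coeff_of_not_dvd (m : ℕ) (hm : 0 < m) (u : L k) (j : ℤ) (hj : ¬ (m : ℤ) ∣ j) :
    (dil m hm u).coeff j = 0 := by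
  have h := HahnSeries.embDomain_of_notMem_range (f := (⟨⟨fun j : ℤ => (m : ℤ) * j, fun a b h => by
      have h3 : (m : ℤ) ≠ 0 := by exact_mod_cast hm.ne'
      exact mul_left_cancel₀ h3 h⟩, fun {a b} => by
        exact mul_le_mul_iff_right₀ (by exact_mod_cast hm)⟩ : ℤ ↪o ℤ)) (x := u) (b := j)
    (by rintro ⟨i, rfl⟩; exact hj ⟨i, rfl⟩)
  exact h

/-- `u(θ) ↦ u(c θ^m)` (`m > 0`; the identity for `m = 0`). -/
def th (c : kˣ) (m : ℕ) : L k →ₐ[k] L k :=
  if hm : 0 < m then (dil m hm).comp (scal c) else AlgHom.id k _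

theorem th_coeff_mul (c : kˣ) {m : ℕ} (hm : 0 < m) (u : L k) (j : ℤ) :
    (th c m u).coeff (m * j) = ((c ^ (-j) : kˣ) : k) * u.coeff j := by
  rw [th, dif_pos hm, AlgHom.comp_apply, dil_coeff_mul, scal_coeff]

theorem th_coeff_of_not_dvd (c : kˣ) {m : ℕ} (hm : 0 < m) (u : L k) (j : ℤ) (hj : ¬ (m : ℤ) ∣ j) :
    (th c m u).coeff j = 0 := by
  rw [th, dif_pos hm, AlgHom.comp_apply, dil_coeff_of_not_dvd m hm _ j hj]

theorem th_one_coeff (c : kˣ) (u : L k) (j : ℤ) :
    (th c 1 u).coeff j = ((c ^ (-j) : kˣ) : k) * u.coeff j := by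
  have h := th_coeff_mul c Nat.one_pos u j
  simpa using h

theorem th_one_one (u : L k) : th (1 : kˣ) 1 u = u := by
  ext j
  rw [th_one_coeff]
  simp

/-- composition rule: `u(c' θ^m')` at `c θ^m` is `u(c' c^m' θ^(m m'))`. -/
theorem th_th (c c' : kˣ) {m m' : ℕ} (hm : 0 < m) (hm' : 0 < m') (u : L k) :
    th c m (th c' m' u) = th (c' * c ^ m') (m * m') u := by
  ext j
  have hmm : 0 < m * m' := Nat.mul_pos hm hm'
  by_cases h : ((m * m' : ℕ) : ℤ) ∣ j
  · obtain ⟨i, rfl⟩ := h
    rw [th_coeff_mul _ hmm]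
    have e : ((m * m' : ℕ) : ℤ) * i = m * (m' * i) := by push_cast; ring
    rw [e, th_coeff_mul _ hm, th_coeff_mul _ hm', ← mul_assoc, ← Units.val_mul]
    congr 2
    rw [mul_zpow, ← zpow_natCast c m', ← zpow_mul]
    rw [mul_comm]
    congr 2
    ring
  · rw [th_coeff_of_not_dvd _ hmm _ _ h]
    by_cases h1 : (m : ℤ) ∣ j
    · obtain ⟨i, rfl⟩ := h1
      rw [th_coeff_mul _ hm]
      by_cases h2 : (m' : ℤ) ∣ i
      · obtain ⟨l, rfl⟩ := h2
        exact absurd ⟨l, by push_cast; ring⟩ h
      · rw [th_coeff_of_not_dvd _ hm' _ _ h2, mul_zero]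
    · rw [th_coeff_of_not_dvd _ hm _ _ h1]

theorem th_injective (c : kˣ) (m : ℕ) : Function.Injective (th c m : L k → L k) :=
  (th c m).toRingHom.injective

/-- keep the exponents divisible by `M` and divide them by `M`. -/
def U (M : ℕ) : L k →ₗ[k] L k where
  toFun u := if hM : 0 < M then
    { coeff := fun j => u.coeff (M * j)
      isPWO_support' := by
        have h := u.isPWO_support
        intro f
        obtain ⟨a, b, hab, hle⟩ := h (fun n => ⟨(M : ℤ) * (f n).1, (f n).2⟩)
        refine ⟨a, b, hab, ?_⟩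
        have hle' : (M : ℤ) * (f a).1 ≤ M * (f b).1 := hle
        exact le_of_mul_le_mul_left hle' (by exact_mod_cast hM) }
    else 0
  map_add' x y := by
    split
    · ext j; simp
    · simp
  map_smul' a x := by
    split
    · ext j; simp
    · simp

theorem U_coeff {M : ℕ} (hM : 0 < M) (u : L k) (j : ℤ) : (U M u).coeff j = u.coeff (M * j) := by
  simp [U, hM]

theorem U_th {M : ℕ} (hM : 0 < M) (u : L k) : U M (th 1 M u) = u := by
  ext j
  rw [U_coeff hM, th_coeff_mul _ hM]
  simp

/-- `U M (S u * v) = u * U M v` where `S = th 1 M`. -/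
theorem U_th_mul {M : ℕ} (hM : 0 < M) (u v : L k) : U M (th 1 M u * v) = u * U M v := by
  ext j
  rw [U_coeff hM, HahnSeries.coeff_mul, HahnSeries.coeff_mul]
  symm
  refine Finset.sum_nbij (fun p => ((M : ℤ) * p.1, (M : ℤ) * p.2)) ?_ ?_ ?_ ?_
  · intro p hp
    obtain ⟨h1, h2, h3⟩ := Finset.mem_antidiagonal.1 hp
    refine Finset.mem_antidiagonal.2 ⟨?_, ?_, ?_⟩
    · rw [HahnSeries.mem_support, th_coeff_mul _ hM]
      simpa using h1
    · rw [HahnSeries.mem_support] at h2 ⊢
      rwa [U_coeff hM] at h2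
    · rw [← mul_add, h3]
  · intro p _ q _ hpq
    have h3 : (M : ℤ) ≠ 0 := by exact_mod_cast hM.ne'
    have h1 := congrArg Prod.fst hpq
    have h2 := congrArg Prod.snd hpq
    exact Prod.ext (mul_left_cancel₀ h3 h1) (mul_left_cancel₀ h3 h2)
  · intro p hp
    obtain ⟨h1, h2, h3⟩ := Finset.mem_antidiagonal.1 (Finset.mem_coe.1 hp)
    by_cases h : (M : ℤ) ∣ p.1
    · obtain ⟨i, hi⟩ := h
      have hp2 : p.2 = M * (j - i) := by
        have : p.2 = M * j - p.1 := by rw [← h3]; ring
        rw [this, hi]; ring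
      refine ⟨(i, j - i), ?_, ?_⟩
      · refine Finset.mem_coe.2 (Finset.mem_antidiagonal.2 ⟨?_, ?_, ?_⟩)
        · rw [HahnSeries.mem_support, hi, th_coeff_mul _ hM] at h1
          rw [HahnSeries.mem_support]
          intro h0
          apply h1
          simp only at h0
          rw [h0, mul_zero]
        · rw [HahnSeries.mem_support, U_coeff hM]
          simp only
          rw [← hp2]
          exact h2
        · simp
      · exact Prod.ext hi.symm hp2.symm
    · exact absurd (th_coeff_of_not_dvd _ hM _ _ h) h1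
  · intro p _
    rw [th_coeff_mul _ hM, U_coeff hM]
    simp

/-- the map `θ d/dθ`. -/
def delFun (u : L k) : L k where
  coeff := fun j => ((-j : ℤ) : k) * u.coeff j
  isPWO_support' := by
    refine u.isPWO_support.mono ?_
    intro j hj
    simp only [Function.mem_support, ne_eq, mul_eq_zero, not_or] at hj
    exact hj.2

theorem delFun_coeff (u : L k) (j : ℤ) : (delFun u).coeff j = ((-j : ℤ) : k) * u.coeff j := rfl

theorem support_delFun (u : L k) : (delFun u).support ⊆ u.support := by
  intro j hj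
  rw [HahnSeries.mem_support, delFun_coeff] at hj
  rw [HahnSeries.mem_support]
  exact (mul_ne_zero_iff.1 hj).2

theorem delFun_mul (x y : L k) : delFun (x * y) = x * delFun y + y * delFun x := by
  ext j
  rw [HahnSeries.coeff_add, HahnSeries.coeff_mul_right' y.isPWO_support (support_delFun y),
    mul_comm y, HahnSeries.coeff_mul_left' x.isPWO_support (support_delFun x), delFun_coeff,
    HahnSeries.coeff_mul, Finset.mul_sum, ← Finset.sum_add_distrib]
  refine Finset.sum_congr rfl fun p hp => ?_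
  have h1 := (Finset.mem_antidiagonal.1 hp).2.2
  rw [← h1, delFun_coeff, delFun_coeff]
  push_cast
  ring

/-- the derivation `θ d/dθ`. -/
def del : Derivation k (L k) (L k) where
  toFun := delFun
  map_add' x y := by ext j; simp [delFun_coeff, mul_add]
  map_smul' a x := by ext j; simp [delFun_coeff]; ring
  map_one_eq_zero' := by
    ext j
    change ((-j : ℤ) : k) * (1 : L k).coeff j = 0
    by_cases h : j = 0
    · subst h; simp
    · simp [HahnSeries.coeff_one, h]
  leibniz' x y := delFun_mul x y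

theorem del_coeff (u : L k) (j : ℤ) : (del u).coeff j = ((-j : ℤ) : k) * u.coeff j := rfl

theorem del_th (c : kˣ) {m : ℕ} (hm : 0 < m) (u : L k) :
    del (th c m u) = (m : k) • th c m (del u) := by
  ext j
  rw [del_coeff, HahnSeries.coeff_smul]
  by_cases h : (m : ℤ) ∣ j
  · obtain ⟨i, rfl⟩ := h
    rw [th_coeff_mul _ hm, th_coeff_mul _ hm, del_coeff, smul_eq_mul]
    push_cast
    ring
  · rw [th_coeff_of_not_dvd _ hm _ _ h, th_coeff_of_not_dvd _ hm _ _ h]
    simp

/-- a pole of order exactly one in `θ`. -/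
def SimplePole (T : L k) : Prop := T.coeff (-1) ≠ 0 ∧ ∀ j < -1, T.coeff j = 0

/-- `F(T(θ)) = T(θ^M)`, `M = deg F ≥ 2`, `T` with a simple pole. -/
structure Frob (F : k[X]) (T : L k) : Prop where
  deg : 2 ≤ F.natDegree
  pole : SimplePole T
  eq : aeval T F = th 1 F.natDegree T

/-- `T` is the normalized Boettcher series of `f`. -/
structure Bott (f : k[X]) (T : L k) : Prop extends Frob f T where
  lead : T.coeff (-1) = 1
  cent : T.coeff 0 = 0

/-- `v` is algebraic over `k(u)`. -/
def Dep (u v : L k) : Prop := IsAlgebraic (IntermediateField.adjoin k {u}) v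

/-- `T` is not of the form `λ θ + t_0`. -/
def NP (T : L k) : Prop := ∃ j : ℤ, 0 < j ∧ T.coeff j ≠ 0

/-- growth at most `a / b` over `k[T]`: `z w^a` is integral over `k[w^b, T w^b]` in `(L k)[w]`. -/
def Gr (T z : L k) (a b : ℕ) : Prop :=
  IsIntegral (Algebra.adjoin k {(X ^ b : (L k)[X]), C T * X ^ b}) (C z * X ^ a : (L k)[X])

end Series

/-! ### Part 2b : polynomials in two variables `x` (inner), `y` (outer) -/

section Biv

variable {k : Type*} [Field k]

/-- `G(F(x), F(y))` for `G = Σ_j A_j(x) y^j : k[X][X]`. -/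
def cmp2 (F : k[X]) (G : k[X][X]) : k[X][X] :=
  (G.map (compRingHom F)).comp (F.map C)

/-- `G(u, v)` in the field of Laurent series. -/
def ev2 (u v : L k) (G : k[X][X]) : L k :=
  G.eval₂ (Polynomial.aeval u : k[X] →ₐ[k] L k).toRingHom v

/-- The specialization `X_i ↦ x`, `X_j ↦ y`, `X_s ↦ a_s` for the other `s`. -/
def sl {σ : Type*} (i j : σ) (a : σ → k) : MvPolynomial σ k →ₐ[k] k[X][X] :=
  open Classical in
  MvPolynomial.aeval fun s => if s = i then C X else if s = j then X else C (C (a s))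

theorem cmp2_mul (F : k[X]) (G H : k[X][X]) : cmp2 F (G * H) = cmp2 F G * cmp2 F H := by
  simp [cmp2]

theorem cmp2_dvd (F : k[X]) {G H : k[X][X]} (h : G ∣ H) : cmp2 F G ∣ cmp2 F H := by
  obtain ⟨c, rfl⟩ := h
  exact ⟨cmp2 F c, cmp2_mul F G c⟩

theorem cmp2_CC (F g : k[X]) : cmp2 F (C g) = C (g.comp F) := by
  simp [cmp2]

theorem cmp2_mapC (F g : k[X]) : cmp2 F (g.map C) = (g.comp F).map C := by
  rw [cmp2, Polynomial.map_comp, Polynomial.map_map]
  congr 2
  ext a
  simp

theorem cmp2_X (F : k[X]) : cmp2 F X = F.map C := by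
  simp [cmp2]

end Biv

/-! ### Part 3 : points of `(P^1)^n`, hypersurfaces, curves -/

section Geometry

variable {k : Type*} [Field k] {n : ℕ}

/-- The value of the homogeneous monomial `x^j w^(e-j)` of degree `e` at the point `[z : 1]` or
`∞ = [1 : 0]` of the projective line. -/
def cval (e j : ℕ) (z : OnePoint k) : k :=
  z.elim (if j = e then 1 else 0) fun x => x ^ j

/-- The value at `P` of the multihomogenization of `F` of multidegree `e`. -/
def mval (e : Fin n → ℕ) (F : MvPolynomial (Fin n) k) (P : Fin n → OnePoint k) : k :=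
  ∑ m ∈ F.support, F.coeff m * ∏ i, cval (e i) (m i) (P i)

/-- A hypersurface of `(P^1)^n`: the zero set of a multihomogeneous polynomial `≠ 0` of
multidegree `≠ 0`. -/
def IsHypersurface (V : Set (Fin n → OnePoint k)) : Prop :=
  ∃ (e : Fin n → ℕ) (F : MvPolynomial (Fin n) k), e ≠ 0 ∧ F ≠ 0 ∧ (∀ i, F.degreeOf i ≤ e i) ∧
    V = {P | mval e F P = 0}

/-- A Zariski closed subset of `(P^1)^n`. -/
def IsZClosed (C : Set (Fin n → OnePoint k)) : Prop :=
  ∃ S : Set ((Fin n → ℕ) × MvPolynomial (Fin n) k), (∀ t ∈ S, ∀ i, t.2.degreeOf i ≤ t.1 i) ∧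
    C = {P | ∀ t ∈ S, mval t.1 t.2 P = 0}

/-- An irreducible curve of `(P^1)^n`: an infinite Zariski closed subset all of whose proper
Zariski closed subsets are finite. -/
def IsIrrCurve (C : Set (Fin n → OnePoint k)) : Prop :=
  IsZClosed C ∧ C.Infinite ∧ ∀ C', IsZClosed C' → C' ⊆ C → C' ≠ C → C'.Finite

/-- The curve maps onto each factor. -/
def NonVertical (C : Set (Fin n → OnePoint k)) : Prop :=
  ∀ i, ∀ z : OnePoint k, ∃ P ∈ C, P i = z

/-- The self-map of the projective line given by a nonconstant polynomial. -/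
def pmap (f : k[X]) : OnePoint k → OnePoint k := OnePoint.map fun x => f.eval x

/-- The coordinatewise self-map of `(P^1)^n`. -/
def phi (f : k[X]) (P : Fin n → OnePoint k) : Fin n → OnePoint k := fun i => pmap f (P i)

/-- A periodic hypersurface. -/
def IsPeriodicHyp (f : k[X]) (V : Set (Fin n → OnePoint k)) : Prop :=
  IsHypersurface V ∧ ∃ m, 1 ≤ m ∧ (phi f)^[m] '' V = V

/-- A preperiodic hypersurface. -/
def IsPreperiodicHyp (f : k[X]) (V : Set (Fin n → OnePoint k)) : Prop :=
  IsHypersurface V ∧ ∃ m, IsPeriodicHyp f ((phi f)^[m] '' V)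

end Geometry

/-- `f` is disintegrated: `deg f ≥ 2` and `f` is not conjugate over `k` to `X^d`, `C_d`, `-C_d`. -/
def Disintegrated {k : Type*} [Field k] (f : k[X]) : Prop := 2 ≤ f.natDegree ∧ ¬ Special f

/-- The degree over `K` of the field generated by the finite coordinates of `P`. -/
def ptDeg (K : Type*) [Field K] {n : ℕ} (P : Fin n → OnePoint (AlgebraicClosure K)) : ℕ :=
  Module.finrank K (IntermediateField.adjoin K {z : AlgebraicClosure K | ∃ i, P i = (z : OnePoint _)})

/-- The set whose finiteness is asked in Q1. -/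
def BddSet (K : Type*) [Field K] {n : ℕ} (f : K[X]) (Cv : Set (Fin n → OnePoint (AlgebraicClosure K)))
    (D : ℕ) : Set (Fin n → OnePoint (AlgebraicClosure K)) :=
  {P | P ∈ Cv ∧ (∃ V, IsPreperiodicHyp (f.map (algebraMap K (AlgebraicClosure K))) V ∧ P ∈ V) ∧
    ptDeg K P ≤ D}

end

end Pool.Agent.Lib_helper45.BDP
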