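import Pool.Agent.Lib_helper45.BDP.Defs

/-!
# Definitions for part B: arithmetic
-/

namespace Pool.Agent.Lib_helper45.BDP

open Polynomial

noncomputable section

/-- bounded at every place, by one at almost all `p` -/
def AllBdd {K : Type*} [Field K] (Y : Set K) : Prop :=
  (∃ S : Finset ℕ, ∀ (p : ℕ) [Fact p.Prime], p ∉ S → ∀ (σ : K →+* PadicAlgCl p), ∀ y ∈ Y, ‖σ y‖ ≤ 1) ∧
  (∀ (p : ℕ) [Fact p.Prime], ∃ B : ℝ, ∀ (σ : K →+* PadicAlgCl p), ∀ y ∈ Y, ‖σ y‖ ≤ B) ∧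
  ∃ B : ℝ, ∀ (σ : K →+* ℂ), ∀ y ∈ Y, ‖σ y‖ ≤ B

/-- growth constants -/
structure Grow {Ω : Type*} [NormedField Ω] (f : Polynomial Ω) (R κ : ℝ) : Prop where
  hR : 1 ≤ R
  hκ : 1 ≤ κ
  lo : ∀ x : Ω, R < ‖x‖ → ‖x‖ ^ f.natDegree ≤ κ * ‖f.eval x‖ ∧ ‖x‖ < ‖f.eval x‖
  up : ∀ x : Ω, ‖f.eval x‖ ≤ κ * max ‖x‖ R ^ f.natDegree

end

end Pool.Agent.Lib_helper45.BDP
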