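import Pool.Agent.Lib_helper45.BDP.W4

namespace Pool.Agent.Lib_helper45.BDP

open Polynomial

noncomputable section

theorem pmap_coe {k : Type*} [Field k] (f : k[X]) (x : k) :
    pmap f (x : OnePoint k) = ((f.eval x : k) : OnePoint k) := rfl

namespace MAIN

variable {K : Type*} [Field K] {n : ℕ}

instance isAlg [NumberField K] : Algebra.IsAlgebraic ℚ (AlgebraicClosure K) :=
  Algebra.IsAlgebraic.trans ℚ K (AlgebraicClosure K)

/-- The finite coordinates. -/
theorem adjoin_aff (x : Fin n → AlgebraicClosure K) :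
    ptDeg K (aff x) = Module.finrank K (IntermediateField.adjoin K (Set.range x)) := by
  have h : {z : AlgebraicClosure K | ∃ i, aff x i = (z : OnePoint _)} = Set.range x := by
    ext z
    constructor
    · rintro ⟨i, hi⟩
      exact ⟨i, OnePoint.coe_injective hi⟩
    · rintro ⟨i, rfl⟩
      exact ⟨i, rfl⟩
  rw [ptDeg, h]

/-- points with a coordinate in a finite set -/
theorem finite_coord [CharZero K] {C : Set (Fin n → OnePoint (AlgebraicClosure K))} (hC : IsIrrCurve C)
    (hN : NonVertical C) (i : Fin n) {Y : Set (AlgebraicClosure K)} (hY : Y.Finite) :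
    {P | P ∈ C ∧ ∃ y ∈ Y, P i = (y : OnePoint _)}.Finite := by
  have h : {P | P ∈ C ∧ ∃ y ∈ Y, P i = (y : OnePoint _)} =
      ⋃ y ∈ Y, {P | P ∈ C ∧ P i = (y : OnePoint _)} := by
    ext P
    simp only [Set.mem_setOf_eq, Set.mem_iUnion, exists_prop]
    constructor
    · rintro ⟨h1, y, hy, h2⟩
      exact ⟨y, hy, h1, h2⟩
    · rintro ⟨y, hy, h1, h2⟩
      exact ⟨h1, y, hy, h2⟩
  rw [h]
  exact hY.biUnion fun y _ => FIBX hC hN i _


theorem cmp2_eval {k : Type*} [Field k] (F : k[X]) (Q : k[X][X]) (x y : k) :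
    ((cmp2 F Q).map (evalRingHom y)).eval x =
      (Q.map (evalRingHom (F.eval y))).eval (F.eval x) := by
  rw [cmp2, Polynomial.map_comp, eval_comp, Polynomial.map_map, Polynomial.map_map]
  have h1 : (evalRingHom y).comp (compRingHom F) = evalRingHom (F.eval y) := by
    ext a <;> simp
  have h2 : (evalRingHom y).comp (C : k →+* k[X]) = RingHom.id k := by
    ext a; simp
  rw [h1, h2, Polynomial.map_id]

theorem cmp2_natDegree {k : Type*} [Field k] {L : k[X]} (hL : L.natDegree = 1) (Q : k[X][X]) :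
    (cmp2 L Q).natDegree = Q.natDegree := by
  rw [cmp2, natDegree_comp, natDegree_map_eq_of_injective (C_injective), hL, mul_one]
  apply natDegree_map_eq_of_injective
  intro p q h
  have h' : p.comp L = q.comp L := h
  have h2 : (p - q).comp L = 0 := by rw [sub_comp, h', sub_self]
  by_contra hne
  have h3 : (p - q) ≠ 0 := sub_ne_zero.2 hne
  rcases comp_eq_zero_iff.1 h2 with h4 | h4
  · exact h3 h4
  · have := h4.2
    rw [this, natDegree_C] at hL
    exact absurd hL (by norm_num)

/-- iterates of conjugate polynomials -/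
theorem itr_conj {k : Type*} [Field k] {f f' L : k[X]} (h : f.comp L = L.comp f') (r : ℕ) :
    (itr f r).comp L = L.comp (itr f' r) := by
  induction r with
  | zero => simp [itr_zero]
  | succ r ih =>
    rw [itr_succ, itr_succ', comp_assoc, ih, ← comp_assoc, h, comp_assoc, ← itr_succ, itr_succ']

end MAIN

open MAIN in
/-- the main theorem -/
theorem MAIN_proof (K : Type*) [Field K] [NumberField K] {n : ℕ} (f : K[X])
    (hf : Disintegrated (f.map (algebraMap K (AlgebraicClosure K))))
    (Cv : Set (Fin n → OnePoint (AlgebraicClosure K))) (hC : IsIrrCurve Cv) (hN : NonVertical Cv)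
    (hV : ∀ V, IsPreperiodicHyp (f.map (algebraMap K (AlgebraicClosure K))) V → ¬ Cv ⊆ V)
    (D : ℕ) : (BddSet K f Cv D).Finite := by
  classical
  set F : (AlgebraicClosure K)[X] := f.map (algebraMap K (AlgebraicClosure K)) with hFdef
  obtain ⟨a, b, f', ha, hf', hL⟩ := CONJ hf
  set Lp : (AlgebraicClosure K)[X] := C a * X + C b with hLp
  have hdF : 2 ≤ F.natDegree := hf.1
  have hLdeg : Lp.natDegree = 1 := natDegree_linear ha
  -- the inverse linear map
  set x' : AlgebraicClosure K → AlgebraicClosure K := fun x => (x - b) / a with hx'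
  have hLx' : ∀ x, Lp.eval (x' x) = x := by
    intro x
    simp only [hLp, hx', eval_add, eval_mul, eval_C, eval_X]
    field_simp
    ring
  -- relations
  have hrel : ∀ i j : Fin n, i ≠ j → ∃ (Q : (AlgebraicClosure K)[X][X]) (A : ℕ), 1 ≤ Q.natDegree ∧
      (∀ s, (Q.coeff s).natDegree ≤ A) ∧ ∀ x : Fin n → AlgebraicClosure K, aff x ∈ Cv →
        (Q.map (evalRingHom (x' (x j)))).eval (x' (x i)) = 0 := by
    intro i j hij
    obtain ⟨Q, hQ1, hQ2⟩ := RELX hC hN i j hij
    refine ⟨cmp2 Lp Q, ((cmp2 Lp Q).support.sup fun s => ((cmp2 Lp Q).coeff s).natDegree), ?_, ?_, ?_⟩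
    · rw [cmp2_natDegree hLdeg]; exact hQ1
    · intro s
      by_cases hs : s ∈ (cmp2 Lp Q).support
      · exact Finset.le_sup (f := fun s => ((cmp2 Lp Q).coeff s).natDegree) hs
      · rw [notMem_support_iff.1 hs]; simp
    · intro x hx
      rw [cmp2_eval, hLx', hLx']
      exact hQ2 x hx
  choose Q A hQ1 hQ2 hQ3 using hrel
  -- a uniform bound for A
  obtain ⟨A0, hA0⟩ : ∃ A0, ∀ i j (h : i ≠ j), A i j h ≤ A0 := by
    refine ⟨Finset.univ.sup fun p : Fin n × Fin n => if h : p.1 ≠ p.2 then A p.1 p.2 h else 0, ?_⟩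
    intro i j h
    have := Finset.le_sup (f := fun p : Fin n × Fin n => if h : p.1 ≠ p.2 then A p.1 p.2 h else 0)
      (Finset.mem_univ (i, j))
    simpa [h] using this
  -- finitely many g
  set GG : Set (AlgebraicClosure K)[X] := {g | 1 ≤ g.natDegree ∧ g.natDegree ≤ A0 ∧
      ∃ r, 1 ≤ r ∧ g.comp (itr f' r) = (itr f' r).comp g} with hGG
  have hGGf : GG.Finite := FING hf' A0
  -- coefficients
  set S : Finset (AlgebraicClosure K) :=
    {a, b} ∪ hGGf.toFinset.biUnion fun g => g.support.image g.coeff with hS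
  obtain ⟨m, hm⟩ := DEGX K D S
  -- preperiodic coordinates
  set Y1 : Set (AlgebraicClosure K) :=
    {y | y ∈ {x | ∃ N r, 1 ≤ r ∧ (itr f' (N + r)).eval x = (itr f' N).eval x} ∧
      (minpoly ℚ y).natDegree ≤ m} with hY1
  have hY1f : Y1.Finite := FINI (PREG hf'.monic hf'.deg) m
  -- large g
  set Y2 : Fin n → Fin n → Set (AlgebraicClosure K) := fun i j =>
    if h : i ≠ j then {y | y ∈ {y | ∃ (x : AlgebraicClosure K) (g : (AlgebraicClosure K)[X])
      (N r : ℕ), 1 ≤ r ∧ r ∣ N ∧ A i j h + 1 ≤ g.natDegree ∧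
      (∃ s, 1 ≤ s ∧ g.leadingCoeff ^ s = 1) ∧
      g.comp (itr f' r) = (itr f' r).comp g ∧ (itr f' N).eval x = g.eval ((itr f' N).eval y) ∧
      ((Q i j h).map (evalRingHom y)).eval x = 0} ∧ (minpoly ℚ y).natDegree ≤ m} else ∅ with hY2
  have hY2f : ∀ i j, (Y2 i j).Finite := by
    intro i j
    by_cases h : i ≠ j
    · simp only [hY2, dif_pos h]
      exact FINI (BIGG hf'.monic hf'.deg (hQ1 i j h) (hQ2 i j h)) m
    · simp only [hY2, dif_neg h]
      exact Set.finite_empty
  -- uniform cancellation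
  obtain ⟨J, hJ⟩ := UCGL hf'.monic hf'.deg m
  -- the linear map and its inverse
  set Li : (AlgebraicClosure K)[X] := C a⁻¹ * X + C (-(a⁻¹ * b)) with hLi
  have hLLi : Lp.comp Li = X := by
    have h1 : (C a : (AlgebraicClosure K)[X]) * C a⁻¹ = 1 := by rw [← C_mul, mul_inv_cancel₀ ha, C_1]
    simp only [hLp, hLi, add_comp, mul_comp, C_comp, X_comp]
    rw [mul_add, ← mul_assoc, h1, one_mul, ← C_mul, add_assoc, ← C_add]
    rw [show a * -(a⁻¹ * b) + b = 0 by field_simp; ring, C_0, add_zero]
  have hLiL : Li.comp Lp = X := by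
    have h1 : (C a⁻¹ : (AlgebraicClosure K)[X]) * C a = 1 := by rw [← C_mul, inv_mul_cancel₀ ha, C_1]
    simp only [hLp, hLi, add_comp, mul_comp, C_comp, X_comp]
    rw [mul_add, ← mul_assoc, h1, one_mul, ← C_mul, add_assoc, ← C_add]
    rw [show a⁻¹ * b + -(a⁻¹ * b) = 0 by ring, C_0, add_zero]
  have hLieval : ∀ x, Li.eval x = x' x := by
    intro x
    simp only [hLi, hx', eval_add, eval_mul, eval_C, eval_X]
    field_simp
    ring
  have hLiconj : ∀ r, Li.comp (itr F r) = (itr f' r).comp Li := by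
    intro r
    have h1 := itr_conj hL r
    calc Li.comp (itr F r) = (Li.comp (itr F r)).comp (Lp.comp Li) := by rw [hLLi, comp_X]
      _ = (Li.comp ((itr F r).comp Lp)).comp Li := by simp only [comp_assoc]
      _ = (Li.comp (Lp.comp (itr f' r))).comp Li := by rw [h1]
      _ = ((Li.comp Lp).comp (itr f' r)).comp Li := by simp only [comp_assoc]
      _ = (itr f' r).comp Li := by rw [hLiL, X_comp]
  -- the hypersurfaces
  have hVg : ∀ g : (AlgebraicClosure K)[X], g ∈ GG → ∃ r, 1 ≤ r ∧
      g.comp (itr f' r) = (itr f' r).comp g := fun g hg => hg.2.2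
  choose rg hrg1 hrg2 using hVg
  set Vs : Fin n → Fin n → (AlgebraicClosure K)[X] → Set (Fin n → OnePoint (AlgebraicClosure K)) :=
    fun i j g => if h : g ∈ GG then
      {P | pmap (itr F (rg g h * J)) (P i) =
        pmap ((itr F (rg g h * J)).comp ((Lp.comp g).comp Li)) (P j)} else ∅ with hVs
  have hVsf : ∀ i j, i ≠ j → ∀ g ∈ GG, (Cv ∩ Vs i j g).Finite := by
    intro i j hij g hg
    have hpre : IsPreperiodicHyp F (Vs i j g) := by
      simp only [hVs, dif_pos hg]
      refine VPRE (by omega) ?_ (hrg1 g hg) (Dvd.intro _ rfl) ?_ hij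
      · rw [natDegree_comp, natDegree_comp, hLdeg, one_mul,
          show Li.natDegree = 1 from natDegree_linear (inv_ne_zero ha), mul_one]
        exact hg.1
      · have h2 := hrg2 g hg
        calc ((Lp.comp g).comp Li).comp (itr F (rg g hg))
            = (Lp.comp g).comp (Li.comp (itr F (rg g hg))) := by rw [comp_assoc]
          _ = (Lp.comp g).comp ((itr f' (rg g hg)).comp Li) := by rw [hLiconj]
          _ = (Lp.comp (g.comp (itr f' (rg g hg)))).comp Li := by simp only [comp_assoc]
          _ = (Lp.comp ((itr f' (rg g hg)).comp g)).comp Li := by rw [h2]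
          _ = ((Lp.comp (itr f' (rg g hg))).comp g).comp Li := by simp only [comp_assoc]
          _ = (((itr F (rg g hg)).comp Lp).comp g).comp Li := by rw [itr_conj hL]
          _ = (itr F (rg g hg)).comp ((Lp.comp g).comp Li) := by simp only [comp_assoc]
    exact INTX hC hpre.1 (hV _ hpre)
  -- the finite set containing everything
  have hfin : ((⋃ i : Fin n, {P | P ∈ Cv ∧ P i = OnePoint.infty}) ∪
      (⋃ i : Fin n, {P | P ∈ Cv ∧ ∃ y ∈ (fun y => Lp.eval y) '' Y1, P i = (y : OnePoint _)}) ∪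
      (⋃ i : Fin n, ⋃ j : Fin n,
        {P | P ∈ Cv ∧ ∃ y ∈ (fun y => Lp.eval y) '' (Y2 i j), P j = (y : OnePoint _)}) ∪
      (⋃ i : Fin n, ⋃ j : Fin n, ⋃ (_ : i ≠ j), ⋃ g ∈ GG, Cv ∩ Vs i j g)).Finite := by
    refine Set.Finite.union (Set.Finite.union (Set.Finite.union ?_ ?_) ?_) ?_
    · exact Set.finite_iUnion fun i => FIBX hC hN i _
    · exact Set.finite_iUnion fun i => finite_coord hC hN i (hY1f.image _)
    · exact Set.finite_iUnion fun i => Set.finite_iUnion fun j =>
        finite_coord hC hN j ((hY2f i j).image _)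
    · exact Set.finite_iUnion fun i => Set.finite_iUnion fun j => Set.finite_iUnion fun hij =>
        hGGf.biUnion fun g hg => hVsf i j hij g hg
  refine hfin.subset ?_
  rintro P ⟨hPC, ⟨V, hVpre, hPV⟩, hdeg⟩
  by_cases hinf : ∃ i, P i = OnePoint.infty
  · obtain ⟨i, hi⟩ := hinf
    exact Or.inl (Or.inl (Or.inl (Set.mem_iUnion.2 ⟨i, hPC, hi⟩)))
  push Not at hinf
  have hex : ∀ i, ∃ x : AlgebraicClosure K, P i = (x : OnePoint _) := by
    intro i
    exact (OnePoint.ne_infty_iff_exists.1 (hinf i)).imp fun _ h => h.symm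
  choose x hx using hex
  have hPx : P = aff x := funext hx
  subst hPx
  rw [adjoin_aff] at hdeg
  have hmX := hm (Set.range x) (Set.finite_range x) hdeg
  have haS : a ∈ (Set.range x ∪ S : Set (AlgebraicClosure K)) := Or.inr (by simp [hS])
  have hbS : b ∈ (Set.range x ∪ S : Set (AlgebraicClosure K)) := Or.inr (by simp [hS])
  have hx'mem : ∀ i, x' (x i) ∈ IntermediateField.adjoin K (Set.range x ∪ S) := by
    intro i
    refine div_mem (sub_mem ?_ ?_) ?_
    · exact IntermediateField.subset_adjoin _ _ (Or.inl ⟨i, rfl⟩)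
    · exact IntermediateField.subset_adjoin _ _ hbS
    · exact IntermediateField.subset_adjoin _ _ haS
  obtain ⟨G, r, N, hG, hr, hrN, hdvd, heval⟩ := HYPX (f := F) (by omega) hVpre hPV
  obtain ⟨hG', hdvd'⟩ := TRSP (n := n) ha hL hG
  have hdvd' := hdvd' r hdvd
  have hevalN : ∀ H : MvPolynomial (Fin n) (AlgebraicClosure K), Associated (cmp Lp G) H →
      MvPolynomial.eval (fun i => (itr f' N).eval (x' (x i))) H = 0 := by
    intro H hH
    have h1 : MvPolynomial.eval (fun i => (itr f' N).eval (x' (x i))) (cmp Lp G) = 0 := by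
      rw [eval_cmp] at heval ⊢
      have e : (fun i => (itr F N).eval (x i)) =
          (fun i => Lp.eval ((itr f' N).eval (x' (x i)))) := by
        funext i
        rw [← eval_comp, ← itr_conj hL, eval_comp, hLx']
      rw [← e]
      exact heval
    obtain ⟨c, hc⟩ := hH.dvd
    obtain ⟨c', hc'⟩ := hH.symm.dvd
    have := congrArg (MvPolynomial.eval (fun i => (itr f' N).eval (x' (x i)))) hc
    rw [this, map_mul, h1, zero_mul]
  rcases CLN hf' hG' hr hdvd' with ⟨i, a0, hass⟩ | ⟨i, j, g, hij, hg1, hgc, hass⟩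
  · -- vertical
    have h1 := hevalN _ hass
    simp only [map_sub, MvPolynomial.eval_X, MvPolynomial.eval_C, sub_eq_zero] at h1
    have h2 : (itr f' r).eval a0 = a0 := by
      have h3 : (MvPolynomial.X i - MvPolynomial.C a0 : MvPolynomial (Fin n) (AlgebraicClosure K)) ∣
          cmp (itr f' r) (MvPolynomial.X i - MvPolynomial.C a0) := by
        refine (hass.symm.dvd.trans hdvd').trans ?_
        exact map_dvd _ hass.dvd
      obtain ⟨c, hc⟩ := h3
      have := congrArg (MvPolynomial.eval (fun _ => a0)) hc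
      rw [map_mul, eval_cmp] at this
      simpa [sub_eq_zero] using this
    refine Or.inl (Or.inl (Or.inr (Set.mem_iUnion.2 ⟨i, hPC, x i, ⟨x' (x i), ⟨⟨N, r, hr, ?_⟩, ?_⟩,
      hLx' _⟩, rfl⟩)))
    · rw [add_comm N r, itr_add, eval_comp, h1, h2]
    · exact (hmX _ (hx'mem i) _ (hx'mem i)).2
  · -- graph
    have h1 := hevalN _ hass
    have h2 : (itr f' N).eval (x' (x i)) = g.eval ((itr f' N).eval (x' (x j))) := by
      rw [map_sub, MvPolynomial.eval_X, sub_eq_zero] at h1
      rw [h1]
      have h3 : MvPolynomial.eval (fun i => (itr f' N).eval (x' (x i)))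
          (Polynomial.aeval (MvPolynomial.X j) g) = g.eval ((itr f' N).eval (x' (x j))) := by
        have h4 := Polynomial.aeval_algHom_apply (MvPolynomial.aeval (R := AlgebraicClosure K)
          (fun i => (itr f' N).eval (x' (x i)))) (MvPolynomial.X j) g
        rw [MvPolynomial.aeval_X, Polynomial.coe_aeval_eq_eval] at h4
        rw [h4, MvPolynomial.aeval_eq_eval]
      exact h3
    have hgN : g.comp (itr f' N) = (itr f' N).comp g := by
      obtain ⟨s, rfl⟩ := hrN
      exact comp_itr_mul hgc s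
    by_cases hbig : A i j hij + 1 ≤ g.natDegree
    · refine Or.inl (Or.inr (Set.mem_iUnion.2 ⟨i, Set.mem_iUnion.2 ⟨j, hPC, x j, ⟨x' (x j), ?_,
        hLx' _⟩, rfl⟩⟩))
      simp only [hY2, dif_pos hij]
      refine ⟨⟨x' (x i), g, N, r, hr, hrN, hbig, ⟨f'.natDegree ^ r - 1, ?_, LCU hf' hr hg1 hgc⟩, hgc, h2,
        hQ3 i j hij x hPC⟩, (hmX _ (hx'mem j) _ (hx'mem j)).2⟩
      have : 2 ≤ f'.natDegree ^ r := hf'.deg.trans (Nat.le_self_pow (by omega) _)
      omega
    · have hgG : g ∈ GG := ⟨hg1, by have := hA0 i j hij; omega, r, hr, hgc⟩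
      refine Or.inr (Set.mem_iUnion.2 ⟨i, Set.mem_iUnion.2 ⟨j, Set.mem_iUnion.2 ⟨hij,
        Set.mem_iUnion.2 ⟨g, Set.mem_iUnion.2 ⟨hgG, hPC, ?_⟩⟩⟩⟩⟩)
      have hgx : g.eval (x' (x j)) ∈ IntermediateField.adjoin K (Set.range x ∪ S) := by
        rw [eval_eq_sum_range]
        refine sum_mem fun s _ => mul_mem ?_ (pow_mem (hx'mem j) _)
        by_cases hs : g.coeff s = 0
        · rw [hs]; exact zero_mem _
        · refine IntermediateField.subset_adjoin _ _ (Or.inr ?_)
          simp only [hS, Finset.coe_union, Set.mem_union]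
          right
          simp only [Finset.mem_coe, Finset.mem_biUnion, Finset.mem_image]
          exact ⟨g, hGGf.mem_toFinset.2 hgG, s, mem_support_iff.2 hs, rfl⟩
      have h3 := hJ (x' (x i)) (g.eval (x' (x j))) (hmX _ (hx'mem i) _ hgx).1 N (by
        rw [h2, ← eval_comp, hgN, eval_comp])
      simp only [hVs, dif_pos hgG]
      change pmap _ ((x i : AlgebraicClosure K) : OnePoint (AlgebraicClosure K)) =
        pmap _ ((x j : AlgebraicClosure K) : OnePoint (AlgebraicClosure K))
      rw [pmap_coe, pmap_coe]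
      congr 1
      have h4 : ∀ t, (itr f' (rg g hgG * J)).eval t = (itr f' ((rg g hgG - 1) * J)).eval ((itr f' J).eval t) := by
        intro t
        rw [← eval_comp, ← itr_add]
        congr 2
        have := hrg1 g hgG
        obtain ⟨s, hs⟩ := Nat.exists_eq_add_of_le this
        rw [hs]
        simp
        ring
      have h5 : (itr f' (rg g hgG * J)).eval (x' (x i)) =
          (itr f' (rg g hgG * J)).eval (g.eval (x' (x j))) := by rw [h4, h4, h3]
      calc (itr F (rg g hgG * J)).eval (x i) = ((itr F (rg g hgG * J)).comp Lp).eval (x' (x i)) := by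
            rw [eval_comp, hLx']
        _ = Lp.eval ((itr f' (rg g hgG * J)).eval (x' (x i))) := by rw [itr_conj hL, eval_comp]
        _ = Lp.eval ((itr f' (rg g hgG * J)).eval (g.eval (x' (x j)))) := by rw [h5]
        _ = ((itr F (rg g hgG * J)).comp ((Lp.comp g).comp Li)).eval (x j) := by
            rw [eval_comp, eval_comp, eval_comp, hLieval, ← eval_comp, ← itr_conj hL, eval_comp]

end

end Pool.Agent.Lib_helper45.BDP
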