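import Pool.Agent.Lib_helper45.BDP.W0
import Pool.Agent.Lib_helper45.BDP.B_RELX
import Pool.Agent.Lib_helper45.BDP.B_MERG
import Pool.Agent.Lib_helper45.BDP.B_BIGG
import Pool.Agent.Lib_helper45.BDP.B_CORN
import Pool.Agent.Lib_helper45.BDP.B_FING
import Pool.Agent.Lib_helper45.BDP.B_FR12
import Pool.Agent.Lib_helper45.BDP.B_GR1
import Pool.Agent.Lib_helper45.BDP.B_GRAT
import Pool.Agent.Lib_helper45.BDP.B_LAM1
import Pool.Agent.Lib_helper45.BDP.B_PREG
import Pool.Agent.Lib_helper45.BDP.B_VPRE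

/-! Short names for the main theorems of the blocks. -/

namespace Pool.Agent.Lib_helper45.BDP

alias RELX := RELX.RELX
alias MERG := MERG.MERG
alias BIGG := BIGG.BIGG
alias CORN := CORN.CORN
alias FING := FING.FING
alias FR1 := FR1.FR1
alias FR2 := FR2.FR2
alias GR1 := GR1.GR1
alias GRAT := GRAT.GRAT
alias LAM1 := LAM1.LAM1
alias PREG := PREG.PREG
alias VPRE := VPRE.VPRE

end Pool.Agent.Lib_helper45.BDP
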