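import Pool.Agent.Lib_helper45.BDP.W2
import Pool.Agent.Lib_helper45.BDP.B_ROT

/-! Short names for the main theorems of the blocks. -/

namespace Pool.Agent.Lib_helper45.BDP

alias ROT := ROT.ROT

end Pool.Agent.Lib_helper45.BDP
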