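import Pool.Agent.Lib_helper45.BDP.AsmA
import Pool.Agent.Lib_helper45.BDP.AsmU

/-! Short names. -/

namespace Pool.Agent.Lib_helper45.BDP

alias CLN := AsmA.CLN
alias UCGL := AsmU.UCGL

end Pool.Agent.Lib_helper45.BDP
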